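import Pool.Agent.Lib_MP_008adc_co.NTern0

/-!
# Piece NBIL: the bilinear bound
-/

set_option autoImplicit false

namespace HadNT

/-- Few elements of an interval in a residue class: if all elements of `U` lie in `[1, B]` then
for every `u₀` at most `B / d + 1` elements of `U` are congruent to `u₀` modulo `d` (`d > 0`). -/
theorem card_class (U : Finset ℕ) (B d : ℕ) (hd : 0 < d) (hU : ∀ u ∈ U, 1 ≤ u ∧ u ≤ B) (u₀ : ℕ) :
    (U.filter (fun u => u ≡ u₀ [MOD d])).card ≤ B / d + 1 := by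
  have _ := hd
  have h : (U.filter (fun u => u ≡ u₀ [MOD d])).card ≤ (Finset.range (B / d + 1)).card := by
    refine Finset.card_le_card_of_injOn (fun u => u / d) ?_ ?_
    · intro u hu
      have hu' := (Finset.mem_filter.1 (Finset.mem_coe.1 hu)).1
      exact Finset.mem_coe.2 (Finset.mem_range.2 (Nat.lt_succ_of_le (Nat.div_le_div_right (hU u hu').2)))
    · intro u hu v hv huv
      have hu' := (Finset.mem_filter.1 (Finset.mem_coe.1 hu)).2
      have hv' := (Finset.mem_filter.1 (Finset.mem_coe.1 hv)).2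
      have h1 : u % d = v % d := hu'.trans hv'.symm
      have h2 : u / d = v / d := huv
      rw [← Nat.div_add_mod u d, ← Nat.div_add_mod v d, h1, h2]
  rwa [Finset.card_range] at h

/-- the sum over the cyclic group generated by `h` -/
theorem bil_geom (M : ℕ) [NeZero M] (h : ZMod M) (v w : ℕ) :
    ∑ j ∈ Finset.range (addOrderOf h),
      ((ZMod.stdAddChar (j • h * (v : ZMod M)) : ℂ) * (starRingEnd ℂ) (ZMod.stdAddChar (j • h * (w : ZMod M)) : ℂ)) =
      if w ≡ v [MOD addOrderOf h] then (addOrderOf h : ℂ) else 0 := by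
  set ψ : AddChar (ZMod M) ℂ := ZMod.stdAddChar with hψ
  have h1 : ∀ j : ℕ, ψ (j • h * (v : ZMod M)) * (starRingEnd ℂ) (ψ (j • h * (w : ZMod M))) = ψ (h * v - h * w) ^ j := by
    intro j
    rw [← AddChar.map_neg_eq_conj, ← AddChar.map_add_eq_mul, ← AddChar.map_nsmul_eq_pow]
    congr 1
    rw [smul_sub, smul_mul_assoc, smul_mul_assoc, sub_eq_add_neg]
  rw [Finset.sum_congr rfl fun j _ => h1 j]
  by_cases hvw : w ≡ v [MOD addOrderOf h]
  · rw [if_pos hvw]
    have h2 : w • h = v • h := nsmul_eq_nsmul_iff_modEq.2 hvw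
    have h3 : h * v - h * w = 0 := by
      rw [nsmul_eq_mul, nsmul_eq_mul] at h2
      rw [mul_comm h, mul_comm h, h2, sub_self]
    rw [h3, AddChar.map_zero_eq_one]
    simp
  · rw [if_neg hvw]
    have h2 : ψ (h * v - h * w) ≠ 1 := by
      intro h3
      apply hvw
      rw [← nsmul_eq_nsmul_iff_modEq, nsmul_eq_mul, nsmul_eq_mul]
      have h4 : h * v - h * w = 0 := by
        apply ZMod.injective_stdAddChar
        rw [AddChar.map_zero_eq_one]
        exact h3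
      rw [mul_comm _ h, mul_comm _ h]
      exact (sub_eq_zero.1 h4).symm
    rw [geom_sum_eq h2]
    have h5 : ψ (h * v - h * w) ^ addOrderOf h = 1 := by
      rw [← AddChar.map_nsmul_eq_pow, smul_sub, ← smul_mul_assoc, ← smul_mul_assoc,
        addOrderOf_nsmul_eq_zero, zero_mul, zero_mul, sub_zero, AddChar.map_zero_eq_one]
    rw [h5, sub_self, zero_div]

/-- the second moment over the cyclic group -/
theorem bil_moment (M : ℕ) [NeZero M] (h : ZMod M) (V : Finset ℕ) (B : ℕ)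
    (hV : ∀ v ∈ V, 1 ≤ v ∧ v ≤ B) :
    ∑ j ∈ Finset.range (addOrderOf h), ‖∑ v ∈ V, (ZMod.stdAddChar (j • h * (v : ZMod M)) : ℂ)‖ ^ 2 ≤
      (V.card : ℝ) * ((B / addOrderOf h + 1 : ℕ) : ℝ) * addOrderOf h := by
  have hd : 0 < addOrderOf h := addOrderOf_pos h
  have h1 : ((∑ j ∈ Finset.range (addOrderOf h),
      ‖∑ v ∈ V, (ZMod.stdAddChar (j • h * (v : ZMod M)) : ℂ)‖ ^ 2 : ℝ) : ℂ) =
      ((∑ v ∈ V, ((V.filter (fun w => w ≡ v [MOD addOrderOf h])).card : ℝ) * addOrderOf h : ℝ) : ℂ) := by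
    push_cast
    have h2 : ∀ j ∈ Finset.range (addOrderOf h),
        ((‖∑ v ∈ V, (ZMod.stdAddChar (j • h * (v : ZMod M)) : ℂ)‖ : ℂ)) ^ 2 =
        ∑ v ∈ V, ∑ w ∈ V, ((ZMod.stdAddChar (j • h * (v : ZMod M)) : ℂ) *
          (starRingEnd ℂ) (ZMod.stdAddChar (j • h * (w : ZMod M)) : ℂ)) := by
      intro j _
      rw [← Complex.mul_conj', map_sum, Finset.sum_mul_sum]
    rw [Finset.sum_congr rfl h2, Finset.sum_comm]
    refine Finset.sum_congr rfl fun v _ => ?_
    rw [Finset.sum_comm, Finset.sum_congr rfl fun w _ => bil_geom M h v w, ← Finset.sum_filter,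
      Finset.sum_const, nsmul_eq_mul]
  rw [Complex.ofReal_inj.1 h1]
  calc ∑ v ∈ V, ((V.filter (fun w => w ≡ v [MOD addOrderOf h])).card : ℝ) * addOrderOf h
      ≤ ∑ v ∈ V, ((B / addOrderOf h + 1 : ℕ) : ℝ) * addOrderOf h := by
        refine Finset.sum_le_sum fun v _ => ?_
        refine mul_le_mul_of_nonneg_right ?_ (Nat.cast_nonneg _)
        exact_mod_cast card_class V B (addOrderOf h) hd hV v
    _ = (V.card : ℝ) * ((B / addOrderOf h + 1 : ℕ) : ℝ) * addOrderOf h := by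
        rw [Finset.sum_const, nsmul_eq_mul, mul_assoc]

/-- BILINEAR BOUND. Let `d` be the additive order of `h` in `ZMod M`. Then
`|∑_{u ∈ U} ∑_{v ∈ V} ψ (h u v)| ^ 2 ≤ |U| |V| d (B / d + 1) ^ 2`.

PROOF. Put `G y = |∑_{v ∈ V} ψ (y v)| ^ 2` for `y ∈ ZMod M`. By Cauchy-Schwarz the left side is at
most `|U| ∑_{u ∈ U} G (h u)`. All `h u` lie in the cyclic subgroup `⟨h⟩ = {j h : j < d}` and, by
`card_class`, every element of it is attained by at most `B / d + 1` elements `u ∈ U` (`h u = h u'`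
iff `d` divides `u - u'`). So the left side is at most `|U| (B / d + 1) ∑_{j < d} G (j h)`. Finally
`∑_{j < d} G (j h) = ∑_{v, v' ∈ V} ∑_{j < d} ψ (h (v - v')) ^ j`; the number `ψ (h (v - v'))` is a
`d`-th root of unity, so the inner sum is `0` unless `ψ (h (v - v')) = 1`, that is `h (v - v') = 0`
(`ZMod.injective_stdAddChar`), that is `v ≡ v' mod d`, when it is `d`. By `card_class` there are at
most `|V| (B / d + 1)` such pairs. -/
theorem bil (M : ℕ) [NeZero M] (h : ZMod M) (U V : Finset ℕ) (B : ℕ)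
    (hU : ∀ u ∈ U, 1 ≤ u ∧ u ≤ B) (hV : ∀ v ∈ V, 1 ≤ v ∧ v ≤ B) :
    ‖Sg M (U ×ˢ V) (fun x => ((x.1 * x.2 : ℕ) : ZMod M)) h‖ ^ 2 ≤
      (U.card : ℝ) * V.card * addOrderOf h * ((B / addOrderOf h + 1 : ℕ) : ℝ) ^ 2 := by
  have hd : 0 < addOrderOf h := addOrderOf_pos h
  let F : ℕ → ℝ := fun j => ‖∑ v ∈ V, (ZMod.stdAddChar (j • h * (v : ZMod M)) : ℂ)‖ ^ 2
  have hF0 : ∀ j, 0 ≤ F j := fun j => sq_nonneg _
  have h1 : Sg M (U ×ˢ V) (fun x => ((x.1 * x.2 : ℕ) : ZMod M)) h =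
      ∑ u ∈ U, ∑ v ∈ V, (ZMod.stdAddChar ((u % addOrderOf h) • h * (v : ZMod M)) : ℂ) := by
    unfold Sg
    rw [Finset.sum_product]
    refine Finset.sum_congr rfl fun u _ => Finset.sum_congr rfl fun v _ => ?_
    congr 1
    rw [mod_addOrderOf_nsmul, nsmul_eq_mul]
    push_cast
    ring
  rw [h1]
  have h2 : ‖∑ u ∈ U, ∑ v ∈ V, (ZMod.stdAddChar ((u % addOrderOf h) • h * (v : ZMod M)) : ℂ)‖ ^ 2 ≤
      (U.card : ℝ) * ∑ u ∈ U, F (u % addOrderOf h) := by
    calc ‖∑ u ∈ U, ∑ v ∈ V, (ZMod.stdAddChar ((u % addOrderOf h) • h * (v : ZMod M)) : ℂ)‖ ^ 2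
        ≤ (∑ u ∈ U, ‖∑ v ∈ V, (ZMod.stdAddChar ((u % addOrderOf h) • h * (v : ZMod M)) : ℂ)‖) ^ 2 :=
          pow_le_pow_left₀ (norm_nonneg _) (norm_sum_le _ _) 2
      _ ≤ (U.card : ℝ) * ∑ u ∈ U, F (u % addOrderOf h) := sq_sum_le_card_mul_sum_sq
  have h3 : ∑ u ∈ U, F (u % addOrderOf h) ≤
      ((B / addOrderOf h + 1 : ℕ) : ℝ) * ∑ j ∈ Finset.range (addOrderOf h), F j := by
    rw [← Finset.sum_fiberwise_of_maps_to (s := U) (t := Finset.range (addOrderOf h))
      (g := fun u => u % addOrderOf h)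
      (fun u _ => Finset.mem_range.2 (Nat.mod_lt u hd)), Finset.mul_sum]
    refine Finset.sum_le_sum fun j hj => ?_
    have h4 : ∑ u ∈ U with u % addOrderOf h = j, F (u % addOrderOf h) =
        ((U.filter (fun u => u % addOrderOf h = j)).card : ℝ) * F j := by
      rw [Finset.sum_congr rfl (g := fun _ => F j) (by
        intro u hu
        rw [(Finset.mem_filter.1 hu).2]), Finset.sum_const, nsmul_eq_mul]
    rw [h4]
    refine mul_le_mul_of_nonneg_right ?_ (hF0 j)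
    have h5 : U.filter (fun u => u % addOrderOf h = j) = U.filter (fun u => u ≡ j [MOD addOrderOf h]) := by
      refine Finset.filter_congr fun u _ => ?_
      unfold Nat.ModEq
      rw [Nat.mod_eq_of_lt (Finset.mem_range.1 hj)]
    rw [h5]
    exact_mod_cast card_class U B (addOrderOf h) hd hU j
  have h6 := bil_moment M h V B hV
  have hB0 : (0 : ℝ) ≤ ((B / addOrderOf h + 1 : ℕ) : ℝ) := Nat.cast_nonneg _
  calc ‖∑ u ∈ U, ∑ v ∈ V, (ZMod.stdAddChar ((u % addOrderOf h) • h * (v : ZMod M)) : ℂ)‖ ^ 2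
      ≤ (U.card : ℝ) * ∑ u ∈ U, F (u % addOrderOf h) := h2
    _ ≤ (U.card : ℝ) * (((B / addOrderOf h + 1 : ℕ) : ℝ) *
        ∑ j ∈ Finset.range (addOrderOf h), F j) :=
        mul_le_mul_of_nonneg_left h3 (Nat.cast_nonneg _)
    _ ≤ (U.card : ℝ) * (((B / addOrderOf h + 1 : ℕ) : ℝ) *
        ((V.card : ℝ) * ((B / addOrderOf h + 1 : ℕ) : ℝ) * addOrderOf h)) :=
        mul_le_mul_of_nonneg_left (mul_le_mul_of_nonneg_left h6 hB0) (Nat.cast_nonneg _)
    _ = (U.card : ℝ) * V.card * addOrderOf h * ((B / addOrderOf h + 1 : ℕ) : ℝ) ^ 2 := by ring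

end HadNT
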