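import Pool.Agent.Lib_MP_008adc_co.EvA

/-!
# Piece HADC: the cyclic coefficient identity
-/

set_option autoImplicit false

namespace HadCalc

open Matrix

private theorem sum_range_zmod {M : Type*} [AddCommMonoid M] (L : ℕ) [NeZero L] (f : ℕ → M) :
    ∑ j ∈ Finset.range L, f j = ∑ a : ZMod L, f a.val := by
  obtain ⟨L', rfl⟩ : ∃ n, L = n + 1 := Nat.exists_eq_succ_of_ne_zero (NeZero.ne L)
  rw [Finset.sum_range]
  rfl

/-- The coefficient identity behind a structure, cyclically: for `d` modulo `L`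
`∑_{j - k ≡ d} Q_j Q_kᵀ = F L` if `d = 0` and `0` otherwise.
PROOF. Let `C d` be the left side (a complex matrix). For every `L`-th root of unity `z` one has
`Q(z) Q(z)ᴴ = ∑_{j, k} z ^ (j - k) Q_j Q_kᵀ = ∑_d z ^ d C d = F L`. Taking `z = ζ ^ m` with
`ζ = exp (2 π i / L)`, multiplying by `ζ ^ (-m e)` and summing over `m` modulo `L` gives
`L C e = F L ∑_m ζ ^ (-m e)`, which is `L (F L)` if `e = 0` and `0` otherwise. (Or take the entries
and use the orthogonality relations of `ZMod.stdAddChar`, `AddChar.sum_mulShift`.) -/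
theorem Good.cyclic {ι κ : Type} [Fintype ι] [DecidableEq ι] {cls : ι → κ} {F L : ℕ} [NeZero L]
    {Q : ℕ → Matrix ι ι ℤ} (h : Good cls F L Q) (s t : ZMod L) :
    ∑ r : ZMod L, Q (r - s).val * (Q (r - t).val)ᵀ =
      if s = t then ((F * L : ℕ) : ℤ) • (1 : Matrix ι ι ℤ) else 0 := by
  classical
  -- the character
  have hL0 : (L : ℂ) ≠ 0 := Nat.cast_ne_zero.2 (NeZero.ne L)
  have hnorm : ∀ x : ZMod L, ‖(ZMod.stdAddChar x : ℂ)‖ = 1 := by
    intro x
    rw [ZMod.stdAddChar_apply]
    exact Circle.norm_coe _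
  have hstar : ∀ x : ZMod L, star (ZMod.stdAddChar x : ℂ) = ZMod.stdAddChar (-x) := by
    intro x
    rw [ZMod.stdAddChar_apply, ZMod.stdAddChar_apply, AddChar.map_neg_eq_inv,
      Circle.coe_inv_eq_conj]
    rfl
  have hpow : ∀ m a : ZMod L, (ZMod.stdAddChar m : ℂ) ^ a.val = ZMod.stdAddChar (a * m) := by
    intro m a
    rw [← AddChar.map_nsmul_eq_pow]
    congr 1
    rw [nsmul_eq_mul, ZMod.natCast_zmod_val]
  have horth : ∀ x : ZMod L, ∑ m : ZMod L, (ZMod.stdAddChar (m * x) : ℂ) =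
      if x = 0 then (L : ℂ) else 0 := by
    intro x
    rw [AddChar.sum_mulShift x (ZMod.isPrimitive_stdAddChar L)]
    split_ifs
    · rw [ZMod.card]
    · rw [Nat.cast_zero]
  -- the identity for the values
  have hval : ∀ m : ZMod L, ∑ a : ZMod L, ∑ b : ZMod L,
      (ZMod.stdAddChar (m * (a - b)) : ℂ) • (toC (Q a.val) * toC (Q b.val)ᵀ) =
        ((F * L : ℕ) : ℂ) • (1 : Matrix ι ι ℂ) := by
    intro m
    rw [← h.norm _ (hnorm m), ev_conjTranspose]
    unfold ev
    rw [sum_range_zmod, sum_range_zmod, Finset.sum_mul_sum]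
    refine Finset.sum_congr rfl fun a _ => Finset.sum_congr rfl fun b _ => ?_
    rw [Matrix.smul_mul, Matrix.mul_smul, smul_smul, hstar, hpow, hpow,
      ← AddChar.map_add_eq_mul]
    congr 2
    ring
  -- summation over `m`
  have hmain : (L : ℂ) • ∑ r : ZMod L, toC (Q (r - s).val) * toC (Q (r - t).val)ᵀ =
      (if s = t then (L : ℂ) else 0) • (((F * L : ℕ) : ℂ) • (1 : Matrix ι ι ℂ)) := by
    have h1 : ∑ m : ZMod L, (ZMod.stdAddChar (m * (s - t)) : ℂ) • (∑ a : ZMod L, ∑ b : ZMod L,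
        (ZMod.stdAddChar (m * (a - b)) : ℂ) • (toC (Q a.val) * toC (Q b.val)ᵀ)) =
        (if s = t then (L : ℂ) else 0) • (((F * L : ℕ) : ℂ) • (1 : Matrix ι ι ℂ)) := by
      rw [Finset.sum_congr rfl (fun m _ => by rw [hval m]), ← Finset.sum_smul, horth]
      simp only [sub_eq_zero]
    rw [← h1]
    have h2 : ∀ a b : ZMod L, ∑ m : ZMod L, (ZMod.stdAddChar (m * (s - t)) : ℂ) •
        ((ZMod.stdAddChar (m * (a - b)) : ℂ) • (toC (Q a.val) * toC (Q b.val)ᵀ)) =
        (if s - t + (a - b) = 0 then (L : ℂ) else 0) • (toC (Q a.val) * toC (Q b.val)ᵀ) := by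
      intro a b
      rw [← horth, Finset.sum_smul]
      refine Finset.sum_congr rfl fun m _ => ?_
      rw [smul_smul, ← AddChar.map_add_eq_mul, mul_add]
    have h3 : ∑ m : ZMod L, (ZMod.stdAddChar (m * (s - t)) : ℂ) • (∑ a : ZMod L, ∑ b : ZMod L,
        (ZMod.stdAddChar (m * (a - b)) : ℂ) • (toC (Q a.val) * toC (Q b.val)ᵀ)) =
        ∑ a : ZMod L, ∑ b : ZMod L, (if s - t + (a - b) = 0 then (L : ℂ) else 0) •
          (toC (Q a.val) * toC (Q b.val)ᵀ) := by
      simp only [Finset.smul_sum]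
      rw [Finset.sum_comm]
      refine Finset.sum_congr rfl fun a _ => ?_
      rw [Finset.sum_comm]
      exact Finset.sum_congr rfl fun b _ => h2 a b
    rw [h3, ← Equiv.sum_comp (Equiv.subRight s) (fun a : ZMod L => ∑ b : ZMod L,
      (if s - t + (a - b) = 0 then (L : ℂ) else 0) • (toC (Q a.val) * toC (Q b.val)ᵀ))]
    rw [Finset.smul_sum]
    refine Finset.sum_congr rfl fun r _ => ?_
    rw [Finset.sum_eq_single (r - t)]
    · rw [if_pos]
      · rfl
      · change s - t + (r - s - (r - t)) = 0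
        ring
    · intro b _ hb
      rw [if_neg, zero_smul]
      intro h0
      apply hb
      change s - t + (r - s - b) = 0 at h0
      have h5 : r - t - b = 0 := by
        rw [← h0]
        ring
      exact (sub_eq_zero.1 h5).symm
    · intro h0
      exact absurd (Finset.mem_univ _) h0
  have hinj : Function.Injective (toC : Matrix ι ι ℤ → Matrix ι ι ℂ) := by
    intro A B hAB
    ext i j
    have h1 := congrFun (congrFun hAB i) j
    exact Int.cast_injective h1
  have hsum : ∀ f : ZMod L → Matrix ι ι ℤ, toC (∑ r, f r) = ∑ r, toC (f r) := by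
    intro f
    ext i j
    unfold toC
    rw [Matrix.map_apply, Matrix.sum_apply, Matrix.sum_apply, Int.cast_sum]
    rfl
  apply hinj
  rw [hsum]
  have h6 : ∀ r : ZMod L, toC (Q (r - s).val * (Q (r - t).val)ᵀ) =
      toC (Q (r - s).val) * toC (Q (r - t).val)ᵀ := fun r => toC_mul _ _
  rw [Finset.sum_congr rfl (fun r _ => h6 r)]
  have h7 : toC (if s = t then ((F * L : ℕ) : ℤ) • (1 : Matrix ι ι ℤ) else 0) =
      if s = t then ((F * L : ℕ) : ℂ) • (1 : Matrix ι ι ℂ) else 0 := by
    split_ifs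
    · ext i j
      unfold toC
      rw [Matrix.map_apply, Matrix.smul_apply, Matrix.smul_apply]
      by_cases hij : i = j
      · subst hij
        rw [Matrix.one_apply_eq, Matrix.one_apply_eq]
        simp
      · rw [Matrix.one_apply_ne hij, Matrix.one_apply_ne hij]
        simp
    · ext i j
      unfold toC
      simp
  rw [h7]
  have h8 : (L : ℂ) • ∑ r : ZMod L, toC (Q (r - s).val) * toC (Q (r - t).val)ᵀ =
      (L : ℂ) • (if s = t then ((F * L : ℕ) : ℂ) • (1 : Matrix ι ι ℂ) else 0) := by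
    rw [hmain]
    split_ifs
    · rfl
    · rw [zero_smul, smul_zero]
  exact smul_right_injective _ hL0 h8

end HadCalc
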