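import Pool.Agent.Lib_MP_008adc_co.HadK
import Pool.Agent.Lib_MP_008adc_co.HadC

/-!
# Piece HADA: structures give Hadamard matrices
-/

set_option autoImplicit false

namespace HadCalc

open Matrix
open scoped Kronecker

/-- the matrix `1 ⊗ S` -/
private def hadaW (f c : ℕ) (S : Matrix (Fin (2 ^ c)) (Fin (2 ^ c)) ℤ) :
    Matrix (Ix f c) (Ix f c) ℤ := (1 : Matrix (ZMod (2 ^ f)) (ZMod (2 ^ f)) ℤ) ⊗ₖ S

private theorem hadaW_mul {f c : ℕ} {S : Matrix (Fin (2 ^ c)) (Fin (2 ^ c)) ℤ} (hS : IsHad S) :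
    hadaW f c S * (hadaW f c S)ᵀ = ((2 ^ c : ℕ) : ℤ) • (1 : Matrix (Ix f c) (Ix f c) ℤ) := by
  unfold hadaW
  rw [← Matrix.kroneckerMap_transpose, ← Matrix.mul_kronecker_mul, hS.2, Matrix.transpose_one,
    Matrix.one_mul, Matrix.kronecker_smul, Matrix.one_kronecker_one, Fintype.card_fin]

private theorem hadaW_entry {f c : ℕ} {S : Matrix (Fin (2 ^ c)) (Fin (2 ^ c)) ℤ} (hS : IsHad S)
    {A : Matrix (Ix f c) (Ix f c) ℤ} (hA : Full (Prod.fst : Ix f c → ZMod (2 ^ f)) A)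
    (i k : Ix f c) : (A * hadaW f c S) i k = 1 ∨ (A * hadaW f c S) i k = -1 := by
  obtain ⟨j, ⟨hj1, hj2⟩, hj3⟩ := hA.row i k.1
  have h1 : (A * hadaW f c S) i k = A i j * S j.2 k.2 := by
    rw [Matrix.mul_apply, Finset.sum_eq_single j]
    · unfold hadaW
      rw [Matrix.kroneckerMap_apply, hj1, Matrix.one_apply_eq, one_mul]
    · intro l _ hl
      by_cases h2 : l.1 = k.1
      · have h3 : A i l = 0 := by
          by_contra h4
          exact hl (hj3 l ⟨h2, h4⟩)
        rw [h3, zero_mul]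
      · unfold hadaW
        rw [Matrix.kroneckerMap_apply, Matrix.one_apply_ne h2, zero_mul, mul_zero]
    · intro h
      exact absurd (Finset.mem_univ j) h
  rw [h1]
  rcases hA.tri i j with h | h | h
  · exact absurd h hj2
  · rcases hS.1 j.2 k.2 with h' | h' <;> rw [h, h'] <;> norm_num
  · rcases hS.1 j.2 k.2 with h' | h' <;> rw [h, h'] <;> norm_num

/-- PROOF. On `ZMod L × Ix f c` put `H ((s, i), (r, k)) = (Q_{(r - s).val} (1 ⊗ S)) i k`, where
`S` is a Hadamard matrix of order `2 ^ c` (`HadOrder.one.two_pow_mul c`) and `1 ⊗ S` is the matrix on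
`ZMod (2 ^ f) × Fin (2 ^ c)`. The entry at `i, (κ, b)` is `∑_{b'} Q_j i (κ, b') S b' b`, and exactly
one term is nonzero because `Q_j` is `Full`: so it is `1` or `-1`. The block `(s, t)` of `H Hᵀ` is
`∑_r Q_{r-s} (1 ⊗ S)(1 ⊗ S)ᵀ Q_{r-t}ᵀ = 2 ^ c ∑_r Q_{r-s} Q_{r-t}ᵀ`, and `Good.cyclic` finishes:
`2 ^ c * 2 ^ f * L` is the order. -/
theorem Av.hadOrder {f c L : ℕ} (h : Av f c L) (hL : 0 < L) : HadOrder (2 ^ (f + c) * L) := by
  obtain ⟨Q, hQ⟩ := h
  have _ : NeZero L := ⟨hL.ne'⟩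
  have h1 : HadOrder (2 ^ c) := by
    have := HadOrder.one.two_pow_mul c
    rwa [mul_one] at this
  obtain ⟨S, hS⟩ := h1
  let H : Matrix (ZMod L × Ix f c) (ZMod L × Ix f c) ℤ :=
    fun p q => (Q (q.1 - p.1).val * hadaW f c S) p.2 q.2
  have hcard : Fintype.card (ZMod L × Ix f c) = 2 ^ (f + c) * L := by
    rw [Fintype.card_prod, Fintype.card_prod, ZMod.card, ZMod.card, Fintype.card_fin, pow_add]
    ring
  refine HadOrder.of_isHad (α := ZMod L × Ix f c) hcard (H := H) ⟨?_, ?_⟩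
  · intro p q
    exact hadaW_entry hS (hQ.full _ (ZMod.val_lt _)) p.2 q.2
  · rw [hcard]
    ext ⟨s, i⟩ ⟨t, j⟩
    have h2 : (H * Hᵀ) (s, i) (t, j) = (((2 ^ c : ℕ) : ℤ) • ∑ r : ZMod L,
        Q (r - s).val * (Q (r - t).val)ᵀ) i j := by
      rw [Matrix.mul_apply, Fintype.sum_prod_type, Finset.smul_sum, Matrix.sum_apply]
      refine Finset.sum_congr rfl fun r _ => ?_
      have h3 : ((2 ^ c : ℕ) : ℤ) • (Q (r - s).val * (Q (r - t).val)ᵀ) =
          (Q (r - s).val * hadaW f c S) * (Q (r - t).val * hadaW f c S)ᵀ := by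
        rw [Matrix.transpose_mul, Matrix.mul_assoc, ← Matrix.mul_assoc (hadaW f c S),
          hadaW_mul hS, Matrix.smul_mul, Matrix.one_mul, Matrix.mul_smul]
      rw [h3, Matrix.mul_apply]
      rfl
    rw [h2, hQ.cyclic s t]
    by_cases hst : s = t
    · subst hst
      rw [if_pos rfl, smul_smul, Matrix.smul_apply, Matrix.smul_apply]
      have h4 : (1 : Matrix (ZMod L × Ix f c) (ZMod L × Ix f c) ℤ) (s, i) (s, j) =
          (1 : Matrix (Ix f c) (Ix f c) ℤ) i j := by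
        by_cases hij : i = j
        · subst hij
          rw [Matrix.one_apply_eq, Matrix.one_apply_eq]
        · rw [Matrix.one_apply_ne hij, Matrix.one_apply_ne]
          intro h5
          exact hij (congrArg Prod.snd h5)
      rw [h4, smul_eq_mul, smul_eq_mul]
      push_cast
      ring
    · rw [if_neg hst, smul_zero, Matrix.smul_apply, Matrix.one_apply_ne, smul_zero]
      · rfl
      · intro h5
        exact hst (congrArg Prod.fst h5)

end HadCalc
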