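import Pool.Agent.Lib_MP_008adc_co.NPi

/-!
# Piece NCOND: the numerical hypothesis of `tern` for `A = 2 ^ b`
-/

set_option autoImplicit false

namespace HadNT

/-- `C(n, k) ≥ (n / k) ^ k`: by induction on `k` (`n ≥ k`), from
`(k + 1) C(n + 1, k + 1) = (n + 1) C(n, k)` and `(n + 1) / (k + 1) ≤ n / k`:
`(n + 1) ^ (k + 1) = (n + 1) ^ k (n + 1)` and `(n + 1) k ≤ (k + 1) n`. -/
theorem pow_le_pow_mul_choose (n k : ℕ) (h : k ≤ n) : n ^ k ≤ k ^ k * n.choose k := by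
  induction k generalizing n with
  | zero => simp
  | succ k ih =>
    obtain ⟨m, rfl⟩ : ∃ m, n = m + 1 := ⟨n - 1, by omega⟩
    have hkm : k ≤ m := by omega
    -- `(m + 1) ^ k k ^ k ≤ (k + 1) ^ k m ^ k`
    have e1 : (m + 1) ^ k * k ^ k ≤ (k + 1) ^ k * m ^ k := by
      rw [← mul_pow, ← mul_pow]
      apply Nat.pow_le_pow_left
      nlinarith
    rcases Nat.eq_zero_or_pos k with hk | hk
    · subst hk
      simp
    · have hkk : 0 < k ^ k := pow_pos hk k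
      apply Nat.le_of_mul_le_mul_left (c := k ^ k) _ hkk
      have e2 : (m + 1) * m.choose k = (m + 1).choose (k + 1) * (k + 1) :=
        Nat.add_one_mul_choose_eq m k
      calc k ^ k * (m + 1) ^ (k + 1) = ((m + 1) ^ k * k ^ k) * (m + 1) := by ring
        _ ≤ ((k + 1) ^ k * m ^ k) * (m + 1) := Nat.mul_le_mul_right _ e1
        _ ≤ ((k + 1) ^ k * (k ^ k * m.choose k)) * (m + 1) :=
            Nat.mul_le_mul_right _ (Nat.mul_le_mul_left _ (ih m hkm))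
        _ = k ^ k * (k + 1) ^ k * ((m + 1) * m.choose k) := by ring
        _ = k ^ k * (k + 1) ^ k * ((m + 1).choose (k + 1) * (k + 1)) := by rw [e2]
        _ = k ^ k * ((k + 1) ^ (k + 1) * (m + 1).choose (k + 1)) := by ring

/-- PROOF. Let `π = π(2 ^ b)`. `2 b k ≤ 2 ^ ℓ ≤ 2 ^ b ≤ 2 b π` (as `ℓ ≤ 6 k ℓ ≤ b`), so `k ≤ π`. Then
`(2 ^ b) ^ k ≤ (2 b) ^ k π ^ k ≤ (2 b k) ^ k C(π, k) ≤ 2 ^ (k ℓ) C(π, k)`, so
`2 * 16 ^ (k + 1) * ((2 ^ b) ^ k) ^ 6 ≤ 2 ^ (1 + 4 (k + 1) + 6 k ℓ) C(π, k) ^ 6 ≤ 2 ^ b C(π, k) ^ 6`. -/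
theorem tern_cond (b k l : ℕ) (hb : 1 ≤ b) (hk : 1 ≤ k) (h1 : 2 * b * k ≤ 2 ^ l)
    (h2 : 4 * k + 5 + 6 * k * l ≤ b) :
    2 * 16 ^ (k + 1) * ((2 ^ b) ^ k) ^ 6 ≤
      2 ^ b * ((Nat.primeCounting (2 ^ b)).choose k) ^ 6 := by
  set π := Nat.primeCounting (2 ^ b) with hπ
  have hP : 2 ^ b ≤ 2 * b * π := pi_two_pow b hb
  have hlb : l ≤ b := by nlinarith
  have hkπ : k ≤ π := by
    have e1 : 2 * b * k ≤ 2 * b * π :=
      h1.trans ((Nat.pow_le_pow_right (by norm_num) hlb).trans hP)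
    exact Nat.le_of_mul_le_mul_left e1 (by omega)
  have e2 : (2 ^ b) ^ k ≤ 2 ^ (k * l) * π.choose k := by
    calc (2 ^ b) ^ k ≤ (2 * b * π) ^ k := Nat.pow_le_pow_left hP k
      _ = (2 * b) ^ k * π ^ k := mul_pow _ _ _
      _ ≤ (2 * b) ^ k * (k ^ k * π.choose k) :=
          Nat.mul_le_mul_left _ (pow_le_pow_mul_choose π k hkπ)
      _ = (2 * b * k) ^ k * π.choose k := by rw [mul_pow (2 * b) k k]; ring
      _ ≤ (2 ^ l) ^ k * π.choose k := Nat.mul_le_mul_right _ (Nat.pow_le_pow_left h1 k)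
      _ = 2 ^ (k * l) * π.choose k := by rw [← pow_mul, mul_comm l k]
  calc 2 * 16 ^ (k + 1) * ((2 ^ b) ^ k) ^ 6
      ≤ 2 * 16 ^ (k + 1) * (2 ^ (k * l) * π.choose k) ^ 6 :=
        Nat.mul_le_mul_left _ (Nat.pow_le_pow_left e2 6)
    _ = 2 ^ (4 * k + 5 + 6 * k * l) * (π.choose k) ^ 6 := by
        have e3 : (16 : ℕ) = 2 ^ 4 := by norm_num
        rw [e3, mul_pow, ← pow_mul, ← pow_mul]
        have e4 : 4 * k + 5 + 6 * k * l = 1 + 4 * (k + 1) + k * l * 6 := by ring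
        rw [e4, pow_add, pow_add, pow_one]
        ring
    _ ≤ 2 ^ b * (π.choose k) ^ 6 :=
        Nat.mul_le_mul_right _ (Nat.pow_le_pow_right (by norm_num) h2)

end HadNT
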