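import Pool.Agent.Lib_MP_008adc_co.DetS

/-!
# Piece DETL: the normalised determinant from a Hadamard order below n
-/

set_option autoImplicit false

namespace HadCalc

/-- If `m ≤ n`, `0 < m` and there is a Hadamard matrix of order `m` then
`rDet n ≥ exp (-(n - m) * (1 + log n))`. PROOF. `maxDet n ≥ maxDet m ≥ m ^ (m / 2)`, so with
`d = n - m`, `log (rDet n) ≥ (m / 2) log m - (n / 2) log n
= -(m / 2) (log n - log m) - (d / 2) log n ≥ -(m / 2) (d / m) - (d / 2) log n` because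
`log n - log m = log (1 + d / m) ≤ d / m`; this is at least `-d (1 + log n)`. -/
theorem rDet_lower {m n : ℕ} (hm : 0 < m) (hmn : m ≤ n) (h : HadOrder m) :
    Real.exp (-((n : ℝ) - m) * (1 + Real.log n)) ≤ rDet n := by
  have hmR : (0 : ℝ) < m := by exact_mod_cast hm
  have hmnR : (m : ℝ) ≤ n := by exact_mod_cast hmn
  have hnR : (0 : ℝ) < n := hmR.trans_le hmnR
  have hn1 : (1 : ℝ) ≤ n := by
    have : 1 ≤ n := hm.trans_le hmn
    exact_mod_cast this
  have hlogn : 0 ≤ Real.log n := Real.log_nonneg hn1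
  have h1 : (m : ℝ) ^ ((m : ℝ) / 2) ≤ maxDet n := (maxDet_of_hadOrder hm h).trans (maxDet_mono hmn)
  have h2 : Real.log n - Real.log m ≤ ((n : ℝ) - m) / m := by
    rw [← Real.log_div hnR.ne' hmR.ne']
    have := Real.log_le_sub_one_of_pos (div_pos hnR hmR)
    have h3 : (n : ℝ) / m - 1 = ((n : ℝ) - m) / m := by field_simp
    linarith
  have h3 : (m : ℝ) / 2 * (Real.log n - Real.log m) ≤ ((n : ℝ) - m) / 2 := by
    have := mul_le_mul_of_nonneg_left h2 (by positivity : (0 : ℝ) ≤ (m : ℝ) / 2)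
    have h4 : (m : ℝ) / 2 * (((n : ℝ) - m) / m) = ((n : ℝ) - m) / 2 := by field_simp
    linarith
  have h5 : (-((n : ℝ) - m) * (1 + Real.log n)) + ((n : ℝ) / 2) * Real.log n ≤
      ((m : ℝ) / 2) * Real.log m := by
    have h6 : 0 ≤ ((n : ℝ) - m) * Real.log n := mul_nonneg (by linarith) hlogn
    have h7 : 0 ≤ (n : ℝ) - m := by linarith
    nlinarith
  unfold rDet
  rw [le_div_iff₀ (Real.rpow_pos_of_pos hnR _), Real.rpow_def_of_pos hnR, ← Real.exp_add]
  refine le_trans ?_ h1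
  rw [Real.rpow_def_of_pos hmR]
  apply Real.exp_le_exp.2
  linarith

end HadCalc
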