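import Mathlib

/-!
# Piece NSET: products of `k` distinct primes below `A`
-/

set_option autoImplicit false

namespace HadNT

/-- The products of `k` distinct primes `≤ A`. -/
def PU (A k : ℕ) : Finset ℕ :=
  (Finset.powersetCard k ((Finset.range (A + 1)).filter Nat.Prime)).image (fun s => ∏ p ∈ s, p)

private theorem PU_mem {A k u : ℕ} (hu : u ∈ PU A k) :
    ∃ s : Finset ℕ, (∀ p ∈ s, p.Prime ∧ p ≤ A) ∧ s.card = k ∧ u = ∏ p ∈ s, p := by
  unfold PU at hu
  obtain ⟨s, hs, rfl⟩ := Finset.mem_image.1 hu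
  obtain ⟨h1, h2⟩ := Finset.mem_powersetCard.1 hs
  refine ⟨s, fun p hp => ?_, h2, rfl⟩
  have h3 := Finset.mem_filter.1 (h1 hp)
  exact ⟨h3.2, Nat.lt_succ_iff.1 (Finset.mem_range.1 h3.1)⟩

/-- The product determines the set of primes (`Nat.primeFactors_prod`), so the image has
`(π(A)).choose k` elements. -/
theorem PU_card (A k : ℕ) : (PU A k).card = (Nat.primeCounting A).choose k := by
  unfold PU
  rw [Finset.card_image_of_injOn, Finset.card_powersetCard, Nat.primeCounting, Nat.primeCounting',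
    Nat.count_eq_card_filter_range]
  intro s hs s' hs' h
  have hp : ∀ t ∈ (Finset.powersetCard k ((Finset.range (A + 1)).filter Nat.Prime) :
      Set (Finset ℕ)), ∀ p ∈ t, p.Prime := by
    intro t ht p hpt
    have h1 := (Finset.mem_powersetCard.1 (Finset.mem_coe.1 ht)).1 hpt
    exact (Finset.mem_filter.1 h1).2
  have h' : ∏ p ∈ s, p = ∏ p ∈ s', p := h
  rw [← Nat.primeFactors_prod (hp s hs), h', Nat.primeFactors_prod (hp s' hs')]

theorem PU_bound {A k u : ℕ} (hu : u ∈ PU A k) : 1 ≤ u ∧ u ≤ A ^ k := by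
  obtain ⟨s, hs, hk, rfl⟩ := PU_mem hu
  refine ⟨Finset.prod_pos fun p hp => (hs p hp).1.pos, ?_⟩
  rw [← hk]
  exact Finset.prod_le_pow_card s (fun p => p) A fun p hp => (hs p hp).2

/-- The elements are products of `k` numbers in `[1, A]` (enumerate the set of primes). -/
theorem PU_prod {A k u : ℕ} (hu : u ∈ PU A k) :
    ∃ x : Fin k → ℕ, (∀ j, 1 ≤ x j ∧ x j ≤ A) ∧ u = ∏ j, x j := by
  obtain ⟨s, hs, hk, rfl⟩ := PU_mem hu
  refine ⟨fun j => ((s.equivFinOfCardEq hk).symm j : ℕ), fun j => ?_, ?_⟩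
  · have h := hs _ ((s.equivFinOfCardEq hk).symm j).2
    exact ⟨h.1.pos, h.2⟩
  · rw [← Finset.prod_coe_sort s (fun p => p)]
    exact (Equiv.prod_comp (s.equivFinOfCardEq hk).symm (fun p : s => (p : ℕ))).symm

end HadNT
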