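import Pool.Agent.Lib_MP_008adc_co.Eight
import Pool.Agent.Lib_MP_008adc_co.NBil
import Pool.Agent.Lib_MP_008adc_co.NSet
import Pool.Agent.Lib_MP_008adc_co.NCond

/-!
# Blocks: families of products of primes with a good exponential sum for all orders `2 ^ i`
-/

set_option autoImplicit false

namespace HadNT

/-- The products of `k` distinct odd primes `≤ A`. -/
def PUo (A k : ℕ) : Finset ℕ :=
  (Finset.powersetCard k (((Finset.range (A + 1)).filter Nat.Prime).erase 2)).image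
    (fun s => ∏ p ∈ s, p)

theorem PUo_mem {A k u : ℕ} (hu : u ∈ PUo A k) : u ∈ PU A k ∧ u % 2 = 1 := by
  unfold PUo at hu
  obtain ⟨s, hs, rfl⟩ := Finset.mem_image.1 hu
  obtain ⟨h1, h2⟩ := Finset.mem_powersetCard.1 hs
  constructor
  · unfold PU
    refine Finset.mem_image.2 ⟨s, Finset.mem_powersetCard.2 ⟨h1.trans (Finset.erase_subset _ _), h2⟩,
      rfl⟩
  · rw [← Nat.odd_iff]
    apply Finset.prod_induction _ Odd (fun a b ha hb => ha.mul hb) odd_one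
    intro p hp
    have h3 := Finset.mem_erase.1 (h1 hp)
    exact (Finset.mem_filter.1 h3.2).2.odd_of_ne_two h3.1

theorem PUo_card (A k : ℕ) (hA : 2 ≤ A) : (PUo A k).card = (Nat.primeCounting A - 1).choose k := by
  unfold PUo
  have h2 : 2 ∈ (Finset.range (A + 1)).filter Nat.Prime :=
    Finset.mem_filter.2 ⟨Finset.mem_range.2 (by omega), Nat.prime_two⟩
  rw [Finset.card_image_of_injOn, Finset.card_powersetCard, Finset.card_erase_of_mem h2,
    Nat.primeCounting, Nat.primeCounting', Nat.count_eq_card_filter_range]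
  intro s hs s' hs' h
  have hp : ∀ t ∈ (Finset.powersetCard k (((Finset.range (A + 1)).filter Nat.Prime).erase 2) :
      Set (Finset ℕ)), ∀ p ∈ t, p.Prime := by
    intro t ht p hpt
    have h1 := (Finset.mem_powersetCard.1 (Finset.mem_coe.1 ht)).1 hpt
    exact (Finset.mem_filter.1 (Finset.mem_erase.1 h1).2).2
  have h' : ∏ p ∈ s, p = ∏ p ∈ s', p := h
  rw [← Nat.primeFactors_prod (hp s hs), h', Nat.primeFactors_prod (hp s' hs')]

/-- The density of `PUo (2 ^ b) k`. -/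
theorem PUo_dense (b k l : ℕ) (hb : 2 ≤ b) (hk : 1 ≤ k) (h1 : 4 * b * k ≤ 2 ^ l) (h2 : l ≤ b) :
    (2 ^ b) ^ k ≤ 2 ^ (k * l) * (PUo (2 ^ b) k).card := by
  have hA : 2 ≤ 2 ^ b := by
    calc 2 = 2 ^ 1 := rfl
      _ ≤ 2 ^ b := Nat.pow_le_pow_right (by norm_num) (by omega)
  rw [PUo_card _ _ hA]
  have hP : 2 ^ b ≤ 2 * b * Nat.primeCounting (2 ^ b) := pi_two_pow b (by omega)
  have h8 : 2 ≤ Nat.primeCounting (2 ^ b) := by
    have h9 : Nat.primeCounting 4 ≤ Nat.primeCounting (2 ^ b) := by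
      refine Nat.monotone_primeCounting ?_
      calc 4 = 2 ^ 2 := rfl
        _ ≤ 2 ^ b := Nat.pow_le_pow_right (by norm_num) hb
    have h10 : Nat.primeCounting 4 = 2 := by decide
    omega
  obtain ⟨m, hm⟩ : ∃ m, Nat.primeCounting (2 ^ b) = m + 1 := ⟨Nat.primeCounting (2 ^ b) - 1, by omega⟩
  rw [hm] at hP h8 ⊢
  rw [Nat.add_sub_cancel]
  have hP2 : 2 ^ b ≤ 4 * b * m := by nlinarith
  have hkm : k ≤ m := by
    have e1 : 4 * b * k ≤ 4 * b * m :=
      h1.trans ((Nat.pow_le_pow_right (by norm_num) h2).trans hP2)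
    exact Nat.le_of_mul_le_mul_left e1 (by omega)
  calc (2 ^ b) ^ k ≤ (4 * b * m) ^ k := Nat.pow_le_pow_left hP2 k
    _ = (4 * b) ^ k * m ^ k := mul_pow _ _ _
    _ ≤ (4 * b) ^ k * (k ^ k * m.choose k) :=
        Nat.mul_le_mul_left _ (pow_le_pow_mul_choose m k hkm)
    _ = (4 * b * k) ^ k * m.choose k := by rw [mul_pow (4 * b) k k]; ring
    _ ≤ (2 ^ l) ^ k * m.choose k := Nat.mul_le_mul_right _ (Nat.pow_le_pow_left h1 k)
    _ = 2 ^ (k * l) * m.choose k := by rw [← pow_mul, mul_comm l k]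

/-- The sum over a pair of blocks, for the orders `2 ^ i` with `b k / 2 < i ≤ b k`. -/
theorem block_bound (M b k l i : ℕ) [NeZero M] (hb : 8 * l + 8 ≤ b) (hk : 1 ≤ k)
    (h1 : 4 * b * k ≤ 2 ^ l) (h : ZMod M) (hi : addOrderOf h = 2 ^ i) (hi1 : b * k < 2 * i)
    (hi2 : i ≤ b * k) :
    ‖Sg M (PUo (2 ^ b) k ×ˢ PUo (2 ^ b) k) (fun x => ((x.1 * x.2 : ℕ) : ZMod M)) h‖ * 2 ^ (i / 4) ≤
      (PUo (2 ^ b) k).card * (PUo (2 ^ b) k).card := by
  obtain ⟨U, hU⟩ : ∃ U, U = PUo (2 ^ b) k := ⟨_, rfl⟩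
  have hd := PUo_dense b k l (by omega) hk h1 (by omega)
  rw [← hU] at hd ⊢
  have hUB : ∀ u ∈ U, 1 ≤ u ∧ u ≤ (2 ^ b) ^ k := by
    intro u hu
    rw [hU] at hu
    exact PU_bound (PUo_mem hu).1
  have h2 := bil M h U U _ hUB hUB
  rw [hi] at h2
  have h3 : (2 ^ b) ^ k / 2 ^ i + 1 ≤ 2 * 2 ^ (b * k - i) := by
    rw [← pow_mul, Nat.pow_div hi2 (by norm_num)]
    have : 1 ≤ 2 ^ (b * k - i) := Nat.one_le_two_pow
    omega
  apply le_of_sq_le_sq _ (by positivity)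
  rw [mul_pow]
  have hdr : ((2 : ℝ) ^ b) ^ k ≤ 2 ^ (k * l) * (U.card : ℝ) := by exact_mod_cast hd
  have h3r : (((2 ^ b) ^ k / 2 ^ i + 1 : ℕ) : ℝ) ≤ 2 * 2 ^ (b * k - i) := by exact_mod_cast h3
  have h4 : (((2 ^ b) ^ k / 2 ^ i + 1 : ℕ) : ℝ) ^ 2 ≤ (2 * 2 ^ (b * k - i)) ^ 2 :=
    pow_le_pow_left₀ (Nat.cast_nonneg _) h3r 2
  have h5 : ((2 ^ i : ℕ) : ℝ) = 2 ^ i := by push_cast; rfl
  rw [h5] at h2
  have hk2 : 4 * (k * l) + 4 * k ≤ i := by
    have h6 : (8 * l + 8) * k ≤ b * k := Nat.mul_le_mul_right k hb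
    have h7 : (8 * l + 8) * k = 8 * (k * l) + 8 * k := by ring
    omega
  calc ‖Sg M (U ×ˢ U) (fun x => ((x.1 * x.2 : ℕ) : ZMod M)) h‖ ^ 2 * (2 ^ (i / 4)) ^ 2
      ≤ ((U.card : ℝ) * U.card * 2 ^ i * (2 * 2 ^ (b * k - i)) ^ 2) * (2 ^ (i / 4)) ^ 2 := by
        refine mul_le_mul_of_nonneg_right (h2.trans ?_) (by positivity)
        exact mul_le_mul_of_nonneg_left h4 (by positivity)
    _ = (U.card : ℝ) ^ 2 * (2 ^ (2 + i + 2 * (b * k - i) + 2 * (i / 4))) := by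
        rw [pow_add, pow_add, pow_add, mul_pow 2 ((2 : ℝ) ^ (b * k - i)) 2, ← pow_mul, ← pow_mul,
          mul_comm (b * k - i) 2, mul_comm (i / 4) 2]
        ring
    _ ≤ (U.card : ℝ) ^ 2 * (2 ^ (2 * (b * k) - 2 * (k * l))) := by
        refine mul_le_mul_of_nonneg_left (pow_le_pow_right₀ (by norm_num) ?_) (by positivity)
        have h6 : 2 * (k * l) ≤ b * k := by
          nlinarith
        omega
    _ ≤ (U.card : ℝ) ^ 2 * (U.card : ℝ) ^ 2 := by
        refine mul_le_mul_of_nonneg_left ?_ (by positivity)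
        have h6 : 2 * (k * l) ≤ 2 * (b * k) := by
          nlinarith
        have h7 : (2 : ℝ) ^ (2 * (b * k) - 2 * (k * l)) * (2 ^ (k * l)) ^ 2 = ((2 ^ b) ^ k) ^ 2 := by
          rw [← pow_mul, ← pow_mul, ← pow_add, ← pow_mul]
          congr 1
          have : k * l * 2 = 2 * (k * l) := by ring
          have : b * (k * 2) = 2 * (b * k) := by ring
          omega
        have h8 : (((2 : ℝ) ^ b) ^ k) ^ 2 ≤ (2 ^ (k * l) * (U.card : ℝ)) ^ 2 :=
          pow_le_pow_left₀ (by positivity) hdr 2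
        rw [← h7, mul_pow, mul_comm] at h8
        exact le_of_mul_le_mul_left h8 (by positivity)
    _ = ((U.card : ℝ) * U.card) ^ 2 := by ring

/-- `Fam b J τ T g`: the finite family `g t`, `t ∈ T`, of odd numbers, products of `2 ^ (J + 2) - 3`
numbers in `[1, 2 ^ b]`, has a good exponential sum for the orders `2 ^ i`, `2 ≤ i ≤ b 2 ^ J`. -/
structure Fam (b J : ℕ) {τ : Type} (T : Finset τ) (g : τ → ℕ) : Prop where
  ne : T.Nonempty
  odd : ∀ t ∈ T, g t % 2 = 1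
  fac : ∀ t ∈ T, ∃ L : List ℕ, L.length = 2 ^ (J + 2) - 3 ∧ (∀ x ∈ L, 1 ≤ x ∧ x ≤ 2 ^ b) ∧
    L.prod = g t
  zero : ∀ (M : ℕ) [NeZero M] (h : ZMod M) (i : ℕ), addOrderOf h = 2 ^ i → 2 ≤ i → i ≤ b →
    Sg M T (fun t => ((g t : ℕ) : ZMod M)) h = 0
  small : ∀ (M : ℕ) [NeZero M] (h : ZMod M) (i : ℕ), addOrderOf h = 2 ^ i → 2 ≤ i →
    i ≤ b * 2 ^ J → ‖Sg M T (fun t => ((g t : ℕ) : ZMod M)) h‖ * 2 ^ (i / 4) ≤ T.card

private theorem ord_mul_odd (M : ℕ) [NeZero M] (h : ZMod M) (i m : ℕ) (hi : addOrderOf h = 2 ^ i)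
    (hm : m % 2 = 1) : addOrderOf (h * (m : ZMod M)) = 2 ^ i := by
  have h1 : h * (m : ZMod M) = m • h := by
    rw [nsmul_eq_mul, mul_comm]
  rw [h1, Nat.Coprime.addOrderOf_nsmul, hi]
  rw [hi]
  exact Nat.Coprime.pow_left i (Nat.coprime_two_left.2 (Nat.odd_iff.2 hm))

private theorem sum_left (M : ℕ) [NeZero M] {τ σ : Type} (T : Finset τ) (S : Finset σ) (g : τ → ℕ)
    (f : σ → ℕ) (h : ZMod M) :
    Sg M (T ×ˢ S) (fun x => ((g x.1 * f x.2 : ℕ) : ZMod M)) h =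
      ∑ t ∈ T, Sg M S (fun s => ((f s : ℕ) : ZMod M)) (h * (g t : ZMod M)) := by
  unfold Sg
  rw [Finset.sum_product]
  refine Finset.sum_congr rfl fun t _ => Finset.sum_congr rfl fun s _ => ?_
  congr 1
  push_cast
  ring

private theorem sum_right (M : ℕ) [NeZero M] {τ σ : Type} (T : Finset τ) (S : Finset σ) (g : τ → ℕ)
    (f : σ → ℕ) (h : ZMod M) :
    Sg M (T ×ˢ S) (fun x => ((g x.1 * f x.2 : ℕ) : ZMod M)) h =
      ∑ s ∈ S, Sg M T (fun t => ((g t : ℕ) : ZMod M)) (h * (f s : ZMod M)) := by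
  unfold Sg
  rw [Finset.sum_product_right]
  refine Finset.sum_congr rfl fun t _ => Finset.sum_congr rfl fun s _ => ?_
  congr 1
  push_cast
  ring

/-- The family `T_0` of the odd numbers below `2 ^ b`. -/
theorem Fam.base (b : ℕ) (hb : 1 ≤ b) :
    Fam b 0 (Finset.range (2 ^ (b - 1))) (fun y => 2 * y + 1) where
  ne := Finset.nonempty_range_iff.2 (by positivity)
  odd := fun t _ => by omega
  fac := by
    intro t ht
    have h1 := Finset.mem_range.1 ht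
    have h2 : 2 * 2 ^ (b - 1) = 2 ^ b := by
      rw [← pow_succ']
      congr 1
      omega
    refine ⟨[2 * t + 1], rfl, ?_, by simp⟩
    intro x hx
    rw [List.mem_singleton.1 hx]
    omega
  zero := by
    intro M _ h i hi h2 hib
    exact odd_sum_zero M b i h hi h2 hib
  small := by
    intro M _ h i hi h2 hib
    have h3 : Sg M (Finset.range (2 ^ (b - 1))) (fun t => ((2 * t + 1 : ℕ) : ZMod M)) h = 0 :=
      odd_sum_zero M b i h hi h2 (by simpa using hib)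
    have h4 : ‖Sg M (Finset.range (2 ^ (b - 1))) (fun t => ((2 * t + 1 : ℕ) : ZMod M)) h‖ = 0 := by
      rw [h3, norm_zero]
    rw [h4, zero_mul]
    positivity

/-- Two more blocks. -/
theorem Fam.step {b J l : ℕ} {τ : Type} {T : Finset τ} {g : τ → ℕ} (F : Fam b J T g)
    (hb : 8 * l + 8 ≤ b) (h1 : 4 * b * 2 ^ (J + 1) ≤ 2 ^ l) :
    Fam b (J + 1) (T ×ˢ (PUo (2 ^ b) (2 ^ (J + 1)) ×ˢ PUo (2 ^ b) (2 ^ (J + 1))))
      (fun x => g x.1 * (x.2.1 * x.2.2)) := by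
  have hk : 1 ≤ 2 ^ (J + 1) := Nat.one_le_two_pow
  obtain ⟨U, hU⟩ : ∃ U, U = PUo (2 ^ b) (2 ^ (J + 1)) := ⟨_, rfl⟩
  have hUodd : ∀ x ∈ U ×ˢ U, (x.1 * x.2) % 2 = 1 := by
    intro x hx
    rw [hU] at hx
    have h3 := (PUo_mem (Finset.mem_product.1 hx).1).2
    have h4 := (PUo_mem (Finset.mem_product.1 hx).2).2
    rw [Nat.mul_mod, h3, h4]
  have hUne : (U ×ˢ U).Nonempty := by
    have h3 := PUo_dense b (2 ^ (J + 1)) l (by omega) hk h1 (by omega)
    have h4 : 0 < (PUo (2 ^ b) (2 ^ (J + 1))).card := by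
      rcases Nat.eq_zero_or_pos (PUo (2 ^ b) (2 ^ (J + 1))).card with h0 | h0
      · rw [h0, mul_zero] at h3
        have : 0 < (2 ^ b) ^ 2 ^ (J + 1) := by positivity
        omega
      · exact h0
    rw [← hU] at h4
    have h5 := Finset.card_pos.1 h4
    exact h5.product h5
  rw [← hU]
  refine ⟨F.ne.product hUne, ?_, ?_, ?_, ?_⟩
  · intro t ht
    have ht' := Finset.mem_product.1 ht
    have h3 := F.odd _ ht'.1
    have h4 := hUodd _ ht'.2
    show g t.1 * (t.2.1 * t.2.2) % 2 = 1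
    rw [Nat.mul_mod, h3, h4]
  · intro t ht
    have ht' := Finset.mem_product.1 ht
    obtain ⟨L, hL1, hL2, hL3⟩ := F.fac _ ht'.1
    have hu := ht'.2
    rw [hU] at hu
    obtain ⟨x, hx, hxu⟩ := PU_prod (PUo_mem (Finset.mem_product.1 hu).1).1
    obtain ⟨y, hy, hyv⟩ := PU_prod (PUo_mem (Finset.mem_product.1 hu).2).1
    refine ⟨L ++ (List.ofFn x ++ List.ofFn y), ?_, ?_, ?_⟩
    · rw [List.length_append, List.length_append, List.length_ofFn, List.length_ofFn, hL1]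
      have e1 : 2 ^ (J + 1 + 2) = 2 ^ (J + 2) + 2 ^ (J + 2) := by ring
      have e2 : 2 ^ (J + 2) = 2 ^ (J + 1) + 2 ^ (J + 1) := by ring
      have e3 : 2 ^ (J + 1) = 2 ^ J + 2 ^ J := by ring
      have e4 : 1 ≤ 2 ^ J := Nat.one_le_two_pow
      omega
    · intro z hz
      rw [List.mem_append, List.mem_append, List.mem_ofFn, List.mem_ofFn] at hz
      rcases hz with hz | ⟨j, rfl⟩ | ⟨j, rfl⟩
      · exact hL2 z hz
      · exact hx j
      · exact hy j
    · rw [List.prod_append, List.prod_append, List.prod_ofFn, List.prod_ofFn, hL3, ← hxu, ← hyv]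
  · intro M _ h i hi h2 hib
    rw [sum_right M T (U ×ˢ U) g (fun x => x.1 * x.2) h]
    refine Finset.sum_eq_zero fun s hs => ?_
    exact F.zero M _ i (ord_mul_odd M h i _ hi (hUodd s hs)) h2 hib
  · intro M _ h i hi h2 hib
    rw [Finset.card_product, Nat.cast_mul]
    rcases Nat.lt_or_ge (b * 2 ^ J) i with hJ | hJ
    · rw [sum_left M T (U ×ˢ U) g (fun x => x.1 * x.2) h]
      calc ‖∑ t ∈ T, Sg M (U ×ˢ U) (fun x => ((x.1 * x.2 : ℕ) : ZMod M)) (h * (g t : ZMod M))‖ *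
            2 ^ (i / 4)
          ≤ (∑ t ∈ T, ‖Sg M (U ×ˢ U) (fun x => ((x.1 * x.2 : ℕ) : ZMod M)) (h * (g t : ZMod M))‖) *
            2 ^ (i / 4) := mul_le_mul_of_nonneg_right (norm_sum_le _ _) (by positivity)
        _ = ∑ t ∈ T, ‖Sg M (U ×ˢ U) (fun x => ((x.1 * x.2 : ℕ) : ZMod M)) (h * (g t : ZMod M))‖ *
            2 ^ (i / 4) := Finset.sum_mul _ _ _
        _ ≤ ∑ _t ∈ T, ((U ×ˢ U).card : ℝ) := by
            refine Finset.sum_le_sum fun t ht => ?_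
            have h5 := block_bound M b (2 ^ (J + 1)) l i hb hk h1 (h * (g t : ZMod M))
              (ord_mul_odd M h i _ hi (F.odd t ht)) (by rw [pow_succ]; nlinarith) hib
            rw [← hU] at h5
            rw [Finset.card_product, Nat.cast_mul]
            exact h5
        _ = (T.card : ℝ) * ((U ×ˢ U).card : ℝ) := by rw [Finset.sum_const, nsmul_eq_mul]
    · rw [sum_right M T (U ×ˢ U) g (fun x => x.1 * x.2) h]
      calc ‖∑ s ∈ U ×ˢ U, Sg M T (fun t => ((g t : ℕ) : ZMod M)) (h * ((s.1 * s.2 : ℕ) : ZMod M))‖ *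
            2 ^ (i / 4)
          ≤ (∑ s ∈ U ×ˢ U, ‖Sg M T (fun t => ((g t : ℕ) : ZMod M))
              (h * ((s.1 * s.2 : ℕ) : ZMod M))‖) * 2 ^ (i / 4) :=
            mul_le_mul_of_nonneg_right (norm_sum_le _ _) (by positivity)
        _ = ∑ s ∈ U ×ˢ U, ‖Sg M T (fun t => ((g t : ℕ) : ZMod M))
              (h * ((s.1 * s.2 : ℕ) : ZMod M))‖ * 2 ^ (i / 4) := Finset.sum_mul _ _ _
        _ ≤ ∑ _s ∈ U ×ˢ U, (T.card : ℝ) := by
            refine Finset.sum_le_sum fun s hs => ?_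
            exact F.small M _ i (ord_mul_odd M h i _ hi (hUodd s hs)) h2 hJ
        _ = (T.card : ℝ) * ((U ×ˢ U).card : ℝ) := by
            rw [Finset.sum_const, nsmul_eq_mul, mul_comm]

/-- The families exist. -/
theorem exists_fam (b J l : ℕ) (hb : 8 * l + 8 ≤ b) (h1 : 4 * b * 2 ^ J ≤ 2 ^ l) :
    ∃ (τ : Type) (T : Finset τ) (g : τ → ℕ), Fam b J T g := by
  induction J with
  | zero => exact ⟨ℕ, _, _, Fam.base b (by omega)⟩
  | succ J ih =>
    obtain ⟨τ, T, g, F⟩ := ih (by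
      refine le_trans (Nat.mul_le_mul_left _ ?_) h1
      exact Nat.pow_le_pow_right (by norm_num) (by omega))
    exact ⟨_, _, _, F.step hb h1⟩

/-- EIGHT SUMMANDS MODULO `2 ^ R`, `R ≤ b 2 ^ J`: every number `z ≥ 2 ^ (b 2 ^ (J + 2))` is
`ε + X_1 + ... + X_8 + 2 ^ R z'` with products `X_i` of `2 ^ (J + 2) - 3` numbers in `[1, 2 ^ b]`. -/
theorem eight_prod (b J l R : ℕ) (hb : 8 * l + 8 ≤ b) (h1 : 4 * b * 2 ^ J ≤ 2 ^ l)
    (hR : R ≤ b * 2 ^ J) (z : ℕ) (hz : 2 ^ (b * 2 ^ (J + 2)) ≤ z) :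
    ∃ (ε : ℕ) (X : Fin 8 → List ℕ) (z' : ℕ), ε ≤ 1 ∧
      (∀ i, (X i).length = 2 ^ (J + 2) - 3 ∧ ∀ x ∈ X i, 1 ≤ x ∧ x ≤ 2 ^ b) ∧
      z = ε + (∑ i, (X i).prod) + 2 ^ R * z' := by
  classical
  obtain ⟨τ, T, g, F⟩ := exists_fam b J l hb h1
  have hNZ : NeZero (2 ^ R) := ⟨by positivity⟩
  have hTc : 0 < (T.card : ℝ) := by exact_mod_cast Finset.card_pos.2 F.ne
  obtain ⟨n, hn⟩ : ∃ n, n = z - z % 2 := ⟨_, rfl⟩
  have hn2 : n % 2 = 0 := by omega
  have hl : 7 ≤ b := by omega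
  have key := eight (2 ^ R) T (fun t => ((g t : ℕ) : ZMod (2 ^ R))) ((n : ℕ) : ZMod (2 ^ R))
    (Finset.univ.filter (fun h : ZMod (2 ^ R) => 2 • h = 0))
    (Finset.mem_filter.2 ⟨Finset.mem_univ _, smul_zero _⟩) (by
      intro h hh
      have h2 : 2 • h = 0 := (Finset.mem_filter.1 hh).2
      have h3 : ∀ m : ℕ, m % 2 = 1 → h * (m : ZMod (2 ^ R)) = h := by
        intro m hm
        obtain ⟨a, ha⟩ : ∃ a, m = 2 * a + 1 := ⟨m / 2, by omega⟩
        have h4 : h * (m : ZMod (2 ^ R)) = a • (2 • h) + h := by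
          rw [ha, nsmul_eq_mul, nsmul_eq_mul]
          push_cast
          ring
        rw [h4, h2, smul_zero, zero_add]
      have h5 : h * (n : ZMod (2 ^ R)) = 0 := by
        obtain ⟨a, ha⟩ : ∃ a, n = 2 * a := ⟨n / 2, by omega⟩
        have h4 : h * (n : ZMod (2 ^ R)) = a • (2 • h) := by
          rw [ha, nsmul_eq_mul, nsmul_eq_mul]
          push_cast
          ring
        rw [h4, h2, smul_zero]
      have h6 : Sg (2 ^ R) T (fun t => ((g t : ℕ) : ZMod (2 ^ R))) h =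
          (T.card : ℂ) * (ZMod.stdAddChar h : ℂ) := by
        unfold Sg
        rw [Finset.sum_congr rfl (g := fun _ => (ZMod.stdAddChar h : ℂ)) (by
          intro t ht
          show (ZMod.stdAddChar (h * ((g t : ℕ) : ZMod (2 ^ R))) : ℂ) = _
          rw [h3 _ (F.odd t ht)]), Finset.sum_const, nsmul_eq_mul]
      have h7 : (ZMod.stdAddChar h : ℂ) ^ 8 = 1 := by
        rw [← AddChar.map_nsmul_eq_pow]
        have h8 : 8 • h = 4 • (2 • h) := by
          have h9 : (8 : ℕ) = 4 * 2 := by norm_num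
          rw [smul_smul, ← h9]
        rw [h8, h2, smul_zero, AddChar.map_zero_eq_one]
      rw [h5, neg_zero, AddChar.map_zero_eq_one, mul_one, h6, mul_pow, h7, mul_one])
    (by
      apply tail_lt R b hl (fun h => ‖Sg (2 ^ R) T (fun t => ((g t : ℕ) : ZMod (2 ^ R))) h‖) T.card hTc
        (fun h => norm_nonneg _)
      · intro h i hi hbi
        have hiR : i ≤ R := by
          have h2 := addOrderOf_dvd_card (x := h)
          rw [ZMod.card, hi] at h2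
          exact (Nat.pow_dvd_pow_iff_le_right (by norm_num)).1 h2
        exact F.small (2 ^ R) h i hi (by omega) (hiR.trans hR)
      · intro h i hi h2 hib
        show ‖Sg (2 ^ R) T (fun t => ((g t : ℕ) : ZMod (2 ^ R))) h‖ = 0
        rw [F.zero (2 ^ R) h i hi h2 hib, norm_zero]
      · intro h hh
        have h2 := addOrderOf_dvd_card (x := h)
        rw [ZMod.card] at h2
        obtain ⟨i, _, hi⟩ := (Nat.dvd_prime_pow Nat.prime_two).1 h2
        refine ⟨i, ?_, hi⟩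
        by_contra hlt
        apply hh
        rw [Finset.mem_filter]
        refine ⟨Finset.mem_univ _, ?_⟩
        rw [← addOrderOf_dvd_iff_nsmul_eq_zero, hi]
        calc 2 ^ i ∣ 2 ^ 1 := pow_dvd_pow 2 (by omega)
          _ = 2 := pow_one 2)
  obtain ⟨t, ht, hsum⟩ := key
  choose L hL1 hL2 hL3 using fun i => F.fac (t i) (ht i)
  have hK : 2 ^ (J + 2) ≥ 4 := by
    calc 2 ^ (J + 2) ≥ 2 ^ 2 := Nat.pow_le_pow_right (by norm_num) (by omega)
      _ = 4 := by norm_num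
  have hprod : ∀ L : List ℕ, (∀ x ∈ L, 1 ≤ x ∧ x ≤ 2 ^ b) → L.prod ≤ (2 ^ b) ^ L.length := by
    intro L hL
    exact List.prod_le_pow_card L (2 ^ b) (fun x hx => (hL x hx).2)
  have hle : ∀ i, 8 * g (t i) ≤ n := by
    intro i
    have h2 := hprod (L i) (hL2 i)
    rw [hL1 i, hL3 i, ← pow_mul] at h2
    have h3 : 8 * 2 ^ (b * (2 ^ (J + 2) - 3)) ≤ 2 ^ (b * 2 ^ (J + 2) - 1) := by
      have h4 : (8 : ℕ) = 2 ^ 3 := by norm_num
      rw [h4, ← pow_add]
      apply Nat.pow_le_pow_right (by norm_num)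
      have h5 : b * (2 ^ (J + 2) - 3) + b * 3 = b * 2 ^ (J + 2) := by
        rw [← mul_add]
        congr 1
        omega
      omega
    have h6 : 2 ^ (b * 2 ^ (J + 2)) = 2 * 2 ^ (b * 2 ^ (J + 2) - 1) := by
      rw [← pow_succ']
      congr 1
      have : 1 ≤ b * 2 ^ (J + 2) := by nlinarith
      omega
    have h7 : 1 ≤ 2 ^ (b * 2 ^ (J + 2) - 1) := Nat.one_le_two_pow
    omega
  have hle8 : ∑ i, g (t i) ≤ n := by
    have h2 : ∑ i : Fin 8, 8 * g (t i) ≤ ∑ _i : Fin 8, n := Finset.sum_le_sum fun i _ => hle i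
    rw [← Finset.mul_sum, Finset.sum_const, Finset.card_univ, Fintype.card_fin, smul_eq_mul] at h2
    omega
  have hdvd : 2 ^ R ∣ n - ∑ i, g (t i) := by
    rw [← ZMod.natCast_eq_zero_iff, Nat.cast_sub hle8, sub_eq_zero, ← hsum]
    push_cast
    rfl
  obtain ⟨w, hw⟩ := hdvd
  refine ⟨z % 2, L, w, by omega, fun i => ⟨hL1 i, hL2 i⟩, ?_⟩
  have h2 : ∑ i, (L i).prod = ∑ i, g (t i) := Finset.sum_congr rfl fun i _ => hL3 i
  rw [h2, ← hw]
  omega

end HadNT
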