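import Mathlib

/-!
# Piece NSEL: selection of the parameters of a recursion step
-/

set_option autoImplicit false

namespace HadNT

/-- PROOF. Let `e = Nat.log 2 q`, so `2 ^ e ≤ q < 2 ^ (e + 1)` and `a ≤ e < a'`. Put `k = e / a + 1`, so
`(k - 1) a ≤ e < k a`, `2 ≤ k ≤ a' / a + 1 ≤ K`. Put `s = f (2 k - 1) + 2 k ≤ 2 k (f + 1) ≤
2 K (f + 1) ≤ a`, `n = q / 2 ^ s` and `b = Nat.log 2 (n / 3) / (2 k)`.
UPPER BOUND: `n / 3 < 2 ^ (e + 1 - s)` hence `Nat.log 2 (n / 3) ≤ e < k a` and `2 b ≤ a`; precisely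
`b ≤ (k a) / (2 k)`, `2 b ≤ a`.
LOWER BOUND: `n ≥ 2 ^ (e - s)`, `n / 3 ≥ 2 ^ (e - s - 2)`, so
`2 k (b + 1) > Nat.log 2 (n / 3) ≥ e - s - 2 ≥ (k - 1) a - 2 k (f + 1) - 2 ≥ 2 k (a / 4 - f - 2)`
(as `(k - 1) a ≥ k a / 2`), so `b + 1 > a / 4 - f - 2` and with `4 (4 K + 5 + 6 K l + f + 4) ≤ a`
we get `b ≥ 4 K + 5 + 6 K l ≥ 4 k + 5 + 6 k l`.
`3 * 2 ^ (2 k b) ≤ n`: `2 ^ (2 k b) ≤ 2 ^ (Nat.log 2 (n / 3)) ≤ n / 3` (`n / 3 ≠ 0`).
`n < 3 * 2 ^ (2 k (b + 1))`: `n / 3 < 2 ^ (Nat.log 2 (n / 3) + 1) ≤ 2 ^ (2 k (b + 1))`.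
`2 b k ≤ a k ≤ a K ≤ 2 ^ l`. Finally `b + 4 k + 1 ≤ a / 2 + 4 K + 1 ≤ a`. -/
theorem sel (a a' f l K q : ℕ) (hK : a' / a + 1 ≤ K) (h1 : 2 * a * K ≤ 2 ^ l)
    (h2 : 4 * (4 * K + 5 + 6 * K * l + f + 4) ≤ a) (h3 : 2 * (f + 1) * K ≤ a)
    (hq1 : 2 ^ a ≤ q) (hq2 : q < 2 ^ a') :
    ∃ k b : ℕ, 1 ≤ k ∧ 1 ≤ b ∧ f * (2 * k - 1) + 2 * k ≤ a ∧
      3 * 2 ^ (2 * k * b) ≤ q / 2 ^ (f * (2 * k - 1) + 2 * k) ∧
      q / 2 ^ (f * (2 * k - 1) + 2 * k) < 3 * 2 ^ (2 * k * (b + 1)) ∧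
      2 * b * k ≤ 2 ^ l ∧ 4 * k + 5 + 6 * k * l ≤ b ∧ b + 4 * k + 1 ≤ a := by
  have hq0 : q ≠ 0 := by
    have : 0 < 2 ^ a := by positivity
    omega
  have ha0 : 0 < a := by omega
  obtain ⟨e, he⟩ : ∃ e, e = Nat.log 2 q := ⟨_, rfl⟩
  have he1 : 2 ^ e ≤ q := by rw [he]; exact Nat.pow_log_le_self 2 hq0
  have he2 : q < 2 ^ (e + 1) := by rw [he]; exact Nat.lt_pow_succ_log_self (by norm_num) q
  have hae : a ≤ e := by rw [he]; exact Nat.le_log_of_pow_le (by norm_num) hq1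
  have hea : e < a' := by rw [he]; exact Nat.log_lt_of_lt_pow hq0 hq2
  obtain ⟨k, hk⟩ : ∃ k, k = e / a + 1 := ⟨_, rfl⟩
  have hk1 : (k - 1) * a ≤ e := by
    rw [hk, Nat.add_sub_cancel]; exact Nat.div_mul_le_self e a
  have hk2 : e < k * a := by
    rw [hk, mul_comm]; exact Nat.lt_mul_div_succ e ha0
  have hk3 : 2 ≤ k := by
    have : 1 ≤ e / a := (Nat.one_le_div_iff ha0).2 hae
    omega
  have hkK : k ≤ K := by
    have : e / a ≤ a' / a := Nat.div_le_div_right hea.le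
    omega
  obtain ⟨s, hs⟩ : ∃ s, s = f * (2 * k - 1) + 2 * k := ⟨_, rfl⟩
  have hs1 : s ≤ 2 * k * (f + 1) := by
    rw [hs]
    have : f * (2 * k - 1) ≤ f * (2 * k) := Nat.mul_le_mul_left _ (by omega)
    nlinarith
  have hs2 : s ≤ a := by
    refine hs1.trans (le_trans ?_ h3)
    have : k * (f + 1) ≤ K * (f + 1) := Nat.mul_le_mul_right _ hkK
    nlinarith
  -- the main inequality
  obtain ⟨B, hB⟩ : ∃ B, B = 4 * K + 5 + 6 * K * l := ⟨_, rfl⟩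
  have hmain : 2 * k * (B + f + 4) ≤ (k - 1) * a := by
    have h2' : 4 * (B + f + 4) ≤ a := by rw [hB]; linarith
    obtain ⟨k', rfl⟩ : ∃ k', k = k' + 2 := ⟨k - 2, by omega⟩
    have : k' + 2 - 1 = k' + 1 := by omega
    rw [this]
    calc 2 * (k' + 2) * (B + f + 4) ≤ (k' + 1) * (4 * (B + f + 4)) := by nlinarith
      _ ≤ (k' + 1) * a := Nat.mul_le_mul_left _ h2'
  have hes : 2 * k * B + 6 * k + s ≤ e := by
    have : 2 * k * (B + f + 4) = 2 * k * B + 6 * k + 2 * k * (f + 1) := by ring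
    omega
  obtain ⟨n, hn⟩ : ∃ n, n = q / 2 ^ s := ⟨_, rfl⟩
  have hn1 : 2 ^ (e - s) ≤ n := by
    rw [hn, Nat.le_div_iff_mul_le (by positivity), ← pow_add]
    have : e - s + s = e := by omega
    rw [this]; exact he1
  have hn2 : n < 2 ^ (e - s + 1) := by
    rw [hn, Nat.div_lt_iff_lt_mul (by positivity), ← pow_add]
    have : e - s + 1 + s = e + 1 := by omega
    rw [this]; exact he2
  have hm1 : 2 ^ (e - s - 2) ≤ n / 3 := by
    rw [Nat.le_div_iff_mul_le (by norm_num)]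
    refine le_trans ?_ hn1
    have h4 : e - s = (e - s - 2) + 2 := by omega
    have : 2 ^ (e - s) = 2 ^ (e - s - 2) * 4 := by
      conv_lhs => rw [h4]
      rw [pow_add]
      norm_num
    rw [this]
    exact Nat.mul_le_mul_left _ (by norm_num)
  have hm0 : n / 3 ≠ 0 := by
    have : 0 < 2 ^ (e - s - 2) := by positivity
    omega
  obtain ⟨L, hL⟩ : ∃ L, L = Nat.log 2 (n / 3) := ⟨_, rfl⟩
  have hL1 : 2 ^ L ≤ n / 3 := by rw [hL]; exact Nat.pow_log_le_self 2 hm0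
  have hL2 : n / 3 < 2 ^ (L + 1) := by rw [hL]; exact Nat.lt_pow_succ_log_self (by norm_num) _
  have hL3 : e - s - 2 ≤ L := by rw [hL]; exact Nat.le_log_of_pow_le (by norm_num) hm1
  have hL4 : L ≤ e := by
    have h5 : 2 ^ L < 2 ^ (e - s + 1) := lt_of_le_of_lt (hL1.trans (Nat.div_le_self _ _)) hn2
    have := (Nat.pow_lt_pow_iff_right (by norm_num : 1 < 2)).1 h5
    omega
  obtain ⟨b, hb⟩ : ∃ b, b = L / (2 * k) := ⟨_, rfl⟩
  have hb1 : 2 * k * b ≤ L := by rw [hb]; exact Nat.mul_div_le L (2 * k)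
  have hb2 : L < 2 * k * (b + 1) := by
    rw [hb]; exact Nat.lt_mul_div_succ L (by omega)
  have hba : 2 * b ≤ a := by
    have : k * (2 * b) < k * a := by
      calc k * (2 * b) = 2 * k * b := by ring
        _ ≤ L := hb1
        _ ≤ e := hL4
        _ < k * a := hk2
    exact (Nat.lt_of_mul_lt_mul_left this).le
  have hbB : B ≤ b := by
    by_contra hlt
    have h6 : b + 1 ≤ B := by omega
    have : 2 * k * (b + 1) ≤ 2 * k * B := Nat.mul_le_mul_left _ h6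
    omega
  have hKl : k * l ≤ K * l := Nat.mul_le_mul_right _ hkK
  refine ⟨k, b, by omega, by omega, by rw [← hs]; exact hs2, ?_, ?_, ?_, ?_, ?_⟩
  · rw [← hs, ← hn]
    have : 2 ^ (2 * k * b) ≤ n / 3 := le_trans (Nat.pow_le_pow_right (by norm_num) hb1) hL1
    omega
  · rw [← hs, ← hn]
    have : 2 ^ (L + 1) ≤ 2 ^ (2 * k * (b + 1)) := Nat.pow_le_pow_right (by norm_num) (by omega)
    omega
  · have h7 : 2 * b * k ≤ a * K := Nat.mul_le_mul hba hkK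
    have h8 : a * K ≤ 2 * a * K := by rw [mul_assoc]; omega
    exact h7.trans (h8.trans h1)
  · have e1 : 6 * k * l = 6 * (k * l) := by ring
    have e2 : 6 * K * l = 6 * (K * l) := by ring
    omega
  · have h9 : 4 * K + 5 ≤ B := by rw [hB]; omega
    omega

end HadNT
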