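import Pool.Agent.Lib_MP_008adc_co.NSet

/-!
# Piece NREP: representations as products and energy
-/

set_option autoImplicit false

namespace HadNT

/-- A number `n` is a product `u v` with `u, v ∈ PU A k` in at most `4 ^ k` ways. PROOF. If there is
one way then `n` has at most `2 k` prime factors; `u` is determined by the set of its prime factors,
which is a subset of the prime factors of `n`, and `v = n / u`. So there are at most `2 ^ (2 k)`
ways. -/
theorem PU_rep (A k n : ℕ) :
    ((PU A k ×ˢ PU A k).filter (fun x => x.1 * x.2 = n)).card ≤ 4 ^ k := by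
  classical
  have hPU : ∀ u ∈ PU A k, (∏ p ∈ u.primeFactors, p) = u ∧ u.primeFactors.card = k := by
    intro u hu
    unfold PU at hu
    rw [Finset.mem_image] at hu
    obtain ⟨s, hs, rfl⟩ := hu
    rw [Finset.mem_powersetCard] at hs
    have hsp : ∀ p ∈ s, p.Prime := fun p hp => (Finset.mem_filter.1 (hs.1 hp)).2
    rw [Nat.primeFactors_prod hsp]
    exact ⟨rfl, hs.2⟩
  rcases Finset.eq_empty_or_nonempty
    ((PU A k ×ˢ PU A k).filter (fun x => x.1 * x.2 = n)) with h0 | ⟨x0, hx0⟩
  · rw [h0, Finset.card_empty]; positivity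
  rw [Finset.mem_filter, Finset.mem_product] at hx0
  obtain ⟨⟨hu0, hv0⟩, hn0⟩ := hx0
  have hu1 := (PU_bound hu0).1
  have hv1 := (PU_bound hv0).1
  have hn : n ≠ 0 := by
    rw [← hn0]; positivity
  have hcard : n.primeFactors.card ≤ 2 * k := by
    rw [← hn0, Nat.primeFactors_mul (by omega) (by omega)]
    refine (Finset.card_union_le _ _).trans ?_
    rw [(hPU _ hu0).2, (hPU _ hv0).2]
    omega
  have h1 : ((PU A k ×ˢ PU A k).filter (fun x => x.1 * x.2 = n)).card ≤
      n.primeFactors.powerset.card := by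
    refine Finset.card_le_card_of_injOn (fun x => x.1.primeFactors) ?_ ?_
    · intro x hx
      rw [Finset.mem_coe, Finset.mem_filter, Finset.mem_product] at hx
      rw [Finset.mem_coe, Finset.mem_powerset]
      exact Nat.primeFactors_mono ⟨x.2, hx.2.symm⟩ hn
    · intro x hx y hy hxy
      rw [Finset.mem_coe, Finset.mem_filter, Finset.mem_product] at hx hy
      have hxy' : x.1.primeFactors = y.1.primeFactors := hxy
      have h2 : x.1 = y.1 := by
        rw [← (hPU _ hx.1.1).1, ← (hPU _ hy.1.1).1, hxy']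
      have h3 : x.1 * x.2 = x.1 * y.2 := by
        rw [hx.2, h2, hy.2]
      have h4 : 0 < x.1 := (PU_bound hx.1.1).1
      exact Prod.ext h2 (Nat.eq_of_mul_eq_mul_left h4 h3)
  refine h1.trans ?_
  rw [Finset.card_powerset]
  calc 2 ^ n.primeFactors.card ≤ 2 ^ (2 * k) := Nat.pow_le_pow_right (by norm_num) hcard
    _ = 4 ^ k := by rw [pow_mul]; norm_num

/-- ENERGY. For given `(u', v')` the products `u v ≤ A ^ (2 k)` congruent to `u' v'` modulo `M` take
at most `A ^ (2 k) / M + 1` values, each in at most `4 ^ k` ways. -/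
theorem PU_energy (A k M : ℕ) [NeZero M] :
    (((PU A k ×ˢ PU A k) ×ˢ (PU A k ×ˢ PU A k)).filter
        (fun x => ((x.1.1 * x.1.2 : ℕ) : ZMod M) = ((x.2.1 * x.2.2 : ℕ) : ZMod M))).card ≤
      (PU A k).card ^ 2 * (4 ^ k * (A ^ (2 * k) / M + 1)) := by
  classical
  have hM : 0 < M := Nat.pos_of_ne_zero (NeZero.ne M)
  -- the number of pairs with a given residue
  have hres : ∀ r : ZMod M, ((PU A k ×ˢ PU A k).filter
      (fun x => ((x.1 * x.2 : ℕ) : ZMod M) = r)).card ≤ 4 ^ k * (A ^ (2 * k) / M + 1) := by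
    intro r
    refine (Finset.card_le_mul_card_image (f := fun x : ℕ × ℕ => x.1 * x.2) _ (4 ^ k) ?_).trans ?_
    · intro n _
      refine le_trans (Finset.card_le_card ?_) (PU_rep A k n)
      intro x hx
      rw [Finset.mem_filter, Finset.mem_filter] at hx
      rw [Finset.mem_filter]
      exact ⟨hx.1.1, hx.2⟩
    · refine Nat.mul_le_mul_left _ ?_
      rw [← Finset.card_range (A ^ (2 * k) / M + 1)]
      refine Finset.card_le_card_of_injOn (fun n => n / M) ?_ ?_
      · intro n hn
        rw [Finset.mem_coe, Finset.mem_image] at hn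
        obtain ⟨x, hx, rfl⟩ := hn
        rw [Finset.mem_filter, Finset.mem_product] at hx
        rw [Finset.mem_coe, Finset.mem_range]
        have h1 : x.1 * x.2 ≤ A ^ (2 * k) := by
          rw [two_mul, pow_add]
          exact Nat.mul_le_mul (PU_bound hx.1.1).2 (PU_bound hx.1.2).2
        exact Nat.lt_succ_of_le (Nat.div_le_div_right h1)
      · intro n hn m hm hnm
        rw [Finset.mem_coe, Finset.mem_image] at hn hm
        obtain ⟨x, hx, hxn⟩ := hn
        obtain ⟨y, hy, hym⟩ := hm
        rw [Finset.mem_filter] at hx hy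
        have h2 : ((n : ℕ) : ZMod M) = ((m : ℕ) : ZMod M) := by
          rw [← hxn, ← hym, hx.2, hy.2]
        rw [ZMod.natCast_eq_natCast_iff] at h2
        have h3 : n / M = m / M := hnm
        have h4 : n % M = m % M := h2
        rw [← Nat.div_add_mod n M, ← Nat.div_add_mod m M, h3, h4]
  have hfib := Finset.card_eq_sum_card_fiberwise (f := Prod.snd)
    (s := ((PU A k ×ˢ PU A k) ×ˢ (PU A k ×ˢ PU A k)).filter
        (fun x => ((x.1.1 * x.1.2 : ℕ) : ZMod M) = ((x.2.1 * x.2.2 : ℕ) : ZMod M)))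
    (t := PU A k ×ˢ PU A k) (fun x hx => by
      rw [Finset.mem_coe, Finset.mem_filter, Finset.mem_product] at hx
      exact hx.1.2)
  rw [hfib]
  have hsum : ∀ y ∈ PU A k ×ˢ PU A k,
      ((((PU A k ×ˢ PU A k) ×ˢ (PU A k ×ˢ PU A k)).filter
        (fun x => ((x.1.1 * x.1.2 : ℕ) : ZMod M) = ((x.2.1 * x.2.2 : ℕ) : ZMod M))).filter
        (fun x => x.2 = y)).card ≤ 4 ^ k * (A ^ (2 * k) / M + 1) := by
    intro y _
    refine le_trans ?_ (hres ((y.1 * y.2 : ℕ) : ZMod M))
    refine Finset.card_le_card_of_injOn Prod.fst ?_ ?_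
    · intro x hx
      rw [Finset.mem_coe, Finset.mem_filter, Finset.mem_filter, Finset.mem_product] at hx
      rw [Finset.mem_coe, Finset.mem_filter]
      obtain ⟨⟨⟨hx1, _⟩, hx2⟩, hx3⟩ := hx
      refine ⟨hx1, ?_⟩
      rw [hx2, hx3]
    · intro x hx z hz hxz
      rw [Finset.mem_coe, Finset.mem_filter] at hx hz
      exact Prod.ext hxz (by rw [hx.2, hz.2])
  refine (Finset.sum_le_card_nsmul _ _ _ hsum).trans ?_
  rw [Finset.card_product, smul_eq_mul, sq]

end HadNT
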