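import Pool.Agent.Lib_MP_008adc_co.NBil
import Pool.Agent.Lib_MP_008adc_co.NRep

/-!
# Piece NTERN: every large number is a sum of three products of `2 k` small numbers and a multiple of
a large power of a small prime
-/

set_option autoImplicit false

namespace HadNT

/-- a product of two elements of `PU A k` is a product of `2 k` numbers -/
theorem ntern_prod {A k u v : ℕ} (hu : u ∈ PU A k) (hv : v ∈ PU A k) :
    ∃ x : Fin (2 * k) → ℕ, (∀ j, 1 ≤ x j ∧ x j ≤ A) ∧ u * v = ∏ j, x j := by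
  obtain ⟨x, hx, hxu⟩ := PU_prod hu
  obtain ⟨y, hy, hyv⟩ := PU_prod hv
  refine ⟨fun j => Fin.append x y (Fin.cast (two_mul k) j), fun j => ?_, ?_⟩
  · have hall : ∀ i : Fin (k + k), 1 ≤ Fin.append x y i ∧ Fin.append x y i ≤ A := by
      intro i
      refine Fin.addCases (fun i => ?_) (fun i => ?_) i
      · rw [Fin.append_left]
        exact hx i
      · rw [Fin.append_right]
        exact hy i
    exact hall _
  · have h1 : ∏ j : Fin (2 * k), Fin.append x y (Fin.cast (two_mul k) j) =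
        ∏ j : Fin (k + k), Fin.append x y j :=
      Fintype.prod_equiv (finCongr (two_mul k)) _ _ fun j => rfl
    rw [h1, Fin.prod_univ_add, hxu, hyv]
    simp only [Fin.append_left, Fin.append_right]

/-- the bound for a nontrivial frequency -/
theorem ntern_bound {B p d m : ℝ} (hp : 0 < p) (hpd : p ≤ d) (hpB : p ≤ B) (hd : p * d ≤ B ^ 2)
    {q : ℝ} (hq0 : 0 ≤ q) (hq : q ≤ B / d) :
    m * m * d * (q + 1) ^ 2 ≤ (2 * m * B / Real.sqrt p) ^ 2 := by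
  have hd0 : 0 < d := lt_of_lt_of_le hp hpd
  have hB0 : 0 < B := lt_of_lt_of_le hp hpB
  have h1 : (q + 1) ^ 2 ≤ (B / d + 1) ^ 2 := by
    apply pow_le_pow_left₀ (by positivity)
    linarith
  have h2 : d * (B / d + 1) ^ 2 ≤ 4 * B ^ 2 / p := by
    have h3 : d * (B / d + 1) ^ 2 = B ^ 2 / d + 2 * B + d := by
      field_simp
      ring
    rw [h3]
    have h4 : B ^ 2 / d ≤ B ^ 2 / p := div_le_div_of_nonneg_left (by positivity) hp hpd
    have h5 : 2 * B ≤ 2 * B ^ 2 / p := by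
      rw [le_div_iff₀ hp]
      nlinarith
    have h6 : d ≤ B ^ 2 / p := by
      rw [le_div_iff₀ hp]
      linarith
    have h7 : 4 * B ^ 2 / p = B ^ 2 / p + 2 * B ^ 2 / p + B ^ 2 / p := by ring
    rw [h7]
    linarith
  have h8 : (2 * m * B / Real.sqrt p) ^ 2 = m ^ 2 * (4 * B ^ 2 / p) := by
    rw [div_pow, Real.sq_sqrt hp.le]
    ring
  rw [h8]
  calc m * m * d * (q + 1) ^ 2 = m ^ 2 * (d * (q + 1) ^ 2) := by ring
    _ ≤ m ^ 2 * (4 * B ^ 2 / p) := by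
        apply mul_le_mul_of_nonneg_left _ (sq_nonneg m)
        exact (mul_le_mul_of_nonneg_left h1 hd0.le).trans h2

/-- PROOF. By Bertrand (`Nat.exists_prime_lt_and_le_two_mul` with `A / 2`) choose a prime `p` with
`A < 2 p`, `p ≤ A`. Put `M = p ^ (2 k - 1)`, `U = PU A k`, `m = |U| = C(π(A), k)`, `T = U ×ˢ U`,
`g (u, v) = u v mod M`. If `h ≠ 0` in `ZMod M` then its additive order `d` divides `M` and is not `1`,
so `p ≤ d ≤ M`, and `p M ≤ A ^ (2 k)`. By `bil` with `B = A ^ k`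
`|S h| ^ 2 ≤ m ^ 2 d (A ^ k / d + 1) ^ 2 = m ^ 2 (A ^ k / √d + √d) ^ 2 ≤ 4 m ^ 2 A ^ (2 k) / p`,
because `1 / d ≤ 1 / p` and `d ≤ M ≤ A ^ (2 k) / p`. By `PU_energy`
`M E ≤ m ^ 2 4 ^ k (A ^ (2 k) + M) ≤ 2 * 4 ^ k m ^ 2 A ^ (2 k)`. Hence with `B = 2 m A ^ k / √p`
`(B M E) ^ 2 ≤ 4 m ^ 2 A ^ (2 k) / p * 4 * 16 ^ k m ^ 4 A ^ (4 k) = 16 ^ (k + 1) (A ^ k) ^ 6 m ^ 6 / p`,
and this is smaller than `m ^ 12 = (|T| ^ 3) ^ 2` because
`p m ^ 6 > (A / 2) m ^ 6 ≥ 16 ^ (k + 1) (A ^ k) ^ 6` (note `m > 0` by the hypothesis `h`).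
So `ternary` applies to `n mod M` and gives `n ≡ u₀ v₀ + u₁ v₁ + u₂ v₂ mod M`; the sum is at most
`3 A ^ (2 k) ≤ n`, so the difference is `M w` with `w` a natural number. Each `u_i v_i` is a product
of `2 k` numbers in `[1, A]` by `PU_prod` (`Fin.append` or a `Fin (k + k)` split). -/
theorem tern (A k n : ℕ) (hA : 2 ≤ A) (hk : 1 ≤ k)
    (h : 2 * 16 ^ (k + 1) * (A ^ k) ^ 6 ≤ A * ((Nat.primeCounting A).choose k) ^ 6)
    (hn : 3 * A ^ (2 * k) ≤ n) :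
    ∃ (u : Fin 3 → Fin (2 * k) → ℕ) (p w : ℕ),
      (∀ i j, 1 ≤ u i j ∧ u i j ≤ A) ∧ p.Prime ∧ A < 2 * p ∧ p ≤ A ∧
        n = (∑ i, ∏ j, u i j) + p ^ (2 * k - 1) * w := by
  classical
  obtain ⟨p, hp, hp1, hp2⟩ := Nat.exists_prime_lt_and_le_two_mul (A / 2) (by omega)
  have hpA : p ≤ A := by omega
  have hA2p : A < 2 * p := by omega
  have hp0 : 0 < p := hp.pos
  set M : ℕ := p ^ (2 * k - 1) with hM
  have hM0 : 0 < M := pow_pos hp0 _
  have : NeZero M := ⟨hM0.ne'⟩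
  set U := PU A k with hU
  have hUc : U.card = (Nat.primeCounting A).choose k := PU_card A k
  set m : ℕ := U.card with hm
  rw [← hUc] at h
  have hm0 : 0 < m := by
    rcases Nat.eq_zero_or_pos m with h0 | h0
    · rw [h0, zero_pow (by norm_num), mul_zero] at h
      have h1 : 0 < 2 * 16 ^ (k + 1) * (A ^ k) ^ 6 := by positivity
      omega
    · exact h0
  set B : ℕ := A ^ k with hB
  have hUB : ∀ u ∈ U, 1 ≤ u ∧ u ≤ B := fun u hu => PU_bound hu
  have hAB : A ≤ B := by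
    rw [hB]
    exact Nat.le_self_pow (by omega) A
  have hMB : p * M ≤ B ^ 2 := by
    have h1 : p * M = p ^ (2 * k) := by
      rw [hM, ← pow_succ']
      congr 1
      omega
    rw [h1, hB, ← pow_mul, mul_comm k 2]
    exact Nat.pow_le_pow_left hpA _
  have hMB1 : M ≤ B ^ 2 := le_trans (Nat.le_mul_of_pos_left M hp0) hMB
  -- real versions
  have hpr : (0 : ℝ) < p := by exact_mod_cast hp0
  have hpBr : (p : ℝ) ≤ B := by exact_mod_cast hpA.trans hAB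
  have hsqrt : 0 < Real.sqrt p := Real.sqrt_pos.2 hpr
  have hmr : (0 : ℝ) < m := by exact_mod_cast hm0
  have hBr : (0 : ℝ) < B := lt_of_lt_of_le hpr hpBr
  have hSg : ∀ x : ZMod M, x ≠ 0 →
      ‖Sg M (U ×ˢ U) (fun x => ((x.1 * x.2 : ℕ) : ZMod M)) x‖ ≤ 2 * m * B / Real.sqrt p := by
    intro x hx
    have h1 := bil M x U U B hUB hUB
    have hdvd : addOrderOf x ∣ M := by
      have h2 := addOrderOf_dvd_card (x := x)
      rwa [ZMod.card] at h2
    obtain ⟨j, _, hjd⟩ := (Nat.dvd_prime_pow hp).1 hdvd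
    have hj0 : j ≠ 0 := by
      rintro rfl
      rw [pow_zero, AddMonoid.addOrderOf_eq_one_iff] at hjd
      exact hx hjd
    have hpd : p ≤ addOrderOf x := by
      rw [hjd]
      exact Nat.le_self_pow hj0 p
    have hdM : addOrderOf x ≤ M := Nat.le_of_dvd hM0 hdvd
    have h2 := ntern_bound (B := B) (p := p) (d := addOrderOf x) (m := m) hpr
      (by exact_mod_cast hpd) hpBr
      (by
        have h3 : p * addOrderOf x ≤ B ^ 2 := (Nat.mul_le_mul_left p hdM).trans hMB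
        exact_mod_cast h3)
      (q := ((B / addOrderOf x : ℕ) : ℝ)) (Nat.cast_nonneg _) Nat.cast_div_le
    have h3 : ‖Sg M (U ×ˢ U) (fun x => ((x.1 * x.2 : ℕ) : ZMod M)) x‖ ^ 2 ≤
        (2 * m * B / Real.sqrt p) ^ 2 := by
      refine h1.trans (le_trans (le_of_eq ?_) h2)
      push_cast
      ring
    exact le_of_sq_le_sq h3 (by positivity)
  -- the energy
  have hE := PU_energy A k M
  rw [← hU, ← hm] at hE
  have hME : (M : ℝ) * ((((U ×ˢ U) ×ˢ (U ×ˢ U)).filter (fun x =>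
      ((x.1.1 * x.1.2 : ℕ) : ZMod M) = ((x.2.1 * x.2.2 : ℕ) : ZMod M))).card : ℝ) ≤
      2 * 4 ^ k * m ^ 2 * B ^ 2 := by
    have h1 : M * (m ^ 2 * (4 ^ k * (A ^ (2 * k) / M + 1))) ≤ 2 * 4 ^ k * m ^ 2 * B ^ 2 := by
      have h2 : M * (A ^ (2 * k) / M + 1) ≤ 2 * B ^ 2 := by
        have h3 : M * (A ^ (2 * k) / M) ≤ A ^ (2 * k) := Nat.mul_div_le _ _
        have h4 : A ^ (2 * k) = B ^ 2 := by rw [hB, ← pow_mul, mul_comm k 2]
        rw [h4] at h3 ⊢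
        rw [mul_add, mul_one]
        omega
      calc M * (m ^ 2 * (4 ^ k * (A ^ (2 * k) / M + 1))) =
          4 ^ k * m ^ 2 * (M * (A ^ (2 * k) / M + 1)) := by ring
        _ ≤ 4 ^ k * m ^ 2 * (2 * B ^ 2) := Nat.mul_le_mul_left _ h2
        _ = _ := by ring
    have h5 := (Nat.mul_le_mul_left M hE).trans h1
    exact_mod_cast h5
  have hlt : 2 * m * B / Real.sqrt p * ((M : ℝ) * ((((U ×ˢ U) ×ˢ (U ×ˢ U)).filter (fun x =>
      ((x.1.1 * x.1.2 : ℕ) : ZMod M) = ((x.2.1 * x.2.2 : ℕ) : ZMod M))).card : ℝ)) <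
      ((U ×ˢ U).card : ℝ) ^ 3 := by
    have hc : ((U ×ˢ U).card : ℝ) = m * m := by
      rw [Finset.card_product]
      push_cast
      rfl
    rw [hc]
    have h1 : 2 * m * B / Real.sqrt p * ((M : ℝ) * ((((U ×ˢ U) ×ˢ (U ×ˢ U)).filter (fun x =>
        ((x.1.1 * x.1.2 : ℕ) : ZMod M) = ((x.2.1 * x.2.2 : ℕ) : ZMod M))).card : ℝ)) ≤
        2 * m * B / Real.sqrt p * (2 * 4 ^ k * m ^ 2 * B ^ 2) :=
      mul_le_mul_of_nonneg_left hME (by positivity)
    refine lt_of_le_of_lt h1 ?_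
    have h2 : 2 * m * B / Real.sqrt p * (2 * 4 ^ k * m ^ 2 * B ^ 2) =
        m ^ 3 * (4 ^ (k + 1) * (B : ℝ) ^ 3 / Real.sqrt p) := by
      rw [pow_succ]
      ring
    have h3 : ((m : ℝ) * m) ^ 3 = m ^ 3 * m ^ 3 := by ring
    rw [h2, h3]
    apply mul_lt_mul_of_pos_left _ (by positivity)
    rw [div_lt_iff₀ hsqrt]
    apply lt_of_pow_lt_pow_left₀ 2 (by positivity)
    rw [mul_pow, mul_pow, Real.sq_sqrt hpr.le]
    have h4 : 16 ^ (k + 1) * B ^ 6 < p * m ^ 6 := by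
      have h5 : A * m ^ 6 < 2 * p * m ^ 6 := Nat.mul_lt_mul_of_pos_right hA2p (by positivity)
      have h6 : 2 * (16 ^ (k + 1) * B ^ 6) < 2 * (p * m ^ 6) := by
        calc 2 * (16 ^ (k + 1) * B ^ 6) = 2 * 16 ^ (k + 1) * B ^ 6 := by ring
          _ ≤ A * m ^ 6 := h
          _ < 2 * p * m ^ 6 := h5
          _ = _ := by ring
      omega
    have h5 : ((16 : ℝ) ^ (k + 1) * B ^ 6) < p * m ^ 6 := by exact_mod_cast h4
    have h6 : ((4 : ℝ) ^ (k + 1)) ^ 2 = 16 ^ (k + 1) := by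
      rw [← pow_mul, mul_comm, pow_mul]
      norm_num
    rw [h6]
    nlinarith
  obtain ⟨a, ha, b, hb, c, hc, habc⟩ := ternary M (U ×ˢ U)
    (fun x => ((x.1 * x.2 : ℕ) : ZMod M)) _ _ (by positivity) hSg le_rfl hlt (n : ZMod M)
  rw [Finset.mem_product] at ha hb hc
  have hprod : ∀ x : ℕ × ℕ, x.1 ∈ U ∧ x.2 ∈ U → x.1 * x.2 ≤ A ^ (2 * k) := by
    intro x hx
    have h1 := Nat.mul_le_mul (hUB _ hx.1).2 (hUB _ hx.2).2
    rw [two_mul, pow_add]
    exact h1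
  have hsum : a.1 * a.2 + b.1 * b.2 + c.1 * c.2 ≤ n := by
    have h1 := hprod a ha
    have h2 := hprod b hb
    have h3 := hprod c hc
    omega
  have hdvd : M ∣ n - (a.1 * a.2 + b.1 * b.2 + c.1 * c.2) := by
    rw [← ZMod.natCast_eq_zero_iff, Nat.cast_sub hsum, sub_eq_zero, ← habc]
    push_cast
    ring
  obtain ⟨w, hw⟩ := hdvd
  obtain ⟨xa, hxa, hxa'⟩ := ntern_prod ha.1 ha.2
  obtain ⟨xb, hxb, hxb'⟩ := ntern_prod hb.1 hb.2
  obtain ⟨xc, hxc, hxc'⟩ := ntern_prod hc.1 hc.2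
  refine ⟨![xa, xb, xc], p, w, ?_, hp, hA2p, hpA, ?_⟩
  · intro i j
    fin_cases i
    · exact hxa j
    · exact hxb j
    · exact hxc j
  · rw [Fin.sum_univ_three]
    show n = (∏ j, xa j) + (∏ j, xb j) + (∏ j, xc j) + M * w
    rw [← hxa', ← hxb', ← hxc', ← hw]
    omega

end HadNT
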