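import Pool.Agent.Lib_MP_008adc_co.CovA
import Pool.Agent.Lib_MP_008adc_co.NTern
import Pool.Agent.Lib_MP_008adc_co.NCond
import Pool.Agent.Lib_MP_008adc_co.NSel

/-!
# Piece CSTEP: the step of the recursion
-/

set_option autoImplicit false

namespace HadCalc

/-- one factor `w` and all others `p` -/
theorem exists_prod_one (n w p : ℕ) (hn : 1 ≤ n) :
    ∃ x : Fin n → ℕ, ∏ j, x j = p ^ (n - 1) * w ∧ ∀ j, x j = w ∨ x j = p := by
  obtain ⟨m, rfl⟩ := Nat.exists_eq_add_of_le' hn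
  refine ⟨Fin.cons w (fun _ => p), ?_, ?_⟩
  · rw [Fin.prod_cons, Finset.prod_const, Finset.card_univ, Fintype.card_fin, Nat.add_sub_cancel,
      mul_comm]
  · intro j
    refine Fin.cases ?_ ?_ j
    · left
      rfl
    · intro i
      right
      rfl

/-- the bound for `w` -/
theorem step_w {b k p w n a : ℕ} (hk : 1 ≤ k) (hp : 2 ^ b < 2 * p)
    (hn : n < 3 * 2 ^ (2 * k * (b + 1))) (hw : p ^ (2 * k - 1) * w ≤ n) (ha : b + 4 * k + 1 ≤ a) :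
    w < 2 ^ a := by
  obtain ⟨k, rfl⟩ := Nat.exists_eq_add_of_le' hk
  have e1 : 2 * (k + 1) - 1 = 2 * k + 1 := by omega
  rw [e1] at hw
  refine lt_of_lt_of_le ?_ (Nat.pow_le_pow_right (by norm_num) ha)
  by_contra hcon
  push Not at hcon
  have h1 : (2 ^ b) ^ (2 * k + 1) ≤ (2 * p) ^ (2 * k + 1) := Nat.pow_le_pow_left hp.le _
  have h2 : (2 ^ b) ^ (2 * k + 1) * 2 ^ (b + 4 * (k + 1) + 1) <
      2 ^ (2 * k + 1) * (3 * 2 ^ (2 * (k + 1) * (b + 1))) := by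
    calc (2 ^ b) ^ (2 * k + 1) * 2 ^ (b + 4 * (k + 1) + 1)
        ≤ (2 * p) ^ (2 * k + 1) * w := Nat.mul_le_mul h1 hcon
      _ = 2 ^ (2 * k + 1) * (p ^ (2 * k + 1) * w) := by rw [mul_pow, mul_assoc]
      _ ≤ 2 ^ (2 * k + 1) * n := Nat.mul_le_mul_left _ hw
      _ < 2 ^ (2 * k + 1) * (3 * 2 ^ (2 * (k + 1) * (b + 1))) :=
          Nat.mul_lt_mul_of_pos_left hn (by positivity)
  have h3 : 2 ^ (2 * k + 1) * (3 * 2 ^ (2 * (k + 1) * (b + 1))) ≤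
      2 ^ (2 * k + 1) * (2 ^ 2 * 2 ^ (2 * (k + 1) * (b + 1))) :=
    Nat.mul_le_mul_left _ (Nat.mul_le_mul_right _ (by norm_num))
  rw [← pow_mul, ← pow_add] at h2
  rw [← pow_add, ← pow_add] at h3
  have h4 := lt_of_lt_of_le h2 h3
  have h5 : b * (2 * k + 1) + (b + 4 * (k + 1) + 1) = 2 * k + 1 + (2 + 2 * (k + 1) * (b + 1)) := by
    ring
  rw [h5] at h4
  exact lt_irrefl _ h4

/-- STEP. PROOF. Let `q < 2 ^ a'`. If `q < 2 ^ a` use the hypothesis and `Av.mono`. Otherwise take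
`k, b` from `HadNT.sel`; put `s = f (2 k - 1) + 2 k ≤ a`, `n = q / 2 ^ s`, `ρ = q % 2 ^ s`,
`A = 2 ^ b`. `HadNT.tern_cond` and `HadNT.tern` give `n = P₀ + P₁ + P₂ + p ^ (2 k - 1) w` with
`P_i = ∏_j u i j`, `1 ≤ u i j ≤ 2 ^ b < 2 ^ a`, `p ≤ 2 ^ b < 2 ^ a` and `2 ^ b < 2 p`, so
`p ≥ 2 ^ (b - 1)`, `p ^ (2 k - 1) ≥ 2 ^ ((b - 1) (2 k - 1))`, and from `n < 3 * 2 ^ (2 k (b + 1))`
`w ≤ n / p ^ (2 k - 1) < 3 * 2 ^ (2 k b + 2 k - (2 k - 1) b + 2 k - 1) = 3 * 2 ^ (b + 4 k - 1)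
< 2 ^ (b + 4 k + 1) ≤ 2 ^ a` (even without `p ^ (2 k - 1)` exactly: multiply out). By `Cov.prod` the
lengths `2 ^ s P_i` and `2 ^ s p ^ (2 k - 1) w` are available with `(f, c)`. Moreover `2 (ρ / 2)` is
available with `(f, c)` because `ρ / 2 < 2 ^ s ≤ 2 ^ a`, and `ρ % 2` is available with `(f, 0)`
(`Av.base`, `Av.mono`, `Av.zero`). The sum of these six lengths is `q`, so `Av.sum_list` gives
`Av (f + 1) (5 (c + f + 2) + (0 + f + 2)) (2 q)`. -/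
theorem Cov.step {a f c a' l K : ℕ} (h : Cov a f c) (hK : a' / a + 1 ≤ K)
    (h1 : 2 * a * K ≤ 2 ^ l) (h2 : 4 * (4 * K + 5 + 6 * K * l + f + 4) ≤ a)
    (h3 : 2 * (f + 1) * K ≤ a) : Cov a' (f + 1) (5 * c + 6 * (f + 2)) := by
  intro q hq
  rcases lt_or_ge q (2 ^ a) with hqa | hqa
  · exact (h q hqa).mono (by omega) (by omega)
  obtain ⟨k, b, hk, hb, hs, hn1, hn2, hbk, hb2, hba⟩ := HadNT.sel a a' f l K q hK h1 h2 h3 hqa hq
  set s := f * (2 * k - 1) + 2 * k with hsdef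
  have hb' : 2 ≤ 2 ^ b := by
    calc 2 = 2 ^ 1 := by norm_num
      _ ≤ 2 ^ b := Nat.pow_le_pow_right (by norm_num) hb
  have hn1' : 3 * (2 ^ b) ^ (2 * k) ≤ q / 2 ^ s := by
    rw [← pow_mul, mul_comm b]
    exact hn1
  obtain ⟨u, p, w, hu, _, hp2, hpA, hn⟩ := HadNT.tern (2 ^ b) k (q / 2 ^ s) hb' hk
    (HadNT.tern_cond b k l hb hk hbk hb2) hn1'
  have hba' : 2 ^ b < 2 ^ a := Nat.pow_lt_pow_right (by norm_num) (by omega)
  have hw : w < 2 ^ a := step_w hk hp2 hn2 (by rw [hn]; exact Nat.le_add_left _ _) hba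
  obtain ⟨x, hx, hx'⟩ := exists_prod_one (2 * k) w p (by omega)
  have hxlt : ∀ j, x j < 2 ^ a := by
    intro j
    rcases hx' j with h4 | h4
    · rw [h4]
      exact hw
    · rw [h4]
      exact lt_of_le_of_lt hpA hba'
  have hP : ∀ i, Av f c (2 ^ s * ∏ j, u i j) := fun i =>
    Cov.prod h k hk (u i) (fun j => lt_of_le_of_lt (hu i j).2 hba')
  have hX : Av f c (2 ^ s * (p ^ (2 * k - 1) * w)) := by
    rw [← hx]
    exact Cov.prod h k hk x hxlt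
  have hρ : Av f c (2 * (q % 2 ^ s / 2)) := by
    refine h _ ?_
    calc q % 2 ^ s / 2 ≤ q % 2 ^ s := Nat.div_le_self _ _
      _ < 2 ^ s := Nat.mod_lt _ (by positivity)
      _ ≤ 2 ^ a := Nat.pow_le_pow_right (by norm_num) hs
  have hε : Av f 0 (q % 2 ^ s % 2) := by
    rcases Nat.mod_two_eq_zero_or_one (q % 2 ^ s) with h4 | h4
    · rw [h4]
      exact Av.zero f 0
    · rw [h4]
      exact Av.base.mono (Nat.zero_le _) le_rfl
  have hsum := Av.sum_list (f := f)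
    [(c, 2 ^ s * ∏ j, u 0 j), (c, 2 ^ s * ∏ j, u 1 j), (c, 2 ^ s * ∏ j, u 2 j),
      (c, 2 ^ s * (p ^ (2 * k - 1) * w)), (c, 2 * (q % 2 ^ s / 2)), (0, q % 2 ^ s % 2)] (by
      intro y hy
      simp only [List.mem_cons, List.not_mem_nil, or_false] at hy
      rcases hy with rfl | rfl | rfl | rfl | rfl | rfl
      · exact hP 0
      · exact hP 1
      · exact hP 2
      · exact hX
      · exact hρ
      · exact hε)
  have hq2 : 2 ^ s * ∏ j, u 0 j + (2 ^ s * ∏ j, u 1 j + (2 ^ s * ∏ j, u 2 j +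
      (2 ^ s * (p ^ (2 * k - 1) * w) + (2 * (q % 2 ^ s / 2) + (q % 2 ^ s % 2 + 0))))) = q := by
    have e1 := Nat.div_add_mod q (2 ^ s)
    have e2 := Nat.div_add_mod (q % 2 ^ s) 2
    rw [Fin.sum_univ_three] at hn
    rw [hn] at e1
    calc _ = 2 ^ s * (∏ j, u 0 j + ∏ j, u 1 j + ∏ j, u 2 j + p ^ (2 * k - 1) * w) +
        (2 * (q % 2 ^ s / 2) + q % 2 ^ s % 2) := by ring
      _ = q := by rw [e2, e1]
  simp only [List.map_cons, List.map_nil, List.sum_cons, List.sum_nil] at hsum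
  rw [hq2] at hsum
  have e3 : c + f + 2 + (c + f + 2 + (c + f + 2 + (c + f + 2 + (c + f + 2 + (0 + f + 2 + 0))))) =
      5 * c + 6 * (f + 2) := by ring
  rw [e3] at hsum
  exact hsum

end HadCalc
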