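import Pool.Agent.Lib_MP_008adc_co.Defs

/-!
# Piece CANON0: all classes have the same size
-/

set_option autoImplicit false

namespace HadCalc

open Matrix

/-- the fibres of two classes are in bijection -/
private noncomputable def canonFib {ι κ : Type} {cls : ι → κ} {A : Matrix ι ι ℤ} (hA : Full cls A)
    (c c' : κ) : {i // cls i = c} ≃ {j // cls j = c'} where
  toFun i := ⟨(hA.row i.1 c').choose, (hA.row i.1 c').choose_spec.1.1⟩
  invFun j := ⟨(hA.col j.1 c).choose, (hA.col j.1 c).choose_spec.1.1⟩
  left_inv i := by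
    apply Subtype.ext
    exact ((hA.col (hA.row i.1 c').choose c).choose_spec.2 i.1
      ⟨i.2, (hA.row i.1 c').choose_spec.1.2⟩).symm
  right_inv j := by
    apply Subtype.ext
    exact ((hA.row (hA.col j.1 c).choose c').choose_spec.2 j.1
      ⟨j.2, (hA.col j.1 c).choose_spec.1.2⟩).symm

/-- If there is a `Full` matrix then all classes have the same number of elements, so the index set
is in bijection with the standard one. PROOF. Let `A` be `Full`, `c, c'` classes. Send `i` of class
`c` to the unique `j` of class `c'` with `A i j ≠ 0`; the column condition gives the inverse map. So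
all fibres of `cls` have the same cardinality `m`; summing over the `2 ^ f` classes,
`2 ^ (f + c) = 2 ^ f * m` and `m = 2 ^ c`. Choose bijections of `κ` with `ZMod (2 ^ f)` and of every
fibre with `Fin (2 ^ c)` and combine them with `Equiv.sigmaFiberEquiv cls`. -/
theorem exists_canonical {ι κ : Type} [Fintype ι] [DecidableEq ι] [Fintype κ] [DecidableEq κ]
    {f c : ℕ} (hκ : Fintype.card κ = 2 ^ f) (hι : Fintype.card ι = 2 ^ (f + c)) {cls : ι → κ}
    {A : Matrix ι ι ℤ} (hA : Full cls A) :
    ∃ (e : ι ≃ Ix f c) (g : κ ≃ ZMod (2 ^ f)), ∀ i, (e i).1 = g (cls i) := by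
  have hne : Nonempty κ := by
    rw [← Fintype.card_pos_iff, hκ]
    positivity
  obtain ⟨c₀⟩ := hne
  have hcard : ∀ k : κ, Fintype.card {i // cls i = k} = Fintype.card {i // cls i = c₀} := fun k =>
    Fintype.card_congr (canonFib hA k c₀)
  have hsum : Fintype.card ι = ∑ k : κ, Fintype.card {i // cls i = k} := by
    rw [← Fintype.card_sigma]
    exact (Fintype.card_congr (Equiv.sigmaFiberEquiv cls)).symm
  have hm : Fintype.card {i // cls i = c₀} = 2 ^ c := by
    rw [hι, Finset.sum_congr rfl fun k _ => hcard k, Finset.sum_const, Finset.card_univ, hκ,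
      smul_eq_mul, pow_add] at hsum
    exact (Nat.eq_of_mul_eq_mul_left (by positivity) hsum).symm
  have g : κ ≃ ZMod (2 ^ f) := Fintype.equivOfCardEq (by rw [hκ, ZMod.card])
  have h : ∀ k : κ, {i // cls i = k} ≃ Fin (2 ^ c) := fun k =>
    Fintype.equivOfCardEq (by rw [hcard k, hm, Fintype.card_fin])
  exact ⟨(Equiv.sigmaFiberEquiv cls).symm.trans ((Equiv.sigmaCongrRight h).trans
    ((Equiv.sigmaEquivProd κ (Fin (2 ^ c))).trans (Equiv.prodCongr g (Equiv.refl _)))), g,
    fun i => rfl⟩

end HadCalc
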