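import Pool.Agent.Lib_MP_008adc_co.Reidx
import Pool.Agent.Lib_MP_008adc_co.Canon0

/-!
# Piece CANON: every structure can be moved to the standard index set
-/

set_option autoImplicit false

namespace HadCalc

open Matrix

/-- The empty structure: any coefficients, the value is `0` and `0 * 0 = 0`. -/
theorem Av.zero (f c : ℕ) : Av f c 0 := by
  refine ⟨fun _ => 0, fun j hj => absurd hj (Nat.not_lt_zero j), fun z _ => ?_⟩
  simp [ev]

/-- The empty pair. -/
theorem AvP.zero (f c : ℕ) : AvP f c 0 := by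
  have h0 : ∀ j, ¬ j < 2 * 0 := fun j hj => by omega
  refine ⟨fun _ => 0, fun _ => 0, fun j hj => absurd hj (h0 j), fun j hj => absurd hj (h0 j),
    fun j hj => absurd hj (h0 j), fun j hj => absurd hj (h0 j), fun z _ => ?_, fun z _ => ?_⟩
  · simp [ev]
  · simp [ev]

/-- A structure on any index set of the right size gives `Av`. For `L = 0` use `Av.zero`; for
`L > 0` the coefficient `Q 0` is `Full` and `exists_canonical` applies. -/
theorem Av.of_good {ι κ : Type} [Fintype ι] [DecidableEq ι] [Fintype κ] [DecidableEq κ]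
    {f c L : ℕ} (hκ : Fintype.card κ = 2 ^ f) (hι : Fintype.card ι = 2 ^ (f + c)) {cls : ι → κ}
    {Q : ℕ → Matrix ι ι ℤ} (h : Good cls (2 ^ f) L Q) : Av f c L := by
  rcases Nat.eq_zero_or_pos L with hL | hL
  · subst hL
    exact Av.zero f c
  · obtain ⟨e, g, heg⟩ := exists_canonical hκ hι (h.full 0 hL)
    exact ⟨_, h.reindex e g heg⟩

/-- The same for pairs (use `X 0` when `0 < h`). -/
theorem AvP.of_goodPair {ι κ : Type} [Fintype ι] [DecidableEq ι] [Fintype κ] [DecidableEq κ]
    {f c h : ℕ} (hκ : Fintype.card κ = 2 ^ f) (hι : Fintype.card ι = 2 ^ (f + c)) {cls : ι → κ}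
    {X Y : ℕ → Matrix ι ι ℤ} (hXY : GoodPair cls (2 ^ f) h X Y) : AvP f c h := by
  rcases Nat.eq_zero_or_pos h with hh | hh
  · subst hh
    exact AvP.zero f c
  · obtain ⟨e, g, heg⟩ := exists_canonical hκ hι (hXY.fullX 0 (by omega))
    exact ⟨_, _, hXY.reindex e g heg⟩

end HadCalc
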