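import Pool.Agent.Lib_MP_008adc_co.CovA
import Pool.Agent.Lib_MP_008adc_co.Blocks

/-!
# The chain: every number below `2 ^ (2 ^ e)` is a sum of `54 e + 2` available lengths
-/

set_option autoImplicit false

namespace HadCalc

/-- `y` is a sum of at most `s` lengths available with `(f, c)`. -/
def SumOf (f c s y : ℕ) : Prop :=
  ∃ l : List ℕ, l.length ≤ s ∧ (∀ x ∈ l, Av f c x) ∧ l.sum = y

theorem SumOf.one {f c x : ℕ} (h : Av f c x) : SumOf f c 1 x :=
  ⟨[x], le_rfl, fun y hy => by rw [List.mem_singleton.1 hy]; exact h, by simp⟩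

theorem SumOf.add {f c s t x y : ℕ} (h : SumOf f c s x) (h' : SumOf f c t y) :
    SumOf f c (s + t) (x + y) := by
  obtain ⟨l, h1, h2, h3⟩ := h
  obtain ⟨l', h1', h2', h3'⟩ := h'
  refine ⟨l ++ l', ?_, ?_, ?_⟩
  · rw [List.length_append]
    exact Nat.add_le_add h1 h1'
  · intro z hz
    rcases List.mem_append.1 hz with hz | hz
    · exact h2 z hz
    · exact h2' z hz
  · rw [List.sum_append, h3, h3']

theorem SumOf.mono {f c s t y : ℕ} (h : SumOf f c s y) (hst : s ≤ t) : SumOf f c t y := by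
  obtain ⟨l, h1, h2, h3⟩ := h
  exact ⟨l, h1.trans hst, h2, h3⟩

theorem SumOf.fin {f c n : ℕ} (x : Fin n → ℕ) (h : ∀ i, Av f c (x i)) :
    SumOf f c n (∑ i, x i) := by
  refine ⟨List.ofFn x, by rw [List.length_ofFn], ?_, List.sum_ofFn⟩
  intro y hy
  obtain ⟨j, rfl⟩ := List.mem_ofFn.1 hy
  exact h j

theorem SumOf.av {f c s y : ℕ} (h : SumOf f c s y) : Av (f + 1) (s * (c + f + 2)) (2 * y) := by
  obtain ⟨l, h1, h2, h3⟩ := h
  have h4 := Av.sum_list (f := f) (l.map fun x => (c, x)) (by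
    intro p hp
    obtain ⟨x, hx, rfl⟩ := List.mem_map.1 hp
    exact h2 x hx)
  rw [List.map_map, List.map_map] at h4
  have e1 : (List.map ((fun x : ℕ × ℕ => x.1 + f + 2) ∘ fun x => (c, x)) l).sum =
      l.length * (c + f + 2) := by
    have : ((fun x : ℕ × ℕ => x.1 + f + 2) ∘ fun x : ℕ => (c, x)) = fun _ => c + f + 2 := by
      funext x
      rfl
    rw [this, List.map_const', List.sum_replicate, smul_eq_mul]
  have e2 : (List.map (Prod.snd ∘ fun x : ℕ => (c, x)) l).sum = y := by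
    have : (Prod.snd ∘ fun x : ℕ => (c, x)) = id := by
      funext x
      rfl
    rw [this, List.map_id, h3]
  rw [e1, e2] at h4
  exact h4.mono le_rfl (Nat.mul_le_mul_right _ h1)

/-- The lengths used: `2 ^ (f (K - 1) + K)` times a product of at most `K` numbers below `2 ^ a`. -/
theorem Cov.prodK {a f c : ℕ} (h : Cov a f c) (ha : 1 ≤ a) (K : ℕ) (hK : 1 ≤ K) (L : List ℕ)
    (hL : L.length ≤ K) (hx : ∀ x ∈ L, x < 2 ^ a) :
    Av f c (2 ^ (f * (K - 1) + K) * L.prod) := by
  obtain ⟨L', hL'⟩ : ∃ L', L' = L ++ List.replicate (K - L.length) 1 := ⟨_, rfl⟩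
  have h1 : L'.length = K := by
    rw [hL', List.length_append, List.length_replicate]
    omega
  have h2 : L'.prod = L.prod := by
    rw [hL', List.prod_append, List.prod_replicate, one_pow, mul_one]
  have h3 : ∀ x ∈ L', x < 2 ^ a := by
    intro x hx'
    rw [hL'] at hx'
    rcases List.mem_append.1 hx' with hx' | hx'
    · exact hx x hx'
    · rw [List.eq_of_mem_replicate hx']
      exact Nat.one_lt_two_pow (by omega)
  have h4 := Av.prod_list (f := f) (c := c) (L'.map fun x => 2 * x) (by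
    intro h0
    have := congrArg List.length h0
    rw [List.length_map, List.length_nil] at this
    omega) (by
    intro y hy
    obtain ⟨x, hx', rfl⟩ := List.mem_map.1 hy
    exact h _ (h3 x hx'))
  have h5 : (L'.map fun x => 2 * x).prod = 2 ^ K * L'.prod := by
    have h6 : ∀ l : List ℕ, (l.map fun x => 2 * x).prod = 2 ^ l.length * l.prod := by
      intro l
      induction l with
      | nil => simp
      | cons x l ih =>
        rw [List.map_cons, List.prod_cons, ih, List.length_cons, List.prod_cons, pow_succ]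
        ring
    rw [h6, h1]
  rw [List.length_map, h1, h5, h2, ← mul_assoc, ← pow_add] at h4
  exact h4

/-- The hypotheses of the chain. -/
structure ChainHyp (a f c b l e : ℕ) : Prop where
  cov : Cov a f c
  ha : 4 * b ≤ a
  hb : 8 * l + 8 ≤ b
  hf : 5 * (f + 1) ≤ b
  hl : 4 * b * 2 ^ e ≤ 2 ^ l

/-- One step. -/
theorem ChainHyp.step {a f c b l e : ℕ} (H : ChainHyp a f c b l e) {J K ρ z : ℕ} (hJ : J ≤ e)
    (hK : 2 ^ (J + 2) - 3 ≤ K) (hK1 : 1 ≤ K) (hρ : (f + 1) * ρ ≤ b * 2 ^ J)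
    (hz : 2 ^ (b * 2 ^ (J + 2)) ≤ z) :
    ∃ z', 2 ^ ((f + 1) * ρ) * z' ≤ z ∧ ∀ s, SumOf f c s (2 ^ (f * (K + ρ - 1) + (K + ρ)) * z') →
      SumOf f c (s + 9) (2 ^ (f * (K - 1) + K) * z) := by
  have hlJ : 4 * b * 2 ^ J ≤ 2 ^ l :=
    (Nat.mul_le_mul_left _ (Nat.pow_le_pow_right (by norm_num) hJ)).trans H.hl
  obtain ⟨ε, X, z', hε, hX, hzz⟩ := HadNT.eight_prod b J l ((f + 1) * ρ) H.hb hlJ hρ z hz
  have hb1 : 8 ≤ b := by
    have := H.hb
    omega
  have ha1 : 1 ≤ a := by
    have := H.ha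
    omega
  have hba : 2 ^ b < 2 ^ a := by
    apply Nat.pow_lt_pow_right (by norm_num)
    have := H.ha
    omega
  refine ⟨z', by rw [hzz]; exact Nat.le_add_left _ _, ?_⟩
  intro s hs
  have h1 : SumOf f c 8 (∑ i, 2 ^ (f * (K - 1) + K) * (X i).prod) := by
    apply SumOf.fin
    intro i
    apply H.cov.prodK ha1 K hK1
    · rw [(hX i).1]
      exact hK
    · intro x hx
      exact lt_of_le_of_lt ((hX i).2 x hx).2 hba
  have h2 : SumOf f c 1 (2 ^ (f * (K - 1) + K) * ε) := by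
    apply SumOf.one
    have h3 := H.cov.prodK ha1 K hK1 [ε] (by simpa using hK1) (by
      intro x hx
      rw [List.mem_singleton.1 hx]
      have : 2 ^ 1 ≤ 2 ^ a := Nat.pow_le_pow_right (by norm_num) ha1
      omega)
    rwa [List.prod_singleton] at h3
  have h3 := (hs.add h1).add h2
  have e1 : f * (K + ρ - 1) + (K + ρ) = f * (K - 1) + K + (f + 1) * ρ := by
    obtain ⟨k, rfl⟩ : ∃ k, K = k + 1 := ⟨K - 1, by omega⟩
    have e2 : k + 1 + ρ - 1 = k + ρ := by omega
    rw [e2, Nat.add_sub_cancel]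
    ring
  have e3 : 2 ^ (f * (K + ρ - 1) + (K + ρ)) * z' + ∑ i, 2 ^ (f * (K - 1) + K) * (X i).prod +
      2 ^ (f * (K - 1) + K) * ε = 2 ^ (f * (K - 1) + K) * z := by
    rw [e1, pow_add, ← Finset.mul_sum, hzz]
    ring
  rw [e3] at h3
  exact h3

/-- The end: one factor. -/
theorem ChainHyp.last {a f c b l e : ℕ} (H : ChainHyp a f c b l e) {K z : ℕ} (hK1 : 1 ≤ K)
    (hz : z < 2 ^ (4 * b)) : SumOf f c 1 (2 ^ (f * (K - 1) + K) * z) := by
  apply SumOf.one
  have ha1 : 1 ≤ a := by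
    have := H.ha
    have := H.hb
    omega
  have h3 := H.cov.prodK ha1 K hK1 [z] (by simpa using hK1) (by
    intro x hx
    rw [List.mem_singleton.1 hx]
    exact lt_of_lt_of_le hz (Nat.pow_le_pow_right (by norm_num) H.ha))
  rwa [List.prod_singleton] at h3

/-- Downwards. -/
theorem ChainHyp.down {a f c b l e : ℕ} (H : ChainHyp a f c b l e) (J : ℕ) (hJ : J ≤ e) :
    ∀ K z, 1 ≤ K → 2 ^ (J + 1) - 3 ≤ K → z < 2 ^ (b * 2 ^ (J + 2)) →
      SumOf f c (45 * J + 1) (2 ^ (f * (K - 1) + K) * z) := by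
  induction J with
  | zero =>
    intro K z hK1 _ hz
    have e1 : b * 2 ^ (0 + 2) = 4 * b := by ring
    rw [e1] at hz
    exact H.last hK1 hz
  | succ J ih =>
    have hD := ih (by omega)
    have hmono : 2 ^ (J + 1) ≤ 2 ^ (J + 1 + 1) := Nat.pow_le_pow_right (by norm_num) (by omega)
    obtain ⟨ρ, hρ⟩ : ∃ ρ, ρ = b * 2 ^ J / (f + 1) := ⟨_, rfl⟩
    have hρ1 : (f + 1) * ρ ≤ b * 2 ^ J := by
      rw [hρ]
      exact Nat.mul_div_le _ _
    have hρ2 : b * 2 ^ J < (f + 1) * ρ + (f + 1) := by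
      rw [hρ]
      have := Nat.lt_mul_div_succ (b * 2 ^ J) (show 0 < f + 1 by omega)
      linarith
    have inner : ∀ r K z, 1 ≤ K → 2 ^ (J + 1 + 1) - 3 ≤ K →
        z < 2 ^ (b * 2 ^ (J + 2) + r * ((f + 1) * ρ)) →
        SumOf f c (45 * J + 1 + 9 * r) (2 ^ (f * (K - 1) + K) * z) := by
      intro r
      induction r with
      | zero =>
        intro K z hK1 hK hz
        rw [zero_mul, add_zero] at hz
        exact hD K z hK1 (by omega) hz
      | succ r ihr =>
        intro K z hK1 hK hz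
        rcases Nat.lt_or_ge z (2 ^ (b * 2 ^ (J + 2))) with hlt | hge
        · exact (hD K z hK1 (by omega) hlt).mono (by omega)
        · obtain ⟨z', hz', hs⟩ := H.step (J := J) (K := K) (ρ := ρ) (by omega) hK hK1 hρ1 hge
          have h1 := ihr (K + ρ) z' (by omega) (by omega) (by
            have h2 : 2 ^ ((f + 1) * ρ) * z' <
                2 ^ ((f + 1) * ρ) * 2 ^ (b * 2 ^ (J + 2) + r * ((f + 1) * ρ)) := by
              rw [← pow_add]
              refine lt_of_le_of_lt hz' (lt_of_lt_of_le hz ?_)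
              apply Nat.pow_le_pow_right (by norm_num)
              rw [add_mul r 1, one_mul]
              omega
            exact Nat.lt_of_mul_lt_mul_left h2)
          exact (hs _ h1).mono (by omega)
    intro K z hK1 hK hz
    refine (inner 5 K z hK1 hK (lt_of_lt_of_le hz ?_)).mono (by omega)
    apply Nat.pow_le_pow_right (by norm_num)
    have h1 : 1 ≤ 2 ^ J := Nat.one_le_two_pow
    have h2 : b ≤ b * 2 ^ J := Nat.le_mul_of_pos_right b (by omega)
    have h3 : b * 2 ^ (J + 1 + 2) = 8 * (b * 2 ^ J) := by ring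
    have h4 : b * 2 ^ (J + 2) = 4 * (b * 2 ^ J) := by ring
    have h5 := H.hf
    omega

/-- Upwards, then downwards. -/
theorem ChainHyp.up {a f c b l e : ℕ} (H : ChainHyp a f c b l e) (m : ℕ) :
    ∀ J K z, J + m ≤ e → 1 ≤ K → 2 ^ (J + 2) - 3 ≤ K → z < 2 ^ (b * 2 ^ (J + 2 + m)) →
      SumOf f c (45 * (J + m) + 1 + 9 * m) (2 ^ (f * (K - 1) + K) * z) := by
  induction m with
  | zero =>
    intro J K z hJ hK1 hK hz
    have hmono : 2 ^ (J + 1) ≤ 2 ^ (J + 2) := Nat.pow_le_pow_right (by norm_num) (by omega)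
    exact H.down J (by omega) K z hK1 (by omega) hz
  | succ m ih =>
    intro J K z hJ hK1 hK hz
    have hmono : 2 ^ (J + 1) ≤ 2 ^ (J + 2) := Nat.pow_le_pow_right (by norm_num) (by omega)
    rcases Nat.lt_or_ge z (2 ^ (b * 2 ^ (J + 2))) with hlt | hge
    · exact (H.down J (by omega) K z hK1 (by omega) hlt).mono (by omega)
    · obtain ⟨ρ, hρ⟩ : ∃ ρ, ρ = b * 2 ^ J / (f + 1) := ⟨_, rfl⟩
      have hρ1 : (f + 1) * ρ ≤ b * 2 ^ J := by
        rw [hρ]
        exact Nat.mul_div_le _ _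
      have hρ2 : 2 ^ (J + 2) ≤ ρ := by
        rw [hρ, Nat.le_div_iff_mul_le (by omega)]
        have h5 := H.hf
        have h6 : 2 ^ (J + 2) * (f + 1) = (4 * (f + 1)) * 2 ^ J := by ring
        rw [h6]
        exact Nat.mul_le_mul_right _ (by omega)
      obtain ⟨z', hz', hs⟩ := H.step (J := J) (K := K) (ρ := ρ) (by omega) hK hK1 hρ1 hge
      have hzz : z' ≤ z := by
        refine le_trans ?_ hz'
        exact Nat.le_mul_of_pos_left _ (by positivity)
      have e1 : 2 ^ (J + 1 + 2) = 2 ^ (J + 2) + 2 ^ (J + 2) := by ring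
      have e2 : J + 1 + 2 + m = J + 2 + (m + 1) := by omega
      have h1 := ih (J + 1) (K + ρ) z' (by omega) (by omega) (by omega) (by
        rw [e2]
        exact lt_of_le_of_lt hzz hz)
      exact (hs _ h1).mono (by omega)

/-- Every number below `2 ^ (2 ^ e)` is a sum of `54 e + 2` available lengths. -/
theorem ChainHyp.all {a f c b l e : ℕ} (H : ChainHyp a f c b l e) (q : ℕ) (hq : q < 2 ^ 2 ^ e) :
    SumOf f c (54 * e + 2) q := by
  have hb1 : 8 ≤ b := by
    have := H.hb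
    omega
  have h1 := H.up e 0 1 (q / 2) (by omega) le_rfl (by norm_num) (by
    refine lt_of_le_of_lt (Nat.div_le_self _ _) (lt_of_lt_of_le hq ?_)
    apply Nat.pow_le_pow_right (by norm_num)
    have h2 : 2 ^ e ≤ 2 ^ (0 + 2 + e) := Nat.pow_le_pow_right (by norm_num) (by omega)
    exact h2.trans (Nat.le_mul_of_pos_left _ (by omega)))
  have h2 : SumOf f c 1 (q % 2) := by
    apply SumOf.one
    rcases Nat.mod_two_eq_zero_or_one q with h4 | h4
    · rw [h4]
      exact (Av.zero f 0).mono le_rfl (Nat.zero_le _)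
    · rw [h4]
      exact Av.base.mono (Nat.zero_le _) (Nat.zero_le _)
  have h3 := h1.add h2
  have e1 : f * (1 - 1) + 1 = 1 := by simp
  rw [e1, pow_one, Nat.div_add_mod] at h3
  exact h3.mono (by omega)

/-- STEP of the recursion. -/
theorem Cov.step2 {a f c b l e : ℕ} (H : ChainHyp a f c b l e) :
    Cov (2 ^ e) (f + 1) ((54 * e + 2) * (c + f + 2)) := by
  intro q hq
  exact (H.all q hq).av

/-- STEP, explicit. -/
theorem Cov.step3 {f c e : ℕ} (h : Cov (64 * e + 352) f c) (hf : f ≤ 16) :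
    Cov (2 ^ e) (f + 1) ((54 * e + 2) * (c + f + 2)) := by
  apply Cov.step2 (a := 64 * e + 352) (b := 16 * e + 88) (l := 2 * e + 10)
  refine ⟨h, by omega, by omega, by omega, ?_⟩
  have h1 : 4 * (16 * e + 88) ≤ 2 ^ (e + 10) := by
    have h2 : e + 1 ≤ 2 ^ e := Nat.lt_two_pow_self
    have h3 : 2 ^ (e + 10) = 1024 * 2 ^ e := by ring
    omega
  calc 4 * (16 * e + 88) * 2 ^ e ≤ 2 ^ (e + 10) * 2 ^ e := Nat.mul_le_mul_right _ h1
    _ = 2 ^ (2 * e + 10) := by
      rw [← pow_add]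
      congr 1
      omega

end HadCalc
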