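import Pool.Agent.Lib_MP_008adc_co.MulR

/-!
# Piece PRODL: the product rule for lists
-/

set_option autoImplicit false

namespace HadCalc

/-- `∏` rule for lists, by induction from `Av.mul` (the list must not be empty):
`2 ^ f * x * (2 ^ (f * (l.length - 1)) * l.prod) = 2 ^ (f * l.length) * (x * l.prod)`. -/
theorem Av.prod_list {f c : ℕ} (l : List ℕ) (hl : l ≠ []) (h : ∀ x ∈ l, Av f c x) :
    Av f c (2 ^ (f * (l.length - 1)) * l.prod) := by
  induction l with
  | nil => exact absurd rfl hl
  | cons x t ih =>
    rcases t with _ | ⟨y, t⟩
    · have h1 := h x (by simp)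
      simpa using h1
    · have h1 := h x (by simp)
      have h2 := ih (by simp) (fun z hz => h z (List.mem_cons_of_mem _ hz))
      have h3 := h1.mul h2
      have e1 : 2 ^ f * x * (2 ^ (f * ((y :: t).length - 1)) * (y :: t).prod) =
          2 ^ (f * ((x :: y :: t).length - 1)) * (x :: y :: t).prod := by
        have e2 : (x :: y :: t).length - 1 = ((y :: t).length - 1) + 1 := by
          simp
        rw [e2, List.prod_cons (a := x), mul_add, pow_add, mul_one]
        ring
      rwa [e1] at h3

end HadCalc
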