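import Pool.Agent.Lib_MP_008adc_co.Defs

/-!
# Piece FULLB: two further constructions of `Full` matrices
-/

set_option autoImplicit false

namespace HadCalc

open Matrix
open scoped Kronecker

/-- The matrix with the rows `(0, 1)` and `(1, 0)`. -/
def sx : Matrix (Fin 2) (Fin 2) ℤ := !![0, 1; 1, 0]

/-- The diagonal matrix with the entries `1` and `-1`. -/
def sz : Matrix (Fin 2) (Fin 2) ℤ := !![1, 0; 0, -1]

/-- The Hadamard matrix of order 2. -/
def hh : Matrix (Fin 2) (Fin 2) ℤ := !![1, 1; 1, -1]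

/-- The small matrices are `Full` for the trivial class function, respectively `hh` for the
identity. -/
theorem full_sx : Full (fun _ : Fin 2 => ()) sx :=
  ⟨by decide, by unfold ExistsUnique; decide, by unfold ExistsUnique; decide⟩

theorem full_sz : Full (fun _ : Fin 2 => ()) sz :=
  ⟨by decide, by unfold ExistsUnique; decide, by unfold ExistsUnique; decide⟩

theorem full_one {μ : Type} [DecidableEq μ] : Full (fun _ : μ => ()) (1 : Matrix μ μ ℤ) := by
  refine ⟨fun i j => ?_, fun i _ => ⟨i, ⟨rfl, ?_⟩, ?_⟩, fun j _ => ⟨j, ⟨rfl, ?_⟩, ?_⟩⟩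
  · by_cases h : i = j
    · subst h
      right
      left
      exact Matrix.one_apply_eq i
    · left
      exact Matrix.one_apply_ne h
  · rw [Matrix.one_apply_eq]
    exact one_ne_zero
  · rintro j ⟨_, hj⟩
    by_contra h
    exact hj (Matrix.one_apply_ne (Ne.symm h))
  · rw [Matrix.one_apply_eq]
    exact one_ne_zero
  · rintro i ⟨_, hi⟩
    by_contra h
    exact hi (Matrix.one_apply_ne h)

theorem full_hh : Full (fun b : Fin 2 => b) hh :=
  ⟨by decide, by unfold ExistsUnique; decide, by unfold ExistsUnique; decide⟩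

private theorem tri_mul {x y : ℤ} (hx : x = 0 ∨ x = 1 ∨ x = -1) (hy : y = 0 ∨ y = 1 ∨ y = -1) :
    x * y = 0 ∨ x * y = 1 ∨ x * y = -1 := by
  rcases hx with rfl | rfl | rfl <;> rcases hy with rfl | rfl | rfl <;> simp

/-- Kronecker product of two matrices which are `Full` for the trivial class functions. -/
theorem full_unit_kron {μ ν : Type} {P : Matrix μ μ ℤ} {R : Matrix ν ν ℤ}
    (hP : Full (fun _ : μ => ()) P) (hR : Full (fun _ : ν => ()) R) :
    Full (fun _ : μ × ν => ()) (P ⊗ₖ R) := by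
  refine ⟨fun i j => ?_, fun i _ => ?_, fun j _ => ?_⟩
  · exact tri_mul (hP.tri i.1 j.1) (hR.tri i.2 j.2)
  · obtain ⟨k, ⟨_, hk⟩, hk'⟩ := hP.row i.1 ()
    obtain ⟨l, ⟨_, hl⟩, hl'⟩ := hR.row i.2 ()
    refine ⟨(k, l), ⟨rfl, mul_ne_zero hk hl⟩, ?_⟩
    rintro ⟨k', l'⟩ ⟨_, h⟩
    have h1 : P i.1 k' * R i.2 l' ≠ 0 := h
    exact Prod.ext (hk' k' ⟨rfl, left_ne_zero_of_mul h1⟩) (hl' l' ⟨rfl, right_ne_zero_of_mul h1⟩)
  · obtain ⟨k, ⟨_, hk⟩, hk'⟩ := hP.col j.1 ()
    obtain ⟨l, ⟨_, hl⟩, hl'⟩ := hR.col j.2 ()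
    refine ⟨(k, l), ⟨rfl, mul_ne_zero hk hl⟩, ?_⟩
    rintro ⟨k', l'⟩ ⟨_, h⟩
    have h1 : P k' j.1 * R l' j.2 ≠ 0 := h
    exact Prod.ext (hk' k' ⟨rfl, left_ne_zero_of_mul h1⟩) (hl' l' ⟨rfl, right_ne_zero_of_mul h1⟩)

private theorem pair_apply {ι : Type} (X Y : Matrix ι ι ℤ) (p q : ι × Fin 2) :
    (X ⊗ₖ (1 : Matrix (Fin 2) (Fin 2) ℤ) + Y ⊗ₖ sx) p q =
      if p.2 = q.2 then X p.1 q.1 else Y p.1 q.1 := by
  obtain ⟨i, a⟩ := p
  obtain ⟨j, b⟩ := q
  rw [Matrix.add_apply, Matrix.kroneckerMap_apply, Matrix.kroneckerMap_apply]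
  fin_cases a <;> fin_cases b <;> simp [sx]

/-- The matrix `X ⊗ 1 + Y ⊗ sx` with the classes `(cls i, b)`. Entry at `((i, a), (j, b))`: it is
`X i j` when `a = b` and `Y i j` when `a ≠ b`. So for the row `(i, a)` and the class `(c, b)` the
unique index is `(j, b)` with `j` the unique index of class `c` in row `i` of `X` (if `b = a`)
respectively of `Y` (if `b ≠ a`). Columns in the same way. -/
theorem Full.pair {ι κ : Type} {cls : ι → κ} {X Y : Matrix ι ι ℤ}
    (hX : Full cls X) (hY : Full cls Y) :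
    Full (fun p : ι × Fin 2 => (cls p.1, p.2)) (X ⊗ₖ (1 : Matrix (Fin 2) (Fin 2) ℤ) + Y ⊗ₖ sx) := by
  refine ⟨fun p q => ?_, ?_, ?_⟩
  · rw [pair_apply]
    split_ifs
    · exact hX.tri _ _
    · exact hY.tri _ _
  · rintro ⟨i, a⟩ ⟨c, b⟩
    by_cases hab : a = b
    · obtain ⟨j, ⟨hj, hj0⟩, hj'⟩ := hX.row i c
      refine ⟨(j, b), ⟨Prod.ext hj rfl, ?_⟩, ?_⟩
      · rw [pair_apply, if_pos hab]
        exact hj0
      · rintro ⟨j', b'⟩ ⟨h1, h2⟩
        have hb' : b' = b := congrArg Prod.snd h1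
        have hc' : cls j' = c := congrArg Prod.fst h1
        subst hb'
        rw [pair_apply, if_pos hab] at h2
        exact Prod.ext (hj' j' ⟨hc', h2⟩) rfl
    · obtain ⟨j, ⟨hj, hj0⟩, hj'⟩ := hY.row i c
      refine ⟨(j, b), ⟨Prod.ext hj rfl, ?_⟩, ?_⟩
      · rw [pair_apply, if_neg hab]
        exact hj0
      · rintro ⟨j', b'⟩ ⟨h1, h2⟩
        have hb' : b' = b := congrArg Prod.snd h1
        have hc' : cls j' = c := congrArg Prod.fst h1
        subst hb'
        rw [pair_apply, if_neg hab] at h2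
        exact Prod.ext (hj' j' ⟨hc', h2⟩) rfl
  · rintro ⟨i, a⟩ ⟨c, b⟩
    by_cases hab : b = a
    · obtain ⟨j, ⟨hj, hj0⟩, hj'⟩ := hX.col i c
      refine ⟨(j, b), ⟨Prod.ext hj rfl, ?_⟩, ?_⟩
      · rw [pair_apply, if_pos hab]
        exact hj0
      · rintro ⟨j', b'⟩ ⟨h1, h2⟩
        have hb' : b' = b := congrArg Prod.snd h1
        have hc' : cls j' = c := congrArg Prod.fst h1
        subst hb'
        rw [pair_apply, if_pos hab] at h2
        exact Prod.ext (hj' j' ⟨hc', h2⟩) rfl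
    · obtain ⟨j, ⟨hj, hj0⟩, hj'⟩ := hY.col i c
      refine ⟨(j, b), ⟨Prod.ext hj rfl, ?_⟩, ?_⟩
      · rw [pair_apply, if_neg hab]
        exact hj0
      · rintro ⟨j', b'⟩ ⟨h1, h2⟩
        have hb' : b' = b := congrArg Prod.snd h1
        have hc' : cls j' = c := congrArg Prod.fst h1
        subst hb'
        rw [pair_apply, if_neg hab] at h2
        exact Prod.ext (hj' j' ⟨hc', h2⟩) rfl

/-- The product `A * P * B` with `P` the diagonal projection onto the indices of class `c₀`.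
Its entry at `(i, j)` is `∑ A i k * B k j` over the `k` of class `c₀`. For fixed `i` exactly one `k₀`
of class `c₀` has `A i k₀ ≠ 0` (equal to `1` or `-1`), so row `i` is plus or minus row `k₀` of `B`:
this gives `tri` and `row`. For fixed `j` exactly one `k₁` of class `c₀` has `B k₁ j ≠ 0`, so column
`j` is plus or minus column `k₁` of `A`: this gives `col`. -/
theorem Full.mul_proj {ι κ : Type} [Fintype ι] [DecidableEq ι] [DecidableEq κ] {cls : ι → κ}
    {A B : Matrix ι ι ℤ} (hA : Full cls A) (hB : Full cls B) (c₀ : κ) :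
    Full cls (A * Matrix.diagonal (fun i => if cls i = c₀ then (1 : ℤ) else 0) * B) := by
  have happ : ∀ i j, (A * Matrix.diagonal (fun i => if cls i = c₀ then (1 : ℤ) else 0) * B) i j =
      ∑ k, (if cls k = c₀ then A i k * B k j else 0) := by
    intro i j
    rw [Matrix.mul_apply]
    refine Finset.sum_congr rfl fun k _ => ?_
    rw [Matrix.mul_diagonal]
    split_ifs <;> simp
  -- the rows
  have hrow : ∀ i, ∃ k₀, cls k₀ = c₀ ∧ A i k₀ ≠ 0 ∧ ∀ j,
      (A * Matrix.diagonal (fun i => if cls i = c₀ then (1 : ℤ) else 0) * B) i j =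
        A i k₀ * B k₀ j := by
    intro i
    obtain ⟨k₀, ⟨hk, hk0⟩, hk'⟩ := hA.row i c₀
    refine ⟨k₀, hk, hk0, fun j => ?_⟩
    rw [happ, Finset.sum_eq_single k₀, if_pos hk]
    · intro k _ hkk
      by_cases hc : cls k = c₀
      · rw [if_pos hc]
        have h0 : A i k = 0 := by
          by_contra h
          exact hkk (hk' k ⟨hc, h⟩)
        rw [h0, zero_mul]
      · rw [if_neg hc]
    · intro h
      exact absurd (Finset.mem_univ _) h
  have hcol : ∀ j, ∃ k₁, cls k₁ = c₀ ∧ B k₁ j ≠ 0 ∧ ∀ i,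
      (A * Matrix.diagonal (fun i => if cls i = c₀ then (1 : ℤ) else 0) * B) i j =
        A i k₁ * B k₁ j := by
    intro j
    obtain ⟨k₁, ⟨hk, hk0⟩, hk'⟩ := hB.col j c₀
    refine ⟨k₁, hk, hk0, fun i => ?_⟩
    rw [happ, Finset.sum_eq_single k₁, if_pos hk]
    · intro k _ hkk
      by_cases hc : cls k = c₀
      · rw [if_pos hc]
        have h0 : B k j = 0 := by
          by_contra h
          exact hkk (hk' k ⟨hc, h⟩)
        rw [h0, mul_zero]
      · rw [if_neg hc]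
    · intro h
      exact absurd (Finset.mem_univ _) h
  refine ⟨fun i j => ?_, fun i c => ?_, fun j c => ?_⟩
  · obtain ⟨k₀, _, _, h⟩ := hrow i
    rw [h j]
    exact tri_mul (hA.tri _ _) (hB.tri _ _)
  · obtain ⟨k₀, _, h0, h⟩ := hrow i
    obtain ⟨j, ⟨hj, hj0⟩, hj'⟩ := hB.row k₀ c
    refine ⟨j, ⟨hj, ?_⟩, ?_⟩
    · rw [h j]
      exact mul_ne_zero h0 hj0
    · rintro j' ⟨h1, h2⟩
      rw [h j'] at h2
      exact hj' j' ⟨h1, right_ne_zero_of_mul h2⟩
  · obtain ⟨k₁, _, h0, h⟩ := hcol j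
    obtain ⟨i, ⟨hi, hi0⟩, hi'⟩ := hA.col k₁ c
    refine ⟨i, ⟨hi, ?_⟩, ?_⟩
    · rw [h i]
      exact mul_ne_zero hi0 h0
    · rintro i' ⟨h1, h2⟩
      rw [h i'] at h2
      exact hi' i' ⟨h1, left_ne_zero_of_mul h2⟩

end HadCalc
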