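import Pool.Agent.Lib_MP_008adc_co.Defs

/-!
# Piece EVA: calculus of `toC` and `ev`

All proofs are entrywise or by linearity of the finite sum; `toC` is the ring homomorphism
`Matrix.map` of the cast `ℤ → ℂ`, which commutes with products, transposes, Kronecker products and
submatrices. For `norm_comm` use that a one-sided inverse of a square matrix over a field is
two-sided (`Matrix.mul_eq_one_comm`), after dividing by the nonzero scalar; when `F * L = 0`
the hypothesis `M * Mᴴ = 0` gives `M = 0` (`Matrix.self_mul_conjTranspose_eq_zero`).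
-/

set_option autoImplicit false

namespace HadCalc

open Matrix
open scoped Kronecker

theorem toC_mul {ι : Type} [Fintype ι] (A B : Matrix ι ι ℤ) : toC (A * B) = toC A * toC B := by
  ext i j
  simp only [toC, Matrix.map_apply, Matrix.mul_apply]
  push_cast
  rfl

theorem toC_add {ι : Type} (A B : Matrix ι ι ℤ) : toC (A + B) = toC A + toC B := by
  ext i j
  simp [toC]

theorem toC_neg {ι : Type} (A : Matrix ι ι ℤ) : toC (-A) = -toC A := by
  ext i j
  simp [toC]

theorem toC_one {ι : Type} [DecidableEq ι] : toC (1 : Matrix ι ι ℤ) = 1 := by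
  ext i j
  by_cases h : i = j
  · subst h
    simp [toC]
  · simp [toC, h]

theorem toC_transpose {ι : Type} (A : Matrix ι ι ℤ) : toC Aᵀ = (toC A)ᵀ := by
  ext i j
  simp [toC]

theorem toC_conjTranspose {ι : Type} (A : Matrix ι ι ℤ) : (toC A)ᴴ = toC Aᵀ := by
  ext i j
  simp [toC, Matrix.conjTranspose_apply]

theorem toC_kron {ι μ : Type} (A : Matrix ι ι ℤ) (B : Matrix μ μ ℤ) :
    toC (A ⊗ₖ B) = toC A ⊗ₖ toC B := by
  ext i j
  simp [toC, Matrix.kroneckerMap_apply]

theorem toC_submatrix {ι ι' : Type} (A : Matrix ι ι ℤ) (e : ι' → ι) :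
    toC (A.submatrix e e) = (toC A).submatrix e e := by
  ext i j
  simp [toC]

theorem toC_diagonal {ι : Type} [DecidableEq ι] (d : ι → ℤ) :
    toC (Matrix.diagonal d) = Matrix.diagonal (fun i => (d i : ℂ)) := by
  ext i j
  by_cases h : i = j
  · subst h
    simp [toC]
  · simp [toC, h]

/-- The adjoint of the value. -/
theorem ev_conjTranspose {ι : Type} (L : ℕ) (Q : ℕ → Matrix ι ι ℤ) (z : ℂ) :
    (ev L Q z)ᴴ = ∑ j ∈ Finset.range L, (star z) ^ j • toC (Q j)ᵀ := by
  unfold ev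
  rw [Matrix.conjTranspose_sum]
  refine Finset.sum_congr rfl fun j _ => ?_
  rw [Matrix.conjTranspose_smul, toC_conjTranspose, star_pow]

/-- For `|z| = 1` the adjoint is the value of the reversed transposed polynomial, up to a power of
`z`: `z ^ (L - 1) • Qᴴ = ∑ z ^ (L - 1 - j) Q_jᵀ = ∑ z ^ j Q_{L-1-j}ᵀ`. -/
theorem ev_reverse {ι : Type} (L : ℕ) (Q : ℕ → Matrix ι ι ℤ) (z : ℂ) (hz : ‖z‖ = 1) :
    ev L (fun j => (Q (L - 1 - j))ᵀ) z = z ^ (L - 1) • (ev L Q z)ᴴ := by
  rw [ev_conjTranspose, Finset.smul_sum]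
  unfold ev
  rw [← Finset.sum_range_reflect]
  refine Finset.sum_congr rfl fun j hj => ?_
  have hjL := Finset.mem_range.1 hj
  have h1 : L - 1 - (L - 1 - j) = j := by omega
  change z ^ (L - 1 - j) • toC (Q (L - 1 - (L - 1 - j)))ᵀ = _
  rw [h1, smul_smul]
  congr 1
  have hz0 : z * star z = 1 := by
    have h2 : z * (starRingEnd ℂ) z = ((Complex.normSq z : ℝ) : ℂ) := Complex.mul_conj z
    have h3 : Complex.normSq z = 1 := by
      rw [Complex.normSq_eq_norm_sq, hz, one_pow]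
    rw [h3] at h2
    rw [Complex.ofReal_one] at h2
    exact h2
  have h4 : z ^ (L - 1) = z ^ (L - 1 - j) * z ^ j := by
    rw [← pow_add]
    congr 1
    omega
  rw [h4, mul_assoc, ← mul_pow, hz0, one_pow, mul_one]

/-- Kronecker product with a constant matrix on the right. -/
theorem ev_kron_right {ι μ : Type} (L : ℕ) (Q : ℕ → Matrix ι ι ℤ) (B : Matrix μ μ ℤ) (z : ℂ) :
    ev L (fun j => Q j ⊗ₖ B) z = ev L Q z ⊗ₖ toC B := by
  unfold ev
  ext i j
  simp only [Matrix.sum_apply, Matrix.smul_apply, Matrix.kroneckerMap_apply, toC_kron,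
    Finset.sum_mul, smul_eq_mul, mul_assoc]

/-- Kronecker product with a constant matrix on the left. -/
theorem ev_kron_left {ι μ : Type} (L : ℕ) (Q : ℕ → Matrix ι ι ℤ) (B : Matrix μ μ ℤ) (z : ℂ) :
    ev L (fun j => B ⊗ₖ Q j) z = toC B ⊗ₖ ev L Q z := by
  unfold ev
  ext i j
  simp only [Matrix.sum_apply, Matrix.smul_apply, Matrix.kroneckerMap_apply, toC_kron,
    Finset.mul_sum, smul_eq_mul]
  refine Finset.sum_congr rfl fun k _ => ?_
  ring

theorem ev_submatrix {ι ι' : Type} (L : ℕ) (Q : ℕ → Matrix ι ι ℤ) (e : ι' → ι) (z : ℂ) :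
    ev L (fun j => (Q j).submatrix e e) z = (ev L Q z).submatrix e e := by
  unfold ev
  ext i j
  simp only [Matrix.sum_apply, Matrix.smul_apply, Matrix.submatrix_apply, toC_submatrix]

/-- `ev` only depends on the coefficients below `L`. -/
theorem ev_congr {ι : Type} {L : ℕ} {Q R : ℕ → Matrix ι ι ℤ} (h : ∀ j < L, Q j = R j) (z : ℂ) :
    ev L Q z = ev L R z := by
  unfold ev
  refine Finset.sum_congr rfl fun j hj => ?_
  rw [h j (Finset.mem_range.1 hj)]

/-- Splitting a polynomial of length `L₁ + L₂`. -/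
theorem ev_add_length {ι : Type} (L₁ L₂ : ℕ) (Q : ℕ → Matrix ι ι ℤ) (z : ℂ) :
    ev (L₁ + L₂) Q z = ev L₁ Q z + z ^ L₁ • ev L₂ (fun j => Q (L₁ + j)) z := by
  unfold ev
  rw [Finset.sum_range_add, Finset.smul_sum]
  congr 1
  refine Finset.sum_congr rfl fun j _ => ?_
  rw [smul_smul, ← pow_add]

/-- A structure satisfies also `Qᴴ Q = F L`. -/
theorem Good.norm_comm {ι κ : Type} [Fintype ι] [DecidableEq ι] {cls : ι → κ} {F L : ℕ}
    {Q : ℕ → Matrix ι ι ℤ} (h : Good cls F L Q) (z : ℂ) (hz : ‖z‖ = 1) :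
    (ev L Q z)ᴴ * ev L Q z = ((F * L : ℕ) : ℂ) • (1 : Matrix ι ι ℂ) := by
  have h1 := h.norm z hz
  obtain ⟨M, hM⟩ : ∃ M, M = ev L Q z := ⟨_, rfl⟩
  rw [← hM] at h1 ⊢
  by_cases h0 : ((F * L : ℕ) : ℂ) = 0
  · rw [h0, zero_smul] at h1 ⊢
    have h2 : M = 0 := by
      ext i j
      have h3 := congrFun (congrFun h1 i) i
      rw [Matrix.mul_apply, Matrix.zero_apply] at h3
      have h4 : ∀ k, M i k * Mᴴ k i = ((Complex.normSq (M i k) : ℝ) : ℂ) := fun k => by
        rw [Matrix.conjTranspose_apply]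
        exact Complex.mul_conj _
      rw [Finset.sum_congr rfl fun k _ => h4 k, ← Complex.ofReal_sum, Complex.ofReal_eq_zero,
        Finset.sum_eq_zero_iff_of_nonneg fun k _ => Complex.normSq_nonneg _] at h3
      exact Complex.normSq_eq_zero.1 (h3 j (Finset.mem_univ j))
    rw [h2, Matrix.mul_zero]
  · have h2 : M * (((F * L : ℕ) : ℂ)⁻¹ • Mᴴ) = 1 := by
      rw [Matrix.mul_smul, h1, smul_smul, inv_mul_cancel₀ h0, one_smul]
    have h3 := mul_eq_one_comm.1 h2
    rw [Matrix.smul_mul] at h3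
    rw [← h3, smul_smul, mul_inv_cancel₀ h0, one_smul]

end HadCalc
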