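import Pool.Agent.Lib_MP_008adc_co.FullB
import Pool.Agent.Lib_MP_008adc_co.EvA

/-!
# Piece PADD4: adjoints of palindromic polynomials and the scalar identities of the sum rule
-/

set_option autoImplicit false

namespace HadCalc

open Matrix
open scoped Kronecker

/-- Palindromic polynomials of length `2 h`: `X(z)ᴴ = z⁻¹ ^ (2 h - 1) X(z)`, that is
`z ^ (2 h) • X(z)ᴴ = z • X(z)`. PROOF. `ev_reverse` with `L = 2 h` and `ev_congr`:
`X_{2h-1-j}ᵀ = X_j` for `j < 2 h`, so `X(z) = z ^ (2 h - 1) • X(z)ᴴ`; multiply by `z`. (For `h = 0`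
both sides are `0`.) -/
theorem pal_adjoint {ι : Type} {h : ℕ} {X : ℕ → Matrix ι ι ℤ}
    (hX : ∀ j < 2 * h, (X j)ᵀ = X (2 * h - 1 - j)) (z : ℂ) (hz : ‖z‖ = 1) :
    z ^ (2 * h) • (ev (2 * h) X z)ᴴ = z • ev (2 * h) X z := by
  rcases Nat.eq_zero_or_pos h with rfl | hh
  · unfold ev
    simp
  · have h1 := ev_reverse (2 * h) X z hz
    have h2 : ev (2 * h) (fun j => (X (2 * h - 1 - j))ᵀ) z = ev (2 * h) X z := by
      refine ev_congr (fun j hj => ?_) z
      rw [hX _ (by omega)]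
      congr 1
      omega
    rw [h2] at h1
    conv_rhs => rw [h1]
    rw [smul_smul, ← pow_succ']
    congr 2
    omega

/-- Antipalindromic polynomials. -/
theorem antipal_adjoint {ι : Type} {h : ℕ} {Y : ℕ → Matrix ι ι ℤ}
    (hY : ∀ j < 2 * h, (Y j)ᵀ = -Y (2 * h - 1 - j)) (z : ℂ) (hz : ‖z‖ = 1) :
    z ^ (2 * h) • (ev (2 * h) Y z)ᴴ = -(z • ev (2 * h) Y z) := by
  rcases Nat.eq_zero_or_pos h with rfl | hh
  · unfold ev
    simp
  · have h1 := ev_reverse (2 * h) Y z hz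
    have h2 : ev (2 * h) (fun j => (Y (2 * h - 1 - j))ᵀ) z = -ev (2 * h) Y z := by
      have h3 : ev (2 * h) (fun j => (Y (2 * h - 1 - j))ᵀ) z = ev (2 * h) (fun j => -Y j) z := by
        refine ev_congr (fun j hj => ?_) z
        rw [hY _ (by omega)]
        congr 2
        omega
      rw [h3]
      unfold ev
      rw [← Finset.sum_neg_distrib]
      refine Finset.sum_congr rfl fun j _ => ?_
      rw [toC_neg, smul_neg]
    rw [h2] at h1
    have h4 : ev (2 * h) Y z = -(z ^ (2 * h - 1) • (ev (2 * h) Y z)ᴴ) := by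
      rw [← h1, neg_neg]
    conv_rhs => rw [h4]
    rw [smul_neg, neg_neg, smul_smul, ← pow_succ']
    congr 2
    omega

/-- The hypothesis of `addpair_normX` for `A = z ^ L • A₀` and `R = z ^ (L + 2 h) M + z ^ (L - 1) Mᴴ`.
PROOF. `conj z = z⁻¹` =: `w`. If `L = 0` then `M = 0` and both sides vanish. If `L ≥ 1`:
`Rᴴ = w ^ (L + 2 h) Mᴴ + w ^ (L - 1) M = w ^ (2 h + 2 L - 1) R` and
`A₀ᴴ = w ^ (2 h) z A₀ = w ^ (2 h) z A₀` (from `hA`), so
`A ⊗ Rᴴ = z ^ L w ^ (2 h + 2 L - 1) A₀ ⊗ R` and `Aᴴ ⊗ R = w ^ L w ^ (2 h) z A₀ ⊗ R`; the two scalars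
are equal because `z w = 1`. -/
theorem addpair_hypX {ι₀ ι₁ : Type} (h L : ℕ) (A₀ : Matrix ι₀ ι₀ ℂ) (M : Matrix ι₁ ι₁ ℂ) (z : ℂ)
    (hz : ‖z‖ = 1) (hA : z ^ (2 * h) • A₀ᴴ = z • A₀) (hM : L = 0 → M = 0) :
    (z ^ L • A₀) ⊗ₖ (z ^ (L + 2 * h) • M + z ^ (L - 1) • Mᴴ)ᴴ =
      (z ^ L • A₀)ᴴ ⊗ₖ (z ^ (L + 2 * h) • M + z ^ (L - 1) • Mᴴ) := by
  rcases Nat.eq_zero_or_pos L with rfl | hL
  · rw [hM rfl]
    simp
  obtain ⟨l, rfl⟩ : ∃ l, L = l + 1 := ⟨L - 1, by omega⟩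
  have hzw : z * star z = 1 := by
    have h1 := Complex.mul_conj' z
    rw [hz] at h1
    simpa using h1
  ext ⟨i, j⟩ ⟨i', j'⟩
  have hA' := congrFun (congrFun hA i) i'
  rw [Matrix.smul_apply, Matrix.smul_apply, Matrix.conjTranspose_apply, smul_eq_mul,
    smul_eq_mul] at hA'
  rw [Matrix.kroneckerMap_apply, Matrix.kroneckerMap_apply]
  rw [Matrix.conjTranspose_apply, Matrix.conjTranspose_apply]
  simp only [Matrix.add_apply, Matrix.smul_apply, Matrix.conjTranspose_apply, smul_eq_mul,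
    star_add, star_mul', star_pow, star_star, add_tsub_cancel_right]
  have e1 : ∀ n : ℕ, z ^ n * (star z) ^ n = 1 := fun n => by rw [← mul_pow, hzw, one_pow]
  have e2 : star (A₀ i' i) = (star z) ^ (2 * h) * z * A₀ i i' := by
    calc star (A₀ i' i) = (z ^ (2 * h) * (star z) ^ (2 * h)) * star (A₀ i' i) := by
          rw [e1, one_mul]
      _ = (star z) ^ (2 * h) * (z ^ (2 * h) * star (A₀ i' i)) := by ring
      _ = _ := by rw [hA']; ring
  rw [e2]
  have e3 := e1 (2 * h)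
  have e4 := e1 (l + 1)
  have e5 := e1 l
  have lhs : z ^ (l + 1) * A₀ i i' * ((star z) ^ (l + 1 + 2 * h) * star (M j' j) +
      (star z) ^ l * M j j') = A₀ i i' * ((star z) ^ (2 * h) * star (M j' j) + z * M j j') := by
    calc _ = A₀ i i' * ((z ^ (l + 1) * (star z) ^ (l + 1)) * (star z) ^ (2 * h) * star (M j' j) +
          (z ^ l * (star z) ^ l) * z * M j j') := by ring
      _ = _ := by rw [e4, e5, one_mul, one_mul]
  have rhs : (star z) ^ (l + 1) * ((star z) ^ (2 * h) * z * A₀ i i') *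
      (z ^ (l + 1 + 2 * h) * M j j' + z ^ l * star (M j' j)) =
        A₀ i i' * ((star z) ^ (2 * h) * star (M j' j) + z * M j j') := by
    calc _ = A₀ i i' * ((z ^ (l + 1) * (star z) ^ (l + 1)) * (star z) ^ (2 * h) * star (M j' j) +
          (z ^ (l + 1) * (star z) ^ (l + 1)) * (z ^ (2 * h) * (star z) ^ (2 * h)) * z * M j j') := by
            ring
      _ = _ := by rw [e4, e3, one_mul, one_mul, one_mul]
  rw [lhs, rhs]

/-- The same for the antipalindromic one: both adjoints acquire a minus sign. -/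
theorem addpair_hypY {ι₀ ι₁ : Type} (h L : ℕ) (B₀ : Matrix ι₀ ι₀ ℂ) (M : Matrix ι₁ ι₁ ℂ) (z : ℂ)
    (hz : ‖z‖ = 1) (hB : z ^ (2 * h) • B₀ᴴ = -(z • B₀)) (hM : L = 0 → M = 0) :
    (z ^ L • B₀) ⊗ₖ (z ^ (L + 2 * h) • M - z ^ (L - 1) • Mᴴ)ᴴ =
      (z ^ L • B₀)ᴴ ⊗ₖ (z ^ (L + 2 * h) • M - z ^ (L - 1) • Mᴴ) := by
  rcases Nat.eq_zero_or_pos L with rfl | hL
  · rw [hM rfl]
    simp
  obtain ⟨l, rfl⟩ : ∃ l, L = l + 1 := ⟨L - 1, by omega⟩
  have hzw : z * star z = 1 := by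
    have h1 := Complex.mul_conj' z
    rw [hz] at h1
    simpa using h1
  ext ⟨i, j⟩ ⟨i', j'⟩
  have hB' := congrFun (congrFun hB i) i'
  rw [Matrix.neg_apply, Matrix.smul_apply, Matrix.smul_apply, Matrix.conjTranspose_apply,
    smul_eq_mul, smul_eq_mul] at hB'
  rw [Matrix.kroneckerMap_apply, Matrix.kroneckerMap_apply]
  rw [Matrix.conjTranspose_apply, Matrix.conjTranspose_apply]
  simp only [Matrix.sub_apply, Matrix.smul_apply, Matrix.conjTranspose_apply, smul_eq_mul,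
    star_sub, star_mul', star_pow, star_star, add_tsub_cancel_right]
  have e1 : ∀ n : ℕ, z ^ n * (star z) ^ n = 1 := fun n => by rw [← mul_pow, hzw, one_pow]
  have e2 : star (B₀ i' i) = -((star z) ^ (2 * h) * z * B₀ i i') := by
    calc star (B₀ i' i) = (z ^ (2 * h) * (star z) ^ (2 * h)) * star (B₀ i' i) := by
          rw [e1, one_mul]
      _ = (star z) ^ (2 * h) * (z ^ (2 * h) * star (B₀ i' i)) := by ring
      _ = _ := by rw [hB']; ring
  rw [e2]
  have e3 := e1 (2 * h)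
  have e4 := e1 (l + 1)
  have e5 := e1 l
  have lhs : z ^ (l + 1) * B₀ i i' * ((star z) ^ (l + 1 + 2 * h) * star (M j' j) -
      (star z) ^ l * M j j') = B₀ i i' * ((star z) ^ (2 * h) * star (M j' j) - z * M j j') := by
    calc _ = B₀ i i' * ((z ^ (l + 1) * (star z) ^ (l + 1)) * (star z) ^ (2 * h) * star (M j' j) -
          (z ^ l * (star z) ^ l) * z * M j j') := by ring
      _ = _ := by rw [e4, e5, one_mul, one_mul]
  have rhs : (star z) ^ (l + 1) * -((star z) ^ (2 * h) * z * B₀ i i') *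
      (z ^ (l + 1 + 2 * h) * M j j' - z ^ l * star (M j' j)) =
        B₀ i i' * ((star z) ^ (2 * h) * star (M j' j) - z * M j j') := by
    calc _ = B₀ i i' * ((z ^ (l + 1) * (star z) ^ (l + 1)) * (star z) ^ (2 * h) * star (M j' j) -
          (z ^ (l + 1) * (star z) ^ (l + 1)) * (z ^ (2 * h) * (star z) ^ (2 * h)) * z * M j j') := by
            ring
      _ = _ := by rw [e4, e3, one_mul, one_mul, one_mul]
  rw [lhs, rhs]

/-- `R Rᴴ + V Vᴴ = 2 (M Mᴴ + Mᴴ M) = 4 t` for `R, V = a M ± b Mᴴ` with `|a| = |b| = 1`, if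
`M Mᴴ = Mᴴ M = t`. -/
theorem addpair_sum {ι : Type} [Fintype ι] [DecidableEq ι] (M : Matrix ι ι ℂ) (a b t : ℂ)
    (ha : ‖a‖ = 1) (hb : ‖b‖ = 1) (h₁ : M * Mᴴ = t • (1 : Matrix ι ι ℂ))
    (h₂ : Mᴴ * M = t • (1 : Matrix ι ι ℂ)) :
    (a • M + b • Mᴴ) * (a • M + b • Mᴴ)ᴴ + (a • M - b • Mᴴ) * (a • M - b • Mᴴ)ᴴ =
      (4 * t) • (1 : Matrix ι ι ℂ) := by
  have haa : a * star a = 1 := by
    have h1 := Complex.mul_conj' a
    rw [ha] at h1
    simpa using h1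
  have hbb : b * star b = 1 := by
    have h1 := Complex.mul_conj' b
    rw [hb] at h1
    simpa using h1
  rw [Matrix.conjTranspose_add, Matrix.conjTranspose_sub, Matrix.conjTranspose_smul,
    Matrix.conjTranspose_smul, Matrix.conjTranspose_conjTranspose]
  have e1 : (a • M + b • Mᴴ) * (star a • Mᴴ + star b • M) +
      (a • M - b • Mᴴ) * (star a • Mᴴ - star b • M) =
        (2 * (a * star a)) • (M * Mᴴ) + (2 * (b * star b)) • (Mᴴ * M) := by
    simp only [Matrix.add_mul, Matrix.mul_add, Matrix.sub_mul, Matrix.mul_sub, Matrix.smul_mul,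
      Matrix.mul_smul]
    module
  rw [e1, haa, hbb, h₁, h₂]
  simp only [smul_smul, ← add_smul]
  congr 1
  ring

/-- `a M + b Mᴴ` and `a M - b Mᴴ` commute if `M` and `Mᴴ` do. -/
theorem addpair_RV {ι : Type} [Fintype ι] [DecidableEq ι] (M : Matrix ι ι ℂ) (a b : ℂ)
    (h : M * Mᴴ = Mᴴ * M) :
    (a • M + b • Mᴴ) * (a • M - b • Mᴴ) = (a • M - b • Mᴴ) * (a • M + b • Mᴴ) := by
  simp only [Matrix.add_mul, Matrix.mul_add, Matrix.sub_mul, Matrix.mul_sub, Matrix.smul_mul,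
    Matrix.mul_smul, h]
  module

end HadCalc
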