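import Pool.Agent.Lib_MP_008adc_co.Canon
import Pool.Agent.Lib_MP_008adc_co.FullB
import Pool.Agent.Lib_MP_008adc_co.PAdd4

/-!
# Piece PFIN: a pair gives a structure
-/

set_option autoImplicit false

namespace HadCalc

open Matrix
open scoped Kronecker

/-- A pair of length `2 h` with `2 ^ f` classes gives a structure of length `2 h` with `2 ^ (f + 1)`
classes. PROOF. Put `M_j = X_j ⊗ₖ 1 + Y_j ⊗ₖ sx` on `Ix f c × Fin 2` with the classes `(cls i, b)` in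
`ZMod (2 ^ f) × Fin 2`; this is `Full` by `Full.pair`. Its value is `M = A ⊗ 1 + B ⊗ S` with
`A = ev X`, `B = ev Y`, `S = toC sx` (`ev` is additive, `ev_kron_right`), and
`M Mᴴ = (A Aᴴ + B Bᴴ) ⊗ 1 + (A Bᴴ + B Aᴴ) ⊗ S`. By `pal_adjoint`, `antipal_adjoint`
`z ^ (2 h) (A Bᴴ + B Aᴴ) = - z A B + z B A = 0`, so the second term vanishes and
`M Mᴴ = 2 F (2 h) = 2 ^ (f + 1) (2 h)`. The dimension is `2 ^ (f + c) * 2`; conclude with
`Av.of_good`. -/
theorem AvP.fin {f c h : ℕ} (hP : AvP f c h) : Av (f + 1) c (2 * h) := by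
  obtain ⟨X, Y, hXY⟩ := hP
  have hκ : Fintype.card (ZMod (2 ^ f) × Fin 2) = 2 ^ (f + 1) := by
    rw [Fintype.card_prod, ZMod.card, Fintype.card_fin, pow_succ]
  have hι : Fintype.card (Ix f c × Fin 2) = 2 ^ (f + 1 + c) := by
    rw [Fintype.card_prod, Fintype.card_prod, ZMod.card, Fintype.card_fin, Fintype.card_fin]
    ring
  refine Av.of_good (cls := fun p : Ix f c × Fin 2 => (p.1.1, p.2))
    (Q := fun j => X j ⊗ₖ (1 : Matrix (Fin 2) (Fin 2) ℤ) + Y j ⊗ₖ sx) hκ hι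
    ⟨fun j hj => (hXY.fullX j hj).pair (hXY.fullY j hj), fun z hz => ?_⟩
  obtain ⟨A, hA⟩ : ∃ A, A = ev (2 * h) X z := ⟨_, rfl⟩
  obtain ⟨B, hB⟩ : ∃ B, B = ev (2 * h) Y z := ⟨_, rfl⟩
  obtain ⟨S, hS⟩ : ∃ S, S = toC sx := ⟨_, rfl⟩
  have hz0 : z ^ (2 * h) ≠ 0 := by
    refine pow_ne_zero _ fun h0 => ?_
    rw [h0, norm_zero] at hz
    exact zero_ne_one hz
  have hev : ev (2 * h) (fun j => X j ⊗ₖ (1 : Matrix (Fin 2) (Fin 2) ℤ) + Y j ⊗ₖ sx) z =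
      A ⊗ₖ (1 : Matrix (Fin 2) (Fin 2) ℂ) + B ⊗ₖ S := by
    have h1 : ev (2 * h) (fun j => X j ⊗ₖ (1 : Matrix (Fin 2) (Fin 2) ℤ) + Y j ⊗ₖ sx) z =
        ev (2 * h) (fun j => X j ⊗ₖ (1 : Matrix (Fin 2) (Fin 2) ℤ)) z +
          ev (2 * h) (fun j => Y j ⊗ₖ sx) z := by
      unfold ev
      rw [← Finset.sum_add_distrib]
      refine Finset.sum_congr rfl fun j _ => ?_
      rw [toC_add, smul_add]
    rw [h1, ev_kron_right, ev_kron_right, toC_one, hA, hB, hS]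
  have hSH : Sᴴ = S := by
    rw [hS, toC_conjTranspose]
    congr 1
    decide
  have hSS : S * S = 1 := by
    have h1 : sx * sx = 1 := by decide
    rw [hS, ← toC_mul, h1, toC_one]
  have hcross : A * Bᴴ + B * Aᴴ = 0 := by
    have h1 := pal_adjoint hXY.palX z hz
    have h2 := antipal_adjoint hXY.palY z hz
    have h3 := hXY.comm z hz
    rw [← hA] at h1
    rw [← hB] at h2
    rw [← hA, ← hB] at h3
    have h4 : z ^ (2 * h) • (A * Bᴴ + B * Aᴴ) = 0 := by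
      rw [smul_add, ← Matrix.mul_smul, ← Matrix.mul_smul, h1, h2, Matrix.mul_neg, Matrix.mul_smul,
        Matrix.mul_smul, h3, neg_add_cancel]
    exact (smul_eq_zero.1 h4).resolve_left hz0
  have hnorm := hXY.norm z hz
  rw [← hA, ← hB] at hnorm
  rw [hev, Matrix.conjTranspose_add, Matrix.conjTranspose_kronecker,
    Matrix.conjTranspose_kronecker, Matrix.conjTranspose_one, hSH, Matrix.mul_add, Matrix.add_mul,
    Matrix.add_mul, ← Matrix.mul_kronecker_mul, ← Matrix.mul_kronecker_mul,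
    ← Matrix.mul_kronecker_mul, ← Matrix.mul_kronecker_mul, Matrix.one_mul, Matrix.mul_one,
    Matrix.one_mul, hSS]
  have e1 : (A * Aᴴ) ⊗ₖ (1 : Matrix (Fin 2) (Fin 2) ℂ) + (B * Aᴴ) ⊗ₖ S +
      ((A * Bᴴ) ⊗ₖ S + (B * Bᴴ) ⊗ₖ (1 : Matrix (Fin 2) (Fin 2) ℂ)) =
      (A * Aᴴ + B * Bᴴ) ⊗ₖ (1 : Matrix (Fin 2) (Fin 2) ℂ) + (A * Bᴴ + B * Aᴴ) ⊗ₖ S := by
    rw [Matrix.add_kronecker, Matrix.add_kronecker]
    abel
  rw [e1, hcross, hnorm, Matrix.zero_kronecker, add_zero, Matrix.smul_kronecker,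
    Matrix.one_kronecker_one]
  congr 2
  rw [pow_succ]
  ring

end HadCalc
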