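import Pool.Agent.Lib_MP_008adc_co.PAdd
import Pool.Agent.Lib_MP_008adc_co.PFin

/-!
# The sum rule for lists
-/

set_option autoImplicit false

namespace HadCalc

theorem AvP.sum_list {f : ℕ} (l : List (ℕ × ℕ)) (h : ∀ x ∈ l, Av f x.1 x.2) :
    AvP f (l.map (fun x => x.1 + f + 2)).sum (l.map Prod.snd).sum := by
  induction l with
  | nil => exact AvP.zero f 0
  | cons x l ih =>
    have h1 := ih (fun y hy => h y (List.mem_cons_of_mem _ hy))
    have h2 := AvP.add h1 (h x (List.mem_cons_self))
    rw [List.map_cons, List.sum_cons, List.map_cons, List.sum_cons, add_comm, add_comm x.2]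
    exact h2

/-- SUM RULE. Structures of lengths `L_i` and dimension exponents `c_i` with `2 ^ f` classes give a
structure of length `2 ∑ L_i` with `2 ^ (f + 1)` classes. -/
theorem Av.sum_list {f : ℕ} (l : List (ℕ × ℕ)) (h : ∀ x ∈ l, Av f x.1 x.2) :
    Av (f + 1) (l.map (fun x => x.1 + f + 2)).sum (2 * (l.map Prod.snd).sum) :=
  AvP.fin (AvP.sum_list l h)

end HadCalc
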