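import Pool.Agent.Lib_MP_008adc_co.Pads
import Pool.Agent.Lib_MP_008adc_co.ProdL
import Pool.Agent.Lib_MP_008adc_co.SumR

/-!
# Piece COVA: base of the recursion and products
-/

set_option autoImplicit false

namespace HadCalc

/-- BASE. For `q < 2 ^ a` apply `Av.sum_list` with `f = 0` to `q` copies of `(0, 1)` (`Av.base`): this
gives `Av 1 (2 q) (2 q)`; pad with `Av.mono`. -/
theorem Cov.base (a : ℕ) : Cov a 1 (2 ^ (a + 1)) := by
  intro q hq
  have h1 : Av (0 + 1) ((List.replicate q ((0, 1) : ℕ × ℕ)).map (fun x => x.1 + 0 + 2)).sum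
      (2 * ((List.replicate q ((0, 1) : ℕ × ℕ)).map Prod.snd).sum) := by
    apply Av.sum_list
    intro x hx
    rw [List.eq_of_mem_replicate hx]
    exact Av.base
  simp only [List.map_replicate, List.sum_replicate, smul_eq_mul, mul_one, Nat.zero_add] at h1
  refine Av.mono h1 le_rfl ?_
  rw [pow_succ]
  omega

/-- The lengths used in the step: a product of `2 k` numbers `x j < 2 ^ a`, multiplied by
`2 ^ (f (2 k - 1) + 2 k)`. PROOF. `Av.prod_list` for the list of the `2 k` numbers `2 x j`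
(`List.ofFn`): `2 ^ (f (2 k - 1)) ∏ (2 x j) = 2 ^ (f (2 k - 1) + 2 k) ∏ x j`. -/
theorem Cov.prod {a f c : ℕ} (h : Cov a f c) (k : ℕ) (hk : 1 ≤ k) (x : Fin (2 * k) → ℕ)
    (hx : ∀ j, x j < 2 ^ a) :
    Av f c (2 ^ (f * (2 * k - 1) + 2 * k) * ∏ j, x j) := by
  have h1 := Av.prod_list (f := f) (c := c) (List.ofFn fun j => 2 * x j) (by
    intro h0
    have := congrArg List.length h0
    rw [List.length_ofFn, List.length_nil] at this
    omega) (by
    intro y hy
    rw [List.mem_ofFn] at hy
    obtain ⟨j, rfl⟩ := hy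
    exact h _ (hx j))
  rw [List.length_ofFn, List.prod_ofFn, Finset.prod_mul_distrib, Finset.prod_const, Finset.card_univ,
    Fintype.card_fin, ← mul_assoc, ← pow_add] at h1
  exact h1

end HadCalc
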