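import Mathlib

/-!
# A calculus of matrix polynomials for Hadamard matrices: definitions

A STRUCTURE of length `L` with `2 ^ f` classes and dimension `2 ^ (f + c)` is a matrix polynomial
`Q(z) = ∑_{j < L} z ^ j Q_j` such that every coefficient `Q_j` has entries `0, 1, -1` and, for every
class, exactly one nonzero entry in every row and in every column (`Full`), and such that
`Q(z) Q(z)ᴴ = 2 ^ f L` for all complex `z` of modulus one.
-/

set_option autoImplicit false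

namespace HadCalc

open Matrix

/-- Entries `0, 1, -1`; for every class exactly one nonzero entry in every row and every column. -/
structure Full {ι κ : Type} (cls : ι → κ) (A : Matrix ι ι ℤ) : Prop where
  tri : ∀ i j, A i j = 0 ∨ A i j = 1 ∨ A i j = -1
  row : ∀ i c, ∃! j, cls j = c ∧ A i j ≠ 0
  col : ∀ j c, ∃! i, cls i = c ∧ A i j ≠ 0

/-- The integer matrix `A` as a complex matrix. -/
def toC {ι : Type} (A : Matrix ι ι ℤ) : Matrix ι ι ℂ := A.map (Int.cast : ℤ → ℂ)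

/-- The value at `z` of the matrix polynomial with the coefficients `Q 0, ..., Q (L - 1)`. -/
noncomputable def ev {ι : Type} (L : ℕ) (Q : ℕ → Matrix ι ι ℤ) (z : ℂ) : Matrix ι ι ℂ :=
  ∑ j ∈ Finset.range L, z ^ j • toC (Q j)

/-- The matrix polynomial `Q` of length `L` is a structure with `F` classes. -/
structure Good {ι κ : Type} [Fintype ι] [DecidableEq ι] (cls : ι → κ) (F L : ℕ)
    (Q : ℕ → Matrix ι ι ℤ) : Prop where
  full : ∀ j < L, Full cls (Q j)
  norm : ∀ z : ℂ, ‖z‖ = 1 →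
    ev L Q z * (ev L Q z)ᴴ = ((F * L : ℕ) : ℂ) • (1 : Matrix ι ι ℂ)

/-- Two matrix polynomials `X`, `Y` of length `2 h`, palindromic respectively antipalindromic,
commuting, with `X Xᴴ + Y Yᴴ = 2 F (2 h)`. -/
structure GoodPair {ι κ : Type} [Fintype ι] [DecidableEq ι] (cls : ι → κ) (F h : ℕ)
    (X Y : ℕ → Matrix ι ι ℤ) : Prop where
  fullX : ∀ j < 2 * h, Full cls (X j)
  fullY : ∀ j < 2 * h, Full cls (Y j)
  palX : ∀ j < 2 * h, (X j)ᵀ = X (2 * h - 1 - j)
  palY : ∀ j < 2 * h, (Y j)ᵀ = -Y (2 * h - 1 - j)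
  comm : ∀ z : ℂ, ‖z‖ = 1 →
    ev (2 * h) X z * ev (2 * h) Y z = ev (2 * h) Y z * ev (2 * h) X z
  norm : ∀ z : ℂ, ‖z‖ = 1 →
    ev (2 * h) X z * (ev (2 * h) X z)ᴴ + ev (2 * h) Y z * (ev (2 * h) Y z)ᴴ =
      ((2 * F * (2 * h) : ℕ) : ℂ) • (1 : Matrix ι ι ℂ)

/-- The standard index set: `2 ^ f` classes with `2 ^ c` elements. -/
abbrev Ix (f c : ℕ) : Type := ZMod (2 ^ f) × Fin (2 ^ c)

/-- There is a structure of length `L` with `2 ^ f` classes and dimension `2 ^ (f + c)`. -/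
def Av (f c L : ℕ) : Prop :=
  ∃ Q : ℕ → Matrix (Ix f c) (Ix f c) ℤ, Good (Prod.fst : Ix f c → ZMod (2 ^ f)) (2 ^ f) L Q

/-- There is a pair of length `2 h` with `2 ^ f` classes and dimension `2 ^ (f + c)`. -/
def AvP (f c h : ℕ) : Prop :=
  ∃ X Y : ℕ → Matrix (Ix f c) (Ix f c) ℤ,
    GoodPair (Prod.fst : Ix f c → ZMod (2 ^ f)) (2 ^ f) h X Y

/-- All numbers `2 q` with `q < 2 ^ a` are lengths of structures. -/
def Cov (a f c : ℕ) : Prop := ∀ q < 2 ^ a, Av f c (2 * q)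

/-- Hadamard matrices. -/
def IsHad {α : Type} [Fintype α] [DecidableEq α] (H : Matrix α α ℤ) : Prop :=
  (∀ i j, H i j = 1 ∨ H i j = -1) ∧ H * Hᵀ = (Fintype.card α : ℤ) • (1 : Matrix α α ℤ)

/-- There is a Hadamard matrix of order `n`. -/
def HadOrder (n : ℕ) : Prop := ∃ H : Matrix (Fin n) (Fin n) ℤ, IsHad H

end HadCalc
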