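import Pool.Agent.Lib_MP_008adc_co.Defs

/-!
# Piece DETA: the maximal determinant
-/

set_option autoImplicit false

namespace HadCalc

open Matrix

/-- The maximal absolute value of the determinant of an `n × n` matrix with entries `1, -1`. -/
noncomputable def maxDet (n : ℕ) : ℝ :=
  sSup {x : ℝ | ∃ A : Matrix (Fin n) (Fin n) ℝ, (∀ i j, A i j = 1 ∨ A i j = -1) ∧ x = |A.det|}

/-- The normalised maximal determinant. -/
noncomputable def rDet (n : ℕ) : ℝ := maxDet n / (n : ℝ) ^ ((n : ℝ) / 2)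

private theorem detSet_finite (n : ℕ) : {x : ℝ | ∃ A : Matrix (Fin n) (Fin n) ℝ,
    (∀ i j, A i j = 1 ∨ A i j = -1) ∧ x = |A.det|}.Finite := by
  classical
  refine (Set.finite_range fun b : Fin n → Fin n → Bool =>
    |(Matrix.of fun i j => if b i j then (1 : ℝ) else -1).det|).subset ?_
  rintro x ⟨A, hA, rfl⟩
  refine ⟨fun i j => decide (A i j = 1), ?_⟩
  have h : (Matrix.of fun i j => if decide (A i j = 1) then (1 : ℝ) else -1) = A := by
    ext i j
    rcases hA i j with h1 | h1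
    · simp [h1]
    · simp only [Matrix.of_apply, h1, decide_eq_true_eq]
      norm_num
  simp only [h]

/-- The set is finite (there are finitely many sign matrices), so bounded above. -/
theorem le_maxDet {n : ℕ} (A : Matrix (Fin n) (Fin n) ℝ) (hA : ∀ i j, A i j = 1 ∨ A i j = -1) :
    |A.det| ≤ maxDet n :=
  le_csSup (detSet_finite n).bddAbove ⟨A, hA, rfl⟩

/-- The supremum of a finite nonempty set is attained. -/
theorem exists_maxDet (n : ℕ) : ∃ A : Matrix (Fin n) (Fin n) ℝ,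
    (∀ i j, A i j = 1 ∨ A i j = -1) ∧ maxDet n = |A.det| := by
  have hne : {x : ℝ | ∃ A : Matrix (Fin n) (Fin n) ℝ,
      (∀ i j, A i j = 1 ∨ A i j = -1) ∧ x = |A.det|}.Nonempty :=
    ⟨_, Matrix.of fun _ _ => 1, fun _ _ => Or.inl rfl, rfl⟩
  exact hne.csSup_mem (detSet_finite n)

/-- `det H ^ 2 = det (H Hᵀ) = n ^ n`, so `|det H| = n ^ (n / 2)`. -/
theorem maxDet_of_hadOrder {n : ℕ} (hn : 0 < n) (h : HadOrder n) :
    (n : ℝ) ^ ((n : ℝ) / 2) ≤ maxDet n := by
  obtain ⟨H, hH, hHH⟩ := h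
  have hpos : (0 : ℝ) < n := by exact_mod_cast hn
  have hA : ∀ i j, (H.map (Int.cast : ℤ → ℝ)) i j = 1 ∨ (H.map (Int.cast : ℤ → ℝ)) i j = -1 := by
    intro i j
    rcases hH i j with h1 | h1
    · left
      simp [h1]
    · right
      simp [h1]
  refine le_trans (le_of_eq ?_) (le_maxDet _ hA)
  have hdet : H.det ^ 2 = (n : ℤ) ^ n := by
    have h1 := congrArg Matrix.det hHH
    rw [Matrix.det_mul, Matrix.det_transpose, Matrix.det_smul, Matrix.det_one, mul_one,
      Fintype.card_fin] at h1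
    rw [sq]
    exact h1
  have hdetR : ((H.map (Int.cast : ℤ → ℝ)).det) = (H.det : ℝ) :=
    (Int.cast_det H).symm
  have hsq : |(H.map (Int.cast : ℤ → ℝ)).det| ^ 2 = (n : ℝ) ^ n := by
    rw [sq_abs, hdetR]
    exact_mod_cast hdet
  have h2 : ((n : ℝ) ^ ((n : ℝ) / 2)) ^ 2 = (n : ℝ) ^ n := by
    rw [← Real.rpow_natCast, ← Real.rpow_mul hpos.le, ← Real.rpow_natCast]
    congr 1
    push_cast
    ring
  have h3 : 0 ≤ (n : ℝ) ^ ((n : ℝ) / 2) := Real.rpow_nonneg hpos.le _
  exact (pow_left_inj₀ h3 (abs_nonneg _) two_ne_zero).1 (h2.trans hsq.symm)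

end HadCalc
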