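import Pool.Agent.Lib_MP_008adc_co.IterC

/-!
# Piece FLOG: the theorem on Hadamard orders with logarithms
-/

set_option autoImplicit false

namespace HadCalc

/-- For all `q ≥ 16` and `t ≥ C (log log q) ^ 3` there is a Hadamard matrix of order `2 ^ t q`.
PROOF. Let `C₀` be the constant of `exists_const` and `e = Nat.log 2 (Nat.log 2 q) + 1`, so that
`Nat.log 2 q < 2 ^ e` and `q < 2 ^ (Nat.log 2 q + 1) ≤ 2 ^ (2 ^ e)`. With `x = Real.log (Real.log q)`,
`q ≥ 16` gives `Real.log q ≥ 4 log 2 > 2.77`, `x ≥ 1` (as `log 2.77 > 1`, `e < 2.7183`), and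
`Nat.log 2 q ≤ log q / log 2`, so
`e - 1 ≤ log (log q / log 2) / log 2 ≤ (x + 0.37) / 0.69 ≤ 2 x` and `e ≤ 3 x`. So `C = 27 C₀`
works (take `C = 27 * (C₀ + 1)` to have it positive). -/
theorem hadOrder_loglog : ∃ C : ℝ, 0 < C ∧ ∀ q t : ℕ, 16 ≤ q →
    C * Real.log (Real.log q) ^ 3 ≤ t → HadOrder (2 ^ t * q) := by
  obtain ⟨C₀, hC₀⟩ := exists_const
  refine ⟨64 * ((C₀ : ℝ) + 1), by positivity, fun q t hq ht => ?_⟩
  set x : ℝ := Real.log (Real.log q) with hx
  have hl2 : (0.6931471803 : ℝ) < Real.log 2 := Real.log_two_gt_d9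
  have hq0 : (0 : ℝ) < q := by
    have : 0 < q := by omega
    exact_mod_cast this
  have hlogq : 4 * Real.log 2 ≤ Real.log q := by
    have h1 : Real.log ((2 : ℝ) ^ 4) ≤ Real.log q := by
      apply Real.log_le_log (by norm_num)
      have h0 : (16 : ℝ) ≤ q := by exact_mod_cast hq
      linarith
    rw [Real.log_pow] at h1
    exact_mod_cast h1
  have hlogq0 : 0 < Real.log q := by linarith
  have hx1 : 1 ≤ x := by
    rw [hx, Real.le_log_iff_exp_le hlogq0]
    have := Real.exp_one_lt_d9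
    linarith
  set L : ℕ := Nat.log 2 q with hL
  have hL4 : 4 ≤ L := by
    rw [hL]
    exact Nat.le_log_of_pow_le (by norm_num) (by norm_num; exact hq)
  have hLq : (L : ℝ) * Real.log 2 ≤ Real.log q := by
    have h1 : 2 ^ L ≤ q := Nat.pow_log_le_self 2 (by omega)
    have h2 : ((2 : ℝ) ^ L) ≤ q := by exact_mod_cast h1
    rw [← Real.log_pow]
    exact Real.log_le_log (by positivity) h2
  have hLr : (L : ℝ) ≤ 3 / 2 * Real.log q := by
    have h3 : (0 : ℝ) ≤ L := Nat.cast_nonneg L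
    nlinarith
  have hL0 : (0 : ℝ) < L := by
    have : 0 < L := by omega
    exact_mod_cast this
  have hlogL : Real.log L ≤ x + 1 / 2 := by
    have h1 : Real.log L ≤ Real.log (3 / 2 * Real.log q) := Real.log_le_log hL0 hLr
    rw [Real.log_mul (by norm_num) hlogq0.ne'] at h1
    have h2 : Real.log (3 / 2) ≤ 3 / 2 - 1 := Real.log_le_sub_one_of_pos (by norm_num)
    rw [← hx] at h1
    linarith
  set e : ℕ := Nat.log 2 L + 1 with he
  have heL : ((Nat.log 2 L : ℕ) : ℝ) * Real.log 2 ≤ Real.log L := by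
    have h1 : 2 ^ (Nat.log 2 L) ≤ L := Nat.pow_log_le_self 2 (by omega)
    have h2 : ((2 : ℝ) ^ (Nat.log 2 L)) ≤ L := by exact_mod_cast h1
    rw [← Real.log_pow]
    exact Real.log_le_log (by positivity) h2
  have hex : (e : ℝ) ≤ 4 * x := by
    rw [he]
    push_cast
    have h3 : (0 : ℝ) ≤ (Nat.log 2 L : ℕ) := Nat.cast_nonneg _
    nlinarith
  have hqe : q < 2 ^ (2 ^ e) := by
    have h1 : q < 2 ^ (L + 1) := Nat.lt_pow_succ_log_self (by norm_num) q
    have h2 : L < 2 ^ e := Nat.lt_pow_succ_log_self (by norm_num) L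
    exact lt_of_lt_of_le h1 (Nat.pow_le_pow_right (by norm_num) h2)
  apply hC₀ e q t (by omega) (by omega) hqe
  have h5 : ((C₀ * e ^ 3 : ℕ) : ℝ) ≤ (t : ℝ) := by
    refine le_trans ?_ ht
    push_cast
    have h6 : (e : ℝ) ^ 3 ≤ (4 * x) ^ 3 := pow_le_pow_left₀ (Nat.cast_nonneg _) hex 3
    have h7 : (0 : ℝ) ≤ C₀ := Nat.cast_nonneg _
    have h8 : (C₀ : ℝ) * (e : ℝ) ^ 3 ≤ C₀ * (4 * x) ^ 3 := mul_le_mul_of_nonneg_left h6 h7
    have h9 : 0 ≤ x ^ 3 := by positivity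
    nlinarith
  exact_mod_cast h5

/-- Small numbers: for `0 < q < 16` and `t ≥ C` as well. -/
theorem hadOrder_small : ∃ C : ℕ, ∀ q t : ℕ, 0 < q → q < 16 → C ≤ t → HadOrder (2 ^ t * q) := by
  obtain ⟨C₀, hC₀⟩ := exists_const
  refine ⟨C₀ * 2 ^ 3, fun q t hq0 hq ht => ?_⟩
  exact hC₀ 2 q t (by norm_num) hq0 (by norm_num; exact hq) ht

end HadCalc
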