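import Pool.Agent.Lib_MP_008adc_co.DetL
import Pool.Agent.Lib_MP_008adc_co.FLog

/-!
# Piece DETB: lower bound for the normalised maximal determinant
-/

set_option autoImplicit false

namespace HadCalc

/-- THE BOUND: there is `C` with `r(n) ≥ exp (-exp (C (log log n) ^ 3))` for all `n ≥ 16`.
PROOF. Let `C₁ > 0` be the constant of `hadOrder_loglog` and `C₂` the one of `hadOrder_small`, let
`x = log (log n) ≥ 1`, `t = ⌈C₁ x ^ 3⌉₊ + C₂`, `q = n / 2 ^ t`.
If `q > 0`: `m = 2 ^ t q ≤ n` is a Hadamard order (if `q ≥ 16` because `log (log q) ≤ x`; if `q < 16`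
by `hadOrder_small`) and `n - m < 2 ^ t`, so `rDet n ≥ exp (-2 ^ t (1 + log n))` by `rDet_lower`.
If `q = 0`: `n < 2 ^ t` and `rDet n ≥ 1 / n ^ (n / 2) = exp (-(n / 2) log n) ≥
exp (-2 ^ t (1 + log n))` by `one_le_maxDet`. In both cases
`2 ^ t (1 + log n) ≤ exp ((C₁ x ^ 3 + 1 + C₂) log 2) * (2 exp x) ≤ exp (C x ^ 3)` for
`C = C₁ + C₂ + 3` (as `x ≥ 1` gives `1, x ≤ x ^ 3` and `log n = exp x ≥ 1`). -/
theorem rDet_loglog : ∃ C : ℝ, ∀ n : ℕ, 16 ≤ n →
    Real.exp (-Real.exp (C * Real.log (Real.log n) ^ 3)) ≤ rDet n := by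
  obtain ⟨C₁, hC₁, h1⟩ := hadOrder_loglog
  obtain ⟨C₂, h2⟩ := hadOrder_small
  refine ⟨C₁ + C₂ + 3, fun n hn => ?_⟩
  -- elementary facts on logarithms
  have hl2 : (0.6931471803 : ℝ) < Real.log 2 := Real.log_two_gt_d9
  have hl2' : Real.log 2 < 1 := by
    have := Real.log_two_lt_d9
    linarith
  have hlog16 : ∀ q : ℕ, 16 ≤ q → 4 * Real.log 2 ≤ Real.log q := by
    intro q hq
    have h3 : Real.log ((2 : ℝ) ^ 4) ≤ Real.log q := by
      apply Real.log_le_log (by norm_num)
      have h0 : (16 : ℝ) ≤ q := by exact_mod_cast hq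
      linarith
    rw [Real.log_pow] at h3
    exact_mod_cast h3
  have hll : ∀ q : ℕ, 16 ≤ q → 1 ≤ Real.log (Real.log q) := by
    intro q hq
    have h3 := hlog16 q hq
    rw [Real.le_log_iff_exp_le (by linarith)]
    have := Real.exp_one_lt_d9
    linarith
  have hn0 : (0 : ℝ) < n := by
    have : 0 < n := by omega
    exact_mod_cast this
  have hlogn : 4 * Real.log 2 ≤ Real.log n := hlog16 n hn
  have hlogn0 : 0 < Real.log n := by linarith
  set x : ℝ := Real.log (Real.log n) with hx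
  have hx1 : 1 ≤ x := hll n hn
  have hex : Real.exp x = Real.log n := Real.exp_log hlogn0
  set t : ℕ := ⌈C₁ * x ^ 3⌉₊ + C₂ with ht
  have hx3 : 0 ≤ C₁ * x ^ 3 := by positivity
  have htl : C₁ * x ^ 3 ≤ t := by
    rw [ht]
    push_cast
    have h3 := Nat.le_ceil (C₁ * x ^ 3)
    have h4 : (0 : ℝ) ≤ C₂ := Nat.cast_nonneg _
    linarith
  have htu : (t : ℝ) ≤ C₁ * x ^ 3 + 1 + C₂ := by
    rw [ht]
    push_cast
    have h3 := (Nat.ceil_lt_add_one hx3).le
    linarith
  have ht2 : C₂ ≤ t := by omega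
  have h2t : (0 : ℝ) < (2 : ℝ) ^ t := by positivity
  -- the main estimate
  have hmain : Real.exp (-((2 : ℝ) ^ t * (1 + Real.log n))) ≤ rDet n := by
    rcases Nat.eq_zero_or_pos (n / 2 ^ t) with hq | hq
    · -- `n < 2 ^ t`
      have hnt : n < 2 ^ t := by
        rcases (Nat.div_eq_zero_iff).1 hq with h3 | h3
        · exact absurd h3 (by positivity)
        · exact h3
      have hntR : (n : ℝ) ≤ (2 : ℝ) ^ t := by
        have : (n : ℝ) < ((2 ^ t : ℕ) : ℝ) := by exact_mod_cast hnt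
        push_cast at this
        exact this.le
      unfold rDet
      rw [le_div_iff₀ (Real.rpow_pos_of_pos hn0 _), Real.rpow_def_of_pos hn0, ← Real.exp_add]
      refine le_trans ?_ (one_le_maxDet n)
      rw [Real.exp_le_one_iff]
      have h3 : (n : ℝ) * Real.log n ≤ (2 : ℝ) ^ t * Real.log n :=
        mul_le_mul_of_nonneg_right hntR hlogn0.le
      have h4 : 0 ≤ (n : ℝ) * Real.log n := by positivity
      have h5 : (2 : ℝ) ^ t * (1 + Real.log n) = (2 : ℝ) ^ t + (2 : ℝ) ^ t * Real.log n := by ring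
      rw [h5]
      have h6 : Real.log n * ((n : ℝ) / 2) = (n : ℝ) * Real.log n / 2 := by ring
      rw [h6]
      linarith
    · -- the Hadamard order `2 ^ t q`
      set q : ℕ := n / 2 ^ t with hqdef
      have hqn : q ≤ n := Nat.div_le_self _ _
      have hmn : 2 ^ t * q ≤ n := Nat.mul_div_le n (2 ^ t)
      have hm0 : 0 < 2 ^ t * q := Nat.mul_pos (by positivity) hq
      have hH : HadOrder (2 ^ t * q) := by
        by_cases hq16 : q < 16
        · exact h2 q t hq hq16 ht2
        · have hq16' : 16 ≤ q := by omega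
          refine h1 q t hq16' (le_trans ?_ htl)
          have h3 : 0 < Real.log q := by
            have := hlog16 q hq16'
            linarith
          have hqR : (0 : ℝ) < q := by
            exact_mod_cast hq
          have h4 : Real.log q ≤ Real.log n :=
            Real.log_le_log hqR (by exact_mod_cast hqn)
          have h5 : Real.log (Real.log q) ≤ x := Real.log_le_log h3 h4
          have h6 : 0 ≤ Real.log (Real.log q) := by
            have := hll q hq16'
            linarith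
          exact mul_le_mul_of_nonneg_left (pow_le_pow_left₀ h6 h5 3) hC₁.le
      refine le_trans ?_ (rDet_lower hm0 hmn hH)
      apply Real.exp_le_exp.2
      have h3 : n < 2 ^ t * q + 2 ^ t := by
        have h4 : 2 ^ t * q + n % 2 ^ t = n := Nat.div_add_mod n (2 ^ t)
        have h5 : n % 2 ^ t < 2 ^ t := Nat.mod_lt n (show 0 < 2 ^ t by positivity)
        have h6 : 2 ^ t * q + n % 2 ^ t < 2 ^ t * q + 2 ^ t := Nat.add_lt_add_left h5 _
        rw [h4] at h6
        exact h6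
      have h4 : (n : ℝ) - ((2 ^ t * q : ℕ) : ℝ) ≤ (2 : ℝ) ^ t := by
        have h5 : (n : ℝ) < ((2 ^ t * q + 2 ^ t : ℕ) : ℝ) := by exact_mod_cast h3
        push_cast at h5 ⊢
        linarith
      have h5 : ((n : ℝ) - ((2 ^ t * q : ℕ) : ℝ)) * (1 + Real.log n) ≤
          (2 : ℝ) ^ t * (1 + Real.log n) :=
        mul_le_mul_of_nonneg_right h4 (by linarith)
      rw [neg_mul]
      exact neg_le_neg h5
  -- comparison of the exponents
  refine le_trans (Real.exp_le_exp.2 (neg_le_neg ?_)) hmain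
  have h3 : (2 : ℝ) ^ t = Real.exp (t * Real.log 2) := by
    rw [mul_comm, Real.exp_mul, Real.exp_log (by norm_num)]
    exact (Real.rpow_natCast 2 t).symm
  have h4 : 1 + Real.log n ≤ Real.exp (x + Real.log 2) := by
    rw [Real.exp_add, Real.exp_log (by norm_num : (0 : ℝ) < 2), hex]
    linarith
  have h5 : (2 : ℝ) ^ t * (1 + Real.log n) ≤ Real.exp (t * Real.log 2 + (x + Real.log 2)) := by
    rw [Real.exp_add, ← h3]
    exact mul_le_mul_of_nonneg_left h4 h2t.le
  refine h5.trans (Real.exp_le_exp.2 ?_)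
  have hx3' : x ≤ x ^ 3 := by nlinarith [sq_nonneg x, mul_nonneg (by linarith : (0:ℝ) ≤ x) (by nlinarith : (0:ℝ) ≤ x ^ 2 - 1)]
  have h1x : 1 ≤ x ^ 3 := hx1.trans hx3'
  have hC2 : (0 : ℝ) ≤ C₂ := Nat.cast_nonneg _
  have h6 : (t : ℝ) * Real.log 2 ≤ t := by
    have : (0 : ℝ) ≤ t := Nat.cast_nonneg _
    nlinarith
  have h7 : (C₂ : ℝ) ≤ C₂ * x ^ 3 := by nlinarith
  have h8 : (t : ℝ) * Real.log 2 ≤ (C₁ * x ^ 3 + 1 + C₂) * Real.log 2 :=
    mul_le_mul_of_nonneg_right htu (by linarith)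
  have hl2u := Real.log_two_lt_d9
  have h9 : (C₁ * x ^ 3 + C₂) * Real.log 2 ≤ C₁ * x ^ 3 + C₂ := by
    have : 0 ≤ C₁ * x ^ 3 + C₂ := by positivity
    nlinarith
  nlinarith

end HadCalc
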