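import Pool.Agent.Lib_MP_008adc_co.DetA

/-!
# Piece DETS: monotonicity of the maximal determinant
-/

set_option autoImplicit false

namespace HadCalc

open Matrix

/-- The bordered matrix. -/
private def bord {n : ℕ} (A : Matrix (Fin n) (Fin n) ℝ) (x : ℝ) :
    Matrix (Fin (n + 1)) (Fin (n + 1)) ℝ :=
  fun i j => Fin.lastCases (motive := fun _ => ℝ)
    (Fin.lastCases (motive := fun _ => ℝ) x (fun _ => 1) j)
    (fun i' => Fin.lastCases (motive := fun _ => ℝ) 1 (fun j' => A i' j') j) i

private theorem bord_ll {n : ℕ} (A : Matrix (Fin n) (Fin n) ℝ) (x : ℝ) :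
    bord A x (Fin.last n) (Fin.last n) = x := by simp [bord]

private theorem bord_lc {n : ℕ} (A : Matrix (Fin n) (Fin n) ℝ) (x : ℝ) (j : Fin n) :
    bord A x (Fin.last n) j.castSucc = 1 := by simp [bord]

private theorem bord_cl {n : ℕ} (A : Matrix (Fin n) (Fin n) ℝ) (x : ℝ) (i : Fin n) :
    bord A x i.castSucc (Fin.last n) = 1 := by simp [bord]

private theorem bord_cc {n : ℕ} (A : Matrix (Fin n) (Fin n) ℝ) (x : ℝ) (i j : Fin n) :
    bord A x i.castSucc j.castSucc = A i j := by simp [bord]

private theorem bord_sub {n : ℕ} (A : Matrix (Fin n) (Fin n) ℝ) (x y : ℝ) (j : Fin (n + 1)) :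
    (bord A x).submatrix (Fin.last n).succAbove j.succAbove =
      (bord A y).submatrix (Fin.last n).succAbove j.succAbove := by
  ext a b
  simp only [submatrix_apply, Fin.succAbove_last]
  refine Fin.lastCases ?_ (fun c => ?_) (j.succAbove b)
  · rw [bord_cl, bord_cl]
  · rw [bord_cc, bord_cc]

private theorem bord_sub_last {n : ℕ} (A : Matrix (Fin n) (Fin n) ℝ) (x : ℝ) :
    (bord A x).submatrix (Fin.last n).succAbove (Fin.last n).succAbove = A := by
  ext a b
  simp only [submatrix_apply, Fin.succAbove_last]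
  rw [bord_cc]

private theorem bord_det {n : ℕ} (A : Matrix (Fin n) (Fin n) ℝ) :
    (bord A 1).det - (bord A (-1)).det = 2 * A.det := by
  rw [det_succ_row (bord A 1) (Fin.last n), det_succ_row (bord A (-1)) (Fin.last n),
    ← Finset.sum_sub_distrib, Fin.sum_univ_castSucc]
  have h1 : ∀ j : Fin n, (-1 : ℝ) ^ ((Fin.last n : Fin (n + 1)) + (j.castSucc : Fin (n + 1)) : ℕ) *
      bord A 1 (Fin.last n) j.castSucc *
        ((bord A 1).submatrix (Fin.last n).succAbove j.castSucc.succAbove).det -
      (-1 : ℝ) ^ ((Fin.last n : Fin (n + 1)) + (j.castSucc : Fin (n + 1)) : ℕ) *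
      bord A (-1) (Fin.last n) j.castSucc *
        ((bord A (-1)).submatrix (Fin.last n).succAbove j.castSucc.succAbove).det = 0 := by
    intro j
    rw [bord_lc, bord_lc, bord_sub A 1 (-1), sub_self]
  rw [Finset.sum_congr rfl (fun j _ => h1 j), Finset.sum_const_zero, zero_add, bord_sub_last,
    bord_sub_last, bord_ll, bord_ll]
  have h2 : (-1 : ℝ) ^ (((Fin.last n : Fin (n + 1)) : ℕ) + ((Fin.last n : Fin (n + 1)) : ℕ)) = 1 :=
    Even.neg_one_pow ⟨_, rfl⟩
  rw [h2]
  ring

private theorem bord_sign {n : ℕ} (A : Matrix (Fin n) (Fin n) ℝ)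
    (hA : ∀ i j, A i j = 1 ∨ A i j = -1) (x : ℝ) (hx : x = 1 ∨ x = -1) :
    ∀ i j, bord A x i j = 1 ∨ bord A x i j = -1 := by
  intro i j
  refine Fin.lastCases ?_ (fun i' => ?_) i
  · refine Fin.lastCases ?_ (fun j' => ?_) j
    · rw [bord_ll]; exact hx
    · rw [bord_lc]; exact Or.inl rfl
  · refine Fin.lastCases ?_ (fun j' => ?_) j
    · rw [bord_cl]; exact Or.inl rfl
    · rw [bord_cc]; exact hA i' j'

/-- BORDERING. Let `A` be a sign matrix of order `n` with `|det A| = maxDet n`. For `x = 1, -1` let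
`B x` be the matrix of order `n + 1` with block `A`, last column and last row of ones and corner `x`.
`det (B x)` is affine in `x` with slope `det A` (expand along the last row, or
`Matrix.det_succ_row` / multilinearity of the determinant in the last row), so
`det (B 1) - det (B (-1)) = 2 det A` and one of them is in absolute value at least `|det A|`. -/
theorem maxDet_succ (n : ℕ) : maxDet n ≤ maxDet (n + 1) := by
  obtain ⟨A, hA, h⟩ := exists_maxDet n
  rw [h]
  have h1 := le_maxDet (bord A 1) (bord_sign A hA 1 (Or.inl rfl))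
  have h2 := le_maxDet (bord A (-1)) (bord_sign A hA (-1) (Or.inr rfl))
  have h3 := bord_det A
  have h4 : |2 * A.det| ≤ |(bord A 1).det| + |(bord A (-1)).det| := by
    rw [← h3]; exact abs_sub _ _
  rw [abs_mul, abs_two] at h4
  linarith

theorem maxDet_mono {m n : ℕ} (h : m ≤ n) : maxDet m ≤ maxDet n :=
  monotone_nat_of_le_succ maxDet_succ h

theorem one_le_maxDet (n : ℕ) : 1 ≤ maxDet n := by
  have h1 := le_maxDet (1 : Matrix (Fin 0) (Fin 0) ℝ) (fun i => i.elim0)
  have h2 : (1 : ℝ) ≤ maxDet 0 := by simpa using h1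
  exact h2.trans (maxDet_mono (Nat.zero_le n))

end HadCalc
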