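import Pool.Agent.Lib_MP_008adc_co.DetS
import Pool.Agent.Lib_MP_008adc_co.FLog

/-!
# The Hadamard inequality for sign matrices and the exact value at Hadamard orders
-/

set_option autoImplicit false

namespace HadCalc

open Matrix

/-- The Hadamard inequality for sign matrices, by the inequality of the arithmetic and the geometric
mean for the eigenvalues of `A Aᵀ`, whose trace is `n ^ 2`. -/
theorem det_sq_le {n : ℕ} (A : Matrix (Fin n) (Fin n) ℝ) (hA : ∀ i j, A i j = 1 ∨ A i j = -1) :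
    A.det ^ 2 ≤ (n : ℝ) ^ n := by
  rcases Nat.eq_zero_or_pos n with hn | hn
  · subst hn; simp
  have hps : (A * Aᴴ).PosSemidef := Matrix.posSemidef_self_mul_conjTranspose A
  have hH := hps.isHermitian
  have hdet : (A * Aᴴ).det = A.det ^ 2 := by
    rw [Matrix.det_mul, Matrix.det_conjTranspose]; simp [sq]
  have htr : (A * Aᴴ).trace = (n : ℝ) ^ 2 := by
    simp only [Matrix.trace, Matrix.diag_apply, Matrix.mul_apply, Matrix.conjTranspose_apply,
      star_trivial]
    have : ∀ i j, A i j * A i j = 1 := by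
      intro i j; rcases hA i j with h | h <;> rw [h] <;> norm_num
    simp [this, sq]
  have hdet2 : (A * Aᴴ).det = ∏ i, hH.eigenvalues i := by
    have := hH.det_eq_prod_eigenvalues
    simpa using this
  have htr2 : (A * Aᴴ).trace = ∑ i, hH.eigenvalues i := by
    have := hH.trace_eq_sum_eigenvalues
    simpa using this
  have hnn : ∀ i, 0 ≤ hH.eigenvalues i := hps.eigenvalues_nonneg
  have hn' : (0 : ℝ) < n := by exact_mod_cast hn
  have amgm := Real.geom_mean_le_arith_mean Finset.univ (fun _ : Fin n => (1 : ℝ))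
    hH.eigenvalues (fun _ _ => zero_le_one) (by simpa using hn') (fun i _ => hnn i)
  simp only [Real.rpow_one, one_mul, Finset.sum_const, Finset.card_univ, Fintype.card_fin,
    nsmul_eq_mul, mul_one] at amgm
  rw [← htr2, htr, ← hdet2, hdet] at amgm
  have h1 : (n : ℝ) ^ 2 / n = n := by field_simp
  rw [h1] at amgm
  have h2 : ((A.det ^ 2) ^ ((n : ℝ)⁻¹)) ^ n ≤ (n : ℝ) ^ n :=
    pow_le_pow_left₀ (Real.rpow_nonneg (sq_nonneg _) _) amgm n
  rwa [← Real.rpow_natCast, ← Real.rpow_mul (sq_nonneg _), inv_mul_cancel₀ hn'.ne',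
    Real.rpow_one] at h2

theorem maxDet_le (n : ℕ) : maxDet n ≤ (n : ℝ) ^ ((n : ℝ) / 2) := by
  obtain ⟨A, hA, h⟩ := exists_maxDet n
  rw [h]
  have h1 := det_sq_le A hA
  have h2 : ((n : ℝ) ^ ((n : ℝ) / 2)) ^ 2 = (n : ℝ) ^ n := by
    rw [← Real.rpow_natCast, ← Real.rpow_mul (Nat.cast_nonneg n)]
    rw [show ((n : ℝ) / 2) * ((2 : ℕ) : ℝ) = (n : ℝ) by push_cast; ring]
    exact Real.rpow_natCast _ _
  refine abs_le_of_sq_le_sq ?_ (Real.rpow_nonneg (Nat.cast_nonneg n) _)
  rw [h2]; exact h1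

theorem maxDet_eq {n : ℕ} (hn : 0 < n) (h : HadOrder n) : maxDet n = (n : ℝ) ^ ((n : ℝ) / 2) :=
  le_antisymm (maxDet_le n) (maxDet_of_hadOrder hn h)

end HadCalc
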