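import Pool.Agent.Lib_MP_008adc_co.Blocks
import Pool.Agent.Lib_MP_008adc_co.NRep

/-!
# A dominant pair of blocks: eight products with `b (2 ^ (J + 2) + 2 k)` bits match
`k (2 b - 3 l - 1)` binary digits
-/

set_option autoImplicit false

namespace HadNT

/-- The energy of a subset of `PU A k`. -/
theorem energy_sub (A k M : ℕ) [NeZero M] (U : Finset ℕ) (hU : U ⊆ PU A k) :
    (((U ×ˢ U) ×ˢ (U ×ˢ U)).filter
        (fun x => ((x.1.1 * x.1.2 : ℕ) : ZMod M) = ((x.2.1 * x.2.2 : ℕ) : ZMod M))).card ≤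
      U.card ^ 2 * (4 ^ k * (A ^ (2 * k) / M + 1)) := by
  classical
  have hM : 0 < M := Nat.pos_of_ne_zero (NeZero.ne M)
  have hres : ∀ r : ZMod M, ((U ×ˢ U).filter
      (fun x => ((x.1 * x.2 : ℕ) : ZMod M) = r)).card ≤ 4 ^ k * (A ^ (2 * k) / M + 1) := by
    intro r
    refine (Finset.card_le_mul_card_image (f := fun x : ℕ × ℕ => x.1 * x.2) _ (4 ^ k) ?_).trans ?_
    · intro n _
      refine le_trans (Finset.card_le_card ?_) (PU_rep A k n)
      intro x hx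
      rw [Finset.mem_filter, Finset.mem_filter, Finset.mem_product] at hx
      rw [Finset.mem_filter, Finset.mem_product]
      exact ⟨⟨hU hx.1.1.1, hU hx.1.1.2⟩, hx.2⟩
    · refine Nat.mul_le_mul_left _ ?_
      rw [← Finset.card_range (A ^ (2 * k) / M + 1)]
      refine Finset.card_le_card_of_injOn (fun n => n / M) ?_ ?_
      · intro n hn
        rw [Finset.mem_coe, Finset.mem_image] at hn
        obtain ⟨x, hx, rfl⟩ := hn
        rw [Finset.mem_filter, Finset.mem_product] at hx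
        rw [Finset.mem_coe, Finset.mem_range]
        have h1 : x.1 * x.2 ≤ A ^ (2 * k) := by
          rw [two_mul, pow_add]
          exact Nat.mul_le_mul (PU_bound (hU hx.1.1)).2 (PU_bound (hU hx.1.2)).2
        exact Nat.lt_succ_of_le (Nat.div_le_div_right h1)
      · intro n hn m hm hnm
        rw [Finset.mem_coe, Finset.mem_image] at hn hm
        obtain ⟨x, hx, hxn⟩ := hn
        obtain ⟨y, hy, hym⟩ := hm
        rw [Finset.mem_filter] at hx hy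
        have h2 : ((n : ℕ) : ZMod M) = ((m : ℕ) : ZMod M) := by
          rw [← hxn, ← hym, hx.2, hy.2]
        rw [ZMod.natCast_eq_natCast_iff] at h2
        have h3 : n / M = m / M := hnm
        have h4 : n % M = m % M := h2
        rw [← Nat.div_add_mod n M, ← Nat.div_add_mod m M, h3, h4]
  have hfib := Finset.card_eq_sum_card_fiberwise (f := Prod.snd)
    (s := ((U ×ˢ U) ×ˢ (U ×ˢ U)).filter
        (fun x => ((x.1.1 * x.1.2 : ℕ) : ZMod M) = ((x.2.1 * x.2.2 : ℕ) : ZMod M)))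
    (t := U ×ˢ U) (fun x hx => by
      rw [Finset.mem_coe, Finset.mem_filter, Finset.mem_product] at hx
      exact hx.1.2)
  rw [hfib]
  have hsum : ∀ y ∈ U ×ˢ U,
      ((((U ×ˢ U) ×ˢ (U ×ˢ U)).filter
        (fun x => ((x.1.1 * x.1.2 : ℕ) : ZMod M) = ((x.2.1 * x.2.2 : ℕ) : ZMod M))).filter
        (fun x => x.2 = y)).card ≤ 4 ^ k * (A ^ (2 * k) / M + 1) := by
    intro y _
    refine le_trans ?_ (hres ((y.1 * y.2 : ℕ) : ZMod M))
    refine Finset.card_le_card_of_injOn Prod.fst ?_ ?_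
    · intro x hx
      rw [Finset.mem_coe, Finset.mem_filter, Finset.mem_filter, Finset.mem_product] at hx
      rw [Finset.mem_coe, Finset.mem_filter]
      obtain ⟨⟨⟨hx1, _⟩, hx2⟩, hx3⟩ := hx
      refine ⟨hx1, ?_⟩
      rw [hx2, hx3]
    · intro x hx z hz hxz
      rw [Finset.mem_coe, Finset.mem_filter] at hx hz
      exact Prod.ext hxz (by rw [hx.2, hz.2])
  refine (Finset.sum_le_card_nsmul _ _ _ hsum).trans ?_
  rw [Finset.card_product, smul_eq_mul, sq]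

/-- The sum over a pair of blocks, for the orders `2 ^ i` with `4 (l + 1) k ≤ i ≤ b k`. -/
theorem block_bound2 (M b k l i : ℕ) [NeZero M] (hb : 8 * l + 8 ≤ b) (hk : 1 ≤ k)
    (h1 : 4 * b * k ≤ 2 ^ l) (h : ZMod M) (hi : addOrderOf h = 2 ^ i)
    (hk2 : 4 * (k * l) + 4 * k ≤ i) (hi2 : i ≤ b * k) :
    ‖Sg M (PUo (2 ^ b) k ×ˢ PUo (2 ^ b) k) (fun x => ((x.1 * x.2 : ℕ) : ZMod M)) h‖ * 2 ^ (i / 4) ≤
      (PUo (2 ^ b) k).card * (PUo (2 ^ b) k).card := by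
  obtain ⟨U, hU⟩ : ∃ U, U = PUo (2 ^ b) k := ⟨_, rfl⟩
  have hd := PUo_dense b k l (by omega) hk h1 (by omega)
  rw [← hU] at hd ⊢
  have hUB : ∀ u ∈ U, 1 ≤ u ∧ u ≤ (2 ^ b) ^ k := by
    intro u hu
    rw [hU] at hu
    exact PU_bound (PUo_mem hu).1
  have h2 := bil M h U U _ hUB hUB
  rw [hi] at h2
  have h3 : (2 ^ b) ^ k / 2 ^ i + 1 ≤ 2 * 2 ^ (b * k - i) := by
    rw [← pow_mul, Nat.pow_div hi2 (by norm_num)]
    have : 1 ≤ 2 ^ (b * k - i) := Nat.one_le_two_pow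
    omega
  apply le_of_sq_le_sq _ (by positivity)
  rw [mul_pow]
  have hdr : ((2 : ℝ) ^ b) ^ k ≤ 2 ^ (k * l) * (U.card : ℝ) := by exact_mod_cast hd
  have h3r : (((2 ^ b) ^ k / 2 ^ i + 1 : ℕ) : ℝ) ≤ 2 * 2 ^ (b * k - i) := by exact_mod_cast h3
  have h4 : (((2 ^ b) ^ k / 2 ^ i + 1 : ℕ) : ℝ) ^ 2 ≤ (2 * 2 ^ (b * k - i)) ^ 2 :=
    pow_le_pow_left₀ (Nat.cast_nonneg _) h3r 2
  have h5 : ((2 ^ i : ℕ) : ℝ) = 2 ^ i := by push_cast; rfl
  rw [h5] at h2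
  calc ‖Sg M (U ×ˢ U) (fun x => ((x.1 * x.2 : ℕ) : ZMod M)) h‖ ^ 2 * (2 ^ (i / 4)) ^ 2
      ≤ ((U.card : ℝ) * U.card * 2 ^ i * (2 * 2 ^ (b * k - i)) ^ 2) * (2 ^ (i / 4)) ^ 2 := by
        refine mul_le_mul_of_nonneg_right (h2.trans ?_) (by positivity)
        exact mul_le_mul_of_nonneg_left h4 (by positivity)
    _ = (U.card : ℝ) ^ 2 * (2 ^ (2 + i + 2 * (b * k - i) + 2 * (i / 4))) := by
        rw [pow_add, pow_add, pow_add, mul_pow 2 ((2 : ℝ) ^ (b * k - i)) 2, ← pow_mul, ← pow_mul,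
          mul_comm (b * k - i) 2, mul_comm (i / 4) 2]
        ring
    _ ≤ (U.card : ℝ) ^ 2 * (2 ^ (2 * (b * k) - 2 * (k * l))) := by
        refine mul_le_mul_of_nonneg_left (pow_le_pow_right₀ (by norm_num) ?_) (by positivity)
        have h6 : 2 * (k * l) ≤ b * k := by
          nlinarith
        omega
    _ ≤ (U.card : ℝ) ^ 2 * (U.card : ℝ) ^ 2 := by
        refine mul_le_mul_of_nonneg_left ?_ (by positivity)
        have h6 : 2 * (k * l) ≤ 2 * (b * k) := by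
          nlinarith
        have h7 : (2 : ℝ) ^ (2 * (b * k) - 2 * (k * l)) * (2 ^ (k * l)) ^ 2 = ((2 ^ b) ^ k) ^ 2 := by
          rw [← pow_mul, ← pow_mul, ← pow_add, ← pow_mul]
          congr 1
          have : k * l * 2 = 2 * (k * l) := by ring
          have : b * (k * 2) = 2 * (b * k) := by ring
          omega
        have h8 : (((2 : ℝ) ^ b) ^ k) ^ 2 ≤ (2 ^ (k * l) * (U.card : ℝ)) ^ 2 :=
          pow_le_pow_left₀ (by positivity) hdr 2
        rw [← h7, mul_pow, mul_comm] at h8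
        exact le_of_mul_le_mul_left h8 (by positivity)
    _ = ((U.card : ℝ) * U.card) ^ 2 := by ring

/-- The eighth moment of a pair of blocks over the orders larger than `2 ^ (b k)`, modulo `2 ^ R`,
`R ≤ k (2 b - 3 l - 1)`. -/
theorem block_moment (b k l R : ℕ) (hb : 8 * l + 8 ≤ b) (hl1 : 1 ≤ l) (hk : 1 ≤ k)
    (h1 : 4 * b * k ≤ 2 ^ l) (hR : R + (3 * l + 1) * k ≤ 2 * (b * k)) :
    ∑ h : ZMod (2 ^ R), (if 2 ^ (b * k) < addOrderOf h then
      ‖Sg (2 ^ R) (PUo (2 ^ b) k ×ˢ PUo (2 ^ b) k) (fun x => ((x.1 * x.2 : ℕ) : ZMod (2 ^ R))) h‖ ^ 8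
      else 0) ≤ ((PUo (2 ^ b) k).card * (PUo (2 ^ b) k).card : ℝ) ^ 8 / 2 := by
  have hNZ : NeZero (2 ^ R) := ⟨by positivity⟩
  obtain ⟨U, hU⟩ : ∃ U, U = PUo (2 ^ b) k := ⟨_, rfl⟩
  have hd := PUo_dense b k l (by omega) hk h1 (by omega)
  rw [← hU] at hd ⊢
  have hUB : ∀ u ∈ U, 1 ≤ u ∧ u ≤ (2 ^ b) ^ k := by
    intro u hu
    rw [hU] at hu
    exact PU_bound (PUo_mem hu).1
  obtain ⟨S, hS⟩ : ∃ S : ZMod (2 ^ R) → ℝ, ∀ h, S h =
    ‖Sg (2 ^ R) (U ×ˢ U) (fun x => ((x.1 * x.2 : ℕ) : ZMod (2 ^ R))) h‖ := ⟨_, fun _ => rfl⟩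
  simp only [← hS]
  have hS0 : ∀ h, 0 ≤ S h := fun h => by rw [hS]; exact norm_nonneg _
  have hord : ∀ h : ZMod (2 ^ R), addOrderOf h ≤ 2 ^ R := by
    intro h
    have h2 := addOrderOf_dvd_card (x := h)
    rw [ZMod.card] at h2
    exact Nat.le_of_dvd (by positivity) h2
  have hsup : ∀ h : ZMod (2 ^ R), 2 ^ (b * k) < addOrderOf h → S h ^ 2 ≤ (U.card : ℝ) ^ 2 * 2 ^ R := by
    intro h hh
    have h2 := bil (2 ^ R) h U U _ hUB hUB
    have h3 : (2 ^ b) ^ k / addOrderOf h = 0 := by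
      rw [← pow_mul]
      exact Nat.div_eq_of_lt hh
    rw [h3] at h2
    rw [hS]
    refine h2.trans ?_
    have h4 : (addOrderOf h : ℝ) ≤ 2 ^ R := by exact_mod_cast hord h
    calc (U.card : ℝ) * U.card * addOrderOf h * ((0 + 1 : ℕ) : ℝ) ^ 2
        = (U.card : ℝ) ^ 2 * addOrderOf h := by push_cast; ring
      _ ≤ (U.card : ℝ) ^ 2 * 2 ^ R := mul_le_mul_of_nonneg_left h4 (by positivity)
  have hL2 : ∑ h : ZMod (2 ^ R), S h ^ 2 ≤ (U.card : ℝ) ^ 2 * (4 ^ k * (2 * 2 ^ (2 * (b * k)))) := by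
    have h2 := second_moment (2 ^ R) (U ×ˢ U) (fun x => ((x.1 * x.2 : ℕ) : ZMod (2 ^ R)))
    have h3 := energy_sub (2 ^ b) k (2 ^ R) U (by
      intro u hu
      rw [hU] at hu
      exact (PUo_mem hu).1)
    have h4 : ∑ h : ZMod (2 ^ R), S h ^ 2 = ∑ h : ZMod (2 ^ R),
        ‖Sg (2 ^ R) (U ×ˢ U) (fun x => ((x.1 * x.2 : ℕ) : ZMod (2 ^ R))) h‖ ^ 2 :=
      Finset.sum_congr rfl fun h _ => by rw [hS]
    rw [h4, h2]
    have h5 : 2 ^ R * (U.card ^ 2 * (4 ^ k * ((2 ^ b) ^ (2 * k) / 2 ^ R + 1))) ≤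
        U.card ^ 2 * (4 ^ k * (2 * 2 ^ (2 * (b * k)))) := by
      have h6 : 2 ^ R * ((2 ^ b) ^ (2 * k) / 2 ^ R + 1) ≤ 2 * 2 ^ (2 * (b * k)) := by
        have h7 : 2 ^ R * ((2 ^ b) ^ (2 * k) / 2 ^ R) ≤ (2 ^ b) ^ (2 * k) := Nat.mul_div_le _ _
        have h8 : (2 ^ b) ^ (2 * k) = 2 ^ (2 * (b * k)) := by
          rw [← pow_mul]
          congr 1
          ring
        rw [h8] at h7 ⊢
        have h9 : 2 ^ R ≤ 2 ^ (2 * (b * k)) := Nat.pow_le_pow_right (by norm_num) (by omega)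
        rw [mul_add, mul_one]
        omega
      calc 2 ^ R * (U.card ^ 2 * (4 ^ k * ((2 ^ b) ^ (2 * k) / 2 ^ R + 1)))
          = U.card ^ 2 * (4 ^ k * (2 ^ R * ((2 ^ b) ^ (2 * k) / 2 ^ R + 1))) := by ring
        _ ≤ _ := Nat.mul_le_mul_left _ (Nat.mul_le_mul_left _ h6)
    have h6 := (Nat.mul_le_mul_left (2 ^ R) h3).trans h5
    exact_mod_cast h6
  have hdr : ((2 : ℝ) ^ b) ^ k ≤ 2 ^ (k * l) * (U.card : ℝ) := by exact_mod_cast hd
  have hfin : ((U.card : ℝ) ^ 2 * 2 ^ R) ^ 3 * ((U.card : ℝ) ^ 2 * (4 ^ k * (2 * 2 ^ (2 * (b * k))))) ≤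
      ((U.card : ℝ) * U.card) ^ 8 / 2 := by
    have h2 : (((2 : ℝ) ^ b) ^ k) ^ 8 ≤ (2 ^ (k * l) * (U.card : ℝ)) ^ 8 :=
      pow_le_pow_left₀ (by positivity) hdr 8
    have h3 : ((2 : ℝ) ^ R) ^ 3 * (4 ^ k * (2 * 2 ^ (2 * (b * k)))) * 2 * (2 ^ (k * l)) ^ 8 ≤
        (((2 : ℝ) ^ b) ^ k) ^ 8 := by
      have h4 : (4 : ℝ) = 2 ^ 2 := by norm_num
      have e1 : ((2 : ℝ) ^ R) ^ 3 * (4 ^ k * (2 * 2 ^ (2 * (b * k)))) * 2 * (2 ^ (k * l)) ^ 8 =
          2 ^ (R * 3 + 2 * k + 1 + 2 * (b * k) + 1 + k * l * 8) := by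
        rw [h4, ← pow_mul, ← pow_mul, ← pow_mul, pow_add, pow_add, pow_add, pow_add, pow_add, pow_one]
        ring
      rw [e1, ← pow_mul, ← pow_mul]
      apply pow_le_pow_right₀ (by norm_num)
      have e2 : (3 * l + 1) * k = 3 * (k * l) + k := by ring
      have e3 : b * (k * 8) = 8 * (b * k) := by ring
      have e4 : 1 ≤ k * l := Nat.mul_pos hk hl1
      omega
    have h4 : (0 : ℝ) < (2 ^ (k * l)) ^ 8 := by positivity
    have h5 : ((2 : ℝ) ^ R) ^ 3 * (4 ^ k * (2 * 2 ^ (2 * (b * k)))) * 2 ≤ (U.card : ℝ) ^ 8 := by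
      rw [mul_pow] at h2
      have h6 := h3.trans h2
      rw [mul_comm] at h6
      exact le_of_mul_le_mul_left h6 h4
    calc ((U.card : ℝ) ^ 2 * 2 ^ R) ^ 3 * ((U.card : ℝ) ^ 2 * (4 ^ k * (2 * 2 ^ (2 * (b * k)))))
        = (U.card : ℝ) ^ 8 * (((2 : ℝ) ^ R) ^ 3 * (4 ^ k * (2 * 2 ^ (2 * (b * k)))) * 2) / 2 := by ring
      _ ≤ (U.card : ℝ) ^ 8 * (U.card : ℝ) ^ 8 / 2 := by
          apply div_le_div_of_nonneg_right _ (by norm_num)
          exact mul_le_mul_of_nonneg_left h5 (by positivity)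
      _ = ((U.card : ℝ) * U.card) ^ 8 / 2 := by ring
  refine le_trans ?_ hfin
  calc ∑ h : ZMod (2 ^ R), (if 2 ^ (b * k) < addOrderOf h then S h ^ 8 else 0)
      ≤ ∑ h : ZMod (2 ^ R), ((U.card : ℝ) ^ 2 * 2 ^ R) ^ 3 * S h ^ 2 := by
        refine Finset.sum_le_sum fun h _ => ?_
        split_ifs with hh
        · have h2 := hsup h hh
          calc S h ^ 8 = (S h ^ 2) ^ 3 * S h ^ 2 := by ring
            _ ≤ ((U.card : ℝ) ^ 2 * 2 ^ R) ^ 3 * S h ^ 2 :=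
              mul_le_mul_of_nonneg_right (pow_le_pow_left₀ (by positivity) h2 3) (by positivity)
        · positivity
    _ = ((U.card : ℝ) ^ 2 * 2 ^ R) ^ 3 * ∑ h : ZMod (2 ^ R), S h ^ 2 := by rw [Finset.mul_sum]
    _ ≤ _ := mul_le_mul_of_nonneg_left hL2 (by positivity)

private theorem ord_mul_odd2 (M : ℕ) [NeZero M] (h : ZMod M) (i m : ℕ) (hi : addOrderOf h = 2 ^ i)
    (hm : m % 2 = 1) : addOrderOf (h * (m : ZMod M)) = 2 ^ i := by
  have h1 : h * (m : ZMod M) = m • h := by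
    rw [nsmul_eq_mul, mul_comm]
  rw [h1, Nat.Coprime.addOrderOf_nsmul, hi]
  rw [hi]
  exact Nat.Coprime.pow_left i (Nat.coprime_two_left.2 (Nat.odd_iff.2 hm))

private theorem sum_left2 (M : ℕ) [NeZero M] {τ σ : Type} (T : Finset τ) (S : Finset σ) (g : τ → ℕ)
    (f : σ → ℕ) (h : ZMod M) :
    Sg M (T ×ˢ S) (fun x => ((g x.1 * f x.2 : ℕ) : ZMod M)) h =
      ∑ t ∈ T, Sg M S (fun s => ((f s : ℕ) : ZMod M)) (h * (g t : ZMod M)) := by
  unfold Sg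
  rw [Finset.sum_product]
  refine Finset.sum_congr rfl fun t _ => Finset.sum_congr rfl fun s _ => ?_
  congr 1
  push_cast
  ring

private theorem sum_right2 (M : ℕ) [NeZero M] {τ σ : Type} (T : Finset τ) (S : Finset σ) (g : τ → ℕ)
    (f : σ → ℕ) (h : ZMod M) :
    Sg M (T ×ˢ S) (fun x => ((g x.1 * f x.2 : ℕ) : ZMod M)) h =
      ∑ s ∈ S, Sg M T (fun t => ((g t : ℕ) : ZMod M)) (h * (f s : ZMod M)) := by
  unfold Sg
  rw [Finset.sum_product_right]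
  refine Finset.sum_congr rfl fun t _ => Finset.sum_congr rfl fun s _ => ?_
  congr 1
  push_cast
  ring

/-- EIGHT SUMMANDS WITH A DOMINANT PAIR. -/
theorem eight_dom (b J l k R : ℕ) (hb : 8 * l + 8 ≤ b) (hl1 : 1 ≤ l) (hk : 1 ≤ k)
    (hJ : 4 * b * 2 ^ J ≤ 2 ^ l) (h1 : 4 * b * k ≤ 2 ^ l) (hkJ : 4 * (l + 1) * k ≤ b * 2 ^ J)
    (hR : R + (3 * l + 1) * k ≤ 2 * (b * k)) (z : ℕ)
    (hz : 2 ^ (b * (2 ^ (J + 2) + 2 * k)) ≤ z) :
    ∃ (ε : ℕ) (X : Fin 8 → List ℕ) (z' : ℕ), ε ≤ 1 ∧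
      (∀ i, (X i).length ≤ 2 ^ (J + 2) + 2 * k - 3 ∧ ∀ x ∈ X i, 1 ≤ x ∧ x ≤ 2 ^ b) ∧
      z = ε + (∑ i, (X i).prod) + 2 ^ R * z' := by
  classical
  obtain ⟨τ, T, g, F⟩ := exists_fam b J l hb hJ
  have hNZ : NeZero (2 ^ R) := ⟨by positivity⟩
  obtain ⟨U, hU⟩ : ∃ U, U = PUo (2 ^ b) k := ⟨_, rfl⟩
  have hUodd : ∀ x ∈ U ×ˢ U, (x.1 * x.2) % 2 = 1 := by
    intro x hx
    rw [hU] at hx
    have h3 := (PUo_mem (Finset.mem_product.1 hx).1).2
    have h4 := (PUo_mem (Finset.mem_product.1 hx).2).2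
    rw [Nat.mul_mod, h3, h4]
  have hUne : (U ×ˢ U).Nonempty := by
    have h3 := PUo_dense b k l (by omega) hk h1 (by omega)
    have h4 : 0 < (PUo (2 ^ b) k).card := by
      rcases Nat.eq_zero_or_pos (PUo (2 ^ b) k).card with h0 | h0
      · rw [h0, mul_zero] at h3
        have : 0 < (2 ^ b) ^ k := by positivity
        omega
      · exact h0
    rw [← hU] at h4
    have h5 := Finset.card_pos.1 h4
    exact h5.product h5
  obtain ⟨W, hW⟩ : ∃ W, W = T ×ˢ (U ×ˢ U) := ⟨_, rfl⟩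
  obtain ⟨G, hG⟩ : ∃ G : τ × ℕ × ℕ → ℕ, ∀ x, G x = g x.1 * (x.2.1 * x.2.2) := ⟨_, fun _ => rfl⟩
  have hGf : (fun x : τ × ℕ × ℕ => ((G x : ℕ) : ZMod (2 ^ R))) =
      fun x => ((g x.1 * (fun y : ℕ × ℕ => y.1 * y.2) x.2 : ℕ) : ZMod (2 ^ R)) := by
    funext x
    rw [hG]
  have hWne : W.Nonempty := by
    rw [hW]
    exact F.ne.product hUne
  have hWc : 0 < (W.card : ℝ) := by exact_mod_cast Finset.card_pos.2 hWne
  have hGodd : ∀ t ∈ W, G t % 2 = 1 := by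
    intro t ht
    rw [hW] at ht
    have ht' := Finset.mem_product.1 ht
    rw [hG, Nat.mul_mod, F.odd _ ht'.1, hUodd _ ht'.2]
  -- the exponential sum
  obtain ⟨S, hS⟩ : ∃ S : ZMod (2 ^ R) → ℝ, ∀ h, S h =
    ‖Sg (2 ^ R) W (fun t => ((G t : ℕ) : ZMod (2 ^ R))) h‖ := ⟨_, fun _ => rfl⟩
  have hS0 : ∀ h, 0 ≤ S h := fun h => by rw [hS]; exact norm_nonneg _
  have hSr : ∀ h, Sg (2 ^ R) W (fun t => ((G t : ℕ) : ZMod (2 ^ R))) h =
      ∑ s ∈ U ×ˢ U, Sg (2 ^ R) T (fun t => ((g t : ℕ) : ZMod (2 ^ R)))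
        (h * ((s.1 * s.2 : ℕ) : ZMod (2 ^ R))) := by
    intro h
    rw [hGf, hW]
    exact sum_right2 (2 ^ R) T (U ×ˢ U) g (fun y => y.1 * y.2) h
  have hSl : ∀ h, Sg (2 ^ R) W (fun t => ((G t : ℕ) : ZMod (2 ^ R))) h =
      ∑ t ∈ T, Sg (2 ^ R) (U ×ˢ U) (fun x => ((x.1 * x.2 : ℕ) : ZMod (2 ^ R)))
        (h * (g t : ZMod (2 ^ R))) := by
    intro h
    rw [hGf, hW]
    exact sum_left2 (2 ^ R) T (U ×ˢ U) g (fun y => y.1 * y.2) h
  have hWcard : (W.card : ℝ) = (T.card : ℝ) * ((U ×ˢ U).card : ℝ) := by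
    rw [hW, Finset.card_product, Nat.cast_mul]
  have hzero : ∀ (h : ZMod (2 ^ R)) (i : ℕ), addOrderOf h = 2 ^ i → 2 ≤ i → i ≤ b → S h = 0 := by
    intro h i hi h2 hib
    rw [hS, hSr, norm_eq_zero]
    exact Finset.sum_eq_zero fun s hs => F.zero _ _ i (ord_mul_odd2 _ h i _ hi (hUodd s hs)) h2 hib
  have hsmall : ∀ (h : ZMod (2 ^ R)) (i : ℕ), addOrderOf h = 2 ^ i → 2 ≤ i → i ≤ b * 2 ^ J →
      S h * 2 ^ (i / 4) ≤ W.card := by
    intro h i hi h2 hib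
    rw [hS, hSr, hWcard]
    calc ‖∑ s ∈ U ×ˢ U, Sg (2 ^ R) T (fun t => ((g t : ℕ) : ZMod (2 ^ R)))
            (h * ((s.1 * s.2 : ℕ) : ZMod (2 ^ R)))‖ * 2 ^ (i / 4)
        ≤ (∑ s ∈ U ×ˢ U, ‖Sg (2 ^ R) T (fun t => ((g t : ℕ) : ZMod (2 ^ R)))
            (h * ((s.1 * s.2 : ℕ) : ZMod (2 ^ R)))‖) * 2 ^ (i / 4) :=
          mul_le_mul_of_nonneg_right (norm_sum_le _ _) (by positivity)
      _ = ∑ s ∈ U ×ˢ U, ‖Sg (2 ^ R) T (fun t => ((g t : ℕ) : ZMod (2 ^ R)))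
            (h * ((s.1 * s.2 : ℕ) : ZMod (2 ^ R)))‖ * 2 ^ (i / 4) := Finset.sum_mul _ _ _
      _ ≤ ∑ _s ∈ U ×ˢ U, (T.card : ℝ) := by
          refine Finset.sum_le_sum fun s hs => ?_
          exact F.small _ _ i (ord_mul_odd2 _ h i _ hi (hUodd s hs)) h2 hib
      _ = (T.card : ℝ) * ((U ×ˢ U).card : ℝ) := by
          rw [Finset.sum_const, nsmul_eq_mul, mul_comm]
  have hmid : ∀ (h : ZMod (2 ^ R)) (i : ℕ), addOrderOf h = 2 ^ i → b * 2 ^ J < i → i ≤ b * k →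
      S h * 2 ^ (i / 4) ≤ W.card := by
    intro h i hi h2 hib
    rw [hS, hSl, hWcard]
    have hki : 4 * (k * l) + 4 * k ≤ i := by
      have e1 : 4 * (l + 1) * k = 4 * (k * l) + 4 * k := by ring
      omega
    calc ‖∑ t ∈ T, Sg (2 ^ R) (U ×ˢ U) (fun x => ((x.1 * x.2 : ℕ) : ZMod (2 ^ R)))
            (h * (g t : ZMod (2 ^ R)))‖ * 2 ^ (i / 4)
        ≤ (∑ t ∈ T, ‖Sg (2 ^ R) (U ×ˢ U) (fun x => ((x.1 * x.2 : ℕ) : ZMod (2 ^ R)))
            (h * (g t : ZMod (2 ^ R)))‖) * 2 ^ (i / 4) :=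
          mul_le_mul_of_nonneg_right (norm_sum_le _ _) (by positivity)
      _ = ∑ t ∈ T, ‖Sg (2 ^ R) (U ×ˢ U) (fun x => ((x.1 * x.2 : ℕ) : ZMod (2 ^ R)))
            (h * (g t : ZMod (2 ^ R)))‖ * 2 ^ (i / 4) := Finset.sum_mul _ _ _
      _ ≤ ∑ _t ∈ T, ((U ×ˢ U).card : ℝ) := by
          refine Finset.sum_le_sum fun t ht => ?_
          have h5 := block_bound2 (2 ^ R) b k l i hb hk h1 (h * (g t : ZMod (2 ^ R)))
            (ord_mul_odd2 _ h i _ hi (F.odd t ht)) hki hib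
          rw [← hU] at h5
          rw [Finset.card_product, Nat.cast_mul]
          exact h5
      _ = (T.card : ℝ) * ((U ×ˢ U).card : ℝ) := by rw [Finset.sum_const, nsmul_eq_mul]
  -- the eighth moment over the large orders
  have hlarge : ∑ h : ZMod (2 ^ R), (if 2 ^ (b * k) < addOrderOf h then S h ^ 8 else 0) ≤
      (W.card : ℝ) ^ 8 / 2 := by
    obtain ⟨Q, hQ⟩ : ∃ Q : ZMod (2 ^ R) → ℝ, ∀ h, Q h = (if 2 ^ (b * k) < addOrderOf h then
      ‖Sg (2 ^ R) (U ×ˢ U) (fun x => ((x.1 * x.2 : ℕ) : ZMod (2 ^ R))) h‖ ^ 8 else 0) :=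
      ⟨_, fun _ => rfl⟩
    have hQsum : ∑ h : ZMod (2 ^ R), Q h ≤ ((U ×ˢ U).card : ℝ) ^ 8 / 2 := by
      have h5 := block_moment b k l R hb hl1 hk h1 hR
      rw [← hU] at h5
      rw [Finset.card_product, Nat.cast_mul]
      simp only [hQ]
      exact h5
    have hshift : ∀ t ∈ T, ∑ h : ZMod (2 ^ R), Q (h * (g t : ZMod (2 ^ R))) =
        ∑ h : ZMod (2 ^ R), Q h := by
      intro t ht
      have hc : Nat.Coprime (g t) (2 ^ R) :=
        Nat.Coprime.pow_right R (Nat.coprime_two_right.2 (Nat.odd_iff.2 (F.odd t ht)))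
      have h6 := Equiv.sum_comp (Units.mulRight (ZMod.unitOfCoprime (g t) hc)) Q
      rw [← h6]
      refine Finset.sum_congr rfl fun h _ => ?_
      congr 1
    have hjen : ∀ h : ZMod (2 ^ R), (if 2 ^ (b * k) < addOrderOf h then S h ^ 8 else 0) ≤
        (T.card : ℝ) ^ 7 * ∑ t ∈ T, Q (h * (g t : ZMod (2 ^ R))) := by
      intro h
      split_ifs with hh
      · have h2 := addOrderOf_dvd_card (x := h)
        rw [ZMod.card] at h2
        obtain ⟨i, _, hi⟩ := (Nat.dvd_prime_pow Nat.prime_two).1 h2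
        have hQt : ∀ t ∈ T, Q (h * (g t : ZMod (2 ^ R))) =
            ‖Sg (2 ^ R) (U ×ˢ U) (fun x => ((x.1 * x.2 : ℕ) : ZMod (2 ^ R)))
              (h * (g t : ZMod (2 ^ R)))‖ ^ 8 := by
          intro t ht
          rw [hQ, ord_mul_odd2 _ h i _ hi (F.odd t ht), ← hi, if_pos hh]
        rw [Finset.sum_congr rfl hQt, hS, hSl]
        obtain ⟨a, ha⟩ : ∃ a : τ → ℝ, ∀ t, a t = ‖Sg (2 ^ R) (U ×ˢ U)
          (fun x => ((x.1 * x.2 : ℕ) : ZMod (2 ^ R))) (h * (g t : ZMod (2 ^ R)))‖ :=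
          ⟨_, fun _ => rfl⟩
        have ha0 : ∀ t, 0 ≤ a t := fun t => by rw [ha]; exact norm_nonneg _
        simp only [← ha]
        have h7 : ‖∑ t ∈ T, Sg (2 ^ R) (U ×ˢ U) (fun x => ((x.1 * x.2 : ℕ) : ZMod (2 ^ R)))
            (h * (g t : ZMod (2 ^ R)))‖ ≤ ∑ t ∈ T, a t := by
          refine (norm_sum_le _ _).trans (le_of_eq ?_)
          exact Finset.sum_congr rfl fun t _ => (ha t).symm
        have h8 : (∑ t ∈ T, a t) ^ 2 ≤ (T.card : ℝ) * ∑ t ∈ T, a t ^ 2 := sq_sum_le_card_mul_sum_sq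
        have h9 : (∑ t ∈ T, a t ^ 2) ^ 2 ≤ (T.card : ℝ) * ∑ t ∈ T, (a t ^ 2) ^ 2 :=
          sq_sum_le_card_mul_sum_sq
        have h10 : (∑ t ∈ T, (a t ^ 2) ^ 2) ^ 2 ≤ (T.card : ℝ) * ∑ t ∈ T, ((a t ^ 2) ^ 2) ^ 2 :=
          sq_sum_le_card_mul_sum_sq
        have hn2 : 0 ≤ ∑ t ∈ T, a t ^ 2 := Finset.sum_nonneg fun t _ => sq_nonneg _
        have hn4 : 0 ≤ ∑ t ∈ T, (a t ^ 2) ^ 2 := Finset.sum_nonneg fun t _ => sq_nonneg _
        have hn1 : 0 ≤ ∑ t ∈ T, a t := Finset.sum_nonneg fun t _ => ha0 t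
        calc ‖∑ t ∈ T, Sg (2 ^ R) (U ×ˢ U) (fun x => ((x.1 * x.2 : ℕ) : ZMod (2 ^ R)))
                (h * (g t : ZMod (2 ^ R)))‖ ^ 8 ≤ (∑ t ∈ T, a t) ^ 8 :=
              pow_le_pow_left₀ (norm_nonneg _) h7 8
          _ = ((∑ t ∈ T, a t) ^ 2) ^ 4 := by ring
          _ ≤ ((T.card : ℝ) * ∑ t ∈ T, a t ^ 2) ^ 4 := pow_le_pow_left₀ (sq_nonneg _) h8 4
          _ = (T.card : ℝ) ^ 4 * ((∑ t ∈ T, a t ^ 2) ^ 2) ^ 2 := by ring
          _ ≤ (T.card : ℝ) ^ 4 * ((T.card : ℝ) * ∑ t ∈ T, (a t ^ 2) ^ 2) ^ 2 :=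
              mul_le_mul_of_nonneg_left (pow_le_pow_left₀ (sq_nonneg _) h9 2) (by positivity)
          _ = (T.card : ℝ) ^ 6 * (∑ t ∈ T, (a t ^ 2) ^ 2) ^ 2 := by ring
          _ ≤ (T.card : ℝ) ^ 6 * ((T.card : ℝ) * ∑ t ∈ T, ((a t ^ 2) ^ 2) ^ 2) :=
              mul_le_mul_of_nonneg_left h10 (by positivity)
          _ = (T.card : ℝ) ^ 7 * ∑ t ∈ T, a t ^ 8 := by
              have e1 : ∀ t, ((a t ^ 2) ^ 2) ^ 2 = a t ^ 8 := fun t => by ring
              rw [Finset.sum_congr rfl fun t _ => e1 t]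
              ring
      · have hQ0 : ∀ h, 0 ≤ Q h := by
          intro h
          rw [hQ]
          split_ifs
          · positivity
          · exact le_rfl
        exact mul_nonneg (by positivity) (Finset.sum_nonneg fun t _ => hQ0 _)
    calc ∑ h : ZMod (2 ^ R), (if 2 ^ (b * k) < addOrderOf h then S h ^ 8 else 0)
        ≤ ∑ h : ZMod (2 ^ R), (T.card : ℝ) ^ 7 * ∑ t ∈ T, Q (h * (g t : ZMod (2 ^ R))) :=
          Finset.sum_le_sum fun h _ => hjen h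
      _ = (T.card : ℝ) ^ 7 * ∑ t ∈ T, ∑ h : ZMod (2 ^ R), Q (h * (g t : ZMod (2 ^ R))) := by
          rw [← Finset.mul_sum, Finset.sum_comm]
      _ = (T.card : ℝ) ^ 7 * ∑ _t ∈ T, ∑ h : ZMod (2 ^ R), Q h := by
          rw [Finset.sum_congr rfl hshift]
      _ = (T.card : ℝ) ^ 8 * ∑ h : ZMod (2 ^ R), Q h := by
          rw [Finset.sum_const, nsmul_eq_mul]
          ring
      _ ≤ (T.card : ℝ) ^ 8 * (((U ×ˢ U).card : ℝ) ^ 8 / 2) :=
          mul_le_mul_of_nonneg_left hQsum (by positivity)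
      _ = (W.card : ℝ) ^ 8 / 2 := by
          rw [hWcard]
          ring
  obtain ⟨n, hn⟩ : ∃ n, n = z - z % 2 := ⟨_, rfl⟩
  have hn2 : n % 2 = 0 := by omega
  have hl : 7 ≤ b := by omega
  have key := eight (2 ^ R) W (fun t => ((G t : ℕ) : ZMod (2 ^ R))) ((n : ℕ) : ZMod (2 ^ R))
    (Finset.univ.filter (fun h : ZMod (2 ^ R) => 2 • h = 0))
    (Finset.mem_filter.2 ⟨Finset.mem_univ _, smul_zero _⟩) (by
      intro h hh
      have h2 : 2 • h = 0 := (Finset.mem_filter.1 hh).2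
      have h3 : ∀ m : ℕ, m % 2 = 1 → h * (m : ZMod (2 ^ R)) = h := by
        intro m hm
        obtain ⟨a, ha⟩ : ∃ a, m = 2 * a + 1 := ⟨m / 2, by omega⟩
        have h4 : h * (m : ZMod (2 ^ R)) = a • (2 • h) + h := by
          rw [ha, nsmul_eq_mul, nsmul_eq_mul]
          push_cast
          ring
        rw [h4, h2, smul_zero, zero_add]
      have h5 : h * (n : ZMod (2 ^ R)) = 0 := by
        obtain ⟨a, ha⟩ : ∃ a, n = 2 * a := ⟨n / 2, by omega⟩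
        have h4 : h * (n : ZMod (2 ^ R)) = a • (2 • h) := by
          rw [ha, nsmul_eq_mul, nsmul_eq_mul]
          push_cast
          ring
        rw [h4, h2, smul_zero]
      have h6 : Sg (2 ^ R) W (fun t => ((G t : ℕ) : ZMod (2 ^ R))) h =
          (W.card : ℂ) * (ZMod.stdAddChar h : ℂ) := by
        unfold Sg
        rw [Finset.sum_congr rfl (g := fun _ => (ZMod.stdAddChar h : ℂ)) (by
          intro t ht
          show (ZMod.stdAddChar (h * ((G t : ℕ) : ZMod (2 ^ R))) : ℂ) = _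
          rw [h3 _ (hGodd t ht)]), Finset.sum_const, nsmul_eq_mul]
      have h7 : (ZMod.stdAddChar h : ℂ) ^ 8 = 1 := by
        rw [← AddChar.map_nsmul_eq_pow]
        have h8 : 8 • h = 4 • (2 • h) := by
          have h9 : (8 : ℕ) = 4 * 2 := by norm_num
          rw [smul_smul, ← h9]
        rw [h8, h2, smul_zero, AddChar.map_zero_eq_one]
      rw [h5, neg_zero, AddChar.map_zero_eq_one, mul_one, h6, mul_pow, h7, mul_one])
    (by
      have hS' : ∀ h, ‖Sg (2 ^ R) W (fun t => ((G t : ℕ) : ZMod (2 ^ R))) h‖ = S h :=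
        fun h => (hS h).symm
      simp only [hS']
      obtain ⟨F1, hF1⟩ : ∃ F1 : ZMod (2 ^ R) → ℝ, ∀ h, F1 h =
        (if 2 ^ (b * k) < addOrderOf h ∧ 2 ^ (b * 2 ^ J) < addOrderOf h then 0 else S h) :=
        ⟨_, fun _ => rfl⟩
      have hF10 : ∀ h, 0 ≤ F1 h := by
        intro h
        rw [hF1]
        split_ifs
        · exact le_rfl
        · exact hS0 h
      have hF1S : ∀ h, F1 h ≤ S h := by
        intro h
        rw [hF1]
        split_ifs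
        · exact hS0 h
        · exact le_rfl
      have ht := tail_half R b hl F1 W.card hWc hF10 (by
          intro h i hi hbi
          rcases Nat.lt_or_ge (b * 2 ^ J) i with hiJ | hiJ
          · rcases Nat.lt_or_ge (b * k) i with hik | hik
            · rw [hF1, if_pos, zero_mul]
              · exact hWc.le
              · rw [hi]
                exact ⟨Nat.pow_lt_pow_right (by norm_num) hik, Nat.pow_lt_pow_right (by norm_num) hiJ⟩
            · exact (mul_le_mul_of_nonneg_right (hF1S h) (by positivity)).trans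
                (hmid h i hi hiJ hik)
          · exact (mul_le_mul_of_nonneg_right (hF1S h) (by positivity)).trans
                (hsmall h i hi (by omega) hiJ)) (by
          intro h i hi h2 hib
          exact le_antisymm ((hF1S h).trans (le_of_eq (hzero h i hi h2 hib))) (hF10 h))
        (Finset.univ.filter (fun h : ZMod (2 ^ R) => 2 • h = 0)) (by
          intro h hh
          have h2 := addOrderOf_dvd_card (x := h)
          rw [ZMod.card] at h2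
          obtain ⟨i, _, hi⟩ := (Nat.dvd_prime_pow Nat.prime_two).1 h2
          refine ⟨i, ?_, hi⟩
          by_contra hlt
          apply hh
          rw [Finset.mem_filter]
          refine ⟨Finset.mem_univ _, ?_⟩
          rw [← addOrderOf_dvd_iff_nsmul_eq_zero, hi]
          calc 2 ^ i ∣ 2 ^ 1 := pow_dvd_pow 2 (by omega)
            _ = 2 := pow_one 2)
      have hsplit : ∀ h, S h ^ 8 ≤ F1 h ^ 8 +
          (if 2 ^ (b * k) < addOrderOf h then S h ^ 8 else 0) := by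
        intro h
        have h8 : 0 ≤ S h ^ 8 := pow_nonneg (hS0 h) 8
        rw [hF1]
        split_ifs with c1 c2 c3
        · simp
        · exact absurd c1.1 c2
        · linarith
        · simp
      calc ∑ h ∈ Finset.univ \ (Finset.univ.filter (fun h : ZMod (2 ^ R) => 2 • h = 0)), S h ^ 8
          ≤ ∑ h ∈ Finset.univ \ (Finset.univ.filter (fun h : ZMod (2 ^ R) => 2 • h = 0)),
            (F1 h ^ 8 + (if 2 ^ (b * k) < addOrderOf h then S h ^ 8 else 0)) :=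
            Finset.sum_le_sum fun h _ => hsplit h
        _ = ∑ h ∈ Finset.univ \ (Finset.univ.filter (fun h : ZMod (2 ^ R) => 2 • h = 0)), F1 h ^ 8 +
            ∑ h ∈ Finset.univ \ (Finset.univ.filter (fun h : ZMod (2 ^ R) => 2 • h = 0)),
              (if 2 ^ (b * k) < addOrderOf h then S h ^ 8 else 0) := Finset.sum_add_distrib
        _ ≤ ∑ h ∈ Finset.univ \ (Finset.univ.filter (fun h : ZMod (2 ^ R) => 2 • h = 0)), F1 h ^ 8 +
            ∑ h : ZMod (2 ^ R), (if 2 ^ (b * k) < addOrderOf h then S h ^ 8 else 0) := by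
            refine (add_le_add_iff_left _).2 ?_
            apply Finset.sum_le_sum_of_subset_of_nonneg (Finset.subset_univ _)
            intro h _ _
            split_ifs
            · exact pow_nonneg (hS0 h) 8
            · exact le_rfl
        _ < (W.card : ℝ) ^ 8 / 2 + (W.card : ℝ) ^ 8 / 2 := by linarith
        _ = (W.card : ℝ) ^ 8 := by ring)
  obtain ⟨t, ht, hsum⟩ := key
  have hfac : ∀ i, ∃ L : List ℕ, L.length ≤ 2 ^ (J + 2) + 2 * k - 3 ∧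
      (∀ x ∈ L, 1 ≤ x ∧ x ≤ 2 ^ b) ∧ L.prod = G (t i) := by
    intro i
    have hti := ht i
    rw [hW] at hti
    have ht' := Finset.mem_product.1 hti
    obtain ⟨L, hL1, hL2, hL3⟩ := F.fac _ ht'.1
    have hu := ht'.2
    rw [hU] at hu
    obtain ⟨x, hx, hxu⟩ := PU_prod (PUo_mem (Finset.mem_product.1 hu).1).1
    obtain ⟨y, hy, hyv⟩ := PU_prod (PUo_mem (Finset.mem_product.1 hu).2).1
    refine ⟨L ++ (List.ofFn x ++ List.ofFn y), ?_, ?_, ?_⟩
    · rw [List.length_append, List.length_append, List.length_ofFn, List.length_ofFn, hL1]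
      have e1 : 2 ^ (J + 2) = 4 * 2 ^ J := by ring
      have e4 : 1 ≤ 2 ^ J := Nat.one_le_two_pow
      omega
    · intro z hz
      rw [List.mem_append, List.mem_append, List.mem_ofFn, List.mem_ofFn] at hz
      rcases hz with hz | ⟨j, rfl⟩ | ⟨j, rfl⟩
      · exact hL2 z hz
      · exact hx j
      · exact hy j
    · rw [List.prod_append, List.prod_append, List.prod_ofFn, List.prod_ofFn, hL3, ← hxu, ← hyv, hG]
  choose L hL1 hL2 hL3 using hfac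
  have hK : 2 ^ (J + 2) ≥ 4 := by
    calc 2 ^ (J + 2) ≥ 2 ^ 2 := Nat.pow_le_pow_right (by norm_num) (by omega)
      _ = 4 := by norm_num
  have hprod : ∀ L : List ℕ, (∀ x ∈ L, 1 ≤ x ∧ x ≤ 2 ^ b) → L.prod ≤ (2 ^ b) ^ L.length := by
    intro L hL
    exact List.prod_le_pow_card L (2 ^ b) (fun x hx => (hL x hx).2)
  have hle : ∀ i, 8 * G (t i) ≤ n := by
    intro i
    have h2 := (hprod (L i) (hL2 i)).trans (Nat.pow_le_pow_right (by positivity) (hL1 i))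
    rw [hL3 i, ← pow_mul] at h2
    have h3 : 8 * 2 ^ (b * (2 ^ (J + 2) + 2 * k - 3)) ≤ 2 ^ (b * (2 ^ (J + 2) + 2 * k) - 1) := by
      have h4 : (8 : ℕ) = 2 ^ 3 := by norm_num
      rw [h4, ← pow_add]
      apply Nat.pow_le_pow_right (by norm_num)
      have h5 : b * (2 ^ (J + 2) + 2 * k - 3) + b * 3 = b * (2 ^ (J + 2) + 2 * k) := by
        rw [← mul_add]
        congr 1
        omega
      omega
    have h6 : 2 ^ (b * (2 ^ (J + 2) + 2 * k)) = 2 * 2 ^ (b * (2 ^ (J + 2) + 2 * k) - 1) := by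
      rw [← pow_succ']
      congr 1
      have : 1 ≤ b * (2 ^ (J + 2) + 2 * k) := by nlinarith
      omega
    have h7 : 1 ≤ 2 ^ (b * (2 ^ (J + 2) + 2 * k) - 1) := Nat.one_le_two_pow
    omega
  have hle8 : ∑ i, G (t i) ≤ n := by
    have h2 : ∑ i : Fin 8, 8 * G (t i) ≤ ∑ _i : Fin 8, n := Finset.sum_le_sum fun i _ => hle i
    rw [← Finset.mul_sum, Finset.sum_const, Finset.card_univ, Fintype.card_fin, smul_eq_mul] at h2
    omega
  have hdvd : 2 ^ R ∣ n - ∑ i, G (t i) := by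
    rw [← ZMod.natCast_eq_zero_iff, Nat.cast_sub hle8, sub_eq_zero, ← hsum]
    push_cast
    rfl
  obtain ⟨w, hw⟩ := hdvd
  refine ⟨z % 2, L, w, by omega, fun i => ⟨hL1 i, hL2 i⟩, ?_⟩
  have h2 : ∑ i, (L i).prod = ∑ i, G (t i) := Finset.sum_congr rfl fun i _ => hL3 i
  rw [h2, ← hw]
  omega

end HadNT
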