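import Pool.Agent.Lib_MP_008adc_co.NTern0

/-!
# Eight summands modulo a power of two: Fourier inversion, the tail over the orders, odd numbers
-/

set_option autoImplicit false

namespace HadNT

private theorem psi_sum (M : ℕ) [NeZero M] {ι : Type} (s : Finset ι) (f : ι → ZMod M) :
    (ZMod.stdAddChar (∑ i ∈ s, f i) : ℂ) = ∏ i ∈ s, (ZMod.stdAddChar (f i) : ℂ) := by
  classical
  induction s using Finset.induction_on with
  | empty => rw [Finset.sum_empty, Finset.prod_empty, AddChar.map_zero_eq_one]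
  | insert a s ha ih => rw [Finset.sum_insert ha, Finset.prod_insert ha, AddChar.map_add_eq_mul, ih]

/-- EIGHT SUMMANDS. If on a set `H` of frequencies containing `0` the main term is `|T| ^ 8` and the
other frequencies contribute less than `|T| ^ 8`, then `n` is a sum of eight values. -/
theorem eight (M : ℕ) [NeZero M] {τ : Type} (T : Finset τ) (g : τ → ZMod M) (n : ZMod M)
    (H : Finset (ZMod M)) (h0 : 0 ∈ H)
    (hH : ∀ h ∈ H, Sg M T g h ^ 8 * (ZMod.stdAddChar (-(h * n)) : ℂ) = (T.card : ℂ) ^ 8)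
    (hlt : ∑ h ∈ Finset.univ \ H, ‖Sg M T g h‖ ^ 8 < (T.card : ℝ) ^ 8) :
    ∃ t : Fin 8 → τ, (∀ i, t i ∈ T) ∧ ∑ i, g (t i) = n := by
  classical
  by_contra hcon
  push Not at hcon
  have hsum : ∑ h : ZMod M, Sg M T g h ^ 8 * (ZMod.stdAddChar (-(h * n)) : ℂ) = 0 := by
    have h1 : ∀ h : ZMod M, Sg M T g h ^ 8 * (ZMod.stdAddChar (-(h * n)) : ℂ) =
        ∑ x ∈ Fintype.piFinset (fun _ : Fin 8 => T),
          (ZMod.stdAddChar (h * ((∑ i, g (x i)) - n)) : ℂ) := by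
      intro h
      have h2 : Sg M T g h ^ 8 = ∏ _i : Fin 8, ∑ t ∈ T, (ZMod.stdAddChar (h * g t) : ℂ) := by
        rw [Finset.prod_const, Finset.card_univ, Fintype.card_fin]
        rfl
      rw [h2, Finset.prod_univ_sum, Finset.sum_mul]
      refine Finset.sum_congr rfl fun x _ => ?_
      have h3 : h * ((∑ i, g (x i)) - n) = (∑ i, h * g (x i)) + (-(h * n)) := by
        rw [mul_sub, Finset.mul_sum]
        ring
      rw [h3, AddChar.map_add_eq_mul, psi_sum]
    rw [Finset.sum_congr rfl (fun h _ => h1 h), Finset.sum_comm,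
      Finset.sum_congr rfl (fun x _ => orth M ((∑ i, g (x i)) - n))]
    refine Finset.sum_eq_zero fun x hx => ?_
    rw [if_neg]
    intro h0
    exact hcon x (fun i => Fintype.mem_piFinset.1 hx i) (sub_eq_zero.1 h0)
  rw [← Finset.sum_sdiff (Finset.subset_univ H), Finset.sum_congr rfl hH, Finset.sum_const,
    nsmul_eq_mul] at hsum
  have h2 : (H.card : ℂ) * (T.card : ℂ) ^ 8 = -∑ h ∈ Finset.univ \ H,
      Sg M T g h ^ 8 * (ZMod.stdAddChar (-(h * n)) : ℂ) :=
    eq_neg_of_add_eq_zero_right hsum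
  have h3 : ‖(H.card : ℂ) * (T.card : ℂ) ^ 8‖ = (H.card : ℝ) * (T.card : ℝ) ^ 8 := by
    rw [norm_mul, norm_pow, Complex.norm_natCast, Complex.norm_natCast]
  have h4 : (H.card : ℝ) * (T.card : ℝ) ^ 8 ≤ ∑ h ∈ Finset.univ \ H, ‖Sg M T g h‖ ^ 8 := by
    rw [← h3, h2, norm_neg]
    refine (norm_sum_le _ _).trans (Finset.sum_le_sum fun h _ => ?_)
    rw [norm_mul, norm_pow]
    have h5 : ‖(ZMod.stdAddChar (-(h * n)) : ℂ)‖ = 1 := by
      rw [ZMod.stdAddChar_apply]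
      exact Circle.norm_coe _
    rw [h5, mul_one]
  have h5 : (1 : ℝ) ≤ H.card := by
    exact_mod_cast Finset.card_pos.2 ⟨0, h0⟩
  have h6 : (0 : ℝ) ≤ (T.card : ℝ) ^ 8 := by positivity
  nlinarith

/-- The sum over the odd numbers below `2 ^ b` vanishes for the orders `2 ^ i`, `2 ≤ i ≤ b`. -/
theorem odd_sum_zero (M b i : ℕ) [NeZero M] (h : ZMod M) (hi : addOrderOf h = 2 ^ i)
    (h2 : 2 ≤ i) (hb : i ≤ b) :
    ∑ y ∈ Finset.range (2 ^ (b - 1)), (ZMod.stdAddChar (h * ((2 * y + 1 : ℕ) : ZMod M)) : ℂ) = 0 := by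
  have h1 : ∀ y : ℕ, (ZMod.stdAddChar (h * ((2 * y + 1 : ℕ) : ZMod M)) : ℂ) =
      (ZMod.stdAddChar h : ℂ) * (ZMod.stdAddChar (2 • h) : ℂ) ^ y := by
    intro y
    rw [← AddChar.map_nsmul_eq_pow, ← AddChar.map_add_eq_mul]
    congr 1
    rw [nsmul_eq_mul, nsmul_eq_mul]
    push_cast
    ring
  rw [Finset.sum_congr rfl fun y _ => h1 y, ← Finset.mul_sum]
  have h3 : (ZMod.stdAddChar (2 • h) : ℂ) ≠ 1 := by
    intro h4
    have h5 : 2 • h = 0 := by
      apply ZMod.injective_stdAddChar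
      rw [AddChar.map_zero_eq_one]
      exact h4
    have h6 := addOrderOf_dvd_of_nsmul_eq_zero h5
    have h7 := Nat.le_of_dvd (by norm_num) h6
    rw [hi] at h7
    have h8 : 2 ^ 2 ≤ 2 ^ i := Nat.pow_le_pow_right (by norm_num) h2
    omega
  have h9 : (ZMod.stdAddChar (2 • h) : ℂ) ^ (2 ^ (b - 1)) = 1 := by
    rw [← AddChar.map_nsmul_eq_pow, smul_smul, ← pow_succ, Nat.sub_add_cancel (by omega)]
    have h10 : 2 ^ b • h = 0 := by
      rw [← addOrderOf_dvd_iff_nsmul_eq_zero, hi]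
      exact pow_dvd_pow 2 hb
    rw [h10, AddChar.map_zero_eq_one]
  rw [geom_sum_eq h3, h9, sub_self, zero_div, mul_zero]

private theorem ord_sum (R : ℕ) (f : ℕ → ℝ) :
    ∑ h : ZMod (2 ^ R), f (addOrderOf h) = ∑ i ∈ Finset.range (R + 1), (2 ^ i).totient * f (2 ^ i) := by
  classical
  have : NeZero (2 ^ R) := ⟨by positivity⟩
  have hmaps : ∀ h ∈ (Finset.univ : Finset (ZMod (2 ^ R))), addOrderOf h ∈ (2 ^ R).divisors := by
    intro h _
    rw [Nat.mem_divisors]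
    refine ⟨?_, by positivity⟩
    have h2 := addOrderOf_dvd_card (x := h)
    rwa [ZMod.card] at h2
  rw [← Finset.sum_fiberwise_of_maps_to hmaps, Nat.divisors_prime_pow Nat.prime_two, Finset.sum_map]
  refine Finset.sum_congr rfl fun i hi => ?_
  have h3 : ∑ h : ZMod (2 ^ R) with addOrderOf h = 2 ^ i, f (addOrderOf h) =
      ((Finset.univ.filter (fun h : ZMod (2 ^ R) => addOrderOf h = 2 ^ i)).card : ℝ) * f (2 ^ i) := by
    rw [Finset.sum_congr rfl (g := fun _ => f (2 ^ i)) (by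
      intro h hh
      rw [(Finset.mem_filter.1 hh).2]), Finset.sum_const, nsmul_eq_mul]
  have h4 : (Finset.univ.filter (fun h : ZMod (2 ^ R) => addOrderOf h = 2 ^ i)).card =
      (2 ^ i).totient := by
    apply IsAddCyclic.card_addOrderOf_eq_totient
    rw [ZMod.card]
    exact pow_dvd_pow 2 (by
      have := Finset.mem_range.1 hi
      omega)
  exact h3.trans (by rw [h4])

/-- The tail: `F h 2 ^ (i / 4) ≤ C` for the orders `2 ^ i`, `i > b`, and `F h = 0` for `2 ≤ i ≤ b`. -/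
theorem tail_half (R b : ℕ) (hb : 7 ≤ b) (F : ZMod (2 ^ R) → ℝ) (C : ℝ) (hC : 0 < C)
    (hF0 : ∀ h, 0 ≤ F h)
    (hF : ∀ h i, addOrderOf h = 2 ^ i → b < i → F h * 2 ^ (i / 4) ≤ C)
    (hz : ∀ h i, addOrderOf h = 2 ^ i → 2 ≤ i → i ≤ b → F h = 0)
    (H : Finset (ZMod (2 ^ R))) (hH : ∀ h, h ∉ H → ∃ i, 2 ≤ i ∧ addOrderOf h = 2 ^ i) :
    ∑ h ∈ Finset.univ \ H, F h ^ 8 < C ^ 8 / 2 := by
  classical
  have : NeZero (2 ^ R) := ⟨by positivity⟩
  set G : ℕ → ℝ := fun d => if 2 ^ b < d then C ^ 8 * 64 / (d : ℝ) ^ 2 else 0 with hG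
  have hG0 : ∀ d, 0 ≤ G d := by
    intro d
    simp only [hG]
    split_ifs
    · positivity
    · exact le_rfl
  have h1 : ∀ h ∈ Finset.univ \ H, F h ^ 8 ≤ G (addOrderOf h) := by
    intro h hh
    obtain ⟨i, hi2, hi⟩ := hH h (Finset.mem_sdiff.1 hh).2
    rcases Nat.lt_or_ge b i with hbi | hbi
    · have h2 := hF h i hi hbi
      have h3 : G (addOrderOf h) = C ^ 8 * 64 / ((2 : ℝ) ^ i) ^ 2 := by
        simp only [hG]
        rw [hi, if_pos (Nat.pow_lt_pow_right (by norm_num) hbi)]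
        push_cast
        rfl
      rw [h3, le_div_iff₀ (by positivity)]
      have h4 : (F h * 2 ^ (i / 4)) ^ 8 ≤ C ^ 8 :=
        pow_le_pow_left₀ (mul_nonneg (hF0 h) (by positivity)) h2 8
      have h5 : ((2 : ℝ) ^ i) ^ 2 ≤ ((2 : ℝ) ^ (i / 4)) ^ 8 * 64 := by
        have h6 : (64 : ℝ) = 2 ^ 6 := by norm_num
        rw [h6, ← pow_mul, ← pow_mul, ← pow_add]
        apply pow_le_pow_right₀ (by norm_num)
        omega
      calc F h ^ 8 * ((2 : ℝ) ^ i) ^ 2 ≤ F h ^ 8 * (((2 : ℝ) ^ (i / 4)) ^ 8 * 64) :=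
            mul_le_mul_of_nonneg_left h5 (pow_nonneg (hF0 h) 8)
        _ = (F h * 2 ^ (i / 4)) ^ 8 * 64 := by ring
        _ ≤ C ^ 8 * 64 := by linarith
    · rw [hz h i hi hi2 hbi]
      have h2 := hG0 (addOrderOf h)
      simpa using h2
  have h2 : ∑ h ∈ Finset.univ \ H, F h ^ 8 ≤ ∑ h : ZMod (2 ^ R), G (addOrderOf h) :=
    (Finset.sum_le_sum h1).trans (Finset.sum_le_sum_of_subset_of_nonneg (Finset.subset_univ _)
      fun h _ _ => hG0 _)
  have h3 : ∀ N : ℕ, ∑ i ∈ Finset.range (N + 1), ((2 ^ i).totient : ℝ) * G (2 ^ i) ≤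
      C ^ 8 * 64 * (1 / 2 ^ b - 1 / 2 ^ (max N b)) := by
    intro N
    induction N with
    | zero =>
      rw [zero_add, Finset.sum_range_one, Nat.zero_max]
      have h4 : G (2 ^ 0) = 0 := by
        simp only [hG]
        rw [if_neg]
        have : 1 ≤ 2 ^ b := Nat.one_le_two_pow
        simpa using this
      rw [h4, mul_zero, sub_self, mul_zero]
    | succ N ih =>
      rw [Finset.sum_range_succ]
      rcases Nat.lt_or_ge b (N + 1) with hb1 | hb1
      · have h4 : G (2 ^ (N + 1)) = C ^ 8 * 64 / ((2 : ℝ) ^ (N + 1)) ^ 2 := by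
          simp only [hG]
          rw [if_pos (Nat.pow_lt_pow_right (by norm_num) hb1)]
          push_cast
          rfl
        have h5 : ((2 ^ (N + 1)).totient : ℝ) ≤ 2 ^ (N + 1) := by
          exact_mod_cast Nat.totient_le (2 ^ (N + 1))
        have h6 : ((2 ^ (N + 1)).totient : ℝ) = 2 ^ N := by
          rw [Nat.totient_prime_pow_succ Nat.prime_two]
          simp
        rw [h4, h6]
        have h7 : max N b = N := max_eq_left (by omega)
        have h8 : max (N + 1) b = N + 1 := max_eq_left (by omega)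
        rw [h7] at ih
        rw [h8]
        have h9 : (2 : ℝ) ^ N * (C ^ 8 * 64 / ((2 : ℝ) ^ (N + 1)) ^ 2) ≤
            C ^ 8 * 64 * (1 / 2 ^ N - 1 / 2 ^ (N + 1)) := by
          have h10 : C ^ 8 * 64 * (1 / 2 ^ N - 1 / 2 ^ (N + 1)) -
              (2 : ℝ) ^ N * (C ^ 8 * 64 / ((2 : ℝ) ^ (N + 1)) ^ 2) = C ^ 8 * 64 / 2 ^ N * (1 / 4) := by
            rw [pow_succ]
            field_simp
            ring
          have h11 : 0 ≤ C ^ 8 * 64 / 2 ^ N * (1 / 4) := by positivity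
          linarith
        have h12 : C ^ 8 * 64 * (1 / 2 ^ b - 1 / 2 ^ (N + 1)) =
            C ^ 8 * 64 * (1 / 2 ^ b - 1 / 2 ^ N) + C ^ 8 * 64 * (1 / 2 ^ N - 1 / 2 ^ (N + 1)) := by ring
        rw [h12]
        linarith
      · have h4 : G (2 ^ (N + 1)) = 0 := by
          simp only [hG]
          rw [if_neg]
          exact not_lt.2 (Nat.pow_le_pow_right (by norm_num) hb1)
        have h7 : max N b = b := max_eq_right (by omega)
        have h8 : max (N + 1) b = b := max_eq_right (by omega)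
        rw [h7] at ih
        rw [h8, h4, mul_zero, add_zero]
        exact ih
  have h4 := h3 R
  rw [← ord_sum] at h4
  refine lt_of_le_of_lt (h2.trans h4) ?_
  have h5 : (0 : ℝ) < 1 / 2 ^ (max R b) := by positivity
  have h6 : (1 : ℝ) / 2 ^ b ≤ 1 / 128 := by
    apply one_div_le_one_div_of_le (by norm_num)
    have : (2 : ℝ) ^ 7 ≤ 2 ^ b := pow_le_pow_right₀ (by norm_num) hb
    norm_num at this
    exact this
  have h7 : 0 < C ^ 8 := by positivity
  nlinarith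

theorem tail_lt (R b : ℕ) (hb : 7 ≤ b) (F : ZMod (2 ^ R) → ℝ) (C : ℝ) (hC : 0 < C)
    (hF0 : ∀ h, 0 ≤ F h)
    (hF : ∀ h i, addOrderOf h = 2 ^ i → b < i → F h * 2 ^ (i / 4) ≤ C)
    (hz : ∀ h i, addOrderOf h = 2 ^ i → 2 ≤ i → i ≤ b → F h = 0)
    (H : Finset (ZMod (2 ^ R))) (hH : ∀ h, h ∉ H → ∃ i, 2 ≤ i ∧ addOrderOf h = 2 ^ i) :
    ∑ h ∈ Finset.univ \ H, F h ^ 8 < C ^ 8 := by
  have h1 := tail_half R b hb F C hC hF0 hF hz H hH
  have h2 : 0 < C ^ 8 := by positivity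
  linarith

end HadNT
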