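import Pool.Agent.Lib_MP_008adc_co.Defs

/-!
# Piece FULLA: elementary closure properties of `Full` matrices

A matrix `A` is `Full cls` when its entries are `0, 1, -1` and, for every class value `c`, every row
and every column has exactly one nonzero entry whose index has class `c`.
Every statement below is checked entry by entry; an entry of a Kronecker product is the product of
the entries (`Matrix.kroneckerMap_apply`), and a product of two entries in `0, 1, -1` is again in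
this set and is nonzero exactly when both factors are.
-/

set_option autoImplicit false

namespace HadCalc

open Matrix
open scoped Kronecker

private theorem fa_pair {α β : Type} {P : α → Prop} {Q : β → Prop} {R : α × β → Prop}
    (h1 : ∃! a, P a) (h2 : ∃! b, Q b) (h : ∀ p, R p ↔ P p.1 ∧ Q p.2) : ∃! p : α × β, R p := by
  obtain ⟨a, ha, hau⟩ := h1
  obtain ⟨b, hb, hbu⟩ := h2
  refine ⟨(a, b), (h _).2 ⟨ha, hb⟩, fun p hp => ?_⟩
  obtain ⟨h3, h4⟩ := (h p).1 hp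
  exact Prod.ext (hau _ h3) (hbu _ h4)

private theorem fa_tri {a b : ℤ} (ha : a = 0 ∨ a = 1 ∨ a = -1) (hb : b = 0 ∨ b = 1 ∨ b = -1) :
    a * b = 0 ∨ a * b = 1 ∨ a * b = -1 := by
  rcases ha with rfl | rfl | rfl <;> rcases hb with rfl | rfl | rfl <;> simp

private theorem fa_one {ι : Type} [DecidableEq ι] (i j : ι) :
    (1 : Matrix ι ι ℤ) i j = 0 ∨ (1 : Matrix ι ι ℤ) i j = 1 ∨ (1 : Matrix ι ι ℤ) i j = -1 := by
  by_cases h : i = j
  · subst h
    right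
    left
    exact Matrix.one_apply_eq i
  · left
    exact Matrix.one_apply_ne h

private theorem fa_one_ne {ι : Type} [DecidableEq ι] {i j : ι} :
    (1 : Matrix ι ι ℤ) i j ≠ 0 ↔ i = j := by
  constructor
  · intro h
    by_contra h2
    exact h (Matrix.one_apply_ne h2)
  · rintro rfl
    rw [Matrix.one_apply_eq]
    exact one_ne_zero

/-- The transpose exchanges the row and the column condition. -/
theorem Full.transpose {ι κ : Type} {cls : ι → κ} {A : Matrix ι ι ℤ} (h : Full cls A) :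
    Full cls Aᵀ := by
  exact ⟨fun i j => h.tri j i, fun i c => h.col i c, fun j c => h.row j c⟩

/-- Negation does not change which entries vanish. -/
theorem Full.neg {ι κ : Type} {cls : ι → κ} {A : Matrix ι ι ℤ} (h : Full cls A) :
    Full cls (-A) := by
  have h1 : ∀ i j, ((-A) i j ≠ 0 ↔ A i j ≠ 0) := fun i j => by
    rw [Matrix.neg_apply]
    exact neg_ne_zero
  refine ⟨fun i j => ?_, fun i c => ?_, fun j c => ?_⟩
  · rw [Matrix.neg_apply]
    rcases h.tri i j with h2 | h2 | h2 <;> rw [h2] <;> simp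
  · obtain ⟨j, ⟨h2, h3⟩, h4⟩ := h.row i c
    exact ⟨j, ⟨h2, (h1 i j).2 h3⟩, fun y hy => h4 y ⟨hy.1, (h1 i y).1 hy.2⟩⟩
  · obtain ⟨i, ⟨h2, h3⟩, h4⟩ := h.col j c
    exact ⟨i, ⟨h2, (h1 i j).2 h3⟩, fun y hy => h4 y ⟨hy.1, (h1 y j).1 hy.2⟩⟩

/-- Kronecker product with classes in the product. Row `(i, k)`, class `(c, d)`: the unique index is
`(j, l)` with `j` the unique index for row `i`, class `c` and `l` the unique one for row `k`,
class `d`. -/
theorem Full.kron {ι₁ ι₂ κ₁ κ₂ : Type} {cls₁ : ι₁ → κ₁} {cls₂ : ι₂ → κ₂}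
    {A : Matrix ι₁ ι₁ ℤ} {B : Matrix ι₂ ι₂ ℤ} (hA : Full cls₁ A) (hB : Full cls₂ B) :
    Full (fun p : ι₁ × ι₂ => (cls₁ p.1, cls₂ p.2)) (A ⊗ₖ B) := by
  refine ⟨fun i j => fa_tri (hA.tri _ _) (hB.tri _ _), fun i c => ?_, fun j c => ?_⟩
  · refine fa_pair (hA.row i.1 c.1) (hB.row i.2 c.2) fun p => ?_
    change (cls₁ p.1, cls₂ p.2) = c ∧ A i.1 p.1 * B i.2 p.2 ≠ 0 ↔ _
    rw [Prod.ext_iff, mul_ne_zero_iff]
    tauto
  · refine fa_pair (hA.col j.1 c.1) (hB.col j.2 c.2) fun p => ?_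
    change (cls₁ p.1, cls₂ p.2) = c ∧ A p.1 j.1 * B p.2 j.2 ≠ 0 ↔ _
    rw [Prod.ext_iff, mul_ne_zero_iff]
    tauto

/-- Classes added in an abelian group. Row `(i, k)`, class `c`: a nonzero entry of `A ⊗ₖ 1` in this
row has column index `(j, k)`, and its class is `c` iff `cls₀ j = c - cls₁ k`. -/
theorem Full.kron_one {ι₀ ι₁ G : Type} [DecidableEq ι₁] [AddCommGroup G] {cls₀ : ι₀ → G}
    (cls₁ : ι₁ → G) {A : Matrix ι₀ ι₀ ℤ} (hA : Full cls₀ A) :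
    Full (fun p : ι₀ × ι₁ => cls₀ p.1 + cls₁ p.2) (A ⊗ₖ (1 : Matrix ι₁ ι₁ ℤ)) := by
  refine ⟨fun i j => fa_tri (hA.tri _ _) (fa_one _ _), fun i c => ?_, fun j c => ?_⟩
  · refine fa_pair (hA.row i.1 (c - cls₁ i.2)) (existsUnique_eq (a' := i.2)) fun p => ?_
    change cls₀ p.1 + cls₁ p.2 = c ∧ A i.1 p.1 * (1 : Matrix ι₁ ι₁ ℤ) i.2 p.2 ≠ 0 ↔ _
    rw [mul_ne_zero_iff, fa_one_ne, eq_sub_iff_add_eq]
    constructor
    · rintro ⟨h1, h2, h3⟩
      rw [← h3] at h1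
      exact ⟨⟨h1, h2⟩, h3.symm⟩
    · rintro ⟨⟨h1, h2⟩, h3⟩
      rw [h3]
      exact ⟨h1, h2, rfl⟩
  · refine fa_pair (hA.col j.1 (c - cls₁ j.2)) (existsUnique_eq (a' := j.2)) fun p => ?_
    change cls₀ p.1 + cls₁ p.2 = c ∧ A p.1 j.1 * (1 : Matrix ι₁ ι₁ ℤ) p.2 j.2 ≠ 0 ↔ _
    rw [mul_ne_zero_iff, fa_one_ne, eq_sub_iff_add_eq]
    constructor
    · rintro ⟨h1, h2, h3⟩
      rw [h3] at h1
      exact ⟨⟨h1, h2⟩, h3⟩
    · rintro ⟨⟨h1, h2⟩, h3⟩
      rw [h3]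
      exact ⟨h1, h2, rfl⟩

/-- The same with the identity matrix on the left. -/
theorem Full.one_kron {ι₀ ι₁ G : Type} [DecidableEq ι₀] [AddCommGroup G] (cls₀ : ι₀ → G)
    {cls₁ : ι₁ → G} {A : Matrix ι₁ ι₁ ℤ} (hA : Full cls₁ A) :
    Full (fun p : ι₀ × ι₁ => cls₀ p.1 + cls₁ p.2) ((1 : Matrix ι₀ ι₀ ℤ) ⊗ₖ A) := by
  refine ⟨fun i j => fa_tri (fa_one _ _) (hA.tri _ _), fun i c => ?_, fun j c => ?_⟩
  · refine fa_pair (existsUnique_eq (a' := i.1)) (hA.row i.2 (c - cls₀ i.1)) fun p => ?_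
    change cls₀ p.1 + cls₁ p.2 = c ∧ (1 : Matrix ι₀ ι₀ ℤ) i.1 p.1 * A i.2 p.2 ≠ 0 ↔ _
    rw [mul_ne_zero_iff, fa_one_ne, eq_sub_iff_add_eq']
    constructor
    · rintro ⟨h1, h2, h3⟩
      rw [← h2] at h1
      exact ⟨h2.symm, h1, h3⟩
    · rintro ⟨h1, h2, h3⟩
      rw [h1]
      exact ⟨h2, rfl, h3⟩
  · refine fa_pair (existsUnique_eq (a' := j.1)) (hA.col j.2 (c - cls₀ j.1)) fun p => ?_
    change cls₀ p.1 + cls₁ p.2 = c ∧ (1 : Matrix ι₀ ι₀ ℤ) p.1 j.1 * A p.2 j.2 ≠ 0 ↔ _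
    rw [mul_ne_zero_iff, fa_one_ne, eq_sub_iff_add_eq']
    constructor
    · rintro ⟨h1, h2, h3⟩
      rw [h2] at h1
      exact ⟨h2, h1, h3⟩
    · rintro ⟨h1, h2, h3⟩
      rw [h1]
      exact ⟨h2, rfl, h3⟩

/-- Kronecker product with a signed permutation matrix `P` (a matrix which is `Full` for the trivial
class function); the class does not depend on the second coordinate. -/
theorem Full.kron_sp {ι μ κ : Type} {cls : ι → κ} {A : Matrix ι ι ℤ} {P : Matrix μ μ ℤ}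
    (hA : Full cls A) (hP : Full (fun _ : μ => ()) P) :
    Full (fun p : ι × μ => cls p.1) (A ⊗ₖ P) := by
  refine ⟨fun i j => fa_tri (hA.tri _ _) (hP.tri _ _), fun i c => ?_, fun j c => ?_⟩
  · refine fa_pair (hA.row i.1 c) (hP.row i.2 ()) fun p => ?_
    change cls p.1 = c ∧ A i.1 p.1 * P i.2 p.2 ≠ 0 ↔ _
    rw [mul_ne_zero_iff]
    constructor
    · rintro ⟨h1, h2, h3⟩
      exact ⟨⟨h1, h2⟩, rfl, h3⟩
    · rintro ⟨⟨h1, h2⟩, _, h3⟩
      exact ⟨h1, h2, h3⟩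
  · refine fa_pair (hA.col j.1 c) (hP.col j.2 ()) fun p => ?_
    change cls p.1 = c ∧ A p.1 j.1 * P p.2 j.2 ≠ 0 ↔ _
    rw [mul_ne_zero_iff]
    constructor
    · rintro ⟨h1, h2, h3⟩
      exact ⟨⟨h1, h2⟩, rfl, h3⟩
    · rintro ⟨⟨h1, h2⟩, _, h3⟩
      exact ⟨h1, h2, h3⟩

/-- Reindexing along a bijection `e` of the indices and a bijection `g` of the classes. -/
theorem Full.reindex {ι ι' κ κ' : Type} {cls : ι → κ} {cls' : ι' → κ'} (e : ι ≃ ι') (g : κ ≃ κ')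
    (hc : ∀ i, cls' (e i) = g (cls i)) {A : Matrix ι ι ℤ} (hA : Full cls A) :
    Full cls' (A.submatrix e.symm e.symm) := by
  have hc' : ∀ j c, cls' (e j) = c ↔ cls j = g.symm c := fun j c => by
    rw [hc, Equiv.eq_symm_apply]
  refine ⟨fun i j => hA.tri _ _, fun i c => ?_, fun j c => ?_⟩
  · obtain ⟨j, ⟨h1, h2⟩, h3⟩ := hA.row (e.symm i) (g.symm c)
    refine ⟨e j, ⟨(hc' j c).2 h1, ?_⟩, fun y hy => ?_⟩
    · change A (e.symm i) (e.symm (e j)) ≠ 0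
      rw [Equiv.symm_apply_apply]
      exact h2
    · have h4 : e.symm y = j := h3 _ ⟨(hc' _ c).1 (by rw [Equiv.apply_symm_apply]; exact hy.1), hy.2⟩
      rw [← h4, Equiv.apply_symm_apply]
  · obtain ⟨i, ⟨h1, h2⟩, h3⟩ := hA.col (e.symm j) (g.symm c)
    refine ⟨e i, ⟨(hc' i c).2 h1, ?_⟩, fun y hy => ?_⟩
    · change A (e.symm (e i)) (e.symm j) ≠ 0
      rw [Equiv.symm_apply_apply]
      exact h2
    · have h4 : e.symm y = i := h3 _ ⟨(hc' _ c).1 (by rw [Equiv.apply_symm_apply]; exact hy.1), hy.2⟩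
      rw [← h4, Equiv.apply_symm_apply]

end HadCalc
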