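import Pool.Agent.Lib_MP_008adc_co.Chain
import Pool.Agent.Lib_MP_008adc_co.Dom

/-!
# The chain with a free parameter `γ`: `18 (e / γ + 1) + 11` lengths
-/

set_option autoImplicit false

namespace HadCalc

/-- The hypotheses of the chain with the parameter `γ`. -/
structure GamHyp (a f c b l γ e : ℕ) : Prop where
  cov : Cov a f c
  ha : 8 * b ≤ a
  hγ : 1 ≤ γ
  hl : e + 1 ≤ l
  hf : f + 1 ≤ 4 * (l + 1)
  hb : 16 * (l + 1) * 2 ^ γ ≤ b

theorem GamHyp.b32 {a f c b l γ e : ℕ} (H : GamHyp a f c b l γ e) : 32 * (l + 1) ≤ b := by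
  have h1 := H.hb
  have h2 : 2 ^ 1 ≤ 2 ^ γ := Nat.pow_le_pow_right (by norm_num) H.hγ
  have h3 : 16 * (l + 1) * 2 ^ 1 ≤ 16 * (l + 1) * 2 ^ γ := Nat.mul_le_mul_left _ h2
  omega

/-- Putting the summands together. -/
theorem GamHyp.join {a f c b l γ e : ℕ} (H : GamHyp a f c b l γ e) {K ρ ε z z' : ℕ}
    (hK1 : 1 ≤ K) (hε : ε ≤ 1) (X : Fin 8 → List ℕ)
    (hX : ∀ i, (X i).length ≤ K ∧ ∀ x ∈ X i, 1 ≤ x ∧ x ≤ 2 ^ b)
    (hz : z = ε + (∑ i, (X i).prod) + 2 ^ ((f + 1) * ρ) * z') (s : ℕ)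
    (hs : SumOf f c s (2 ^ (f * (K + ρ - 1) + (K + ρ)) * z')) :
    SumOf f c (s + 9) (2 ^ (f * (K - 1) + K) * z) := by
  have hb1 := H.b32
  have ha1 : 1 ≤ a := by
    have := H.ha
    omega
  have hba : 2 ^ b < 2 ^ a := by
    apply Nat.pow_lt_pow_right (by norm_num)
    have := H.ha
    omega
  have h1 : SumOf f c 8 (∑ i, 2 ^ (f * (K - 1) + K) * (X i).prod) := by
    apply SumOf.fin
    intro i
    apply H.cov.prodK ha1 K hK1
    · exact (hX i).1
    · intro x hx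
      exact lt_of_le_of_lt ((hX i).2 x hx).2 hba
  have h2 : SumOf f c 1 (2 ^ (f * (K - 1) + K) * ε) := by
    apply SumOf.one
    have h3 := H.cov.prodK ha1 K hK1 [ε] (by simpa using hK1) (by
      intro x hx
      rw [List.mem_singleton.1 hx]
      have : 2 ^ 1 ≤ 2 ^ a := Nat.pow_le_pow_right (by norm_num) ha1
      omega)
    rwa [List.prod_singleton] at h3
  have h3 := (hs.add h1).add h2
  have e1 : f * (K + ρ - 1) + (K + ρ) = f * (K - 1) + K + (f + 1) * ρ := by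
    obtain ⟨k, rfl⟩ : ∃ k, K = k + 1 := ⟨K - 1, by omega⟩
    have e2 : k + 1 + ρ - 1 = k + ρ := by omega
    rw [e2, Nat.add_sub_cancel]
    ring
  have e3 : 2 ^ (f * (K + ρ - 1) + (K + ρ)) * z' + ∑ i, 2 ^ (f * (K - 1) + K) * (X i).prod +
      2 ^ (f * (K - 1) + K) * ε = 2 ^ (f * (K - 1) + K) * z := by
    rw [e1, pow_add, ← Finset.mul_sum, hz]
    ring
  rw [e3] at h3
  exact h3

/-- One step with a dominant pair of blocks. -/
theorem GamHyp.step {a f c b l γ e : ℕ} (H : GamHyp a f c b l γ e) {J k K ρ z : ℕ} (hk : 1 ≤ k)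
    (hkJ : 4 * (l + 1) * k ≤ b * 2 ^ J) (hK : 2 ^ (J + 2) + 2 * k - 3 ≤ K) (hK1 : 1 ≤ K)
    (hρ : (f + 1) * ρ + (3 * l + 1) * k ≤ 2 * (b * k))
    (hz : 2 ^ (b * (2 ^ (J + 2) + 2 * k)) ≤ z) (hze : z < 2 ^ 2 ^ e) :
    ∃ z', 2 ^ ((f + 1) * ρ) * z' ≤ z ∧ ∀ s, SumOf f c s (2 ^ (f * (K + ρ - 1) + (K + ρ)) * z') →
      SumOf f c (s + 9) (2 ^ (f * (K - 1) + K) * z) := by
  have hb1 := H.b32
  have hl := H.hl
  have h1 : b * (2 ^ (J + 2) + 2 * k) < 2 ^ e :=
    (Nat.pow_lt_pow_iff_right (by norm_num)).1 (lt_of_le_of_lt hz hze)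
  have h2 : b * (2 ^ (J + 2) + 2 * k) = 4 * b * 2 ^ J + 2 * (b * k) := by ring
  rw [h2] at h1
  have h3 : 2 ^ e * 2 ≤ 2 ^ l := by
    rw [← pow_succ]
    exact Nat.pow_le_pow_right (by norm_num) hl
  have h4 : 4 * b * k = 2 * (2 * (b * k)) := by ring
  obtain ⟨ε, X, z', hε, hX, hzz⟩ := HadNT.eight_dom b J l k ((f + 1) * ρ) (by omega) (by omega) hk
    (by omega) (by omega) hkJ hρ z hz
  refine ⟨z', by rw [hzz]; exact Nat.le_add_left _ _, fun s hs => ?_⟩
  exact H.join hK1 hε X (fun i => ⟨(hX i).1.trans hK, (hX i).2⟩) hzz s hs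

/-- The first step. -/
theorem GamHyp.first {a f c b l γ e : ℕ} (H : GamHyp a f c b l γ e) {ρ z : ℕ}
    (hρ : (f + 1) * ρ ≤ b) (hz : 2 ^ (4 * b) ≤ z) (hze : z < 2 ^ 2 ^ e) :
    ∃ z', 2 ^ ((f + 1) * ρ) * z' ≤ z ∧ ∀ s, SumOf f c s (2 ^ (f * (1 + ρ - 1) + (1 + ρ)) * z') →
      SumOf f c (s + 9) (2 ^ (f * (1 - 1) + 1) * z) := by
  have hb1 := H.b32
  have hl := H.hl
  have h1 : 4 * b < 2 ^ e :=
    (Nat.pow_lt_pow_iff_right (by norm_num)).1 (lt_of_le_of_lt hz hze)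
  have h3 : 2 ^ e ≤ 2 ^ l := Nat.pow_le_pow_right (by norm_num) (by omega)
  have e1 : b * 2 ^ (0 + 2) = 4 * b := by ring
  obtain ⟨ε, X, z', hε, hX, hzz⟩ := HadNT.eight_prod b 0 l ((f + 1) * ρ) (by omega)
    (by rw [pow_zero, mul_one]; omega) (by rw [pow_zero, mul_one]; exact hρ) z (by rw [e1]; exact hz)
  refine ⟨z', by rw [hzz]; exact Nat.le_add_left _ _, fun s hs => ?_⟩
  exact H.join le_rfl hε X (fun i => ⟨by rw [(hX i).1]; norm_num, (hX i).2⟩) hzz s hs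

/-- The end: one factor. -/
theorem GamHyp.last {a f c b l γ e : ℕ} (H : GamHyp a f c b l γ e) {K z : ℕ} (hK1 : 1 ≤ K)
    (hz : z < 2 ^ (8 * b)) : SumOf f c 1 (2 ^ (f * (K - 1) + K) * z) := by
  apply SumOf.one
  have ha1 : 1 ≤ a := by
    have := H.ha
    have := H.b32
    omega
  have h3 := H.cov.prodK ha1 K hK1 [z] (by simpa using hK1) (by
    intro x hx
    rw [List.mem_singleton.1 hx]
    exact lt_of_lt_of_le hz (Nat.pow_le_pow_right (by norm_num) H.ha))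
  rwa [List.prod_singleton] at h3

/-- Downwards. -/
theorem GamHyp.down {a f c b l γ e : ℕ} (H : GamHyp a f c b l γ e) (s : ℕ) :
    ∀ K z, 2 ^ (γ * s + 3) ≤ K → z < 2 ^ (b * 2 ^ (γ * s + 3)) → z < 2 ^ 2 ^ e →
      SumOf f c (9 * s + 1) (2 ^ (f * (K - 1) + K) * z) := by
  induction s with
  | zero =>
    intro K z hK hz _
    have e1 : b * 2 ^ (γ * 0 + 3) = 8 * b := by
      rw [mul_zero]
      ring
    have e2 : 1 ≤ 2 ^ (γ * 0 + 3) := Nat.one_le_two_pow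
    rw [e1] at hz
    exact H.last (e2.trans hK) hz
  | succ s ih =>
    intro K z hK hz hze
    obtain ⟨J, hJ⟩ : ∃ J, J = γ * s := ⟨_, rfl⟩
    have e1 : γ * (s + 1) + 3 = J + γ + 3 := by
      rw [hJ]
      ring
    rw [e1] at hK hz
    rw [← hJ] at ih
    have hpow : 2 ^ (J + 3) ≤ 2 ^ (J + γ + 3) := Nat.pow_le_pow_right (by norm_num) (by omega)
    rcases Nat.lt_or_ge z (2 ^ (b * 2 ^ (J + 3))) with hlt | hge
    · exact (ih K z (hpow.trans hK) hlt hze).mono (by omega)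
    have hb32 := H.b32
    have hb0 : 0 < b := by omega
    have hz0 : z ≠ 0 := by
      have : 0 < 2 ^ (b * 2 ^ (J + 3)) := by positivity
      omega
    obtain ⟨N, hN⟩ : ∃ N, N = Nat.log 2 z := ⟨_, rfl⟩
    have hN1 : 2 ^ N ≤ z := by
      rw [hN]
      exact Nat.pow_log_le_self 2 hz0
    have hN2 : z < 2 ^ (N + 1) := by
      rw [hN]
      exact Nat.lt_pow_succ_log_self (by norm_num) z
    have hN3 : b * 2 ^ (J + 3) ≤ N := by
      have h1 : b * 2 ^ (J + 3) < N + 1 :=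
        (Nat.pow_lt_pow_iff_right (by norm_num)).1 (lt_of_le_of_lt hge hN2)
      omega
    have hN4 : N < b * 2 ^ (J + γ + 3) :=
      (Nat.pow_lt_pow_iff_right (by norm_num)).1 (lt_of_le_of_lt hN1 hz)
    obtain ⟨w, hw⟩ : ∃ w, w = N / b := ⟨_, rfl⟩
    have hw1 : b * w ≤ N := by
      rw [hw]
      exact Nat.mul_div_le _ _
    have hw2 : N < b * w + b := by
      rw [hw]
      have := Nat.lt_mul_div_succ N hb0
      linarith
    have hw3 : 2 ^ (J + 3) ≤ w := by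
      rw [hw, Nat.le_div_iff_mul_le hb0, mul_comm]
      exact hN3
    have hw4 : w < 2 ^ (J + γ + 3) := by
      rw [hw, Nat.div_lt_iff_lt_mul hb0, mul_comm]
      exact hN4
    have p1 : 2 ^ (J + 3) = 8 * 2 ^ J := by ring
    have p2 : 2 ^ (J + 2) = 4 * 2 ^ J := by ring
    have p3 : 2 ^ (J + γ + 3) = 2 * 2 ^ (J + γ + 2) := by ring
    have p4 : 1 ≤ 2 ^ J := Nat.one_le_two_pow
    obtain ⟨k, hk⟩ : ∃ k, k = (w - 2 ^ (J + 2)) / 2 := ⟨_, rfl⟩
    have hk1 : 2 ^ (J + 2) + 2 * k ≤ w := by omega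
    have hk2 : w ≤ 2 ^ (J + 2) + 2 * k + 1 := by omega
    have hk3 : 1 ≤ k := by omega
    have hk4 : k ≤ 2 ^ (J + γ + 2) := by omega
    have hkb : 4 * (l + 1) * k ≤ b * 2 ^ J := by
      calc 4 * (l + 1) * k ≤ 4 * (l + 1) * 2 ^ (J + γ + 2) := Nat.mul_le_mul_left _ hk4
        _ = (16 * (l + 1) * 2 ^ γ) * 2 ^ J := by ring
        _ ≤ b * 2 ^ J := Nat.mul_le_mul_right _ H.hb
    obtain ⟨m, hm⟩ : ∃ m, m + (3 * l + 1) * k = 2 * (b * k) := by
      have h1 : (3 * l + 1) * k ≤ 2 * (b * k) := by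
        have h2 : 3 * l + 1 ≤ 2 * b := by omega
        have h3 := Nat.mul_le_mul_right k h2
        have h4 : 2 * b * k = 2 * (b * k) := by ring
        omega
      exact ⟨2 * (b * k) - (3 * l + 1) * k, by omega⟩
    obtain ⟨ρ, hρ⟩ : ∃ ρ, ρ = m / (f + 1) := ⟨_, rfl⟩
    have hρ1 : (f + 1) * ρ ≤ m := by
      rw [hρ]
      exact Nat.mul_div_le _ _
    have hρ2 : m < (f + 1) * ρ + (f + 1) := by
      rw [hρ]
      have := Nat.lt_mul_div_succ m (show 0 < f + 1 by omega)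
      linarith
    obtain ⟨z', hz', hs⟩ := H.step (J := J) (k := k) (K := K) (ρ := ρ) (z := z) hk3 hkb
      (by omega) (by omega) (by omega) (by
        refine le_trans (Nat.pow_le_pow_right (by norm_num) ?_) hN1
        exact (Nat.mul_le_mul_left b hk1).trans hw1) hze
    have hzz : z' ≤ z := le_trans (Nat.le_mul_of_pos_left _ (by positivity)) hz'
    have h5 := ih (K + ρ) z' (by omega) (by
      have h6 : 2 ^ ((f + 1) * ρ) * z' < 2 ^ ((f + 1) * ρ) * 2 ^ (b * 2 ^ (J + 3)) := by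
        rw [← pow_add]
        refine lt_of_le_of_lt hz' (lt_of_lt_of_le hN2 ?_)
        apply Nat.pow_le_pow_right (by norm_num)
        have q1 : b * w ≤ b * (2 ^ (J + 2) + 2 * k + 1) := Nat.mul_le_mul_left b hk2
        have q2 : b * (2 ^ (J + 2) + 2 * k + 1) = 4 * (b * 2 ^ J) + 2 * (b * k) + b := by ring
        have q3 : b * 2 ^ (J + 3) = 8 * (b * 2 ^ J) := by ring
        have q4 : b ≤ b * 2 ^ J := Nat.le_mul_of_pos_right b (by omega)
        have q5 : 4 * ((3 * l + 1) * k) ≤ 3 * (b * 2 ^ J) := by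
          calc 4 * ((3 * l + 1) * k) = (3 * l + 1) * (4 * k) := by ring
            _ ≤ (3 * (l + 1)) * (4 * k) := Nat.mul_le_mul_right _ (by omega)
            _ = 3 * (4 * (l + 1) * k) := by ring
            _ ≤ 3 * (b * 2 ^ J) := Nat.mul_le_mul_left _ hkb
        have q6 := H.hf
        omega
      exact Nat.lt_of_mul_lt_mul_left h6) (lt_of_le_of_lt hzz hze)
    exact (hs _ h5).mono (by omega)

/-- Upwards, then downwards. -/
theorem GamHyp.up {a f c b l γ e : ℕ} (H : GamHyp a f c b l γ e) (t : ℕ) :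
    ∀ s K z, 2 ^ (γ * s + 3) ≤ K → z < 2 ^ (b * 2 ^ (γ * (s + t) + 3)) → z < 2 ^ 2 ^ e →
      SumOf f c (9 * (s + t) + 1 + 9 * t) (2 ^ (f * (K - 1) + K) * z) := by
  induction t with
  | zero =>
    intro s K z hK hz hze
    exact H.down s K z hK hz hze
  | succ t ih =>
    intro s K z hK hz hze
    obtain ⟨J, hJ⟩ : ∃ J, J = γ * s := ⟨_, rfl⟩
    rcases Nat.lt_or_ge z (2 ^ (b * 2 ^ (γ * s + 3))) with hlt | hge
    · exact (H.down s K z hK hlt hze).mono (by omega)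
    rw [← hJ] at hK hge
    have hb32 := H.b32
    have p1 : 2 ^ (J + 3) = 8 * 2 ^ J := by ring
    have p2 : 2 ^ (J + 2) = 4 * 2 ^ J := by ring
    have p5 : 2 ^ (J + 1) = 2 * 2 ^ J := by ring
    have p4 : 1 ≤ 2 ^ J := Nat.one_le_two_pow
    obtain ⟨k, hk⟩ : ∃ k, k = 2 ^ (J + 1) := ⟨_, rfl⟩
    have hkb : 4 * (l + 1) * k ≤ b * 2 ^ J := by
      rw [hk]
      calc 4 * (l + 1) * 2 ^ (J + 1) = (8 * (l + 1)) * 2 ^ J := by ring
        _ ≤ b * 2 ^ J := Nat.mul_le_mul_right _ (by omega)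
    obtain ⟨m, hm⟩ : ∃ m, m + (3 * l + 1) * k = 2 * (b * k) := by
      have h1 : (3 * l + 1) * k ≤ 2 * (b * k) := by
        have h2 : 3 * l + 1 ≤ 2 * b := by omega
        have h3 := Nat.mul_le_mul_right k h2
        have h4 : 2 * b * k = 2 * (b * k) := by ring
        omega
      exact ⟨2 * (b * k) - (3 * l + 1) * k, by omega⟩
    obtain ⟨ρ, hρ⟩ : ∃ ρ, ρ = m / (f + 1) := ⟨_, rfl⟩
    have hρ1 : (f + 1) * ρ ≤ m := by
      rw [hρ]
      exact Nat.mul_div_le _ _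
    have hρ2 : 2 ^ (J + γ + 3) ≤ ρ := by
      rw [hρ, Nat.le_div_iff_mul_le (by omega)]
      have h6 : (f + 1) * 2 ^ (γ + 2) + (3 * l + 1) ≤ 2 * b := by
        have h7 : (f + 1) * 2 ^ (γ + 2) ≤ 16 * (l + 1) * 2 ^ γ := by
          calc (f + 1) * 2 ^ (γ + 2) ≤ (4 * (l + 1)) * 2 ^ (γ + 2) := Nat.mul_le_mul_right _ H.hf
            _ = 16 * (l + 1) * 2 ^ γ := by ring
        have h8 := H.hb
        omega
      have h9 := Nat.mul_le_mul_right k h6
      have h10 : ((f + 1) * 2 ^ (γ + 2) + (3 * l + 1)) * k =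
          2 ^ (J + γ + 3) * (f + 1) + (3 * l + 1) * k := by
        rw [hk]
        ring
      have h11 : 2 * b * k = 2 * (b * k) := by ring
      omega
    obtain ⟨z', hz', hs⟩ := H.step (J := J) (k := k) (K := K) (ρ := ρ) (z := z) (by omega) hkb
      (by omega) (by omega) (by omega) (by
        refine le_trans (le_of_eq ?_) hge
        rw [hk, p1, p2, p5]
        congr 1
        ring) hze
    have hzz : z' ≤ z := le_trans (Nat.le_mul_of_pos_left _ (by positivity)) hz'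
    have e1 : γ * (s + 1) + 3 = J + γ + 3 := by
      rw [hJ]
      ring
    have e2 : s + (t + 1) = s + 1 + t := by omega
    rw [e2] at hz
    have h5 := ih (s + 1) (K + ρ) z' (by rw [e1]; omega) (lt_of_le_of_lt hzz hz)
      (lt_of_le_of_lt hzz hze)
    exact (hs _ h5).mono (by omega)

/-- Every number below `2 ^ (2 ^ e)` is a sum of `18 (e / γ + 1) + 11` available lengths. -/
theorem GamHyp.all {a f c b l γ e : ℕ} (H : GamHyp a f c b l γ e) (q : ℕ) (hq : q < 2 ^ 2 ^ e) :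
    SumOf f c (18 * (e / γ + 1) + 11) q := by
  have hb32 := H.b32
  have hzq : q / 2 < 2 ^ 2 ^ e := lt_of_le_of_lt (Nat.div_le_self _ _) hq
  have h1 : SumOf f c (18 * (e / γ + 1) + 10) (2 ^ (f * (1 - 1) + 1) * (q / 2)) := by
    rcases Nat.lt_or_ge (q / 2) (2 ^ (4 * b)) with hlt | hge
    · refine (H.last le_rfl (lt_of_lt_of_le hlt ?_)).mono (by omega)
      exact Nat.pow_le_pow_right (by norm_num) (by omega)
    · obtain ⟨ρ, hρ⟩ : ∃ ρ, ρ = b / (f + 1) := ⟨_, rfl⟩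
      have hρ1 : (f + 1) * ρ ≤ b := by
        rw [hρ]
        exact Nat.mul_div_le _ _
      have hρ2 : 8 ≤ ρ := by
        rw [hρ, Nat.le_div_iff_mul_le (by omega)]
        have := H.hf
        omega
      obtain ⟨z', hz', hs⟩ := H.first (ρ := ρ) hρ1 hge hzq
      have hzz : z' ≤ q / 2 := le_trans (Nat.le_mul_of_pos_left _ (by positivity)) hz'
      have hγ := H.hγ
      have h2 := H.up (e / γ + 1) 0 (1 + ρ) z' (by rw [mul_zero]; norm_num; omega) (by
        refine lt_of_le_of_lt hzz (lt_of_lt_of_le hzq ?_)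
        apply Nat.pow_le_pow_right (by norm_num)
        have h3 : e ≤ γ * (0 + (e / γ + 1)) + 3 := by
          have := Nat.lt_mul_div_succ e (show 0 < γ by omega)
          rw [zero_add]
          omega
        exact (Nat.pow_le_pow_right (by norm_num) h3).trans
          (Nat.le_mul_of_pos_left _ (by omega))) (lt_of_le_of_lt hzz hzq)
      exact (hs _ h2).mono (by omega)
  have h2 : SumOf f c 1 (q % 2) := by
    apply SumOf.one
    rcases Nat.mod_two_eq_zero_or_one q with h4 | h4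
    · rw [h4]
      exact (Av.zero f 0).mono le_rfl (Nat.zero_le _)
    · rw [h4]
      exact Av.base.mono (Nat.zero_le _) (Nat.zero_le _)
  have h3 := h1.add h2
  have e1 : f * (1 - 1) + 1 = 1 := by simp
  rw [e1, pow_one, Nat.div_add_mod] at h3
  exact h3.mono (by omega)

/-- STEP with the parameter `γ`. -/
theorem Cov.gstep {f c e γ : ℕ} (hγ : 1 ≤ γ) (h : Cov (128 * (e + f + 2) * 2 ^ γ) f c) :
    Cov (2 ^ e) (f + 1) ((18 * (e / γ + 1) + 11) * (c + f + 2)) := by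
  intro q hq
  have H : GamHyp (128 * (e + f + 2) * 2 ^ γ) f c (16 * (e + f + 2) * 2 ^ γ) (e + f + 1) γ e := by
    refine ⟨h, ?_, hγ, by omega, by omega, ?_⟩
    · refine le_of_eq ?_
      ring
    · refine le_of_eq ?_
      ring
  exact (H.all q hq).av

end HadCalc
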