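import Pool.Agent.Lib_MP_008adc_co.Gam
import Pool.Agent.Lib_MP_008adc_oct.OReal

/-!
# Base and iteration: `Cov (2 ^ e) f₀ (C₀ (e * nl k e))` for every `k`
-/

set_option autoImplicit false

namespace HadCalc

/-- All powers of two. -/
theorem av_two_pow (j : ℕ) : Av 1 2 (2 ^ j) ∧ Av 1 2 (2 ^ (j + 1)) := by
  have h2 : Av 1 2 2 := by
    have h := Av.sum_list (f := 0) [((0, 1) : ℕ × ℕ)] (by
      intro x hx
      rw [List.mem_singleton.1 hx]
      exact Av.base)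
    simpa using h
  induction j with
  | zero =>
    refine ⟨?_, ?_⟩
    · rw [pow_zero]
      exact Av.base.mono (by omega) (by omega)
    · rw [zero_add, pow_one]
      exact h2
  | succ j ih =>
    refine ⟨ih.2, ?_⟩
    have h3 := h2.mul ih.1
    have e1 : 2 ^ 1 * 2 * 2 ^ j = 2 ^ (j + 1 + 1) := by ring
    rwa [e1] at h3

/-- Binary digits. -/
theorem sumOf_bin (a : ℕ) : ∀ q < 2 ^ a, SumOf 1 2 a q := by
  induction a with
  | zero =>
    intro q hq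
    have h0 : q = 0 := by
      rw [pow_zero] at hq
      omega
    rw [h0]
    exact ⟨[], le_rfl, by simp, rfl⟩
  | succ a ih =>
    intro q hq
    rcases Nat.lt_or_ge q (2 ^ a) with hlt | hge
    · exact (ih q hlt).mono (by omega)
    · have h1 := (ih (q - 2 ^ a) (by rw [pow_succ] at hq; omega)).add (SumOf.one (av_two_pow a).1)
      rwa [Nat.sub_add_cancel hge] at h1

/-- BASE. -/
theorem Cov.bin (a : ℕ) : Cov a 2 (5 * a) := by
  intro q hq
  have h := (sumOf_bin a q hq).av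
  exact h.mono le_rfl (by omega)

theorem Cov.anti {a a' f c : ℕ} (h : Cov a f c) (ha : a' ≤ a) : Cov a' f c :=
  fun q hq => h q (lt_of_lt_of_le hq (Nat.pow_le_pow_right (by norm_num) ha))

theorem Cov.monoc {a f c c' : ℕ} (h : Cov a f c) (hc : c ≤ c') : Cov a f c' :=
  fun q hq => (h q hq).mono le_rfl hc

theorem nl_pos (k n : ℕ) (hn : 1 ≤ n) : 1 ≤ nl k n := by
  cases k with
  | zero => exact hn
  | succ k =>
    show 1 ≤ Nat.log 2 (nl k n) + 1
    omega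

theorem nl_mono (k : ℕ) {n m : ℕ} (h : n ≤ m) : nl k n ≤ nl k m := by
  induction k with
  | zero => exact h
  | succ k ih =>
    show Nat.log 2 (nl k n) + 1 ≤ Nat.log 2 (nl k m) + 1
    have := Nat.log_mono_right (b := 2) ih
    omega

theorem nl_comm (k n : ℕ) : nl k (Nat.log 2 n + 1) = nl (k + 1) n := by
  induction k with
  | zero => rfl
  | succ k ih =>
    show Nat.log 2 (nl k (Nat.log 2 n + 1)) + 1 = Nat.log 2 (nl (k + 1) n) + 1
    rw [ih]

/-- `log (D x) ≤ D' log x`. -/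
theorem log_mul_le (D x : ℕ) : Nat.log 2 (D * x) + 1 ≤ (Nat.log 2 D + 2) * (Nat.log 2 x + 1) := by
  rcases Nat.eq_zero_or_pos (D * x) with h0 | h0
  · rw [h0, Nat.log_zero_right]
    nlinarith [Nat.zero_le (Nat.log 2 D), Nat.zero_le (Nat.log 2 x)]
  have hD : D < 2 ^ (Nat.log 2 D + 1) := Nat.lt_pow_succ_log_self (by norm_num) D
  have hx : x < 2 ^ (Nat.log 2 x + 1) := Nat.lt_pow_succ_log_self (by norm_num) x
  have h1 : D * x < 2 ^ (Nat.log 2 D + 1 + (Nat.log 2 x + 1)) := by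
    rw [pow_add]
    exact Nat.mul_lt_mul'' hD hx
  have h2 : Nat.log 2 (D * x) < Nat.log 2 D + 1 + (Nat.log 2 x + 1) :=
    Nat.log_lt_of_lt_pow (by omega) h1
  nlinarith [Nat.zero_le (Nat.log 2 D), Nat.zero_le (Nat.log 2 x)]

theorem nl_mul_le (k : ℕ) : ∀ D : ℕ, ∃ D' : ℕ, ∀ x : ℕ, nl k (D * x) ≤ D' * nl k x := by
  induction k with
  | zero => exact fun D => ⟨D, fun x => le_rfl⟩
  | succ k ih =>
    intro D
    obtain ⟨D', h⟩ := ih D
    refine ⟨Nat.log 2 D' + 2, fun x => ?_⟩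
    show Nat.log 2 (nl k (D * x)) + 1 ≤ (Nat.log 2 D' + 2) * (Nat.log 2 (nl k x) + 1)
    have h1 := Nat.log_mono_right (b := 2) (h x)
    exact (Nat.add_le_add_right h1 1).trans (log_mul_le D' (nl k x))

/-- ITERATION. -/
theorem exists_cov (k : ℕ) : ∃ C₀ f₀ : ℕ, ∀ e : ℕ, 1 ≤ e → Cov (2 ^ e) f₀ (C₀ * (e * nl k e)) := by
  induction k with
  | zero =>
    refine ⟨47 * (6400 + 4), 3, fun e he => ?_⟩
    have h1 := Cov.gstep (f := 2) (e := e) (γ := 1) le_rfl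
      (Cov.bin (128 * (e + 2 + 2) * 2 ^ 1))
    refine h1.monoc ?_
    show (18 * (e / 1 + 1) + 11) * (5 * (128 * (e + 2 + 2) * 2 ^ 1) + 2 + 2) ≤
      47 * (6400 + 4) * (e * e)
    rw [Nat.div_one]
    have h2 : 18 * (e + 1) + 11 ≤ 47 * e := by omega
    have h3 : 5 * (128 * (e + 2 + 2) * 2 ^ 1) + 2 + 2 ≤ (6400 + 4) * e := by omega
    calc (18 * (e + 1) + 11) * (5 * (128 * (e + 2 + 2) * 2 ^ 1) + 2 + 2)
        ≤ (47 * e) * ((6400 + 4) * e) := Nat.mul_le_mul h2 h3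
      _ = 47 * (6400 + 4) * (e * e) := by ring
  | succ k ih =>
    obtain ⟨C₀, f₀, H⟩ := ih
    obtain ⟨D', hD'⟩ := nl_mul_le k (f₀ + 13)
    refine ⟨47 * ((C₀ + f₀ + 2) * ((f₀ + 13) * D')), f₀ + 1, fun e he => ?_⟩
    obtain ⟨γ, hγ⟩ : ∃ γ, γ = Nat.log 2 e + 1 := ⟨_, rfl⟩
    have hγ1 : 1 ≤ γ := by omega
    have hγe : γ ≤ e := by
      have h1 : Nat.log 2 e < e := Nat.log_lt_self 2 (by omega)
      omega
    have he2 : e < 2 ^ γ := by
      rw [hγ]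
      exact Nat.lt_pow_succ_log_self (by norm_num) e
    have h2γ : 2 ^ γ ≤ 2 * e := by
      rw [hγ, pow_succ]
      have := Nat.pow_log_le_self 2 (show e ≠ 0 by omega)
      omega
    obtain ⟨e₁, he₁⟩ : ∃ e₁, e₁ = 8 + (f₀ + 3) + 2 * γ := ⟨_, rfl⟩
    have he₁γ : e₁ ≤ (f₀ + 13) * γ := by
      have h1 : (f₀ + 13) * γ = (f₀ + 11) * γ + 2 * γ := by ring
      have h2 : f₀ + 11 ≤ (f₀ + 11) * γ := Nat.le_mul_of_pos_right _ (by omega)
      omega
    have ha : 128 * (e + f₀ + 2) * 2 ^ γ ≤ 2 ^ e₁ := by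
      have h1 : e + f₀ + 2 ≤ (f₀ + 3) * e := by nlinarith
      have h2 : f₀ + 3 ≤ 2 ^ (f₀ + 3) := Nat.lt_two_pow_self.le
      calc 128 * (e + f₀ + 2) * 2 ^ γ ≤ 128 * ((f₀ + 3) * e) * 2 ^ γ :=
            Nat.mul_le_mul_right _ (Nat.mul_le_mul_left _ h1)
        _ ≤ 256 * (2 ^ (f₀ + 3) * 2 ^ γ) * 2 ^ γ := by
            refine Nat.mul_le_mul_right _ (Nat.mul_le_mul (by norm_num) ?_)
            exact Nat.mul_le_mul h2 he2.le
        _ = 2 ^ e₁ := by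
            rw [he₁, pow_add, pow_add, two_mul γ, pow_add]
            norm_num
            ring
    have h1 := Cov.gstep (e := e) hγ1 ((H e₁ (by omega)).anti ha)
    refine h1.monoc ?_
    have hnl1 : 1 ≤ nl k e₁ := nl_pos k e₁ (by omega)
    have hnl : nl k e₁ ≤ D' * nl (k + 1) e := by
      rw [← nl_comm, ← hγ]
      exact (nl_mono k he₁γ).trans (hD' γ)
    have h2 : 18 * (e / γ + 1) + 11 ≤ 47 * (e / γ) := by
      have h3 : 1 ≤ e / γ := (Nat.one_le_div_iff (by omega)).2 hγe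
      omega
    have h3 : C₀ * (e₁ * nl k e₁) + f₀ + 2 ≤ (C₀ + f₀ + 2) * (e₁ * nl k e₁) := by
      have h4 : 1 ≤ e₁ * nl k e₁ := Nat.mul_pos (by omega) hnl1
      nlinarith
    have h4 : e₁ * nl k e₁ ≤ ((f₀ + 13) * γ) * (D' * nl (k + 1) e) := Nat.mul_le_mul he₁γ hnl
    have h5 : e / γ * γ ≤ e := Nat.div_mul_le_self e γ
    calc (18 * (e / γ + 1) + 11) * (C₀ * (e₁ * nl k e₁) + f₀ + 2)
        ≤ (47 * (e / γ)) * ((C₀ + f₀ + 2) * (((f₀ + 13) * γ) * (D' * nl (k + 1) e))) :=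
          Nat.mul_le_mul h2 (h3.trans (Nat.mul_le_mul_left _ h4))
      _ = (47 * ((C₀ + f₀ + 2) * ((f₀ + 13) * D'))) * ((e / γ * γ) * nl (k + 1) e) := by ring
      _ ≤ (47 * ((C₀ + f₀ + 2) * ((f₀ + 13) * D'))) * (e * nl (k + 1) e) :=
          Nat.mul_le_mul_left _ (Nat.mul_le_mul_right _ h5)

/-- MAIN THEOREM. For every `k` there is a constant `C` such that there is a Hadamard matrix of order
`2 ^ t q` for all `q ≥ 16` and `t ≥ C x max (1, log_k x)`, `x = log log q`. -/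
theorem hadOrder_il (k : ℕ) : ∃ C : ℝ, 0 < C ∧ ∀ q t : ℕ, 16 ≤ q →
    C * (Real.log (Real.log q) * il k (Real.log (Real.log q))) ≤ t → HadOrder (2 ^ t * q) := by
  obtain ⟨C₀, f₀, H⟩ := exists_cov k
  exact had_real_nl k C₀ f₀ H

end HadCalc
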