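import Pool.Agent.Lib_MP_008adc_co.FullB

/-!
# Piece HADK: Sylvester doubling
-/

set_option autoImplicit false

namespace HadCalc

open Matrix
open scoped Kronecker

/-- Hadamard matrices on any finite index set of cardinality `n` (reindex along a bijection with
`Fin n`; `Matrix.submatrix_mul_equiv`). -/
theorem HadOrder.of_isHad {α : Type} [Fintype α] [DecidableEq α] {n : ℕ}
    (hn : Fintype.card α = n) {H : Matrix α α ℤ} (h : IsHad H) : HadOrder n := by
  have e : Fin n ≃ α := (Fintype.equivFinOfCardEq hn).symm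
  refine ⟨H.submatrix e e, fun i j => h.1 _ _, ?_⟩
  rw [Matrix.transpose_submatrix, Matrix.submatrix_mul_equiv, h.2, hn, Fintype.card_fin]
  ext i j
  rw [Matrix.submatrix_apply, Matrix.smul_apply, Matrix.smul_apply, Matrix.one_apply,
    Matrix.one_apply]
  by_cases hij : i = j
  · rw [if_pos hij, if_pos (congrArg e hij)]
  · rw [if_neg hij, if_neg (fun h' => hij (e.injective h'))]

/-- Sylvester doubling: `hh ⊗ₖ H`, `(hh ⊗ H)(hh ⊗ H)ᵀ = 2 n`. -/
theorem HadOrder.double {n : ℕ} (h : HadOrder n) : HadOrder (2 * n) := by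
  obtain ⟨H, h1, h2⟩ := h
  have hcard : Fintype.card (Fin 2 × Fin n) = 2 * n := by
    rw [Fintype.card_prod, Fintype.card_fin, Fintype.card_fin]
  refine HadOrder.of_isHad hcard (H := (!![1, 1; 1, -1] : Matrix (Fin 2) (Fin 2) ℤ) ⊗ₖ H) ⟨?_, ?_⟩
  · intro i j
    have h3 : ∀ a b : Fin 2, (!![1, 1; 1, -1] : Matrix (Fin 2) (Fin 2) ℤ) a b = 1 ∨
        (!![1, 1; 1, -1] : Matrix (Fin 2) (Fin 2) ℤ) a b = -1 := by decide
    rw [Matrix.kroneckerMap_apply]
    rcases h3 i.1 j.1 with h4 | h4 <;> rcases h1 i.2 j.2 with h5 | h5 <;> rw [h4, h5] <;> simp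
  · rw [← Matrix.kroneckerMap_transpose, ← Matrix.mul_kronecker_mul, h2, hcard]
    have h3 : (!![1, 1; 1, -1] : Matrix (Fin 2) (Fin 2) ℤ) *
        (!![1, 1; 1, -1] : Matrix (Fin 2) (Fin 2) ℤ)ᵀ = (2 : ℤ) • 1 := by decide
    rw [h3, Matrix.smul_kronecker, Matrix.kronecker_smul, Matrix.one_kronecker_one, smul_smul,
      Fintype.card_fin]
    push_cast
    rfl

/-- The order 1. -/
theorem HadOrder.one : HadOrder 1 := by
  refine ⟨1, fun i j => Or.inl ?_, ?_⟩
  · rw [Subsingleton.elim i j, Matrix.one_apply_eq]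
  · simp

theorem HadOrder.two_pow_mul {n : ℕ} (h : HadOrder n) (s : ℕ) : HadOrder (2 ^ s * n) := by
  induction s with
  | zero => simpa using h
  | succ s ih =>
    have h1 := ih.double
    have h2 : 2 * (2 ^ s * n) = 2 ^ (s + 1) * n := by ring
    rwa [h2] at h1

end HadCalc
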