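import Mathlib

/-!
# Piece ITERA: the numerical conditions of the step
-/

set_option autoImplicit false

namespace HadCalc

/-- The numerical conditions of `Cov.step` for `a = 2 ^ e`, `a' = 2 ^ (e + 3 * e / 4)`, `60 ≤ e`,
`f ≤ e`. PROOF. Put `g = 3 * e / 4`, `K = 2 ^ g + 1`, `l = e + g + 2`. `a' / a = 2 ^ g`;
`2 a K = 2 ^ (e + 1) (2 ^ g + 1) ≤ 2 ^ (e + g + 2)`. With `e = 4 x + y`, `y < 4`, `15 ≤ x`:
`e - g ≥ x` so `2 ^ e ≥ 2 ^ x 2 ^ g`, and `4 (4 K + 5 + 6 K l + f + 4)` is at most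
`2 ^ g * (48 (e + g + 2) + 32 + ...)`; a crude bound by `2 ^ g * 2 ^ x` suffices since
`2 ^ x ≥ 2 ^ 15 * 2 ^ (x - 15)` and the bracket is at most `400 x + 2000`. -/
theorem step_conditions (e f : ℕ) (he : 60 ≤ e) (hf : f ≤ e) :
    2 ^ (e + 3 * e / 4) / 2 ^ e + 1 ≤ 2 ^ (3 * e / 4) + 1 ∧
    2 * 2 ^ e * (2 ^ (3 * e / 4) + 1) ≤ 2 ^ (e + 3 * e / 4 + 2) ∧
    4 * (4 * (2 ^ (3 * e / 4) + 1) + 5 +
      6 * (2 ^ (3 * e / 4) + 1) * (e + 3 * e / 4 + 2) + f + 4) ≤ 2 ^ e ∧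
    2 * (f + 1) * (2 ^ (3 * e / 4) + 1) ≤ 2 ^ e := by
  obtain ⟨g, hg⟩ : ∃ g, g = 3 * e / 4 := ⟨_, rfl⟩
  rw [← hg]
  obtain ⟨d, hd⟩ : ∃ d, e = g + d := ⟨e - g, by omega⟩
  have hx : e / 4 ≤ d := by omega
  have h15 : 15 ≤ e / 4 := by omega
  have key : ∀ x : ℕ, 15 ≤ x → 352 * x + 428 ≤ 2 ^ x := by
    intro x hx
    induction x, hx using Nat.le_induction with
    | base => norm_num
    | succ n hn ih => rw [pow_succ]; omega
  have hkey : 352 * (e / 4) + 428 ≤ 2 ^ d :=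
    (key _ h15).trans (Nat.pow_le_pow_right (by norm_num) hx)
  have hG : 1 ≤ 2 ^ g := Nat.one_le_two_pow
  have he' : 88 * e + 164 ≤ 2 ^ d := by omega
  have h2e : 2 ^ e = 2 ^ g * 2 ^ d := by rw [hd, pow_add]
  refine ⟨?_, ?_, ?_, ?_⟩
  · rw [pow_add, Nat.mul_div_cancel_left _ (by positivity)]
  · have : 2 ^ (e + g + 2) = 2 ^ e * 2 ^ g * 4 := by rw [pow_add, pow_add]; norm_num
    rw [this]
    have h1 : 2 * 2 ^ e * (2 ^ g + 1) = 2 ^ e * (2 * (2 ^ g + 1)) := by ring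
    have h2 : 2 ^ e * 2 ^ g * 4 = 2 ^ e * (4 * 2 ^ g) := by ring
    rw [h1, h2]
    exact Nat.mul_le_mul_left _ (by omega)
  · rw [h2e]
    refine le_trans ?_ (Nat.mul_le_mul_left (2 ^ g) he')
    generalize 2 ^ g = G at *
    have hl : e + g + 2 ≤ 7 * e / 4 + 2 := by omega
    have h4 : 4 * (e + g + 2) ≤ 7 * e + 8 := by omega
    have h5 : 4 * (4 * (G + 1) + 5 + 6 * (G + 1) * (e + g + 2) + f + 4) =
      16 * (G + 1) + 36 + 6 * (G + 1) * (4 * (e + g + 2)) + 4 * f := by ring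
    rw [h5]
    have h6 : 6 * (G + 1) * (4 * (e + g + 2)) ≤ 6 * (G + 1) * (7 * e + 8) :=
      Nat.mul_le_mul_left _ h4
    have h7 : 6 * (G + 1) * (7 * e + 8) ≤ 6 * (2 * G) * (7 * e + 8) := by gcongr; omega
    have h8 : f ≤ G * e := by nlinarith
    nlinarith
  · rw [h2e]
    refine le_trans ?_ (Nat.mul_le_mul_left (2 ^ g) he')
    generalize 2 ^ g = G at *
    have h7 : 2 * (f + 1) * (G + 1) ≤ 2 * (e + 1) * (2 * G) := by gcongr; omega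
    nlinarith

end HadCalc
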