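import Pool.Agent.Lib_MP_008adc_co.CStep
import Pool.Agent.Lib_MP_008adc_co.IterA

/-!
# Piece ITERB: iteration of the recursion
-/

set_option autoImplicit false

namespace HadCalc

/-- One step in the exponents. -/
theorem Cov.step' {e f c : ℕ} (he : 60 ≤ e) (hf : f ≤ e) (h : Cov (2 ^ e) f c) :
    Cov (2 ^ (e + 3 * e / 4)) (f + 1) (5 * c + 6 * (f + 2)) := by
  obtain ⟨h0, h1, h2, h3⟩ := step_conditions e f he hf
  exact Cov.step h h0 h1 h2 h3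

/-- ITERATION. From one exponent `e₀ ≥ 60` with `Cov (2 ^ e₀) f₀ c₀`, `f₀ ≤ e₀`: for every `e ≥ e₀`
there are `f ≤ 2 e` and `c ≤ (6 * c₀ + 6) * e ^ 3` with `Cov (2 ^ e) f c`. PROOF. First show by
induction on `j` for the sequence `e_{j+1} = e_j + 3 * e_j / 4` that there are `f_j ≤ e_j` and
`c_j ≤ (c₀ + 1) * e_j ^ 3` with `Cov (2 ^ e_j) f_j c_j`: `f_{j+1} = f_j + 1 ≤ e_{j+1}`, and
`c_{j+1} = 5 c_j + 6 (f_j + 2) ≤ 5 (c₀ + 1) e_j ^ 3 + 6 (e_j + 2) ≤ 5.2 (c₀ + 1) e_j ^ 3 ≤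
(c₀ + 1) e_{j+1} ^ 3` because `e_{j+1} ≥ (7 e_j - 3) / 4 ≥ 6.95 e_j / 4` and `6.95 ^ 3 / 64 > 5.24`.
The sequence tends to infinity. Given `e ≥ e₀` let `j` be minimal with `e ≤ e_j`. If `j = 0` then
`e = e₀`. Otherwise `e_{j-1} < e`, `e_j ≤ 7 e_{j-1} / 4 ≤ 7 e / 4`, so `f_j ≤ 2 e` and
`c_j ≤ (c₀ + 1) (7 / 4) ^ 3 e ^ 3 ≤ 6 (c₀ + 1) e ^ 3`. `Cov` is monotone in the first argument. -/
theorem Cov.iterate {e₀ f₀ c₀ : ℕ} (he₀ : 60 ≤ e₀) (hf₀ : f₀ ≤ e₀) (h : Cov (2 ^ e₀) f₀ c₀)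
    (e : ℕ) (he : e₀ ≤ e) :
    ∃ f c : ℕ, f ≤ 2 * e ∧ c ≤ (6 * c₀ + 6) * e ^ 3 ∧ Cov (2 ^ e) f c := by
  have key : ∀ e, e₀ ≤ e → ∃ m, e ≤ m ∧ 4 * m ≤ 7 * e ∧
      ∃ f c, f ≤ m ∧ c ≤ (c₀ + 1) * m ^ 3 ∧ Cov (2 ^ m) f c := by
    intro e he
    induction e, he using Nat.le_induction with
    | base =>
      refine ⟨e₀, le_rfl, by omega, f₀, c₀, hf₀, ?_, h⟩
      have h1 : 1 ≤ e₀ ^ 3 := Nat.one_le_pow _ _ (by omega)
      calc c₀ ≤ (c₀ + 1) * 1 := by omega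
        _ ≤ (c₀ + 1) * e₀ ^ 3 := Nat.mul_le_mul_left _ h1
    | succ e he ih =>
      obtain ⟨m, hm1, hm2, f, c, hf, hc, hcov⟩ := ih
      rcases Nat.lt_or_ge e m with hlt | hge
      · exact ⟨m, hlt, by omega, f, c, hf, hc, hcov⟩
      · have hme : m = e := le_antisymm hge hm1
        subst hme
        have hm60 : 60 ≤ m := he₀.trans he
        refine ⟨m + 3 * m / 4, by omega, by omega, f + 1, 5 * c + 6 * (f + 2), by omega, ?_,
          Cov.step' hm60 hf hcov⟩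
        obtain ⟨m', hm'⟩ : ∃ m', m' = m + 3 * m / 4 := ⟨_, rfl⟩
        rw [← hm']
        have h80 : 139 * m ≤ 80 * m' := by omega
        have hcube : 2685619 * m ^ 3 ≤ 512000 * m' ^ 3 := by
          have := Nat.pow_le_pow_left h80 3
          calc 2685619 * m ^ 3 = (139 * m) ^ 3 := by ring
            _ ≤ (80 * m') ^ 3 := this
            _ = 512000 * m' ^ 3 := by ring
        have h3600 : 3600 * m ≤ m ^ 3 := by
          have h2 : 60 * 60 ≤ m * m := Nat.mul_le_mul hm60 hm60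
          calc 3600 * m = 60 * 60 * m := by ring
            _ ≤ m * m * m := Nat.mul_le_mul_right _ h2
            _ = m ^ 3 := by ring
        have hfin : 5 * m ^ 3 + 6 * (m + 2) ≤ m' ^ 3 := by omega
        calc 5 * c + 6 * (f + 2) ≤ 5 * ((c₀ + 1) * m ^ 3) + 6 * (m + 2) := by omega
          _ ≤ 5 * ((c₀ + 1) * m ^ 3) + (c₀ + 1) * (6 * (m + 2)) := by
              have : 1 * (6 * (m + 2)) ≤ (c₀ + 1) * (6 * (m + 2)) :=
                Nat.mul_le_mul_right _ (by omega)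
              omega
          _ = (c₀ + 1) * (5 * m ^ 3 + 6 * (m + 2)) := by ring
          _ ≤ (c₀ + 1) * m' ^ 3 := Nat.mul_le_mul_left _ hfin
  obtain ⟨m, hm1, hm2, f, c, hf, hc, hcov⟩ := key e he
  refine ⟨f, c, by omega, ?_, fun q hq => hcov q (lt_of_lt_of_le hq
    (Nat.pow_le_pow_right (by norm_num) (Nat.pow_le_pow_right (by norm_num) hm1)))⟩
  have hcube : 64 * m ^ 3 ≤ 343 * e ^ 3 := by
    have := Nat.pow_le_pow_left hm2 3
    calc 64 * m ^ 3 = (4 * m) ^ 3 := by ring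
      _ ≤ (7 * e) ^ 3 := this
      _ = 343 * e ^ 3 := by ring
  have h6 : m ^ 3 ≤ 6 * e ^ 3 := by omega
  calc c ≤ (c₀ + 1) * m ^ 3 := hc
    _ ≤ (c₀ + 1) * (6 * e ^ 3) := Nat.mul_le_mul_left _ h6
    _ = (6 * c₀ + 6) * e ^ 3 := by ring

end HadCalc
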