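import Pool.Agent.Lib_MP_008adc_co.IterB
import Pool.Agent.Lib_MP_008adc_co.HadA

/-!
# Piece ITERC: Hadamard matrices for all large powers of two
-/

set_option autoImplicit false

namespace HadCalc

/-- There is a constant `C` such that for all `e ≥ 1`, all `0 < q < 2 ^ (2 ^ e)` and all
`t ≥ C e ^ 3` there is a Hadamard matrix of order `2 ^ t q`. PROOF. Obtain `c₀` from
`Cov.base (2 ^ 60)` WITHOUT evaluating it (`obtain ⟨c₀, h₀⟩ : ∃ c₀, Cov (2 ^ 60) 1 c₀`); put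
`C = (6 c₀ + 9) * 60 ^ 3` (or any convenient larger constant). Replace `e` by `e' = max e 60 ≤ 60 e`.
`Cov.iterate` gives `f ≤ 2 e'`, `c ≤ (6 c₀ + 6) e' ^ 3` and `Av f c (2 q)`, so by `Av.hadOrder` a
Hadamard matrix of order `2 ^ (f + c) (2 q) = 2 ^ (f + c + 1) q`, and
`f + c + 1 ≤ (6 c₀ + 9) e' ^ 3 ≤ C e ^ 3 ≤ t`; finish with `HadOrder.two_pow_mul`. Beware that no
tactic tries to compute `2 ^ (2 ^ 60)`: keep it behind the existential. -/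
theorem exists_const : ∃ C : ℕ, ∀ e q t : ℕ, 1 ≤ e → 0 < q → q < 2 ^ (2 ^ e) → C * e ^ 3 ≤ t →
    HadOrder (2 ^ t * q) := by
  obtain ⟨c₀, h₀⟩ : ∃ c₀, Cov (2 ^ 60) 1 c₀ := ⟨_, Cov.base _⟩
  refine ⟨(6 * c₀ + 9) * 60 ^ 3, ?_⟩
  intro e q t he hq hqe ht
  obtain ⟨e', he'⟩ : ∃ e', e' = max e 60 := ⟨_, rfl⟩
  have h1 : e ≤ e' := by omega
  have h2 : 60 ≤ e' := by omega
  have h3 : e' ≤ 60 * e := by omega
  obtain ⟨f, c, hf, hc, hcov⟩ := Cov.iterate (le_refl 60) (by omega) h₀ e' h2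
  have hq2 : q < 2 ^ (2 ^ e') :=
    lt_of_lt_of_le hqe (Nat.pow_le_pow_right (by omega) (Nat.pow_le_pow_right (by omega) h1))
  have hav := hcov q hq2
  have hhad := Av.hadOrder hav (by omega)
  have h4 : e' ^ 3 ≤ (60 * e) ^ 3 := Nat.pow_le_pow_left h3 3
  have h5 : (6 * c₀ + 9) * e' ^ 3 ≤ (6 * c₀ + 9) * 60 ^ 3 * e ^ 3 := by
    calc (6 * c₀ + 9) * e' ^ 3 ≤ (6 * c₀ + 9) * (60 * e) ^ 3 := Nat.mul_le_mul_left _ h4
      _ = (6 * c₀ + 9) * 60 ^ 3 * e ^ 3 := by ring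
  have h6 : e' ≤ e' ^ 3 := Nat.le_self_pow (by omega) e'
  have h7 : f + c + 1 ≤ (6 * c₀ + 9) * e' ^ 3 := by
    have h8 : (6 * c₀ + 9) * e' ^ 3 = (6 * c₀ + 6) * e' ^ 3 + 3 * e' ^ 3 := by ring
    rw [h8]
    omega
  have h9 : f + c + 1 ≤ t := h7.trans (h5.trans ht)
  have h10 := hhad.two_pow_mul (t - (f + c + 1))
  have h11 : 2 ^ (t - (f + c + 1)) * (2 ^ (f + c) * (2 * q)) = 2 ^ t * q := by
    have h12 : t = (t - (f + c + 1)) + ((f + c) + 1) := by omega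
    conv_rhs => rw [h12, pow_add, pow_succ]
    ring
  rwa [h11] at h10

end HadCalc
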