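import Pool.Agent.Lib_MP_008adc_co.EvA
import Pool.Agent.Lib_MP_008adc_co.FullB

/-!
# Piece MULR: the product rule
-/

set_option autoImplicit false

namespace HadCalc

open Matrix

/-- Splitting a sum over `range (a * b)`. -/
theorem mulR_sum_range_mul {M : Type} [AddCommMonoid M] (g : ℕ → M) (a b : ℕ) :
    ∑ s ∈ Finset.range (a * b), g s =
      ∑ t ∈ Finset.range b, ∑ j ∈ Finset.range a, g (a * t + j) := by
  induction b with
  | zero => simp
  | succ b ih => rw [Nat.mul_succ, Finset.sum_range_add, ih, Finset.sum_range_succ]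

/-- The coefficients of the product. -/
noncomputable def mulRW (f c L₁ : ℕ) (Q₁ Q₂ : ℕ → Matrix (Ix f c) (Ix f c) ℤ) (s : ℕ) :
    Matrix (Ix f c) (Ix f c) ℤ :=
  Q₁ (s % L₁) * Matrix.diagonal (fun i : Ix f c =>
    if i.1 = ((s / L₁ : ℕ) : ZMod (2 ^ f)) then (1 : ℤ) else 0) * Q₂ (s / (L₁ * 2 ^ f))

theorem mulRW_apply {f c L₁ : ℕ} (Q₁ Q₂ : ℕ → Matrix (Ix f c) (Ix f c) ℤ) (t κ j : ℕ)
    (hj : j < L₁) (hκ : κ < 2 ^ f) :
    mulRW f c L₁ Q₁ Q₂ (L₁ * 2 ^ f * t + (L₁ * κ + j)) =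
      Q₁ j * Matrix.diagonal (fun i : Ix f c =>
        if i.1 = (κ : ZMod (2 ^ f)) then (1 : ℤ) else 0) * Q₂ t := by
  have hL : 0 < L₁ := by omega
  have e0 : L₁ * 2 ^ f * t + (L₁ * κ + j) = j + L₁ * (2 ^ f * t + κ) := by ring
  have e1 : (L₁ * 2 ^ f * t + (L₁ * κ + j)) % L₁ = j := by
    rw [e0, Nat.add_mul_mod_self_left, Nat.mod_eq_of_lt hj]
  have e2 : (L₁ * 2 ^ f * t + (L₁ * κ + j)) / L₁ = 2 ^ f * t + κ := by
    rw [e0, Nat.add_mul_div_left _ _ hL, Nat.div_eq_of_lt hj, zero_add]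
  have e3 : (L₁ * 2 ^ f * t + (L₁ * κ + j)) / (L₁ * 2 ^ f) = t := by
    rw [← Nat.div_div_eq_div_mul, e2, Nat.mul_add_div (by positivity), Nat.div_eq_of_lt hκ,
      add_zero]
  have e4 : ((2 ^ f * t + κ : ℕ) : ZMod (2 ^ f)) = (κ : ZMod (2 ^ f)) := by
    push_cast
    have : ((2 : ZMod (2 ^ f)) ^ f) = 0 := by
      have := ZMod.natCast_self (2 ^ f)
      push_cast at this
      exact this
    rw [this, zero_mul, zero_add]
  unfold mulRW
  rw [e1, e2, e3, e4]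

/-- The diagonal factor. -/
theorem mulR_diag (f c L₁ : ℕ) (z : ℂ) :
    ∑ κ ∈ Finset.range (2 ^ f), z ^ (L₁ * κ) • toC (Matrix.diagonal (fun i : Ix f c =>
        if i.1 = (κ : ZMod (2 ^ f)) then (1 : ℤ) else 0)) =
      Matrix.diagonal (fun i : Ix f c => z ^ (L₁ * i.1.val)) := by
  ext i j
  rw [Matrix.sum_apply]
  simp only [toC_diagonal, Matrix.smul_apply, Matrix.diagonal_apply, smul_eq_mul]
  by_cases hij : i = j
  · subst hij
    simp only [if_true]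
    rw [Finset.sum_eq_single i.1.val]
    · rw [ZMod.natCast_zmod_val]
      simp
    · intro b hb hne
      rw [Finset.mem_range] at hb
      rw [if_neg]
      · simp
      · intro h
        apply hne
        rw [h, ZMod.val_natCast, Nat.mod_eq_of_lt hb]
    · intro h
      exact absurd (Finset.mem_range.mpr (ZMod.val_lt i.1)) h
  · simp [hij]

theorem mulR_ev {f c L₁ L₂ : ℕ} (Q₁ Q₂ : ℕ → Matrix (Ix f c) (Ix f c) ℤ) (z : ℂ) :
    ev (2 ^ f * L₁ * L₂) (mulRW f c L₁ Q₁ Q₂) z =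
      ev L₁ Q₁ z * Matrix.diagonal (fun i : Ix f c => z ^ (L₁ * i.1.val)) *
        ev L₂ Q₂ (z ^ (L₁ * 2 ^ f)) := by
  rw [← mulR_diag]
  unfold ev
  rw [mul_comm (2 ^ f) L₁, mulR_sum_range_mul, Finset.mul_sum]
  refine Finset.sum_congr rfl fun t _ => ?_
  rw [mulR_sum_range_mul, Finset.mul_sum, Finset.sum_mul]
  refine Finset.sum_congr rfl fun κ hκ => ?_
  rw [Finset.sum_mul, Finset.sum_mul]
  refine Finset.sum_congr rfl fun j hj => ?_
  rw [Finset.mem_range] at hκ hj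
  rw [mulRW_apply Q₁ Q₂ t κ j hj hκ, toC_mul, toC_mul]
  simp only [Matrix.smul_mul, Matrix.mul_smul, smul_smul]
  congr 1
  ring

/-- PRODUCT RULE: structures of lengths `L₁`, `L₂` with the same number `F = 2 ^ f` of classes and
the same dimension give one of length `F L₁ L₂` with the same number of classes and the same
dimension.

PROOF. Let `Q₁, Q₂` be the two structures on `Ix f c` with `cls = Prod.fst` and `F = 2 ^ f`. For
`s < F L₁ L₂` write `s = j₁ + L₁ κ + F L₁ j₂` with `j₁ = s % L₁ < L₁`, `κ = (s / L₁) % F < F`,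
`j₂ = s / (L₁ F) < L₂` and put `W s = Q₁ j₁ * P κ * Q₂ j₂`, where `P κ` is the diagonal projection
onto the indices whose class is `(κ : ZMod (2 ^ f))`. `W s` is `Full` by `Full.mul_proj`. For all `z`
`ev (F L₁ L₂) W z = ∑ z ^ (j₁ + L₁ κ + F L₁ j₂) Q₁ j₁ P κ Q₂ j₂ = Q₁(z) D(z) Q₂(z ^ (F L₁))`
with `D(z) = ∑_{κ < F} z ^ (L₁ κ) P κ` the diagonal matrix with the entries
`z ^ (L₁ * (cls i).val)`. If `|z| = 1` then `D(z) D(z)ᴴ = 1` and `|z ^ (F L₁)| = 1`, so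
`W Wᴴ = Q₁ D (Q₂ Q₂ᴴ) Dᴴ Q₁ᴴ = F L₂ Q₁ D Dᴴ Q₁ᴴ = F L₂ F L₁ = F (F L₁ L₂)`.
(To rewrite the sum over `s` use e.g. `Finset.sum_bij'`/`Nat.divMod` or twice the identity
`∑_{s < a * b} g s = ∑_{t < b} ∑_{j < a} g (j + a * t)` (`Finset.sum_range` with
`finProdFinEquiv`, or an induction on `b` with `Finset.sum_range_add`), noting
`(j + a t) % a = j`, `(j + a t) / a = t`.) -/
theorem Av.mul {f c L₁ L₂ : ℕ} (h₁ : Av f c L₁) (h₂ : Av f c L₂) : Av f c (2 ^ f * L₁ * L₂) := by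
  obtain ⟨Q₁, hQ₁⟩ := h₁
  obtain ⟨Q₂, hQ₂⟩ := h₂
  refine ⟨mulRW f c L₁ Q₁ Q₂, ?_, ?_⟩
  · intro s hs
    have hL₁ : 0 < L₁ := by
      rcases Nat.eq_zero_or_pos L₁ with h | h
      · subst h
        simp at hs
      · exact h
    have h1 : s % L₁ < L₁ := Nat.mod_lt _ hL₁
    have h2 : s / (L₁ * 2 ^ f) < L₂ := by
      rw [Nat.div_lt_iff_lt_mul (by positivity)]
      calc s < 2 ^ f * L₁ * L₂ := hs
        _ = L₂ * (L₁ * 2 ^ f) := by ring
    exact Full.mul_proj (hQ₁.full _ h1) (hQ₂.full _ h2) _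
  · intro z hz
    have hz2 : ‖z ^ (L₁ * 2 ^ f)‖ = 1 := by rw [norm_pow, hz, one_pow]
    have hQ1 := hQ₁.norm z hz
    have hQ2 := hQ₂.norm _ hz2
    rw [mulR_ev]
    set A := ev L₁ Q₁ z with hA
    set B := ev L₂ Q₂ (z ^ (L₁ * 2 ^ f)) with hB
    set D : Matrix (Ix f c) (Ix f c) ℂ :=
      Matrix.diagonal (fun i : Ix f c => z ^ (L₁ * i.1.val)) with hD
    have hDD : D * Dᴴ = 1 := by
      rw [hD, Matrix.diagonal_conjTranspose, Matrix.diagonal_mul_diagonal, ← Matrix.diagonal_one]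
      congr 1
      funext i
      have h3 : ‖z ^ (L₁ * i.1.val)‖ = 1 := by rw [norm_pow, hz, one_pow]
      have h4 : z ^ (L₁ * i.1.val) * star (z ^ (L₁ * i.1.val)) = 1 := by
        have := Complex.mul_conj (z ^ (L₁ * i.1.val))
        rw [Complex.normSq_eq_norm_sq, h3] at this
        simpa using this
      simpa using h4
    calc A * D * B * (A * D * B)ᴴ = A * (D * (B * Bᴴ) * Dᴴ) * Aᴴ := by
          simp only [Matrix.conjTranspose_mul, Matrix.mul_assoc]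
      _ = ((2 ^ f * (2 ^ f * L₁ * L₂) : ℕ) : ℂ) • (1 : Matrix (Ix f c) (Ix f c) ℂ) := by
          rw [hQ2, Matrix.mul_smul, Matrix.mul_one, Matrix.smul_mul, hDD, Matrix.mul_smul,
            Matrix.mul_one, Matrix.smul_mul, hQ1, smul_smul]
          congr 1
          push_cast
          ring

end HadCalc
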