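import Mathlib

/-!
# Piece NPI: a weak Chebyshev bound
-/

set_option autoImplicit false

namespace HadNT

/-- A weak Chebyshev bound. PROOF. For `b = 1` it is `2 ≤ 2 * 1 * 1`. In general let `n = 2 ^ (b - 1)`,
so `2 n = 2 ^ b`. `4 ^ n ≤ 2 n * centralBinom n` (`Nat.four_pow_le_two_mul_self_mul_centralBinom`) and
`centralBinom n = ∏_{p ≤ 2 n, p prime} p ^ (v_p) ≤ (2 n) ^ π(2 n)`
(`Nat.prod_pow_factorization_centralBinom`, `Nat.pow_factorization_choose_le`). So
`2 ^ (2 ^ b) = 4 ^ n ≤ (2 ^ b) ^ (π(2 ^ b) + 1)`, that is `2 ^ b ≤ b (π(2 ^ b) + 1)`, and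
`1 ≤ π(2 ^ b)` gives the claim. -/
theorem pi_two_pow (b : ℕ) (hb : 1 ≤ b) : 2 ^ b ≤ 2 * b * Nat.primeCounting (2 ^ b) := by
  have hn : 0 < 2 ^ (b - 1) := by positivity
  have h2n : 2 * 2 ^ (b - 1) = 2 ^ b := by
    rw [← pow_succ']
    congr 1
    omega
  have h1 := Nat.four_pow_le_two_mul_self_mul_centralBinom (2 ^ (b - 1)) hn
  have h2 : Nat.centralBinom (2 ^ (b - 1)) ≤ (2 ^ b) ^ Nat.primeCounting (2 ^ b) := by
    have h3 := Nat.prod_pow_factorization_centralBinom (2 ^ (b - 1))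
    rw [h2n] at h3
    rw [← h3]
    have h4 : ∏ p ∈ Finset.range (2 ^ b + 1), p ^ (Nat.centralBinom (2 ^ (b - 1))).factorization p =
        ∏ p ∈ (Finset.range (2 ^ b + 1)).filter Nat.Prime,
          p ^ (Nat.centralBinom (2 ^ (b - 1))).factorization p := by
      rw [Finset.prod_filter]
      refine Finset.prod_congr rfl fun p _ => ?_
      split_ifs with hp
      · rfl
      · rw [Nat.factorization_eq_zero_of_not_prime _ hp, pow_zero]
    rw [h4, Nat.primeCounting, Nat.primeCounting', Nat.count_eq_card_filter_range]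
    refine Finset.prod_le_pow_card _ _ _ fun p _ => ?_
    rw [Nat.centralBinom_eq_two_mul_choose, h2n]
    exact Nat.pow_factorization_choose_le (by positivity)
  rw [h2n] at h1
  have h5 : (4 : ℕ) ^ 2 ^ (b - 1) = 2 ^ 2 ^ b := by
    rw [← h2n, pow_mul]
    norm_num
  have h6 : 2 ^ 2 ^ b ≤ 2 ^ (b * (Nat.primeCounting (2 ^ b) + 1)) := by
    rw [← h5, pow_mul, pow_succ, mul_comm]
    exact h1.trans (Nat.mul_le_mul_left _ h2)
  have h7 : 2 ^ b ≤ b * (Nat.primeCounting (2 ^ b) + 1) :=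
    (Nat.pow_le_pow_iff_right (by norm_num)).1 h6
  have h8 : 1 ≤ Nat.primeCounting (2 ^ b) := by
    have h9 : Nat.primeCounting 2 ≤ Nat.primeCounting (2 ^ b) := by
      refine Nat.monotone_primeCounting ?_
      calc 2 = 2 ^ 1 := rfl
        _ ≤ 2 ^ b := Nat.pow_le_pow_right (by norm_num) hb
    have h10 : Nat.primeCounting 2 = 1 := by decide
    omega
  nlinarith

end HadNT
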