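import Mathlib

/-!
# Piece NTERN0: second moment and the ternary lemma modulo `M`

`Sg M T g h = ∑_{t ∈ T} ψ (h * g t)` with `ψ` the standard additive character of `ZMod M`.
-/

set_option autoImplicit false

namespace HadNT

/-- The exponential sum of the finite family `g t`, `t ∈ T`. -/
noncomputable def Sg (M : ℕ) [NeZero M] {τ : Type} (T : Finset τ) (g : τ → ZMod M) (h : ZMod M) :
    ℂ := ∑ t ∈ T, ZMod.stdAddChar (h * g t)

/-- Orthogonality: `∑_h ψ (h * x) = M` if `x = 0` and `0` otherwise (`AddChar.sum_mulShift` with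
`ZMod.isPrimitive_stdAddChar`). -/
theorem orth (M : ℕ) [NeZero M] (x : ZMod M) :
    ∑ h : ZMod M, (ZMod.stdAddChar (h * x) : ℂ) = if x = 0 then (M : ℂ) else 0 := by
  rw [AddChar.sum_mulShift x (ZMod.isPrimitive_stdAddChar M)]
  split_ifs
  · rw [ZMod.card]
  · rw [Nat.cast_zero]

private theorem conj_psi (M : ℕ) [NeZero M] (x : ZMod M) :
    (starRingEnd ℂ) (ZMod.stdAddChar x : ℂ) = ZMod.stdAddChar (-x) := by
  rw [ZMod.stdAddChar_apply, ZMod.stdAddChar_apply, AddChar.map_neg_eq_inv,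
    Circle.coe_inv_eq_conj]

private theorem norm_psi (M : ℕ) [NeZero M] (x : ZMod M) : ‖(ZMod.stdAddChar x : ℂ)‖ = 1 := by
  rw [ZMod.stdAddChar_apply]
  exact Circle.norm_coe _

/-- SECOND MOMENT: `∑_h |S h| ^ 2 = M * #{(t, t') : g t = g t'}`. Expand
`|S h| ^ 2 = ∑_{t, t'} ψ (h * (g t - g t'))` (`conj (ψ x) = ψ (-x)`) and use `orth`. -/
theorem second_moment (M : ℕ) [NeZero M] {τ : Type} (T : Finset τ) (g : τ → ZMod M) :
    ∑ h : ZMod M, ‖Sg M T g h‖ ^ 2 =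
      M * (((T ×ˢ T).filter (fun x => g x.1 = g x.2)).card : ℝ) := by
  classical
  have h1 : ∀ h : ZMod M, ((‖Sg M T g h‖ ^ 2 : ℝ) : ℂ) =
      ∑ x ∈ T ×ˢ T, (ZMod.stdAddChar (h * (g x.1 - g x.2)) : ℂ) := by
    intro h
    rw [Complex.ofReal_pow, ← Complex.mul_conj']
    unfold Sg
    rw [map_sum, Finset.sum_mul_sum, Finset.sum_product]
    refine Finset.sum_congr rfl fun a _ => Finset.sum_congr rfl fun b _ => ?_
    rw [conj_psi, ← AddChar.map_add_eq_mul]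
    congr 1
    ring
  have h2 : ((∑ h : ZMod M, ‖Sg M T g h‖ ^ 2 : ℝ) : ℂ) =
      ((M * (((T ×ˢ T).filter (fun x => g x.1 = g x.2)).card : ℝ) : ℝ) : ℂ) := by
    rw [Complex.ofReal_sum, Finset.sum_congr rfl (fun h _ => h1 h), Finset.sum_comm,
      Finset.sum_congr rfl (fun x _ => orth M (g x.1 - g x.2)), ← Finset.sum_filter,
      Finset.sum_const, nsmul_eq_mul]
    have h3 : (T ×ˢ T).filter (fun x => g x.1 - g x.2 = 0) =
        (T ×ˢ T).filter (fun x => g x.1 = g x.2) := by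
      refine Finset.filter_congr fun x _ => ?_
      rw [sub_eq_zero]
    rw [h3]
    push_cast
    ring
  exact_mod_cast h2

/-- TERNARY LEMMA. PROOF. The number of `(a, b, c) ∈ T ^ 3` with `g a + g b + g c = n` is
`(1 / M) ∑_h S(h) ^ 3 ψ (- h n)`. The term `h = 0` is `|T| ^ 3`; the others are in absolute value at
most `∑_{h ≠ 0} |S h| ^ 3 ≤ B ∑_h |S h| ^ 2 = B * M * E' ≤ B * M * E < |T| ^ 3`. So the sum is not
zero and there is a solution. -/
theorem ternary (M : ℕ) [NeZero M] {τ : Type} (T : Finset τ) (g : τ → ZMod M) (B E : ℝ)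
    (hB0 : 0 ≤ B) (hB : ∀ h : ZMod M, h ≠ 0 → ‖Sg M T g h‖ ≤ B)
    (hE : (((T ×ˢ T).filter (fun x => g x.1 = g x.2)).card : ℝ) ≤ E)
    (hlt : B * (M * E) < (T.card : ℝ) ^ 3) (n : ZMod M) :
    ∃ a ∈ T, ∃ b ∈ T, ∃ c ∈ T, g a + g b + g c = n := by
  classical
  by_contra hcon
  push Not at hcon
  have hsum : ∑ h : ZMod M, Sg M T g h ^ 3 * (ZMod.stdAddChar (-(h * n)) : ℂ) = 0 := by
    have h1 : ∀ h : ZMod M, Sg M T g h ^ 3 * (ZMod.stdAddChar (-(h * n)) : ℂ) =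
        ∑ x ∈ (T ×ˢ T) ×ˢ T, (ZMod.stdAddChar (h * (g x.1.1 + g x.1.2 + g x.2 - n)) : ℂ) := by
      intro h
      rw [pow_succ, pow_two]
      unfold Sg
      rw [Finset.sum_mul_sum, ← Finset.sum_product', Finset.sum_mul_sum, ← Finset.sum_product',
        Finset.sum_mul]
      refine Finset.sum_congr rfl fun x _ => ?_
      rw [← AddChar.map_add_eq_mul, ← AddChar.map_add_eq_mul, ← AddChar.map_add_eq_mul]
      congr 1
      ring
    rw [Finset.sum_congr rfl (fun h _ => h1 h), Finset.sum_comm,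
      Finset.sum_congr rfl (fun x _ => orth M (g x.1.1 + g x.1.2 + g x.2 - n))]
    refine Finset.sum_eq_zero fun x hx => ?_
    rw [Finset.mem_product, Finset.mem_product] at hx
    rw [if_neg]
    intro h0
    exact hcon _ hx.1.1 _ hx.1.2 _ hx.2 (sub_eq_zero.1 h0)
  rw [← Finset.add_sum_erase _ _ (Finset.mem_univ (0 : ZMod M))] at hsum
  have h0 : Sg M T g 0 ^ 3 * (ZMod.stdAddChar (-((0 : ZMod M) * n)) : ℂ) = (T.card : ℂ) ^ 3 := by
    unfold Sg
    simp
  rw [h0] at hsum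
  have h2 : (T.card : ℝ) ^ 3 ≤ ∑ h ∈ Finset.univ.erase (0 : ZMod M), B * ‖Sg M T g h‖ ^ 2 := by
    have h3 : ((T.card : ℂ)) ^ 3 =
        -∑ h ∈ Finset.univ.erase (0 : ZMod M), Sg M T g h ^ 3 * (ZMod.stdAddChar (-(h * n)) : ℂ) :=
      eq_neg_of_add_eq_zero_left hsum
    have h4 : ‖((T.card : ℂ)) ^ 3‖ = (T.card : ℝ) ^ 3 := by
      rw [norm_pow, Complex.norm_natCast]
    rw [← h4, h3, norm_neg]
    refine (norm_sum_le _ _).trans (Finset.sum_le_sum fun h hh => ?_)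
    rw [norm_mul, norm_psi, mul_one, norm_pow, pow_succ, mul_comm]
    exact mul_le_mul_of_nonneg_right (hB h (Finset.ne_of_mem_erase hh)) (by positivity)
  have h5 : ∑ h ∈ Finset.univ.erase (0 : ZMod M), B * ‖Sg M T g h‖ ^ 2 ≤
      ∑ h : ZMod M, B * ‖Sg M T g h‖ ^ 2 :=
    Finset.sum_le_sum_of_subset_of_nonneg (Finset.erase_subset _ _) (fun _ _ _ => by positivity)
  rw [← Finset.mul_sum, ← Finset.mul_sum, second_moment] at h5
  rw [← Finset.mul_sum] at h2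
  have h6 : B * (M * (((T ×ˢ T).filter (fun x => g x.1 = g x.2)).card : ℝ)) ≤ B * (M * E) :=
    mul_le_mul_of_nonneg_left (mul_le_mul_of_nonneg_left hE (Nat.cast_nonneg _)) hB0
  linarith

end HadNT
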