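import Pool.Agent.Lib_MP_008adc_co.OLev
import Pool.Agent.Lib_MP_008adc_co.CovA

/-!
# Piece OCHAIN: the chain of lengths, `Cov (64 e + 16 f + 352) f c → Cov (2 ^ e) (f + 1) _`
-/

set_option autoImplicit false

namespace HadCalc

open HadNT

/-- `y` is a sum of at most `N` lengths of structures with `2 ^ f` classes, dimension exponent `c` -/
def SL (f c N y : ℕ) : Prop :=
  ∃ l : List ℕ, l.length ≤ N ∧ (∀ x ∈ l, Av f c x) ∧ l.sum = y

theorem SL.one {f c y : ℕ} (h : Av f c y) : SL f c 1 y :=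
  ⟨[y], by simp, by simpa using h, by simp⟩

theorem SL.add {f c M N x y : ℕ} (hx : SL f c M x) (hy : SL f c N y) : SL f c (M + N) (x + y) := by
  obtain ⟨l, h1, h2, h3⟩ := hx
  obtain ⟨m, h4, h5, h6⟩ := hy
  refine ⟨l ++ m, by rw [List.length_append]; omega, fun z hz => ?_, by rw [List.sum_append, h3, h6]⟩
  rcases List.mem_append.1 hz with h | h
  · exact h2 z h
  · exact h5 z h

theorem SL.mono {f c M N y : ℕ} (h : SL f c M y) (hMN : M ≤ N) : SL f c N y := by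
  obtain ⟨l, h1, h2, h3⟩ := h
  exact ⟨l, h1.trans hMN, h2, h3⟩

theorem SL.sum {f c : ℕ} {ι : Type} (s : Finset ι) (g : ι → ℕ) (h : ∀ i ∈ s, Av f c (g i)) :
    SL f c s.card (∑ i ∈ s, g i) := by
  classical
  induction s using Finset.induction_on with
  | empty => exact ⟨[], by simp, by simp, by simp⟩
  | insert a s ha ih =>
    rw [Finset.card_insert_of_notMem ha, Finset.sum_insert ha, add_comm s.card]
    exact (SL.one (h a (Finset.mem_insert_self a s))).add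
      (ih fun i hi => h i (Finset.mem_insert_of_mem hi))

theorem SL.av {f c N y : ℕ} (h : SL f c N y) : Av (f + 1) (N * (c + f + 2)) (2 * y) := by
  obtain ⟨l, h1, h2, h3⟩ := h
  have h4 := Av.sum_list (f := f) (l.map (fun x => ((c, x) : ℕ × ℕ))) (by
    intro x hx
    obtain ⟨y, hy, rfl⟩ := List.mem_map.1 hx
    exact h2 y hy)
  have e1 : ((l.map (fun x => ((c, x) : ℕ × ℕ))).map (fun x => x.1 + f + 2)).sum =
      l.length * (c + f + 2) := by
    rw [List.map_map]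
    have : ((fun x : ℕ × ℕ => x.1 + f + 2) ∘ fun x => ((c, x) : ℕ × ℕ)) = fun _ => c + f + 2 := rfl
    rw [this, List.map_const', List.sum_replicate, smul_eq_mul]
  have e2 : ((l.map (fun x => ((c, x) : ℕ × ℕ))).map Prod.snd) = l := by
    rw [List.map_map]
    have : (Prod.snd ∘ fun x => ((c, x) : ℕ × ℕ)) = id := rfl
    rw [this, List.map_id]
  rw [e1, e2, h3] at h4
  exact h4.mono le_rfl (Nat.mul_le_mul_right _ h1)

/-- products of `K` numbers below `2 ^ a` -/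
theorem Cov.prodK {a f c : ℕ} (h : Cov a f c) (K : ℕ) (hK : 1 ≤ K) (x : Fin K → ℕ)
    (hx : ∀ j, x j < 2 ^ a) : Av f c (2 ^ (f * (K - 1) + K) * ∏ j, x j) := by
  have h1 := Av.prod_list (f := f) (c := c) (List.ofFn fun j => 2 * x j) (by
    intro h0
    have := congrArg List.length h0
    rw [List.length_ofFn, List.length_nil] at this
    omega) (by
    intro y hy
    rw [List.mem_ofFn] at hy
    obtain ⟨j, rfl⟩ := hy
    exact h _ (hx j))
  rw [List.length_ofFn, List.prod_ofFn, Finset.prod_mul_distrib, Finset.prod_const, Finset.card_univ,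
    Fintype.card_fin, ← mul_assoc, ← pow_add] at h1
  exact h1

theorem OB_one (B n : ℕ) (hB : 1 ≤ B) : OB B n 1 :=
  ⟨fun _ => 1, fun _ => ⟨le_rfl, hB⟩, by simp⟩

/-- products of at most `K` numbers -/
theorem Cov.prodOB {a f c b n v K : ℕ} (h : Cov a f c) (hba : b < a) (hK : 1 ≤ K) (hn : n ≤ K)
    (hv : OB (2 ^ b) n v) : Av f c (2 ^ (f * (K - 1) + K) * v) := by
  have h1 := hv.mul (OB_one (2 ^ b) (K - n) Nat.one_le_two_pow)
  rw [mul_one, Nat.add_sub_cancel' hn] at h1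
  obtain ⟨x, hx, rfl⟩ := h1
  exact h.prodK K hK x fun j => lt_of_le_of_lt (hx j).2 (Nat.pow_lt_pow_right (by norm_num) hba)

/-- one number below `2 ^ a` -/
theorem Cov.single {a f c z K : ℕ} (h : Cov a f c) (ha : 1 ≤ a) (hK : 1 ≤ K) (hz : z < 2 ^ a) :
    Av f c (2 ^ (f * (K - 1) + K) * z) := by
  obtain ⟨k, rfl⟩ := Nat.exists_eq_add_of_le' hK
  have h1 := h.prodK (k + 1) hK (Fin.cons z (fun _ => 1)) (by
    intro j
    refine Fin.cases ?_ ?_ j
    · exact hz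
    · intro i
      show 1 < 2 ^ a
      exact Nat.one_lt_two_pow (by omega))
  rw [Fin.prod_cons] at h1
  simpa using h1

/-- `f (K - 1) + K + (f + 1) ρ = f (K + ρ - 1) + (K + ρ)` -/
theorem E_add (f K ρ : ℕ) (hK : 1 ≤ K) :
    f * (K - 1) + K + (f + 1) * ρ = f * (K + ρ - 1) + (K + ρ) := by
  obtain ⟨k, rfl⟩ := Nat.exists_eq_add_of_le' hK
  have e1 : k + 1 - 1 = k := by omega
  have e2 : k + 1 + ρ - 1 = k + ρ := by omega
  rw [e1, e2]
  ring

/-- ONE STEP of the chain. -/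
theorem chain_step {a f c b l J K z : ℕ} (h : Cov a f c) (hba : b < a) (hl : 8 * l + 8 ≤ b)
    (hJ : 4 * b * 2 ^ J ≤ 2 ^ l) (hf : 4 * (f + 1) ≤ b) (hK : 2 ^ (J + 2) ≤ K)
    (hz : 2 ^ (b * 2 ^ (J + 2)) ≤ z) :
    ∃ ρ z', 2 ^ (J + 2) ≤ ρ ∧ b * 2 ^ J ≤ 2 * ((f + 1) * ρ) ∧ 2 ^ ((f + 1) * ρ) * z' ≤ z ∧
      ∀ N, SL f c N (2 ^ (f * (K + ρ - 1) + (K + ρ)) * z') →
        SL f c (N + 9) (2 ^ (f * (K - 1) + K) * z) := by
  obtain ⟨ρ, hρ⟩ : ∃ ρ, ρ = b * 2 ^ J / (f + 1) := ⟨_, rfl⟩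
  have hJ1 : 1 ≤ 2 ^ J := Nat.one_le_two_pow
  have hKK : 4 * 2 ^ J = 2 ^ (J + 2) := by rw [pow_add]; ring
  have hK1 : 1 ≤ K := by omega
  have h1 : (f + 1) * ρ ≤ b * 2 ^ J := by
    rw [hρ]
    exact Nat.mul_div_le _ _
  have h2 : b * 2 ^ J < (f + 1) * ρ + (f + 1) := by
    rw [hρ]
    have := Nat.lt_mul_div_succ (b * 2 ^ J) (show 0 < f + 1 by omega)
    rw [mul_add, mul_one] at this
    exact this
  have h3 : 2 ^ (J + 2) ≤ ρ := by
    rw [hρ, Nat.le_div_iff_mul_le (by omega), ← hKK]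
    calc 4 * 2 ^ J * (f + 1) = 4 * (f + 1) * 2 ^ J := by ring
      _ ≤ b * 2 ^ J := Nat.mul_le_mul_right _ hf
  have h4 : b * 2 ^ J ≤ 2 * ((f + 1) * ρ) := by
    have : 2 * (f + 1) ≤ b * 2 ^ J := by nlinarith
    omega
  obtain ⟨v, hv, hmod⟩ := add_eight hl J hJ ((f + 1) * ρ) h1 (z - z % 2) (by omega)
  set S := ∑ i, v i with hS
  have h5 : S ≤ 8 * (2 ^ b) ^ (4 * 2 ^ J - 3) := by
    rw [hS]
    refine (Finset.sum_le_card_nsmul _ _ _ fun i _ => (hv i).le).trans (le_of_eq ?_)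
    rw [Finset.card_univ, Fintype.card_fin, smul_eq_mul]
  have h6 : S + 1 ≤ z := by
    refine le_trans ?_ hz
    have e1 : 8 * (2 ^ b) ^ (4 * 2 ^ J - 3) = 2 ^ (3 + b * (4 * 2 ^ J - 3)) := by
      rw [pow_add, pow_mul]
      norm_num
    have e2 : 3 + b * (4 * 2 ^ J - 3) + 1 ≤ b * 2 ^ (J + 2) := by
      obtain ⟨m, hm⟩ : ∃ m, 4 * 2 ^ J = m + 3 := ⟨4 * 2 ^ J - 3, by omega⟩
      rw [← hKK, hm, Nat.add_sub_cancel, mul_add]
      omega
    have e3 : 2 ^ (3 + b * (4 * 2 ^ J - 3)) * 2 ≤ 2 ^ (b * 2 ^ (J + 2)) := by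
      rw [← pow_succ]
      exact Nat.pow_le_pow_right (by norm_num) e2
    have e4 : 1 ≤ 2 ^ (3 + b * (4 * 2 ^ J - 3)) := Nat.one_le_two_pow
    omega
  have h7 : S ≤ z - z % 2 := by omega
  obtain ⟨z', hz'⟩ := (Nat.modEq_iff_dvd' h7).1 hmod
  have h8 : z = z % 2 + S + 2 ^ ((f + 1) * ρ) * z' := by omega
  refine ⟨ρ, z', h3, h4, by omega, fun N hN => ?_⟩
  have h9 : 2 ^ (f * (K - 1) + K) * z = 2 ^ (f * (K + ρ - 1) + (K + ρ)) * z' +
      (2 ^ (f * (K - 1) + K) * (z % 2) + ∑ i, 2 ^ (f * (K - 1) + K) * v i) := by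
    rw [← E_add f K ρ hK1, pow_add (2 : ℕ) (f * (K - 1) + K) ((f + 1) * ρ), ← Finset.mul_sum, ← hS]
    conv_lhs => rw [h8]
    ring
  rw [h9]
  refine (hN.add ((SL.one ?_).add (SL.sum Finset.univ (fun i => 2 ^ (f * (K - 1) + K) * v i)
    fun i _ => ?_))).mono ?_
  · rcases Nat.mod_two_eq_zero_or_one z with h10 | h10
    · rw [h10, mul_zero]
      exact Av.zero f c
    · rw [h10]
      exact h.prodOB hba hK1 (Nat.zero_le K) (OB_one (2 ^ b) 0 Nat.one_le_two_pow)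
  · exact h.prodOB hba hK1 (by omega) (hv i)
  · rw [Finset.card_univ, Fintype.card_fin]

/-- DOWN: `z` of at most `b 2 ^ (J + 2)` bits. -/
theorem chain_down {a f c b l : ℕ} (h : Cov a f c) (hba : 4 * b ≤ a) (hl : 8 * l + 8 ≤ b)
    (hf : 4 * (f + 1) ≤ b) (J : ℕ) (hJ : 4 * b * 2 ^ J ≤ 2 ^ l) :
    ∀ z K, 2 ^ (J + 2) ≤ K → z < 2 ^ (b * 2 ^ (J + 2)) →
      SL f c (72 * J + 1) (2 ^ (f * (K - 1) + K) * z) := by
  induction J with
  | zero =>
    intro z K hK hz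
    refine (SL.one (h.single (by omega) ?_ (lt_of_lt_of_le hz ?_))).mono (by omega)
    · have : 1 ≤ 2 ^ (0 + 2) := Nat.one_le_two_pow
      omega
    · refine Nat.pow_le_pow_right (by norm_num) ?_
      norm_num
      omega
  | succ J ih =>
    have hJ' : 4 * b * 2 ^ J ≤ 2 ^ l :=
      le_trans (Nat.mul_le_mul_left _ (Nat.pow_le_pow_right (by norm_num) (Nat.le_succ J))) hJ
    have key : ∀ s, ∀ z K, 2 ^ (J + 2) ≤ K → z < 2 ^ (b * 2 ^ (J + 2) + s * (b * 2 ^ J) / 2) →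
        SL f c (72 * J + 1 + 9 * s) (2 ^ (f * (K - 1) + K) * z) := by
      intro s
      induction s with
      | zero =>
        intro z K hK hz
        refine (ih hJ' z K hK ?_).mono (by omega)
        simpa using hz
      | succ s ihs =>
        intro z K hK hz
        rcases Nat.lt_or_ge z (2 ^ (b * 2 ^ (J + 2))) with h1 | h1
        · exact (ih hJ' z K hK h1).mono (by omega)
        · obtain ⟨ρ, z', h2, h3, h4, h5⟩ := chain_step h (by omega) hl hJ' hf hK h1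
          have h6 : z' < 2 ^ (b * 2 ^ (J + 2) + s * (b * 2 ^ J) / 2) := by
            by_contra hcon
            push Not at hcon
            have h7 : 2 ^ ((f + 1) * ρ) * 2 ^ (b * 2 ^ (J + 2) + s * (b * 2 ^ J) / 2) ≤ z :=
              (Nat.mul_le_mul_left _ hcon).trans h4
            rw [← pow_add] at h7
            have h8 := lt_of_le_of_lt h7 hz
            have h9 := (Nat.pow_lt_pow_iff_right (by norm_num : 1 < 2)).1 h8
            have h10 : (s + 1) * (b * 2 ^ J) = s * (b * 2 ^ J) + b * 2 ^ J := by ring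
            rw [h10] at h9
            omega
          exact (h5 _ (ihs z' (K + ρ) (by omega) h6)).mono (by omega)
    intro z K hK hz
    have h1 : 2 ^ (J + 2) ≤ K :=
      le_trans (Nat.pow_le_pow_right (by norm_num) (by omega)) hK
    refine (key 8 z K h1 (lt_of_lt_of_le hz (Nat.pow_le_pow_right (by norm_num) ?_))).mono (by omega)
    have e1 : b * 2 ^ (J + 1 + 2) = b * 2 ^ (J + 2) + 8 * (b * 2 ^ J) / 2 := by
      have e2 : 8 * (b * 2 ^ J) / 2 = 4 * (b * 2 ^ J) := by omega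
      rw [e2, pow_add, pow_add, pow_add]
      ring
    omega

/-- UP. -/
theorem chain_up {a f c b l e : ℕ} (h : Cov a f c) (hba : 4 * b ≤ a) (hl : 8 * l + 8 ≤ b)
    (hf : 4 * (f + 1) ≤ b) (he : 4 * b * 2 ^ e ≤ 2 ^ l) (d : ℕ) :
    ∀ J, J + d = e → ∀ z K, 2 ^ (J + 2) ≤ K → z < 2 ^ (b * 2 ^ (e + 2)) →
      SL f c (72 * e + 1 + 9 * d) (2 ^ (f * (K - 1) + K) * z) := by
  induction d with
  | zero =>
    intro J hJ z K hK hz
    have hJe : J = e := by omega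
    subst hJe
    exact chain_down h hba hl hf J he z K hK hz
  | succ d ih =>
    intro J hJ z K hK hz
    have hJ' : 4 * b * 2 ^ J ≤ 2 ^ l :=
      le_trans (Nat.mul_le_mul_left _ (Nat.pow_le_pow_right (by norm_num) (by omega))) he
    rcases Nat.lt_or_ge z (2 ^ (b * 2 ^ (J + 2))) with h1 | h1
    · exact (chain_down h hba hl hf J hJ' z K hK h1).mono (by omega)
    · obtain ⟨ρ, z', h2, _, h4, h5⟩ := chain_step h (by omega) hl hJ' hf hK h1
      have h6 : z' < 2 ^ (b * 2 ^ (e + 2)) := by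
        refine lt_of_le_of_lt ?_ hz
        refine le_trans ?_ h4
        exact Nat.le_mul_of_pos_left _ (by positivity)
      have h7 : 2 ^ (J + 1 + 2) ≤ K + ρ := by
        have : 2 ^ (J + 1 + 2) = 2 ^ (J + 2) + 2 ^ (J + 2) := by
          rw [pow_add, pow_add, pow_add]
          ring
        omega
      exact (h5 _ (ih (J + 1) (by omega) z' (K + ρ) h7 h6)).mono (by omega)

/-- STEP of the recursion. -/
theorem Cov.step2 {f c e : ℕ} (h : Cov (64 * e + 16 * f + 352) f c) :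
    Cov (2 ^ e) (f + 1) ((81 * e + 3) * (c + f + 2)) := by
  obtain ⟨b, hb⟩ : ∃ b, b = 16 * e + 88 + 4 * f := ⟨_, rfl⟩
  obtain ⟨l, hl⟩ : ∃ l, l = 2 * e + 10 + f / 2 := ⟨_, rfl⟩
  have hba : 4 * b ≤ 64 * e + 16 * f + 352 := by omega
  have hl' : 8 * l + 8 ≤ b := by omega
  have he : 4 * b * 2 ^ e ≤ 2 ^ l := by
    have e1 : 2 ^ l = 2 ^ e * (2 ^ 10 * (2 ^ e * 2 ^ (f / 2))) := by
      rw [hl, ← pow_add, ← pow_add, ← pow_add]
      congr 1
      omega
    have e2 : e + 1 ≤ 2 ^ e := Nat.lt_two_pow_self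
    have e3 : f / 2 + 1 ≤ 2 ^ (f / 2) := Nat.lt_two_pow_self
    have e4 : (e + 1) * (f / 2 + 1) ≤ 2 ^ e * 2 ^ (f / 2) := Nat.mul_le_mul e2 e3
    have e5 : e + f / 2 + 1 ≤ (e + 1) * (f / 2 + 1) := by nlinarith [Nat.zero_le (e * (f / 2))]
    have e6 : 4 * b ≤ 2 ^ 10 * (2 ^ e * 2 ^ (f / 2)) := by
      calc 4 * b ≤ 2 ^ 10 * (e + f / 2 + 1) := by omega
        _ ≤ 2 ^ 10 * (2 ^ e * 2 ^ (f / 2)) := Nat.mul_le_mul_left _ (e5.trans e4)
    rw [e1, mul_comm (4 * b)]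
    exact Nat.mul_le_mul_left _ e6
  intro q hq
  have h1 : q < 2 ^ (b * 2 ^ (e + 2)) := by
    refine lt_of_lt_of_le hq (Nat.pow_le_pow_right (by norm_num) ?_)
    calc 2 ^ e ≤ 2 ^ (e + 2) := Nat.pow_le_pow_right (by norm_num) (by omega)
      _ ≤ b * 2 ^ (e + 2) := Nat.le_mul_of_pos_left _ (by omega)
  obtain ⟨s, hs⟩ : ∃ s, s = f * (4 - 1) + 4 := ⟨_, rfl⟩
  have h2 := chain_up h hba hl' (by omega) he e 0 (by omega) (q / 2 ^ s) 4 (by norm_num)
    (lt_of_le_of_lt (Nat.div_le_self _ _) h1)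
  rw [← hs] at h2
  have h3 : Av f c (2 * (q % 2 ^ s / 2)) := by
    refine h _ ?_
    calc q % 2 ^ s / 2 ≤ q % 2 ^ s := Nat.div_le_self _ _
      _ < 2 ^ s := Nat.mod_lt _ (by positivity)
      _ ≤ 2 ^ (64 * e + 16 * f + 352) := Nat.pow_le_pow_right (by norm_num) (by omega)
  have h4 : Av f c (q % 2 ^ s % 2) := by
    rcases Nat.mod_two_eq_zero_or_one (q % 2 ^ s) with h4 | h4
    · rw [h4]
      exact Av.zero f c
    · rw [h4]
      exact Av.base.mono (Nat.zero_le _) (Nat.zero_le _)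
  have h5 := (h2.add ((SL.one h3).add (SL.one h4))).mono (N := 81 * e + 3) (by omega)
  have h6 : 2 ^ s * (q / 2 ^ s) + (2 * (q % 2 ^ s / 2) + q % 2 ^ s % 2) = q := by
    rw [Nat.div_add_mod (q % 2 ^ s) 2, Nat.div_add_mod]
  rw [h6] at h5
  exact h5.av

end HadCalc
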