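import Pool.Agent.Lib_MP_008adc_co.NTern0

/-!
# Piece OEIGHT: the eight summand lemma modulo a power of two
-/

set_option autoImplicit false

namespace HadNT

private theorem norm_psi8 (M : ℕ) [NeZero M] (x : ZMod M) : ‖(ZMod.stdAddChar x : ℂ)‖ = 1 := by
  rw [ZMod.stdAddChar_apply]
  exact Circle.norm_coe _

private theorem psi_sum (M : ℕ) [NeZero M] {ι : Type} (s : Finset ι) (f : ι → ZMod M) :
    ∏ i ∈ s, (ZMod.stdAddChar (f i) : ℂ) = ZMod.stdAddChar (∑ i ∈ s, f i) := by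
  classical
  induction s using Finset.induction_on with
  | empty => simp
  | insert a s ha ih =>
    rw [Finset.prod_insert ha, Finset.sum_insert ha, ih, AddChar.map_add_eq_mul]

/-- expansion of the eighth power -/
private theorem Sg_pow8 (M : ℕ) [NeZero M] {τ : Type} (T : Finset τ) (g : τ → ZMod M)
    (h n : ZMod M) :
    Sg M T g h ^ 8 * (ZMod.stdAddChar (-(h * n)) : ℂ) =
      ∑ p ∈ Fintype.piFinset (fun _ : Fin 8 => T),
        (ZMod.stdAddChar (h * ((∑ j, g (p j)) - n)) : ℂ) := by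
  classical
  have h1 : Sg M T g h ^ 8 = ∏ _j : Fin 8, ∑ t ∈ T, (ZMod.stdAddChar (h * g t) : ℂ) := by
    rw [Finset.prod_const, Finset.card_univ, Fintype.card_fin]
    rfl
  rw [h1, Finset.prod_univ_sum, Finset.sum_mul]
  refine Finset.sum_congr rfl fun p _ => ?_
  rw [psi_sum, ← AddChar.map_add_eq_mul]
  congr 1
  rw [mul_sub, Finset.mul_sum, sub_eq_add_neg]

/-- the number of elements of additive order `2 ^ i` -/
private theorem card_ord (R i : ℕ) (A : Finset (ZMod (2 ^ R)))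
    (hA : ∀ h ∈ A, addOrderOf h = 2 ^ i) : A.card ≤ 2 ^ i := by
  classical
  have h1 : A ⊆ (Finset.univ : Finset (ZMod (2 ^ R))).filter (fun a => (2 ^ i) • a = 0) := by
    intro a ha
    rw [Finset.mem_filter]
    refine ⟨Finset.mem_univ _, ?_⟩
    rw [← hA a ha]
    exact addOrderOf_nsmul_eq_zero a
  exact (Finset.card_le_card h1).trans (IsAddCyclic.card_nsmul_eq_zero_le (by positivity))

theorem eight (R b : ℕ) (hb : 6 ≤ b) {τ : Type} (T : Finset τ) (hT : T.Nonempty) (g : τ → ℕ)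
    (hodd : ∀ t ∈ T, g t % 2 = 1)
    (h0 : ∀ h : ZMod (2 ^ R), ∀ i, 2 ≤ i → i ≤ b → addOrderOf h = 2 ^ i →
      Sg (2 ^ R) T (fun t => (g t : ZMod (2 ^ R))) h = 0)
    (h1 : ∀ h : ZMod (2 ^ R), ∀ i, b < i → i ≤ R → addOrderOf h = 2 ^ i →
      ‖Sg (2 ^ R) T (fun t => (g t : ZMod (2 ^ R))) h‖ * 2 ^ (i / 4) ≤ T.card)
    (y : ℕ) (hy : y % 2 = 0) :
    ∃ t : Fin 8 → τ, (∀ j, t j ∈ T) ∧ (∑ j, g (t j)) ≡ y [MOD 2 ^ R] := by
  classical
  set G : τ → ZMod (2 ^ R) := fun t => (g t : ZMod (2 ^ R)) with hG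
  set S : ZMod (2 ^ R) → ℂ := fun h => Sg (2 ^ R) T G h with hS
  have hTc : (0 : ℝ) < (T.card : ℝ) ^ 8 := by
    have := Finset.card_pos.2 hT
    positivity
  rcases Nat.eq_zero_or_pos R with hR | hR
  · subst hR
    obtain ⟨t, ht⟩ := hT
    exact ⟨fun _ => t, fun _ => ht, by simpa using Nat.modEq_one⟩
  by_contra hcon
  push Not at hcon
  -- the counting sum vanishes
  have hsum : ∑ h : ZMod (2 ^ R), S h ^ 8 * (ZMod.stdAddChar (-(h * (y : ZMod (2 ^ R)))) : ℂ) = 0 := by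
    rw [Finset.sum_congr rfl (fun h _ => Sg_pow8 (2 ^ R) T G h (y : ZMod (2 ^ R))),
      Finset.sum_comm, Finset.sum_congr rfl (fun p _ => orth (2 ^ R) ((∑ j, G (p j)) - y))]
    refine Finset.sum_eq_zero fun p hp => ?_
    rw [if_neg]
    intro h2
    refine hcon p (fun j => Fintype.mem_piFinset.1 hp j) ?_
    rw [← ZMod.natCast_eq_natCast_iff]
    push_cast
    exact sub_eq_zero.1 h2
  -- the element of order two
  set h₁ : ZMod (2 ^ R) := ((2 ^ (R - 1) : ℕ) : ZMod (2 ^ R)) with hh₁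
  have e2 : 2 ^ (R - 1) * 2 = 2 ^ R := by
    rw [← pow_succ]
    congr 1
    omega
  have h2h₁ : h₁ * 2 = 0 := by
    have : ((2 ^ (R - 1) * 2 : ℕ) : ZMod (2 ^ R)) = 0 := by
      rw [e2]
      exact ZMod.natCast_self _
    rw [hh₁]
    exact_mod_cast this
  have hne : h₁ ≠ 0 := by
    intro h2
    rw [hh₁, ZMod.natCast_eq_zero_iff] at h2
    have h3 := Nat.le_of_dvd (by positivity) h2
    have h4 : 0 < 2 ^ (R - 1) := by positivity
    omega
  have hcl : ∀ h : ZMod (2 ^ R), h * 2 = 0 → h = 0 ∨ h = h₁ := by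
    intro h hh
    have h2 : h = ((h.val : ℕ) : ZMod (2 ^ R)) := (ZMod.natCast_zmod_val h).symm
    have h3 : ((h.val * 2 : ℕ) : ZMod (2 ^ R)) = 0 := by
      push_cast
      rw [← h2]
      exact hh
    rw [ZMod.natCast_eq_zero_iff] at h3
    have h3' : 2 ^ (R - 1) * 2 ∣ h.val * 2 := by
      rw [e2]
      exact h3
    have h4 : 2 ^ (R - 1) ∣ h.val := Nat.dvd_of_mul_dvd_mul_right (by norm_num) h3'
    obtain ⟨m, hm⟩ := h4
    have h5 : h.val < 2 ^ R := ZMod.val_lt h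
    have h6 : m < 2 := by
      rw [hm, ← e2] at h5
      exact Nat.lt_of_mul_lt_mul_left h5
    interval_cases m
    · left
      rw [h2, hm]
      simp
    · right
      rw [h2, hm, hh₁, mul_one]
  -- the two main terms
  have hS0 : S 0 ^ 8 * (ZMod.stdAddChar (-((0 : ZMod (2 ^ R)) * (y : ZMod (2 ^ R)))) : ℂ) =
      (T.card : ℂ) ^ 8 := by
    simp [hS, Sg]
  have hevn : ∀ m : ℕ, m % 2 = 0 → h₁ * (m : ZMod (2 ^ R)) = 0 := by
    intro m hm
    obtain ⟨m', rfl⟩ : ∃ m', m = 2 * m' := ⟨m / 2, by omega⟩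
    push_cast
    rw [← mul_assoc, h2h₁, zero_mul]
  have hS1 : S h₁ ^ 8 * (ZMod.stdAddChar (-(h₁ * (y : ZMod (2 ^ R)))) : ℂ) = (T.card : ℂ) ^ 8 := by
    have h2 : S h₁ = (T.card : ℂ) * (ZMod.stdAddChar h₁ : ℂ) := by
      show ∑ t ∈ T, (ZMod.stdAddChar (h₁ * G t) : ℂ) = _
      rw [Finset.sum_congr rfl (g := fun _ => (ZMod.stdAddChar h₁ : ℂ)), Finset.sum_const,
        nsmul_eq_mul]
      intro t ht
      congr 1
      have h3 : g t = (g t - 1) + 1 := by
        have := hodd t ht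
        omega
      rw [hG]
      show h₁ * (g t : ZMod (2 ^ R)) = h₁
      rw [h3, Nat.cast_add, mul_add, hevn (g t - 1) (by have := hodd t ht; omega)]
      simp
    have h4 : (ZMod.stdAddChar h₁ : ℂ) ^ 2 = 1 := by
      rw [← AddChar.map_nsmul_eq_pow, nsmul_eq_mul, mul_comm]
      push_cast
      rw [h2h₁, AddChar.map_zero_eq_one]
    rw [h2, hevn y hy, neg_zero, AddChar.map_zero_eq_one, mul_one, mul_pow]
    have h5 : (ZMod.stdAddChar h₁ : ℂ) ^ 8 = 1 := by
      rw [show (8 : ℕ) = 2 * 4 by norm_num, pow_mul, h4, one_pow]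
    rw [h5, mul_one]
  -- the other terms
  have hmem : h₁ ∈ Finset.univ.erase (0 : ZMod (2 ^ R)) :=
    Finset.mem_erase.2 ⟨hne, Finset.mem_univ _⟩
  rw [← Finset.add_sum_erase _ _ (Finset.mem_univ (0 : ZMod (2 ^ R))),
    ← Finset.add_sum_erase _ _ hmem, hS0, hS1] at hsum
  set A : Finset (ZMod (2 ^ R)) := (Finset.univ.erase (0 : ZMod (2 ^ R))).erase h₁ with hA
  have hord : ∀ h ∈ A, ∃ i, 2 ≤ i ∧ i ≤ R ∧ addOrderOf h = 2 ^ i := by
    intro h hh
    rw [hA, Finset.mem_erase, Finset.mem_erase] at hh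
    have h2 : addOrderOf h ∣ 2 ^ R := by
      have := addOrderOf_dvd_natCard h
      rwa [Nat.card_zmod] at this
    obtain ⟨i, hi, hi2⟩ := (Nat.dvd_prime_pow Nat.prime_two).1 h2
    refine ⟨i, ?_, hi, hi2⟩
    by_contra hlt
    have h3 : addOrderOf h ∣ 2 := by
      rw [hi2]
      calc 2 ^ i ∣ 2 ^ 1 := pow_dvd_pow 2 (by omega)
        _ = 2 := pow_one 2
    have h4 : h * 2 = 0 := by
      have := addOrderOf_dvd_iff_nsmul_eq_zero.1 h3
      rw [nsmul_eq_mul, mul_comm] at this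
      exact_mod_cast this
    rcases hcl h h4 with h5 | h5
    · exact hh.2.1 h5
    · exact hh.1 h5
  have hbound : ∑ h ∈ A, ‖S h‖ ^ 8 ≤ (T.card : ℝ) ^ 8 := by
    set A' := A.filter (fun h => b < Nat.log 2 (addOrderOf h)) with hA'
    have hlog : ∀ h : ZMod (2 ^ R), ∀ i, addOrderOf h = 2 ^ i → Nat.log 2 (addOrderOf h) = i := by
      intro h i hi
      rw [hi, Nat.log_pow (by norm_num)]
    have e3 : ∑ h ∈ A, ‖S h‖ ^ 8 = ∑ h ∈ A', ‖S h‖ ^ 8 := by
      symm
      refine Finset.sum_subset (Finset.filter_subset _ _) fun h hh hh' => ?_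
      obtain ⟨i, hi2, _, hi⟩ := hord h hh
      have h6 : ¬ b < i := by
        intro h7
        exact hh' (Finset.mem_filter.2 ⟨hh, by rw [hlog h i hi]; exact h7⟩)
      have h7 : S h = 0 := h0 h i hi2 (by omega) hi
      rw [h7, norm_zero]
      norm_num
    rw [e3, ← Finset.sum_fiberwise_of_maps_to (s := A') (t := Finset.Ico (b + 1) (R + 1))
      (g := fun h => Nat.log 2 (addOrderOf h))]
    · have e4 : ∀ i ∈ Finset.Ico (b + 1) (R + 1),
          ∑ h ∈ A' with Nat.log 2 (addOrderOf h) = i, ‖S h‖ ^ 8 ≤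
            (T.card : ℝ) ^ 8 * (64 * (1 / 2 : ℝ) ^ i) := by
        intro i hi
        rw [Finset.mem_Ico] at hi
        have e5 : ∀ h ∈ A'.filter (fun h => Nat.log 2 (addOrderOf h) = i), addOrderOf h = 2 ^ i := by
          intro h hh
          rw [Finset.mem_filter] at hh
          obtain ⟨i', _, _, hi'⟩ := hord h (Finset.mem_filter.1 hh.1).1
          rw [hlog h i' hi'] at hh
          rw [hi', hh.2]
        have e6 : ∀ h ∈ A'.filter (fun h => Nat.log 2 (addOrderOf h) = i),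
            ‖S h‖ ^ 8 ≤ (T.card : ℝ) ^ 8 / 2 ^ (8 * (i / 4)) := by
          intro h hh
          have e7 := h1 h i (by omega) (by omega) (e5 h hh)
          rw [le_div_iff₀ (by positivity)]
          calc ‖S h‖ ^ 8 * 2 ^ (8 * (i / 4)) = (‖S h‖ * 2 ^ (i / 4)) ^ 8 := by
                rw [mul_pow, ← pow_mul, mul_comm (i / 4)]
            _ ≤ (T.card : ℝ) ^ 8 := pow_le_pow_left₀ (by positivity) e7 8
        have e8 : ((A'.filter (fun h => Nat.log 2 (addOrderOf h) = i)).card : ℝ) ≤ 2 ^ i := by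
          exact_mod_cast card_ord R i _ e5
        calc ∑ h ∈ A' with Nat.log 2 (addOrderOf h) = i, ‖S h‖ ^ 8
            ≤ ((A'.filter (fun h => Nat.log 2 (addOrderOf h) = i)).card : ℝ) *
              ((T.card : ℝ) ^ 8 / 2 ^ (8 * (i / 4))) := by
              rw [← nsmul_eq_mul]
              exact Finset.sum_le_card_nsmul _ _ _ e6
          _ ≤ 2 ^ i * ((T.card : ℝ) ^ 8 / 2 ^ (8 * (i / 4))) :=
              mul_le_mul_of_nonneg_right e8 (by positivity)
          _ ≤ (T.card : ℝ) ^ 8 * (64 * (1 / 2 : ℝ) ^ i) := by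
              have e9 : (2 : ℝ) ^ i * 2 ^ i ≤ 64 * 2 ^ (8 * (i / 4)) := by
                have : (2 : ℝ) ^ i * 2 ^ i ≤ 2 ^ 6 * 2 ^ (8 * (i / 4)) := by
                  rw [← pow_add, ← pow_add]
                  exact pow_le_pow_right₀ (by norm_num) (by omega)
                calc (2 : ℝ) ^ i * 2 ^ i ≤ 2 ^ 6 * 2 ^ (8 * (i / 4)) := this
                  _ = 64 * 2 ^ (8 * (i / 4)) := by norm_num
              have e10 : (1 / 2 : ℝ) ^ i = 1 / 2 ^ i := by rw [div_pow, one_pow]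
              rw [e10, mul_div_assoc', mul_one_div, mul_div_assoc', mul_comm ((2 : ℝ) ^ i),
                div_le_div_iff₀ (by positivity) (by positivity)]
              calc (T.card : ℝ) ^ 8 * 2 ^ i * 2 ^ i = (T.card : ℝ) ^ 8 * (2 ^ i * 2 ^ i) := by ring
                _ ≤ (T.card : ℝ) ^ 8 * (64 * 2 ^ (8 * (i / 4))) :=
                    mul_le_mul_of_nonneg_left e9 hTc.le
                _ = (T.card : ℝ) ^ 8 * 64 * 2 ^ (8 * (i / 4)) := by ring
      calc _ ≤ ∑ i ∈ Finset.Ico (b + 1) (R + 1), (T.card : ℝ) ^ 8 * (64 * (1 / 2 : ℝ) ^ i) :=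
            Finset.sum_le_sum e4
        _ = (T.card : ℝ) ^ 8 * (64 * ∑ i ∈ Finset.Ico (b + 1) (R + 1), (1 / 2 : ℝ) ^ i) := by
            rw [Finset.mul_sum, Finset.mul_sum]
        _ ≤ (T.card : ℝ) ^ 8 * (64 * (1 / 2 : ℝ) ^ b) := by
            refine mul_le_mul_of_nonneg_left (mul_le_mul_of_nonneg_left ?_ (by norm_num)) hTc.le
            have := geom_sum_Ico_le_of_lt_one (x := (1 / 2 : ℝ)) (m := b + 1) (n := R + 1)
              (by norm_num) (by norm_num)
            refine this.trans (le_of_eq ?_)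
            rw [pow_succ]
            ring
        _ ≤ (T.card : ℝ) ^ 8 * 1 := by
            refine mul_le_mul_of_nonneg_left ?_ hTc.le
            calc 64 * (1 / 2 : ℝ) ^ b ≤ 64 * (1 / 2 : ℝ) ^ 6 :=
                  mul_le_mul_of_nonneg_left
                    (pow_le_pow_of_le_one (by norm_num) (by norm_num) hb) (by norm_num)
              _ = 1 := by norm_num
        _ = (T.card : ℝ) ^ 8 := mul_one _
    · intro h hh
      rw [hA', Finset.mem_filter] at hh
      obtain ⟨i, hi2, hiR, hi⟩ := hord h hh.1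
      rw [Finset.mem_Ico]
      rw [hlog h i hi] at hh ⊢
      omega
  have hfin : 2 * (T.card : ℝ) ^ 8 ≤ ∑ h ∈ A, ‖S h‖ ^ 8 := by
    have h3 : 2 * (T.card : ℂ) ^ 8 =
        -∑ h ∈ A, S h ^ 8 * (ZMod.stdAddChar (-(h * (y : ZMod (2 ^ R)))) : ℂ) := by
      rw [eq_neg_iff_add_eq_zero]
      rw [← hsum]
      ring
    have h4 : ‖2 * (T.card : ℂ) ^ 8‖ = 2 * (T.card : ℝ) ^ 8 := by
      rw [norm_mul, norm_pow, Complex.norm_natCast]
      norm_num
    rw [← h4, h3, norm_neg]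
    refine (norm_sum_le _ _).trans (Finset.sum_le_sum fun h _ => ?_)
    rw [norm_mul, norm_psi8, mul_one, norm_pow]
  linarith

end HadNT
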