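import Pool.Agent.Lib_MP_008adc_co.DetL
import Pool.Agent.Lib_MP_008adc_co.FLog

/-!
# Piece OGROW: from coverings to Hadamard orders and to the maximal determinant, for any growth
function
-/

set_option autoImplicit false

namespace HadCalc

/-- A growth function on `[1, ∞)`. -/
structure Gr (V : ℝ → ℝ) : Prop where
  le : ∀ x : ℝ, 1 ≤ x → x ≤ V x
  mono : ∀ x y : ℝ, 1 ≤ x → x ≤ y → V x ≤ V y
  scale : ∀ A : ℝ, 1 ≤ A → ∃ B : ℝ, 1 ≤ B ∧ ∀ x : ℝ, 1 ≤ x → V (A * x) ≤ B * V x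

theorem log_ge_of_16 (q : ℕ) (hq : 16 ≤ q) : 4 * Real.log 2 ≤ Real.log q := by
  have h1 : Real.log ((2 : ℝ) ^ 4) ≤ Real.log q := by
    apply Real.log_le_log (by norm_num)
    have h0 : (16 : ℝ) ≤ q := by exact_mod_cast hq
    linarith
  rw [Real.log_pow] at h1
  exact_mod_cast h1

theorem loglog_ge_of_16 (q : ℕ) (hq : 16 ≤ q) : 1 ≤ Real.log (Real.log q) := by
  have h3 := log_ge_of_16 q hq
  have hl2 : (0.6931471803 : ℝ) < Real.log 2 := Real.log_two_gt_d9
  rw [Real.le_log_iff_exp_le (by linarith)]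
  have := Real.exp_one_lt_d9
  linarith

/-- The exponent `e` with `q < 2 ^ (2 ^ e)` and `e ≤ 4 log log q`. -/
theorem exists_e (q : ℕ) (hq : 16 ≤ q) : ∃ e : ℕ, (e : ℝ) ≤ 4 * Real.log (Real.log q) ∧
    q < 2 ^ (2 ^ e) := by
  have hl2 : (0.6931471803 : ℝ) < Real.log 2 := Real.log_two_gt_d9
  have hlogq := log_ge_of_16 q hq
  have hx1 := loglog_ge_of_16 q hq
  have hlogq0 : 0 < Real.log q := by linarith
  obtain ⟨x, hx⟩ : ∃ x : ℝ, x = Real.log (Real.log q) := ⟨_, rfl⟩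
  obtain ⟨L, hL⟩ : ∃ L : ℕ, L = Nat.log 2 q := ⟨_, rfl⟩
  rw [← hx] at hx1 ⊢
  have hL4 : 4 ≤ L := by
    rw [hL]
    exact Nat.le_log_of_pow_le (by norm_num) (by norm_num; exact hq)
  have hLq : (L : ℝ) * Real.log 2 ≤ Real.log q := by
    have h1 : 2 ^ L ≤ q := by
      rw [hL]
      exact Nat.pow_log_le_self 2 (by omega)
    have h2 : ((2 : ℝ) ^ L) ≤ q := by exact_mod_cast h1
    rw [← Real.log_pow]
    exact Real.log_le_log (by positivity) h2
  have hLr : (L : ℝ) ≤ 3 / 2 * Real.log q := by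
    have h3 : (0 : ℝ) ≤ L := Nat.cast_nonneg L
    nlinarith
  have hL0 : (0 : ℝ) < L := by
    have : 0 < L := by omega
    exact_mod_cast this
  have hlogL : Real.log L ≤ x + 1 / 2 := by
    have h1 : Real.log L ≤ Real.log (3 / 2 * Real.log q) := Real.log_le_log hL0 hLr
    rw [Real.log_mul (by norm_num) hlogq0.ne'] at h1
    have h2 : Real.log (3 / 2) ≤ 3 / 2 - 1 := Real.log_le_sub_one_of_pos (by norm_num)
    rw [← hx] at h1
    linarith
  refine ⟨Nat.log 2 L + 1, ?_, ?_⟩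
  · have heL : ((Nat.log 2 L : ℕ) : ℝ) * Real.log 2 ≤ Real.log L := by
      have h1 : 2 ^ (Nat.log 2 L) ≤ L := Nat.pow_log_le_self 2 (by omega)
      have h2 : ((2 : ℝ) ^ (Nat.log 2 L)) ≤ L := by exact_mod_cast h1
      rw [← Real.log_pow]
      exact Real.log_le_log (by positivity) h2
    push_cast
    have h3 : (0 : ℝ) ≤ (Nat.log 2 L : ℕ) := Nat.cast_nonneg _
    nlinarith
  · have h1 : q < 2 ^ (L + 1) := by
      rw [hL]
      exact Nat.lt_pow_succ_log_self (by norm_num) q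
    have h2 : L < 2 ^ (Nat.log 2 L + 1) := Nat.lt_pow_succ_log_self (by norm_num) L
    exact lt_of_lt_of_le h1 (Nat.pow_le_pow_right (by norm_num) h2)

/-- From coverings to Hadamard orders. -/
theorem hadOrder_of {V : ℝ → ℝ} (hV : Gr V) {k : ℕ}
    (h : ∃ C : ℝ, 0 < C ∧ ∀ (e : ℕ) (x : ℝ), 1 ≤ x → (e : ℝ) ≤ x → ∀ c : ℕ,
      C * V x ≤ c → Cov (2 ^ e) k c) :
    ∃ C : ℝ, 0 < C ∧ ∀ q t : ℕ, 16 ≤ q → C * V (Real.log (Real.log q)) ≤ t →
      HadOrder (2 ^ t * q) := by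
  obtain ⟨C, hC, h⟩ := h
  obtain ⟨B, hB, hscale⟩ := hV.scale 4 (by norm_num)
  refine ⟨C * B + k + 2, by positivity, fun q t hq ht => ?_⟩
  have hx1 := loglog_ge_of_16 q hq
  obtain ⟨e, he, hqe⟩ := exists_e q hq
  obtain ⟨x, hx⟩ : ∃ x : ℝ, x = Real.log (Real.log q) := ⟨_, rfl⟩
  rw [← hx] at hx1 he ht
  have hV1 : 1 ≤ V x := hx1.trans (hV.le x hx1)
  have hV4 : 0 ≤ V (4 * x) := by
    have := hV.le (4 * x) (by linarith)
    linarith
  obtain ⟨c, hc⟩ : ∃ c : ℕ, c = ⌈C * V (4 * x)⌉₊ := ⟨_, rfl⟩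
  have h1 := h e (4 * x) (by linarith) he c (by
    rw [hc]
    exact Nat.le_ceil _)
  have hcu : (c : ℝ) ≤ C * B * V x + 1 := by
    have h5 : (c : ℝ) < C * V (4 * x) + 1 := by
      rw [hc]
      exact Nat.ceil_lt_add_one (mul_nonneg hC.le hV4)
    have h6 : C * V (4 * x) ≤ C * (B * V x) := mul_le_mul_of_nonneg_left (hscale x hx1) hC.le
    nlinarith
  have hhad := (h1 q hqe).hadOrder (by omega)
  have h2 : ((k + c + 1 : ℕ) : ℝ) ≤ (t : ℝ) := by
    refine le_trans ?_ ht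
    push_cast
    have hk0 : (0 : ℝ) ≤ k := Nat.cast_nonneg k
    nlinarith
  have h3 : k + c + 1 ≤ t := by exact_mod_cast h2
  have h10 := hhad.two_pow_mul (t - (k + c + 1))
  have h11 : 2 ^ (t - (k + c + 1)) * (2 ^ (k + c) * (2 * q)) = 2 ^ t * q := by
    have h12 : t = (t - (k + c + 1)) + ((k + c) + 1) := by omega
    conv_rhs => rw [h12, pow_add, pow_succ]
    ring
  rwa [h11] at h10

/-- From Hadamard orders to the maximal determinant. -/
theorem rDet_of {V : ℝ → ℝ} (hV : Gr V)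
    (h1 : ∃ C : ℝ, 0 < C ∧ ∀ q t : ℕ, 16 ≤ q → C * V (Real.log (Real.log q)) ≤ t →
      HadOrder (2 ^ t * q)) :
    ∃ C : ℝ, ∀ n : ℕ, 16 ≤ n →
      Real.exp (-Real.exp (C * V (Real.log (Real.log n)))) ≤ rDet n := by
  obtain ⟨C₁, hC₁, h1⟩ := h1
  obtain ⟨C₂, h2⟩ := hadOrder_small
  refine ⟨C₁ + C₂ + 3, fun n hn => ?_⟩
  -- elementary facts on logarithms
  have hl2 : (0.6931471803 : ℝ) < Real.log 2 := Real.log_two_gt_d9
  have hl2' : Real.log 2 < 1 := by
    have := Real.log_two_lt_d9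
    linarith
  have hlog16 := log_ge_of_16
  have hll := loglog_ge_of_16
  have hn0 : (0 : ℝ) < n := by
    have : 0 < n := by omega
    exact_mod_cast this
  have hlogn : 4 * Real.log 2 ≤ Real.log n := hlog16 n hn
  have hlogn0 : 0 < Real.log n := by linarith
  have hx1 := hll n hn
  obtain ⟨x, hx⟩ : ∃ x : ℝ, x = Real.log (Real.log n) := ⟨_, rfl⟩
  rw [← hx] at hx1 ⊢
  have hex : Real.exp x = Real.log n := by
    rw [hx]
    exact Real.exp_log hlogn0
  have hVx : x ≤ V x := hV.le x hx1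
  obtain ⟨t, ht⟩ : ∃ t : ℕ, t = ⌈C₁ * V x⌉₊ + C₂ := ⟨_, rfl⟩
  have hx3 : 0 ≤ C₁ * V x := mul_nonneg hC₁.le (by linarith)
  have htl : C₁ * V x ≤ t := by
    rw [ht]
    push_cast
    have h3 := Nat.le_ceil (C₁ * V x)
    have h4 : (0 : ℝ) ≤ C₂ := Nat.cast_nonneg _
    linarith
  have htu : (t : ℝ) ≤ C₁ * V x + 1 + C₂ := by
    rw [ht]
    push_cast
    have h3 := (Nat.ceil_lt_add_one hx3).le
    linarith
  have ht2 : C₂ ≤ t := by omega
  have h2t : (0 : ℝ) < (2 : ℝ) ^ t := by positivity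
  -- the main estimate
  have hmain : Real.exp (-((2 : ℝ) ^ t * (1 + Real.log n))) ≤ rDet n := by
    rcases Nat.eq_zero_or_pos (n / 2 ^ t) with hq | hq
    · -- `n < 2 ^ t`
      have hnt : n < 2 ^ t := by
        rcases (Nat.div_eq_zero_iff).1 hq with h3 | h3
        · exact absurd h3 (by positivity)
        · exact h3
      have hntR : (n : ℝ) ≤ (2 : ℝ) ^ t := by
        have : (n : ℝ) < ((2 ^ t : ℕ) : ℝ) := by exact_mod_cast hnt
        push_cast at this
        exact this.le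
      unfold rDet
      rw [le_div_iff₀ (Real.rpow_pos_of_pos hn0 _), Real.rpow_def_of_pos hn0, ← Real.exp_add]
      refine le_trans ?_ (one_le_maxDet n)
      rw [Real.exp_le_one_iff]
      have h3 : (n : ℝ) * Real.log n ≤ (2 : ℝ) ^ t * Real.log n :=
        mul_le_mul_of_nonneg_right hntR hlogn0.le
      have h4 : 0 ≤ (n : ℝ) * Real.log n := by positivity
      have h5 : (2 : ℝ) ^ t * (1 + Real.log n) = (2 : ℝ) ^ t + (2 : ℝ) ^ t * Real.log n := by ring
      rw [h5]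
      have h6 : Real.log n * ((n : ℝ) / 2) = (n : ℝ) * Real.log n / 2 := by ring
      rw [h6]
      linarith
    · -- the Hadamard order `2 ^ t q`
      obtain ⟨q, hqdef⟩ : ∃ q : ℕ, q = n / 2 ^ t := ⟨_, rfl⟩
      rw [← hqdef] at hq
      have hqn : q ≤ n := by
        rw [hqdef]
        exact Nat.div_le_self _ _
      have hmn : 2 ^ t * q ≤ n := by
        rw [hqdef]
        exact Nat.mul_div_le n (2 ^ t)
      have hm0 : 0 < 2 ^ t * q := Nat.mul_pos (by positivity) hq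
      have hH : HadOrder (2 ^ t * q) := by
        by_cases hq16 : q < 16
        · exact h2 q t hq hq16 ht2
        · have hq16' : 16 ≤ q := by omega
          refine h1 q t hq16' (le_trans ?_ htl)
          have h3 : 0 < Real.log q := by
            have := hlog16 q hq16'
            linarith
          have hqR : (0 : ℝ) < q := by
            exact_mod_cast hq
          have h4 : Real.log q ≤ Real.log n :=
            Real.log_le_log hqR (by exact_mod_cast hqn)
          have h5 : Real.log (Real.log q) ≤ x := by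
            rw [hx]
            exact Real.log_le_log h3 h4
          exact mul_le_mul_of_nonneg_left (hV.mono _ _ (hll q hq16') h5) hC₁.le
      refine le_trans ?_ (rDet_lower hm0 hmn hH)
      apply Real.exp_le_exp.2
      have h3 : n < 2 ^ t * q + 2 ^ t := by
        have h4 : 2 ^ t * q + n % 2 ^ t = n := by
          rw [hqdef]
          exact Nat.div_add_mod n (2 ^ t)
        have h5 : n % 2 ^ t < 2 ^ t := Nat.mod_lt n (show 0 < 2 ^ t by positivity)
        have h6 : 2 ^ t * q + n % 2 ^ t < 2 ^ t * q + 2 ^ t := Nat.add_lt_add_left h5 _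
        rw [h4] at h6
        exact h6
      have h4 : (n : ℝ) - ((2 ^ t * q : ℕ) : ℝ) ≤ (2 : ℝ) ^ t := by
        have h5 : (n : ℝ) < ((2 ^ t * q + 2 ^ t : ℕ) : ℝ) := by exact_mod_cast h3
        push_cast at h5 ⊢
        linarith
      have h5 : ((n : ℝ) - ((2 ^ t * q : ℕ) : ℝ)) * (1 + Real.log n) ≤
          (2 : ℝ) ^ t * (1 + Real.log n) :=
        mul_le_mul_of_nonneg_right h4 (by linarith)
      rw [neg_mul]
      exact neg_le_neg h5
  -- comparison of the exponents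
  refine le_trans (Real.exp_le_exp.2 (neg_le_neg ?_)) hmain
  have h3 : (2 : ℝ) ^ t = Real.exp (t * Real.log 2) := by
    rw [mul_comm, Real.exp_mul, Real.exp_log (by norm_num)]
    exact (Real.rpow_natCast 2 t).symm
  have h4 : 1 + Real.log n ≤ Real.exp (x + Real.log 2) := by
    rw [Real.exp_add, Real.exp_log (by norm_num : (0 : ℝ) < 2), hex]
    linarith
  have h5 : (2 : ℝ) ^ t * (1 + Real.log n) ≤ Real.exp (t * Real.log 2 + (x + Real.log 2)) := by
    rw [Real.exp_add, ← h3]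
    exact mul_le_mul_of_nonneg_left h4 h2t.le
  refine h5.trans (Real.exp_le_exp.2 ?_)
  have h1x : 1 ≤ V x := hx1.trans hVx
  have hC2 : (0 : ℝ) ≤ C₂ := Nat.cast_nonneg _
  have h6 : (t : ℝ) * Real.log 2 ≤ t := by
    have : (0 : ℝ) ≤ t := Nat.cast_nonneg _
    nlinarith
  have h7 : (C₂ : ℝ) ≤ C₂ * V x := by nlinarith
  nlinarith

end HadCalc
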