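import Pool.Agent.Lib_MP_008adc_co.OIter
import Pool.Agent.Lib_MP_008adc_co.OGrow

/-!
# Piece OFIN: Hadamard orders and the maximal determinant with the growth functions `W k`
-/

set_option autoImplicit false

namespace HadCalc

theorem Gr.W (k : ℕ) : Gr (W k) := ⟨le_W k, W_mono k, W_scale k⟩

/-- HADAMARD ORDERS. -/
theorem hadOrder_W (k : ℕ) : ∃ C : ℝ, 0 < C ∧ ∀ q t : ℕ, 16 ≤ q →
    C * W k (Real.log (Real.log q)) ≤ t → HadOrder (2 ^ t * q) :=
  hadOrder_of (Gr.W k) (iterW k)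

/-- THE LOWER BOUND. -/
theorem rDet_W (k : ℕ) : ∃ C : ℝ, ∀ n : ℕ, 16 ≤ n →
    Real.exp (-Real.exp (C * W k (Real.log (Real.log n)))) ≤ rDet n :=
  rDet_of (Gr.W k) (hadOrder_W k)

end HadCalc
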