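import Pool.Agent.Lib_MP_008adc_co.OGrow
import Pool.Agent.Lib_MP_008adc_oct.OReal

/-!
# The growth functions `x * il k x`
-/

set_option autoImplicit false

namespace HadCalc

theorem il_mono (k : ℕ) : ∀ x y : ℝ, 1 ≤ x → x ≤ y → il k x ≤ il k y := by
  induction k with
  | zero =>
    intro x y _ hxy
    exact hxy
  | succ k ih =>
    intro x y hx hxy
    have h1 : 1 ≤ il k x := one_le_il hx
    exact max_le_max le_rfl (Real.log_le_log (by linarith) (ih x y hx hxy))

theorem il_scale (k : ℕ) : ∀ A : ℝ, 1 ≤ A → ∃ B : ℝ, 1 ≤ B ∧ ∀ x : ℝ, 1 ≤ x →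
    il k (A * x) ≤ B * il k x := by
  induction k with
  | zero =>
    intro A hA
    exact ⟨A, hA, fun x _ => le_rfl⟩
  | succ k ih =>
    intro A hA
    obtain ⟨B, hB, h⟩ := ih A hA
    have hlB : 0 ≤ Real.log B := Real.log_nonneg hB
    refine ⟨1 + Real.log B, by linarith, fun x hx => ?_⟩
    have h1 : 1 ≤ il k x := one_le_il hx
    have h2 : 1 ≤ il k (A * x) := one_le_il (by nlinarith)
    have h3 : Real.log (il k (A * x)) ≤ Real.log B + Real.log (il k x) := by
      rw [← Real.log_mul (by linarith) (by linarith)]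
      exact Real.log_le_log (by linarith) (h x hx)
    have h4 : (1 : ℝ) ≤ max 1 (Real.log (il k x)) := le_max_left _ _
    have h5 : Real.log (il k x) ≤ max 1 (Real.log (il k x)) := le_max_right _ _
    show max 1 (Real.log (il k (A * x))) ≤ (1 + Real.log B) * max 1 (Real.log (il k x))
    exact max_le (by nlinarith) (by nlinarith)

theorem Gr.il (k : ℕ) : Gr (fun x => x * il k x) where
  le x hx := by
    have h1 : 1 ≤ HadCalc.il k x := one_le_il hx
    show x ≤ x * HadCalc.il k x
    nlinarith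
  mono x y hx hxy := by
    have h1 : 1 ≤ HadCalc.il k x := one_le_il hx
    exact mul_le_mul hxy (il_mono k x y hx hxy) (by linarith) (by linarith)
  scale A hA := by
    obtain ⟨B, hB, h⟩ := il_scale k A hA
    refine ⟨A * B, by nlinarith, fun x hx => ?_⟩
    have h3 : 0 ≤ A * x := by nlinarith
    calc A * x * HadCalc.il k (A * x) ≤ A * x * (B * HadCalc.il k x) :=
          mul_le_mul_of_nonneg_left (h x hx) h3
      _ = A * B * (x * HadCalc.il k x) := by ring

/-- The lower bound from the coverings with `e * nl k e`. -/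
theorem rDet_il (k C₀ f₀ : ℕ) (H : ∀ e : ℕ, 1 ≤ e → Cov (2 ^ e) f₀ (C₀ * (e * nl k e))) :
    ∃ C : ℝ, ∀ n : ℕ, 16 ≤ n →
      Real.exp (-Real.exp (C * (Real.log (Real.log n) * HadCalc.il k (Real.log (Real.log n))))) ≤
        rDet n :=
  rDet_of (Gr.il k) (had_real_nl k C₀ f₀ H)

end HadCalc
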