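import Pool.Agent.Lib_MP_008adc_co.OChain

/-!
# Piece OITER: base with binary digits, iteration of the step, iterated logarithms
-/

set_option autoImplicit false

namespace HadCalc

/-! ## Base -/

theorem Av12_odd (n : ℕ) : Av 1 2 (2 ^ (2 * n + 1)) := by
  have h2 : Av 1 2 2 := by
    have h := Av.sum_list (f := 0) [((0, 1) : ℕ × ℕ)] (by
      intro x hx
      rw [List.mem_singleton.1 hx]
      exact Av.base)
    simpa using h
  have h3 := Av.prod_list (f := 1) (c := 2) (List.replicate (n + 1) 2) (by simp) (by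
    intro x hx
    rw [List.eq_of_mem_replicate hx]
    exact h2)
  rw [List.length_replicate, List.prod_replicate, ← pow_add] at h3
  have e1 : 1 * (n + 1 - 1) + (n + 1) = 2 * n + 1 := by omega
  rwa [e1] at h3

theorem SL12 (a : ℕ) : SL 1 2 2 (2 ^ a) := by
  rcases Nat.eq_zero_or_pos a with h0 | h0
  · subst h0
    exact (SL.one (Av.base.mono (Nat.zero_le _) (Nat.zero_le _))).mono (by norm_num)
  · rcases Nat.even_or_odd' a with ⟨n, hn | hn⟩
    · have h1 := Av12_odd (n - 1)
      have e1 : 2 * (n - 1) + 1 = a - 1 := by omega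
      rw [e1] at h1
      have e2 : 2 ^ a = 2 ^ (a - 1) + 2 ^ (a - 1) := by
        rw [← two_mul, ← pow_succ']
        congr 1
        omega
      rw [e2]
      exact (SL.one h1).add (SL.one h1)
    · rw [hn]
      exact (SL.one (Av12_odd n)).mono (by norm_num)

theorem SL_bin (a : ℕ) : ∀ q < 2 ^ a, SL 1 2 (2 * a) q := by
  induction a with
  | zero =>
    intro q hq
    have : q = 0 := by simpa using hq
    subst this
    exact ⟨[], by simp, by simp, by simp⟩
  | succ a ih =>
    intro q hq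
    have h1 := ih (q % 2 ^ a) (Nat.mod_lt _ (by positivity))
    have h2 : q / 2 ^ a < 2 := by
      rw [Nat.div_lt_iff_lt_mul (by positivity), ← pow_succ']
      exact hq
    have h3 : 2 ^ a * (q / 2 ^ a) + q % 2 ^ a = q := Nat.div_add_mod _ _
    rcases Nat.lt_or_ge (q / 2 ^ a) 1 with h4 | h4
    · have h5 : q / 2 ^ a = 0 := Nat.lt_one_iff.1 h4
      rw [h5, mul_zero, zero_add] at h3
      rw [h3] at h1
      exact h1.mono (by omega)
    · have h5 : q / 2 ^ a = 1 := le_antisymm (Nat.le_of_lt_succ h2) h4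
      rw [h5, mul_one] at h3
      have h6 := (SL12 a).add h1
      rw [h3] at h6
      exact h6.mono (by omega)

/-- BASE: binary digits. -/
theorem Cov.base2 (a : ℕ) : Cov a 2 (10 * a) := by
  intro q hq
  have h := (SL_bin a q hq).av
  have e1 : 2 * a * (2 + 1 + 2) = 10 * a := by ring
  rwa [e1] at h

theorem Cov.monoA {a a' f c c' : ℕ} (h : Cov a f c) (ha : a' ≤ a) (hc : c ≤ c') : Cov a' f c' :=
  fun q hq => (h q (lt_of_lt_of_le hq (Nat.pow_le_pow_right (by norm_num) ha))).mono le_rfl hc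

/-! ## Iterated logarithms -/

/-- `W 0 x = x ^ 2` and `W (k + 1) x = x * W k (max 1 (log x))`: the product
`x l(x) l(l(x)) ⋯ (l^k(x)) ^ 2` with `l(x) = max 1 (log x)`. -/
noncomputable def W : ℕ → ℝ → ℝ
  | 0, x => x ^ 2
  | k + 1, x => x * W k (max 1 (Real.log x))

theorem W_zero (x : ℝ) : W 0 x = x ^ 2 := rfl

theorem W_succ (k : ℕ) (x : ℝ) : W (k + 1) x = x * W k (max 1 (Real.log x)) := rfl

theorem W_one_le (k : ℕ) : ∀ x : ℝ, 1 ≤ x → 1 ≤ W k x := by
  induction k with
  | zero =>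
    intro x hx
    rw [W_zero]
    nlinarith
  | succ k ih =>
    intro x hx
    rw [W_succ]
    have h1 := ih _ (le_max_left 1 (Real.log x))
    nlinarith

theorem le_W (k : ℕ) (x : ℝ) (hx : 1 ≤ x) : x ≤ W k x := by
  cases k with
  | zero =>
    rw [W_zero]
    nlinarith
  | succ k =>
    rw [W_succ]
    have h1 := W_one_le k _ (le_max_left 1 (Real.log x))
    nlinarith

theorem W_mono (k : ℕ) : ∀ x y : ℝ, 1 ≤ x → x ≤ y → W k x ≤ W k y := by
  induction k with
  | zero =>
    intro x y hx hxy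
    rw [W_zero, W_zero]
    nlinarith
  | succ k ih =>
    intro x y hx hxy
    rw [W_succ, W_succ]
    have h1 : max 1 (Real.log x) ≤ max 1 (Real.log y) :=
      max_le_max le_rfl (Real.log_le_log (by linarith) hxy)
    have h2 := ih _ _ (le_max_left 1 (Real.log x)) h1
    have h3 := W_one_le k _ (le_max_left 1 (Real.log x))
    exact mul_le_mul hxy h2 (by linarith) (by linarith)

theorem W_scale (k : ℕ) : ∀ A : ℝ, 1 ≤ A → ∃ B : ℝ, 1 ≤ B ∧ ∀ x : ℝ, 1 ≤ x →
    W k (A * x) ≤ B * W k x := by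
  induction k with
  | zero =>
    intro A hA
    refine ⟨A ^ 2, by nlinarith, fun x _ => ?_⟩
    rw [W_zero, W_zero, mul_pow]
  | succ k ih =>
    intro A hA
    have hlA : 0 ≤ Real.log A := Real.log_nonneg hA
    obtain ⟨B, hB, h⟩ := ih (1 + Real.log A) (by linarith)
    refine ⟨A * B, by nlinarith, fun x hx => ?_⟩
    rw [W_succ, W_succ]
    have hlx : 0 ≤ Real.log x := Real.log_nonneg hx
    set y := max 1 (Real.log x) with hy
    have hy1 : 1 ≤ y := le_max_left _ _
    have hy2 : Real.log x ≤ y := le_max_right _ _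
    have h1 : max 1 (Real.log (A * x)) ≤ (1 + Real.log A) * y := by
      rw [Real.log_mul (by linarith) (by linarith)]
      refine max_le (by nlinarith) (by nlinarith)
    have h2 := (W_mono k _ _ (le_max_left 1 (Real.log (A * x))) h1).trans (h y hy1)
    have h3 : 0 ≤ A * x := by positivity
    calc A * x * W k (max 1 (Real.log (A * x))) ≤ A * x * (B * W k y) :=
          mul_le_mul_of_nonneg_left h2 h3
      _ = A * B * (x * W k y) := by ring

/-! ## Iteration -/

theorem iterW (k : ℕ) : ∃ C : ℝ, 0 < C ∧ ∀ (e : ℕ) (x : ℝ), 1 ≤ x → (e : ℝ) ≤ x → ∀ c : ℕ,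
    C * W k x ≤ c → Cov (2 ^ e) (k + 3) c := by
  induction k with
  | zero =>
    refine ⟨376656, by norm_num, fun e x hx he c hc => ?_⟩
    have h1 := (Cov.base2 (64 * e + 16 * 2 + 352)).step2
    refine h1.monoA le_rfl ?_
    have h2 : (((81 * e + 3) * (10 * (64 * e + 16 * 2 + 352) + 2 + 2) : ℕ) : ℝ) ≤ (c : ℝ) := by
      refine le_trans ?_ hc
      push_cast
      rw [W_zero]
      have h3 : (0 : ℝ) ≤ e := Nat.cast_nonneg e
      have h4 : (81 * (e : ℝ) + 3) ≤ 84 * x := by linarith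
      have h5 : (10 * (64 * (e : ℝ) + 32 + 352) + 2 + 2) ≤ 4484 * x := by linarith
      calc (81 * (e : ℝ) + 3) * (10 * (64 * (e : ℝ) + 32 + 352) + 2 + 2)
          ≤ (84 * x) * (4484 * x) := mul_le_mul h4 h5 (by positivity) (by positivity)
        _ = 376656 * x ^ 2 := by ring
    exact_mod_cast h2
  | succ k ih =>
    obtain ⟨C, hC, ih⟩ := ih
    -- the constants
    obtain ⟨D, hD⟩ : ∃ D : ℝ, D = 64 + (16 * (k + 3) + 352) := ⟨_, rfl⟩
    have hk0 : (0 : ℝ) ≤ k := Nat.cast_nonneg k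
    have hD1 : 1 ≤ D := by
      rw [hD]
      linarith
    have hlD : 0 ≤ Real.log D := Real.log_nonneg hD1
    obtain ⟨A, hA⟩ : ∃ A : ℝ, A = 3 / 2 * (Real.log D + 1) + 1 := ⟨_, rfl⟩
    have hA1 : 1 ≤ A := by
      rw [hA]
      linarith
    obtain ⟨B, hB, hscale⟩ := W_scale k A hA1
    refine ⟨84 * (C * B + k + 6), by positivity, fun e x hx he c hc => ?_⟩
    obtain ⟨y, hy⟩ : ∃ y : ℝ, y = max 1 (Real.log x) := ⟨_, rfl⟩
    have hy1 : 1 ≤ y := by rw [hy]; exact le_max_left _ _
    have hy2 : Real.log x ≤ y := by rw [hy]; exact le_max_right _ _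
    obtain ⟨N, hN⟩ : ∃ N : ℕ, N = 64 * e + 16 * (k + 3) + 352 := ⟨_, rfl⟩
    have hN0 : N ≠ 0 := by omega
    have hNx : (N : ℝ) ≤ D * x := by
      rw [hN, hD]
      push_cast
      nlinarith
    have hNpos : (0 : ℝ) < N := by
      have : 0 < N := by omega
      exact_mod_cast this
    have hlogN : Real.log N ≤ (Real.log D + 1) * y := by
      have h1 : Real.log N ≤ Real.log (D * x) := Real.log_le_log hNpos hNx
      rw [Real.log_mul (by linarith) (by linarith)] at h1
      nlinarith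
    have he1 : ((Nat.log 2 N + 1 : ℕ) : ℝ) ≤ A * y := by
      have h1 : 2 ^ (Nat.log 2 N) ≤ N := Nat.pow_log_le_self 2 hN0
      have h2 : ((2 : ℝ) ^ (Nat.log 2 N)) ≤ N := by exact_mod_cast h1
      have h3 : ((Nat.log 2 N : ℕ) : ℝ) * Real.log 2 ≤ Real.log N := by
        rw [← Real.log_pow]
        exact Real.log_le_log (by positivity) h2
      have hl2 : (0.6931471803 : ℝ) < Real.log 2 := Real.log_two_gt_d9
      have h4 : (0 : ℝ) ≤ (Nat.log 2 N : ℕ) := Nat.cast_nonneg _
      have h5 : ((Nat.log 2 N : ℕ) : ℝ) ≤ 3 / 2 * ((Real.log D + 1) * y) := by nlinarith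
      push_cast
      rw [hA]
      nlinarith
    have hAy : 1 ≤ A * y := by nlinarith
    obtain ⟨c1, hc1⟩ : ∃ c1 : ℕ, c1 = ⌈C * W k (A * y)⌉₊ := ⟨_, rfl⟩
    have h1 := ih (Nat.log 2 N + 1) (A * y) hAy he1 c1 (by
      rw [hc1]
      exact Nat.le_ceil _)
    have h2 : N ≤ 2 ^ (Nat.log 2 N + 1) := (Nat.lt_pow_succ_log_self (by norm_num) N).le
    have h2' : Cov (64 * e + 16 * (k + 3) + 352) (k + 3) c1 := by
      rw [← hN]
      exact h1.monoA h2 le_rfl
    have h3 := h2'.step2
    refine h3.monoA le_rfl ?_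
    have hW1 := W_one_le k y hy1
    have hW2 := W_one_le k (A * y) hAy
    have h4 : (c1 : ℝ) ≤ C * B * W k y + 1 := by
      have h5 : (c1 : ℝ) < C * W k (A * y) + 1 := by
        rw [hc1]
        exact Nat.ceil_lt_add_one (by positivity)
      have h6 : C * W k (A * y) ≤ C * (B * W k y) := mul_le_mul_of_nonneg_left (hscale y hy1) hC.le
      nlinarith
    have h5 : (((81 * e + 3) * (c1 + (k + 3) + 2) : ℕ) : ℝ) ≤ (c : ℝ) := by
      refine le_trans ?_ hc
      push_cast
      rw [W_succ, ← hy]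
      have h6 : (0 : ℝ) ≤ e := Nat.cast_nonneg e
      have h7 : (81 * (e : ℝ) + 3) ≤ 84 * x := by linarith
      have h8 : ((c1 : ℝ) + (k + 3) + 2) ≤ (C * B + k + 6) * W k y := by nlinarith
      calc (81 * (e : ℝ) + 3) * ((c1 : ℝ) + (k + 3) + 2)
          ≤ (84 * x) * ((C * B + k + 6) * W k y) :=
            mul_le_mul h7 h8 (by positivity) (by positivity)
        _ = 84 * (C * B + k + 6) * (x * W k y) := by ring
    exact_mod_cast h5

end HadCalc
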