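import Pool.Agent.Lib_MP_008adc_co.OEight
import Pool.Agent.Lib_MP_008adc_co.NBil
import Pool.Agent.Lib_MP_008adc_co.NCond

/-!
# Piece OLEV: the families of products of odd numbers and their exponential sums
-/

set_option autoImplicit false

namespace HadNT

/-- `v` is a product of `n` numbers in `[1, B]` -/
def OB (B n v : ℕ) : Prop := ∃ x : Fin n → ℕ, (∀ j, 1 ≤ x j ∧ x j ≤ B) ∧ v = ∏ j, x j

theorem OB.mul {B m n u v : ℕ} (hu : OB B m u) (hv : OB B n v) : OB B (m + n) (u * v) := by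
  obtain ⟨x, hx, rfl⟩ := hu
  obtain ⟨y, hy, rfl⟩ := hv
  refine ⟨Fin.append x y, fun j => ?_, ?_⟩
  · refine Fin.addCases (fun i => ?_) (fun i => ?_) j
    · rw [Fin.append_left]
      exact hx i
    · rw [Fin.append_right]
      exact hy i
  · rw [Fin.prod_univ_add]
    simp only [Fin.append_left, Fin.append_right]

theorem OB.le {B n v : ℕ} (h : OB B n v) : v ≤ B ^ n := by
  obtain ⟨x, hx, rfl⟩ := h
  have := Finset.prod_le_pow_card (Finset.univ : Finset (Fin n)) x B (fun j _ => (hx j).2)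
  rwa [Finset.card_univ, Fintype.card_fin] at this

/-- The products of `k` distinct odd primes `≤ A`. -/
def OPU (A k : ℕ) : Finset ℕ :=
  (Finset.powersetCard k ((Finset.range (A + 1)).filter (fun p => p.Prime ∧ p ≠ 2))).image
    (fun s => ∏ p ∈ s, p)

private theorem OPU_mem {A k u : ℕ} (hu : u ∈ OPU A k) :
    ∃ s : Finset ℕ, (∀ p ∈ s, (p.Prime ∧ p ≠ 2) ∧ p ≤ A) ∧ s.card = k ∧ u = ∏ p ∈ s, p := by
  unfold OPU at hu
  obtain ⟨s, hs, rfl⟩ := Finset.mem_image.1 hu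
  obtain ⟨h1, h2⟩ := Finset.mem_powersetCard.1 hs
  refine ⟨s, fun p hp => ?_, h2, rfl⟩
  have h3 := Finset.mem_filter.1 (h1 hp)
  exact ⟨h3.2, Nat.lt_succ_iff.1 (Finset.mem_range.1 h3.1)⟩

theorem OPU_card (A k : ℕ) (hA : 2 ≤ A) : (OPU A k).card = (Nat.primeCounting A - 1).choose k := by
  unfold OPU
  have h0 : (Finset.range (A + 1)).filter (fun p => p.Prime ∧ p ≠ 2) =
      ((Finset.range (A + 1)).filter Nat.Prime).erase 2 := by
    ext p
    simp only [Finset.mem_filter, Finset.mem_erase]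
    tauto
  rw [Finset.card_image_of_injOn, Finset.card_powersetCard, h0, Finset.card_erase_of_mem,
    Nat.primeCounting, Nat.primeCounting', Nat.count_eq_card_filter_range]
  · rw [Finset.mem_filter, Finset.mem_range]
    exact ⟨by omega, Nat.prime_two⟩
  intro s hs s' hs' h
  have hp : ∀ t ∈ (Finset.powersetCard k ((Finset.range (A + 1)).filter
      (fun p => p.Prime ∧ p ≠ 2)) : Set (Finset ℕ)), ∀ p ∈ t, p.Prime := by
    intro t ht p hpt
    have h1 := (Finset.mem_powersetCard.1 (Finset.mem_coe.1 ht)).1 hpt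
    exact (Finset.mem_filter.1 h1).2.1
  have h' : ∏ p ∈ s, p = ∏ p ∈ s', p := h
  rw [← Nat.primeFactors_prod (hp s hs), h', Nat.primeFactors_prod (hp s' hs')]

theorem OPU_odd {A k u : ℕ} (hu : u ∈ OPU A k) : u % 2 = 1 := by
  obtain ⟨s, hs, _, rfl⟩ := OPU_mem hu
  rw [← Nat.odd_iff]
  refine Finset.prod_induction _ Odd (fun a b ha hb => ha.mul hb) odd_one fun p hp => ?_
  exact (hs p hp).1.1.odd_of_ne_two (hs p hp).1.2

theorem OPU_OB {A k u : ℕ} (hu : u ∈ OPU A k) : OB A k u := by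
  obtain ⟨s, hs, hk, rfl⟩ := OPU_mem hu
  refine ⟨fun j => ((s.equivFinOfCardEq hk).symm j : ℕ), fun j => ?_, ?_⟩
  · have h := hs _ ((s.equivFinOfCardEq hk).symm j).2
    exact ⟨h.1.1.pos, h.2⟩
  · rw [← Finset.prod_coe_sort s (fun p => p)]
    exact (Equiv.prod_comp (s.equivFinOfCardEq hk).symm (fun p : s => (p : ℕ))).symm

/-- the density of the products of `k` distinct odd primes `≤ 2 ^ b` -/
theorem OPU_dense (b k l : ℕ) (hk : 1 ≤ k) (h1 : 4 * b * k ≤ 2 ^ l) (h2 : 8 * l + 8 ≤ b) :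
    2 ^ (b * k) ≤ (OPU (2 ^ b) k).card * 2 ^ (l * k) := by
  set π := Nat.primeCounting (2 ^ b) with hπ
  have hb : 1 ≤ b := by omega
  have hP : 2 ^ b ≤ 2 * b * π := pi_two_pow b hb
  have hlb : l ≤ b := by omega
  have h2b : 2 ≤ 2 ^ b := by
    calc 2 = 2 ^ 1 := by norm_num
      _ ≤ 2 ^ b := Nat.pow_le_pow_right (by norm_num) hb
  -- `2 ≤ π`
  have h3 : 4 * b * k ≤ 2 * b * π := h1.trans ((Nat.pow_le_pow_right (by norm_num) hlb).trans hP)
  have h4 : 2 * k ≤ π := by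
    have : 2 * b * (2 * k) ≤ 2 * b * π := by
      calc 2 * b * (2 * k) = 4 * b * k := by ring
        _ ≤ 2 * b * π := h3
    exact Nat.le_of_mul_le_mul_left this (by omega)
  have h5 : π ≤ 2 * (π - 1) := by omega
  have h6 : 2 ^ b ≤ 4 * b * (π - 1) := by
    calc 2 ^ b ≤ 2 * b * π := hP
      _ ≤ 2 * b * (2 * (π - 1)) := Nat.mul_le_mul_left _ h5
      _ = 4 * b * (π - 1) := by ring
  have hkπ : k ≤ π - 1 := by omega
  rw [OPU_card _ _ h2b, ← hπ]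
  calc 2 ^ (b * k) = (2 ^ b) ^ k := by rw [pow_mul]
    _ ≤ (4 * b * (π - 1)) ^ k := Nat.pow_le_pow_left h6 k
    _ = (4 * b) ^ k * (π - 1) ^ k := mul_pow _ _ _
    _ ≤ (4 * b) ^ k * (k ^ k * (π - 1).choose k) :=
        Nat.mul_le_mul_left _ (pow_le_pow_mul_choose (π - 1) k hkπ)
    _ = (4 * b * k) ^ k * (π - 1).choose k := by rw [mul_pow (4 * b) k k]; ring
    _ ≤ (2 ^ l) ^ k * (π - 1).choose k := Nat.mul_le_mul_right _ (Nat.pow_le_pow_left h1 k)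
    _ = (π - 1).choose k * 2 ^ (l * k) := by rw [← pow_mul, mul_comm]

/-- multiplication by an odd number keeps the order modulo a power of two -/
theorem ord_mul_odd (R : ℕ) (h : ZMod (2 ^ R)) (m : ℕ) (hm : m % 2 = 1) :
    addOrderOf (h * (m : ZMod (2 ^ R))) = addOrderOf h := by
  have hu : IsUnit (m : ZMod (2 ^ R)) := by
    rw [ZMod.isUnit_iff_coprime]
    exact Nat.Coprime.pow_right _ (Nat.coprime_two_right.2 (Nat.odd_iff.2 hm))
  exact addOrderOf_injective (AddMonoidHom.mulRight (m : ZMod (2 ^ R)))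
    (fun a b hab => hu.mul_right_cancel hab) h

/-- ONE LEVEL. -/
theorem level (b k l R i : ℕ) (hk : 1 ≤ k) (hl : 8 * l + 8 ≤ b) (U : Finset ℕ)
    (hU : ∀ u ∈ U, 1 ≤ u ∧ u ≤ 2 ^ (b * k)) (hd : 2 ^ (b * k) ≤ U.card * 2 ^ (l * k))
    (h : ZMod (2 ^ R)) (hi1 : b * k < 2 * i) (hi2 : i ≤ b * k) (hh : addOrderOf h = 2 ^ i) :
    ‖Sg (2 ^ R) (U ×ˢ U) (fun x => ((x.1 * x.2 : ℕ) : ZMod (2 ^ R))) h‖ * 2 ^ (i / 4) ≤
      (U.card : ℝ) * U.card := by
  have h1 := bil (2 ^ R) h U U (2 ^ (b * k)) hU hU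
  rw [hh] at h1
  set N := ‖Sg (2 ^ R) (U ×ˢ U) (fun x => ((x.1 * x.2 : ℕ) : ZMod (2 ^ R))) h‖ with hN
  have h2 : 2 ^ (b * k) / 2 ^ i + 1 ≤ 2 * 2 ^ (b * k - i) := by
    rw [Nat.pow_div hi2 (by norm_num)]
    have : 1 ≤ 2 ^ (b * k - i) := Nat.one_le_two_pow
    omega
  have h3 : N ^ 2 ≤ (U.card : ℝ) * U.card * 2 ^ i * (2 * 2 ^ (b * k - i)) ^ 2 := by
    refine h1.trans ?_
    push_cast
    refine mul_le_mul_of_nonneg_left ?_ (by positivity)
    refine pow_le_pow_left₀ (by positivity) ?_ 2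
    exact_mod_cast h2
  have h4 : (2 : ℝ) ^ (b * k) ≤ (U.card : ℝ) * 2 ^ (l * k) := by exact_mod_cast hd
  have h5 : 2 + 2 * (l * k) + 2 * (i / 4) ≤ i := by
    have e1 : 8 * (l * k) + 8 * k ≤ b * k := by nlinarith
    omega
  have h6 : (N * 2 ^ (i / 4)) ^ 2 ≤ ((U.card : ℝ) * U.card) ^ 2 := by
    have e2 : (2 : ℝ) ^ i * (2 * 2 ^ (b * k - i)) ^ 2 * (2 ^ (i / 4)) ^ 2 * 2 ^ (2 * (l * k)) ≤
        (2 ^ (b * k)) ^ 2 := by
      have e3 : (2 : ℝ) ^ i * (2 * 2 ^ (b * k - i)) ^ 2 * (2 ^ (i / 4)) ^ 2 * 2 ^ (2 * (l * k)) =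
          2 ^ (i + (1 + (b * k - i)) * 2 + (i / 4) * 2 + 2 * (l * k)) := by
        generalize b * k - i = A
        generalize i / 4 = c
        generalize l * k = L
        ring
      rw [e3, ← pow_mul]
      exact pow_le_pow_right₀ (by norm_num) (by omega)
    have e4 : (2 : ℝ) ^ i * (2 * 2 ^ (b * k - i)) ^ 2 * (2 ^ (i / 4)) ^ 2 ≤
        (U.card : ℝ) * U.card := by
      have e5 : (2 : ℝ) ^ i * (2 * 2 ^ (b * k - i)) ^ 2 * (2 ^ (i / 4)) ^ 2 * 2 ^ (2 * (l * k)) ≤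
          (U.card : ℝ) * U.card * 2 ^ (2 * (l * k)) := by
        refine e2.trans ((pow_le_pow_left₀ (by positivity) h4 2).trans (le_of_eq ?_))
        rw [mul_pow, ← pow_mul, mul_comm (l * k) 2]
        ring
      exact le_of_mul_le_mul_right e5 (by positivity)
    calc (N * 2 ^ (i / 4)) ^ 2 = N ^ 2 * (2 ^ (i / 4)) ^ 2 := mul_pow _ _ _
      _ ≤ ((U.card : ℝ) * U.card * 2 ^ i * (2 * 2 ^ (b * k - i)) ^ 2) * (2 ^ (i / 4)) ^ 2 :=
          mul_le_mul_of_nonneg_right h3 (by positivity)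
      _ = ((U.card : ℝ) * U.card) * (2 ^ i * (2 * 2 ^ (b * k - i)) ^ 2 * (2 ^ (i / 4)) ^ 2) := by
          ring
      _ ≤ ((U.card : ℝ) * U.card) * ((U.card : ℝ) * U.card) :=
          mul_le_mul_of_nonneg_left e4 (by positivity)
      _ = ((U.card : ℝ) * U.card) ^ 2 := by ring
  exact le_of_sq_le_sq h6 (by positivity)

/-- The property of the family at level `J`. -/
def Lev (b J : ℕ) : Prop :=
  ∃ (τ : Type) (T : Finset τ) (g : τ → ℕ), T.Nonempty ∧ (∀ t ∈ T, g t % 2 = 1) ∧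
    (∀ t ∈ T, OB (2 ^ b) (4 * 2 ^ J - 3) (g t)) ∧
    (∀ R, ∀ h : ZMod (2 ^ R), ∀ i, 2 ≤ i → i ≤ b → addOrderOf h = 2 ^ i →
      Sg (2 ^ R) T (fun t => (g t : ZMod (2 ^ R))) h = 0) ∧
    (∀ R, ∀ h : ZMod (2 ^ R), ∀ i, b < i → i ≤ b * 2 ^ J → addOrderOf h = 2 ^ i →
      ‖Sg (2 ^ R) T (fun t => (g t : ZMod (2 ^ R))) h‖ * 2 ^ (i / 4) ≤ T.card)

/-- the sum over all odd numbers below `2 ^ b` -/
theorem Lev.zero (b : ℕ) (hb : 1 ≤ b) : Lev b 0 := by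
  refine ⟨ℕ, Finset.range (2 ^ (b - 1)), fun y => 2 * y + 1, ⟨0, Finset.mem_range.2 (by positivity)⟩,
    fun t _ => by
      show (2 * t + 1) % 2 = 1
      omega, fun t ht => ?_, fun R h i hi1 hi2 hh => ?_, fun R h i hi1 hi2 _ => ?_⟩
  · rw [Finset.mem_range] at ht
    have e1 : 2 ^ b = 2 ^ (b - 1) * 2 := by
      rw [← pow_succ]
      congr 1
      omega
    refine ⟨fun _ => 2 * t + 1, fun _ => ?_, ?_⟩
    · show 1 ≤ 2 * t + 1 ∧ 2 * t + 1 ≤ 2 ^ b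
      omega
    rw [Finset.prod_const, Finset.card_univ, Fintype.card_fin]
    norm_num
  · have h1 : ∀ y ∈ Finset.range (2 ^ (b - 1)),
        (ZMod.stdAddChar (h * ((2 * y + 1 : ℕ) : ZMod (2 ^ R))) : ℂ) =
          (ZMod.stdAddChar h : ℂ) * (ZMod.stdAddChar (2 • h) : ℂ) ^ y := by
      intro y _
      rw [← AddChar.map_nsmul_eq_pow, ← AddChar.map_add_eq_mul]
      congr 1
      rw [nsmul_eq_mul, nsmul_eq_mul]
      push_cast
      ring
    have h2 : (ZMod.stdAddChar (2 • h) : ℂ) ≠ 1 := by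
      intro h3
      have h4 : 2 • h = 0 := by
        apply ZMod.injective_stdAddChar
        rw [AddChar.map_zero_eq_one]
        exact h3
      have h5 := addOrderOf_dvd_iff_nsmul_eq_zero.2 h4
      rw [hh] at h5
      have h6 := Nat.le_of_dvd (by norm_num) h5
      have h7 : 2 ^ 2 ≤ 2 ^ i := Nat.pow_le_pow_right (by norm_num) hi1
      omega
    have h3 : (ZMod.stdAddChar (2 • h) : ℂ) ^ 2 ^ (b - 1) = 1 := by
      rw [← AddChar.map_nsmul_eq_pow, smul_smul, ← pow_succ, Nat.sub_add_cancel hb]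
      have h4 : 2 ^ b • h = 0 := by
        apply addOrderOf_dvd_iff_nsmul_eq_zero.1
        rw [hh]
        exact pow_dvd_pow 2 hi2
      rw [h4, AddChar.map_zero_eq_one]
    unfold Sg
    rw [Finset.sum_congr rfl h1, ← Finset.mul_sum, geom_sum_eq h2, h3, sub_self, zero_div, mul_zero]
  · rw [pow_zero, mul_one] at hi2
    omega

theorem Lev.succ {b J l : ℕ} (hL : Lev b J) (hl : 8 * l + 8 ≤ b) (hJ : 4 * b * 2 ^ (J + 1) ≤ 2 ^ l) :
    Lev b (J + 1) := by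
  classical
  obtain ⟨τ, T, g, hT, hodd, hOB, hz, hn⟩ := hL
  set k := 2 ^ (J + 1) with hk
  have hk1 : 1 ≤ k := Nat.one_le_two_pow
  set U := OPU (2 ^ b) k with hU
  have hUd := OPU_dense b k l hk1 hJ hl
  rw [← hU] at hUd
  have hUne : U.Nonempty := by
    rw [← Finset.card_pos]
    by_contra h0
    have h1 : U.card = 0 := by omega
    rw [h1, zero_mul] at hUd
    have : 0 < 2 ^ (b * k) := by positivity
    omega
  have hUb : ∀ u ∈ U, 1 ≤ u ∧ u ≤ 2 ^ (b * k) := by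
    intro u hu
    refine ⟨?_, ?_⟩
    · have := OPU_odd hu
      omega
    · have := (OPU_OB hu).le
      rwa [← pow_mul] at this
  have hUU : ∀ x ∈ U ×ˢ U, (x.1 * x.2) % 2 = 1 := by
    intro x hx
    rw [Finset.mem_product] at hx
    rw [Nat.mul_mod, OPU_odd hx.1, OPU_odd hx.2]
  -- the two ways to write the sum
  have hw1 : ∀ R, ∀ h : ZMod (2 ^ R),
      Sg (2 ^ R) (T ×ˢ (U ×ˢ U)) (fun t => ((g t.1 * (t.2.1 * t.2.2) : ℕ) : ZMod (2 ^ R))) h =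
      ∑ x ∈ U ×ˢ U, Sg (2 ^ R) T (fun t => (g t : ZMod (2 ^ R)))
        (h * ((x.1 * x.2 : ℕ) : ZMod (2 ^ R))) := by
    intro R h
    unfold Sg
    rw [Finset.sum_product, Finset.sum_comm]
    refine Finset.sum_congr rfl fun x _ => Finset.sum_congr rfl fun t _ => ?_
    congr 1
    push_cast
    ring
  have hw2 : ∀ R, ∀ h : ZMod (2 ^ R),
      Sg (2 ^ R) (T ×ˢ (U ×ˢ U)) (fun t => ((g t.1 * (t.2.1 * t.2.2) : ℕ) : ZMod (2 ^ R))) h =
      ∑ t ∈ T, Sg (2 ^ R) (U ×ˢ U) (fun x => ((x.1 * x.2 : ℕ) : ZMod (2 ^ R)))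
        (h * (g t : ZMod (2 ^ R))) := by
    intro R h
    unfold Sg
    rw [Finset.sum_product]
    refine Finset.sum_congr rfl fun t _ => Finset.sum_congr rfl fun x _ => ?_
    congr 1
    push_cast
    ring
  refine ⟨τ × (ℕ × ℕ), T ×ˢ (U ×ˢ U), fun t => g t.1 * (t.2.1 * t.2.2),
    hT.product (hUne.product hUne), fun t ht => ?_, fun t ht => ?_, fun R h i hi1 hi2 hh => ?_,
    fun R h i hi1 hi2 hh => ?_⟩
  · rw [Finset.mem_product] at ht
    show (g t.1 * (t.2.1 * t.2.2)) % 2 = 1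
    rw [Nat.mul_mod, hodd _ ht.1, hUU _ ht.2]
  · rw [Finset.mem_product] at ht
    have ht2 := Finset.mem_product.1 ht.2
    have h1 := (hOB _ ht.1).mul ((OPU_OB ht2.1).mul (OPU_OB ht2.2))
    have e1 : 4 * 2 ^ J - 3 + (k + k) = 4 * 2 ^ (J + 1) - 3 := by
      rw [hk, pow_succ]
      have : 1 ≤ 2 ^ J := Nat.one_le_two_pow
      omega
    rw [e1] at h1
    exact h1
  · rw [hw1]
    refine Finset.sum_eq_zero fun x hx => ?_
    exact hz R _ i hi1 hi2 (by rw [ord_mul_odd R h _ (hUU x hx), hh])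
  · rw [Finset.card_product, Finset.card_product, Nat.cast_mul, Nat.cast_mul]
    rcases le_or_gt i (b * 2 ^ J) with h3 | h3
    · rw [hw1]
      calc ‖∑ x ∈ U ×ˢ U, Sg (2 ^ R) T (fun t => (g t : ZMod (2 ^ R)))
            (h * ((x.1 * x.2 : ℕ) : ZMod (2 ^ R)))‖ * 2 ^ (i / 4)
          ≤ (∑ x ∈ U ×ˢ U, ‖Sg (2 ^ R) T (fun t => (g t : ZMod (2 ^ R)))
            (h * ((x.1 * x.2 : ℕ) : ZMod (2 ^ R)))‖) * 2 ^ (i / 4) :=
            mul_le_mul_of_nonneg_right (norm_sum_le _ _) (by positivity)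
        _ = ∑ x ∈ U ×ˢ U, ‖Sg (2 ^ R) T (fun t => (g t : ZMod (2 ^ R)))
            (h * ((x.1 * x.2 : ℕ) : ZMod (2 ^ R)))‖ * 2 ^ (i / 4) := Finset.sum_mul _ _ _
        _ ≤ ∑ x ∈ U ×ˢ U, (T.card : ℝ) := Finset.sum_le_sum fun x hx =>
            hn R _ i hi1 h3 (by rw [ord_mul_odd R h _ (hUU x hx), hh])
        _ = (T.card : ℝ) * ((U.card : ℝ) * U.card) := by
            rw [Finset.sum_const, Finset.card_product, nsmul_eq_mul]
            push_cast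
            ring
    · rw [hw2]
      have h4 : b * k < 2 * i := by
        rw [hk, pow_succ]
        calc b * (2 ^ J * 2) = 2 * (b * 2 ^ J) := by ring
          _ < 2 * i := by omega
      calc ‖∑ t ∈ T, Sg (2 ^ R) (U ×ˢ U) (fun x => ((x.1 * x.2 : ℕ) : ZMod (2 ^ R)))
            (h * (g t : ZMod (2 ^ R)))‖ * 2 ^ (i / 4)
          ≤ (∑ t ∈ T, ‖Sg (2 ^ R) (U ×ˢ U) (fun x => ((x.1 * x.2 : ℕ) : ZMod (2 ^ R)))
            (h * (g t : ZMod (2 ^ R)))‖) * 2 ^ (i / 4) :=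
            mul_le_mul_of_nonneg_right (norm_sum_le _ _) (by positivity)
        _ = ∑ t ∈ T, ‖Sg (2 ^ R) (U ×ˢ U) (fun x => ((x.1 * x.2 : ℕ) : ZMod (2 ^ R)))
            (h * (g t : ZMod (2 ^ R)))‖ * 2 ^ (i / 4) := Finset.sum_mul _ _ _
        _ ≤ ∑ t ∈ T, ((U.card : ℝ) * U.card) := Finset.sum_le_sum fun t ht =>
            level b k l R i hk1 hl U hUb hUd _ h4 hi2 (by rw [ord_mul_odd R h _ (hodd t ht), hh])
        _ = (T.card : ℝ) * ((U.card : ℝ) * U.card) := by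
            rw [Finset.sum_const, nsmul_eq_mul]

theorem Lev.all {b l : ℕ} (hl : 8 * l + 8 ≤ b) (J : ℕ) (hJ : 4 * b * 2 ^ J ≤ 2 ^ l) : Lev b J := by
  induction J with
  | zero => exact Lev.zero b (by omega)
  | succ J ih =>
    refine Lev.succ (ih (le_trans (Nat.mul_le_mul_left _ ?_) hJ)) hl hJ
    exact Nat.pow_le_pow_right (by norm_num) (Nat.le_succ J)

/-- ADDITIVE LEMMA: every even class modulo `2 ^ R`, `R ≤ b 2 ^ J`, is the sum of eight products of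
`4 * 2 ^ J - 3` numbers in `[1, 2 ^ b]`. -/
theorem add_eight {b l : ℕ} (hl : 8 * l + 8 ≤ b) (J : ℕ) (hJ : 4 * b * 2 ^ J ≤ 2 ^ l) (R : ℕ)
    (hR : R ≤ b * 2 ^ J) (y : ℕ) (hy : y % 2 = 0) :
    ∃ v : Fin 8 → ℕ, (∀ i, OB (2 ^ b) (4 * 2 ^ J - 3) (v i)) ∧ (∑ i, v i) ≡ y [MOD 2 ^ R] := by
  obtain ⟨τ, T, g, hT, hodd, hOB, hz, hn⟩ := Lev.all hl J hJ
  obtain ⟨t, ht, h1⟩ := eight R b (by omega) T hT g hodd (hz R)
    (fun h i hi1 hi2 hh => hn R h i hi1 (hi2.trans hR) hh) y hy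
  exact ⟨fun j => g (t j), fun j => hOB _ (ht j), h1⟩

end HadNT
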