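import Pool.Agent.Lib_MP_008adc_co.FullB
import Pool.Agent.Lib_MP_008adc_co.EvA

/-!
# Piece PADD3: the algebra behind the sum rule

Write `S = toC sx`, `T = toC sz`, so `S * S = T * T = 1`, `S * T = -(T * S)`, both Hermitian.
-/

set_option autoImplicit false

namespace HadCalc

open Matrix
open scoped Kronecker

theorem padd_SS : toC sx * toC sx = 1 := by
  ext i j
  fin_cases i <;> fin_cases j <;> simp [toC, sx, Matrix.mul_apply, Fin.sum_univ_two]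

theorem padd_TT : toC sz * toC sz = 1 := by
  ext i j
  fin_cases i <;> fin_cases j <;> simp [toC, sz, Matrix.mul_apply, Fin.sum_univ_two]

theorem padd_ST : toC sx * toC sz = -(toC sz * toC sx) := by
  ext i j
  fin_cases i <;> fin_cases j <;> simp [toC, sx, sz, Matrix.mul_apply, Fin.sum_univ_two]

theorem padd_Sh : (toC sx)ᴴ = toC sx := by
  ext i j
  fin_cases i <;> fin_cases j <;> simp [toC, sx, Matrix.conjTranspose_apply]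

theorem padd_Th : (toC sz)ᴴ = toC sz := by
  ext i j
  fin_cases i <;> fin_cases j <;> simp [toC, sz, Matrix.conjTranspose_apply]

theorem padd_neg_kron {α β : Type} (A : Matrix α α ℂ) (B : Matrix β β ℂ) :
    (-A) ⊗ₖ B = -(A ⊗ₖ B) := by
  ext i j
  simp [Matrix.kroneckerMap_apply]

theorem padd_kron_neg {α β : Type} (A : Matrix α α ℂ) (B : Matrix β β ℂ) :
    A ⊗ₖ (-B) = -(A ⊗ₖ B) := by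
  ext i j
  simp [Matrix.kroneckerMap_apply]

/-- The two Kronecker combinations of the sum rule commute.
PROOF. With `X' = A ⊗ 1 ⊗ S ⊗ 1 + 1 ⊗ R ⊗ T ⊗ 1` and `Y' = B ⊗ 1 ⊗ 1 ⊗ S + 1 ⊗ V ⊗ 1 ⊗ T`, each of
the four products of a summand of `X'` with a summand of `Y'` is a Kronecker product in which the
factors commute: `A, B` commute, `R, V` commute, all other pairs of factors contain an identity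
(`Matrix.mul_kronecker_mul`). -/
theorem addpair_comm {ι₀ ι₁ : Type} [Fintype ι₀] [DecidableEq ι₀] [Fintype ι₁] [DecidableEq ι₁]
    (A B : Matrix ι₀ ι₀ ℂ) (R V : Matrix ι₁ ι₁ ℂ) (hAB : A * B = B * A) (hRV : R * V = V * R) :
    (((A ⊗ₖ (1 : Matrix ι₁ ι₁ ℂ)) ⊗ₖ (toC sx ⊗ₖ (1 : Matrix (Fin 2) (Fin 2) ℂ))) +
        (((1 : Matrix ι₀ ι₀ ℂ) ⊗ₖ R) ⊗ₖ (toC sz ⊗ₖ (1 : Matrix (Fin 2) (Fin 2) ℂ)))) *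
      (((B ⊗ₖ (1 : Matrix ι₁ ι₁ ℂ)) ⊗ₖ ((1 : Matrix (Fin 2) (Fin 2) ℂ) ⊗ₖ toC sx)) +
        (((1 : Matrix ι₀ ι₀ ℂ) ⊗ₖ V) ⊗ₖ ((1 : Matrix (Fin 2) (Fin 2) ℂ) ⊗ₖ toC sz))) =
    (((B ⊗ₖ (1 : Matrix ι₁ ι₁ ℂ)) ⊗ₖ ((1 : Matrix (Fin 2) (Fin 2) ℂ) ⊗ₖ toC sx)) +
        (((1 : Matrix ι₀ ι₀ ℂ) ⊗ₖ V) ⊗ₖ ((1 : Matrix (Fin 2) (Fin 2) ℂ) ⊗ₖ toC sz))) *
      (((A ⊗ₖ (1 : Matrix ι₁ ι₁ ℂ)) ⊗ₖ (toC sx ⊗ₖ (1 : Matrix (Fin 2) (Fin 2) ℂ))) +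
        (((1 : Matrix ι₀ ι₀ ℂ) ⊗ₖ R) ⊗ₖ (toC sz ⊗ₖ (1 : Matrix (Fin 2) (Fin 2) ℂ)))) := by
  simp only [add_mul, mul_add, ← mul_kronecker_mul, Matrix.one_mul, Matrix.mul_one, hAB, hRV]
  abel

/-- `M Mᴴ` for `M = A ⊗ 1 ⊗ S ⊗ 1 + 1 ⊗ R ⊗ T ⊗ 1`: the mixed terms are
`A ⊗ Rᴴ ⊗ S T ⊗ 1 + Aᴴ ⊗ R ⊗ T S ⊗ 1 = (A ⊗ Rᴴ - Aᴴ ⊗ R) ⊗ S T ⊗ 1`, which vanishes by `h`. -/
theorem addpair_normX {ι₀ ι₁ : Type} [Fintype ι₀] [DecidableEq ι₀] [Fintype ι₁] [DecidableEq ι₁]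
    (A : Matrix ι₀ ι₀ ℂ) (R : Matrix ι₁ ι₁ ℂ) (h : A ⊗ₖ Rᴴ = Aᴴ ⊗ₖ R) :
    (((A ⊗ₖ (1 : Matrix ι₁ ι₁ ℂ)) ⊗ₖ (toC sx ⊗ₖ (1 : Matrix (Fin 2) (Fin 2) ℂ))) +
        (((1 : Matrix ι₀ ι₀ ℂ) ⊗ₖ R) ⊗ₖ (toC sz ⊗ₖ (1 : Matrix (Fin 2) (Fin 2) ℂ)))) *
      (((A ⊗ₖ (1 : Matrix ι₁ ι₁ ℂ)) ⊗ₖ (toC sx ⊗ₖ (1 : Matrix (Fin 2) (Fin 2) ℂ))) +
        (((1 : Matrix ι₀ ι₀ ℂ) ⊗ₖ R) ⊗ₖ (toC sz ⊗ₖ (1 : Matrix (Fin 2) (Fin 2) ℂ))))ᴴ =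
    (((A * Aᴴ) ⊗ₖ (1 : Matrix ι₁ ι₁ ℂ)) +
        ((1 : Matrix ι₀ ι₀ ℂ) ⊗ₖ (R * Rᴴ))) ⊗ₖ
      (1 : Matrix (Fin 2 × Fin 2) (Fin 2 × Fin 2) ℂ) := by
  simp only [conjTranspose_add, conjTranspose_kronecker, conjTranspose_one, padd_Sh, padd_Th,
    add_mul, mul_add, ← mul_kronecker_mul, Matrix.one_mul, Matrix.mul_one, padd_SS, padd_TT,
    padd_ST, h, padd_neg_kron, padd_kron_neg, add_kronecker, one_kronecker_one]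
  abel

/-- The same with the small matrices in the last tensor factor. -/
theorem addpair_normY {ι₀ ι₁ : Type} [Fintype ι₀] [DecidableEq ι₀] [Fintype ι₁] [DecidableEq ι₁]
    (B : Matrix ι₀ ι₀ ℂ) (V : Matrix ι₁ ι₁ ℂ) (h : B ⊗ₖ Vᴴ = Bᴴ ⊗ₖ V) :
    (((B ⊗ₖ (1 : Matrix ι₁ ι₁ ℂ)) ⊗ₖ ((1 : Matrix (Fin 2) (Fin 2) ℂ) ⊗ₖ toC sx)) +
        (((1 : Matrix ι₀ ι₀ ℂ) ⊗ₖ V) ⊗ₖ ((1 : Matrix (Fin 2) (Fin 2) ℂ) ⊗ₖ toC sz))) *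
      (((B ⊗ₖ (1 : Matrix ι₁ ι₁ ℂ)) ⊗ₖ ((1 : Matrix (Fin 2) (Fin 2) ℂ) ⊗ₖ toC sx)) +
        (((1 : Matrix ι₀ ι₀ ℂ) ⊗ₖ V) ⊗ₖ ((1 : Matrix (Fin 2) (Fin 2) ℂ) ⊗ₖ toC sz)))ᴴ =
    (((B * Bᴴ) ⊗ₖ (1 : Matrix ι₁ ι₁ ℂ)) +
        ((1 : Matrix ι₀ ι₀ ℂ) ⊗ₖ (V * Vᴴ))) ⊗ₖ
      (1 : Matrix (Fin 2 × Fin 2) (Fin 2 × Fin 2) ℂ) := by
  simp only [conjTranspose_add, conjTranspose_kronecker, conjTranspose_one, padd_Sh, padd_Th,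
    add_mul, mul_add, ← mul_kronecker_mul, Matrix.one_mul, Matrix.mul_one, padd_SS, padd_TT,
    padd_ST, h, padd_neg_kron, padd_kron_neg, add_kronecker, one_kronecker_one]
  abel

end HadCalc
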