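import Pool.Agent.Lib_MP_008adc_co.PAdd2
import Pool.Agent.Lib_MP_008adc_co.PAdd3
import Pool.Agent.Lib_MP_008adc_co.PAdd4
import Pool.Agent.Lib_MP_008adc_co.Canon

/-!
# Piece PADD: the sum rule for pairs
-/

set_option autoImplicit false

namespace HadCalc

open Matrix
open scoped Kronecker

/-- A pair of length `2 h` and a structure of length `L` give a pair of length `2 (h + L)`.
PROOF. Take `addX`, `addY` with the classes `addCls Prod.fst Prod.fst` in the group `ZMod (2 ^ f)`.
`fullX, fullY, palX, palY` are `addX_full`, `addY_full`, `addX_pal`, `addY_pal`. For `|z| = 1` insert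
`ev_addX`, `ev_addY`; with `M = ev L Q z`, `M Mᴴ = Mᴴ M = F L` (`Good.norm_comm`), `comm` is
`addpair_comm` with `addpair_RV` and the commutation hypothesis (scalars `z ^ L`), and `norm` is
`addpair_normX + addpair_normY`, whose hypotheses are `addpair_hypX`, `addpair_hypY` with
`pal_adjoint`, `antipal_adjoint`. The sum is
`(A Aᴴ + B Bᴴ) ⊗ 1 ⊗ 1 + 1 ⊗ (R Rᴴ + V Vᴴ) ⊗ 1 = 2 F (2 h) + 4 F L = 2 F (2 (h + L))`
(`A = z ^ L X(z)`, `|z ^ L| = 1`; `addpair_sum`). The dimension is
`2 ^ (f + c) * 2 ^ (f + c') * 4 = 2 ^ (f + (c + (c' + f + 2)))`; conclude with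
`AvP.of_goodPair`. -/
theorem AvP.add {f c c' h L : ℕ} (hP : AvP f c h) (hQ : Av f c' L) :
    AvP f (c + (c' + f + 2)) (h + L) := by
  obtain ⟨X, Y, hXY⟩ := hP
  obtain ⟨Q, hQ⟩ := hQ
  refine AvP.of_goodPair (ι := (Ix f c × Ix f c') × (Fin 2 × Fin 2)) (κ := ZMod (2 ^ f))
    (cls := addCls Prod.fst Prod.fst) (X := addX h L X Q) (Y := addY h L Y Q) ?_ ?_ ?_
  · exact ZMod.card _
  · simp only [Fintype.card_prod, ZMod.card, Fintype.card_fin]
    ring
  · have hev : ∀ z : ℂ, ‖z‖ = 1 → ev L Q z * (ev L Q z)ᴴ = (ev L Q z)ᴴ * ev L Q z := by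
      intro z hz
      rw [hQ.norm z hz, hQ.norm_comm z hz]
    have hM0 : ∀ z : ℂ, L = 0 → ev L Q z = 0 := by
      intro z hL
      subst hL
      simp [ev]
    refine ⟨addX_full hXY.fullX hQ.full, addY_full hXY.fullY hQ.full, addX_pal hXY.palX,
      addY_pal hXY.palY, ?_, ?_⟩
    · intro z hz
      rw [ev_addX h L X Q z hz, ev_addY h L Y Q z hz]
      apply addpair_comm
      · rw [smul_mul_smul_comm, smul_mul_smul_comm, hXY.comm z hz]
      · exact addpair_RV _ _ _ (hev z hz)
    · intro z hz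
      rw [ev_addX h L X Q z hz, ev_addY h L Y Q z hz]
      rw [addpair_normX _ _ (addpair_hypX h L _ _ z hz (pal_adjoint hXY.palX z hz) (hM0 z)),
        addpair_normY _ _ (addpair_hypY h L _ _ z hz (antipal_adjoint hXY.palY z hz) (hM0 z))]
      have hzz : (z ^ L) * star (z ^ L) = 1 := by
        rw [Complex.star_def, Complex.mul_conj, Complex.normSq_eq_norm_sq, norm_pow, hz]
        simp
      have hA : (z ^ L • ev (2 * h) X z) * (z ^ L • ev (2 * h) X z)ᴴ +
          (z ^ L • ev (2 * h) Y z) * (z ^ L • ev (2 * h) Y z)ᴴ =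
          ((2 * 2 ^ f * (2 * h) : ℕ) : ℂ) • (1 : Matrix (Ix f c) (Ix f c) ℂ) := by
        rw [conjTranspose_smul, conjTranspose_smul, smul_mul_smul_comm, smul_mul_smul_comm, hzz,
          one_smul, one_smul, hXY.norm z hz]
      have hR := addpair_sum (ev L Q z) (z ^ (L + 2 * h)) (z ^ (L - 1)) ((2 ^ f * L : ℕ) : ℂ)
        (by rw [norm_pow, hz, one_pow]) (by rw [norm_pow, hz, one_pow]) (hQ.norm z hz)
        (hQ.norm_comm z hz)
      rw [← add_kronecker, add_add_add_comm, ← add_kronecker, ← kronecker_add, hA, hR,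
        smul_kronecker, kronecker_smul, one_kronecker_one, ← add_smul, smul_kronecker,
        one_kronecker_one]
      congr 1
      push_cast
      ring

end HadCalc
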