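import Pool.Agent.Lib_MP_008adc_co.FullA
import Pool.Agent.Lib_MP_008adc_co.FullB

/-!
# Piece PADD1: the polynomials of the sum rule, combinatorial part

Given a pair `(X, Y)` of length `2 h` on `ι₀` and a polynomial `Q` of length `L` on `ι₁`, the new
pair of length `2 (h + L)` lives on `(ι₀ × ι₁) × (Fin 2 × Fin 2)`.
-/

set_option autoImplicit false

namespace HadCalc

open Matrix
open scoped Kronecker

/-- The first polynomial of the sum rule. -/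
def addX {ι₀ ι₁ : Type} [DecidableEq ι₀] [DecidableEq ι₁] (h L : ℕ) (X : ℕ → Matrix ι₀ ι₀ ℤ)
    (Q : ℕ → Matrix ι₁ ι₁ ℤ) (j : ℕ) :
    Matrix ((ι₀ × ι₁) × (Fin 2 × Fin 2)) ((ι₀ × ι₁) × (Fin 2 × Fin 2)) ℤ :=
  if j < L then ((1 : Matrix ι₀ ι₀ ℤ) ⊗ₖ (Q (L - 1 - j))ᵀ) ⊗ₖ (sz ⊗ₖ (1 : Matrix (Fin 2) (Fin 2) ℤ))
  else if j < L + 2 * h then
    (X (j - L) ⊗ₖ (1 : Matrix ι₁ ι₁ ℤ)) ⊗ₖ (sx ⊗ₖ (1 : Matrix (Fin 2) (Fin 2) ℤ))
  else ((1 : Matrix ι₀ ι₀ ℤ) ⊗ₖ Q (j - (L + 2 * h))) ⊗ₖ (sz ⊗ₖ (1 : Matrix (Fin 2) (Fin 2) ℤ))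

/-- The second polynomial of the sum rule. -/
def addY {ι₀ ι₁ : Type} [DecidableEq ι₀] [DecidableEq ι₁] (h L : ℕ) (Y : ℕ → Matrix ι₀ ι₀ ℤ)
    (Q : ℕ → Matrix ι₁ ι₁ ℤ) (j : ℕ) :
    Matrix ((ι₀ × ι₁) × (Fin 2 × Fin 2)) ((ι₀ × ι₁) × (Fin 2 × Fin 2)) ℤ :=
  if j < L then
    -(((1 : Matrix ι₀ ι₀ ℤ) ⊗ₖ (Q (L - 1 - j))ᵀ) ⊗ₖ ((1 : Matrix (Fin 2) (Fin 2) ℤ) ⊗ₖ sz))
  else if j < L + 2 * h then
    (Y (j - L) ⊗ₖ (1 : Matrix ι₁ ι₁ ℤ)) ⊗ₖ ((1 : Matrix (Fin 2) (Fin 2) ℤ) ⊗ₖ sx)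
  else ((1 : Matrix ι₀ ι₀ ℤ) ⊗ₖ Q (j - (L + 2 * h))) ⊗ₖ ((1 : Matrix (Fin 2) (Fin 2) ℤ) ⊗ₖ sz)

/-- The class function of the sum rule. -/
def addCls {ι₀ ι₁ G : Type} [Add G] (cls₀ : ι₀ → G) (cls₁ : ι₁ → G)
    (p : (ι₀ × ι₁) × (Fin 2 × Fin 2)) : G := cls₀ p.1.1 + cls₁ p.1.2

/-- All coefficients are `Full`: `Full.one_kron`, `Full.kron_one`, `Full.transpose`, `Full.neg`,
then `Full.kron_sp` with `full_unit_kron`. -/
theorem addX_full {ι₀ ι₁ G : Type} [DecidableEq ι₀] [DecidableEq ι₁] [AddCommGroup G]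
    {cls₀ : ι₀ → G} {cls₁ : ι₁ → G} {h L : ℕ} {X : ℕ → Matrix ι₀ ι₀ ℤ} {Q : ℕ → Matrix ι₁ ι₁ ℤ}
    (hX : ∀ j < 2 * h, Full cls₀ (X j)) (hQ : ∀ j < L, Full cls₁ (Q j)) :
    ∀ j < 2 * (h + L), Full (addCls cls₀ cls₁) (addX h L X Q j) := by
  intro j hj
  unfold addX
  by_cases h1 : j < L
  · rw [if_pos h1]
    exact Full.kron_sp (Full.one_kron cls₀ (hQ (L - 1 - j) (by omega)).transpose)
      (full_unit_kron full_sz full_one)
  · rw [if_neg h1]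
    by_cases h2 : j < L + 2 * h
    · rw [if_pos h2]
      exact Full.kron_sp (Full.kron_one cls₁ (hX (j - L) (by omega)))
        (full_unit_kron full_sx full_one)
    · rw [if_neg h2]
      exact Full.kron_sp (Full.one_kron cls₀ (hQ (j - (L + 2 * h)) (by omega)))
        (full_unit_kron full_sz full_one)

theorem addY_full {ι₀ ι₁ G : Type} [DecidableEq ι₀] [DecidableEq ι₁] [AddCommGroup G]
    {cls₀ : ι₀ → G} {cls₁ : ι₁ → G} {h L : ℕ} {Y : ℕ → Matrix ι₀ ι₀ ℤ} {Q : ℕ → Matrix ι₁ ι₁ ℤ}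
    (hY : ∀ j < 2 * h, Full cls₀ (Y j)) (hQ : ∀ j < L, Full cls₁ (Q j)) :
    ∀ j < 2 * (h + L), Full (addCls cls₀ cls₁) (addY h L Y Q j) := by
  intro j hj
  unfold addY
  by_cases h1 : j < L
  · rw [if_pos h1]
    exact (Full.kron_sp (Full.one_kron cls₀ (hQ (L - 1 - j) (by omega)).transpose)
      (full_unit_kron full_one full_sz)).neg
  · rw [if_neg h1]
    by_cases h2 : j < L + 2 * h
    · rw [if_pos h2]
      exact Full.kron_sp (Full.kron_one cls₁ (hY (j - L) (by omega)))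
        (full_unit_kron full_one full_sx)
    · rw [if_neg h2]
      exact Full.kron_sp (Full.one_kron cls₀ (hQ (j - (L + 2 * h)) (by omega)))
        (full_unit_kron full_one full_sz)

theorem padd1_tr {α β : Type} (A : Matrix α α ℤ) (B : Matrix β β ℤ) :
    (A ⊗ₖ B)ᵀ = Aᵀ ⊗ₖ Bᵀ := by
  ext i j
  rfl

theorem padd1_neg {α β : Type} (A : Matrix α α ℤ) (B : Matrix β β ℤ) :
    (-A) ⊗ₖ B = -(A ⊗ₖ B) := by
  ext i j
  simp only [Matrix.kroneckerMap_apply, Matrix.neg_apply, neg_mul]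

theorem padd1_sx : sxᵀ = sx := by
  ext i j
  fin_cases i <;> fin_cases j <;> rfl

theorem padd1_sz : szᵀ = sz := by
  ext i j
  fin_cases i <;> fin_cases j <;> rfl

/-- The first polynomial is palindromic. The left part `j = L - 1 - i` corresponds to the right part
`2 (h + L) - 1 - j = L + 2 h + i`; in the middle use the hypothesis for `j - L`. Transposes of
Kronecker products: `Matrix.kronecker_transpose` / `kroneckerMap_transpose`; `sxᵀ = sx`,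
`szᵀ = sz`. -/
theorem addX_pal {ι₀ ι₁ : Type} [DecidableEq ι₀] [DecidableEq ι₁] {h L : ℕ}
    {X : ℕ → Matrix ι₀ ι₀ ℤ} {Q : ℕ → Matrix ι₁ ι₁ ℤ}
    (hX : ∀ j < 2 * h, (X j)ᵀ = X (2 * h - 1 - j)) :
    ∀ j < 2 * (h + L), (addX h L X Q j)ᵀ = addX h L X Q (2 * (h + L) - 1 - j) := by
  intro j hj
  unfold addX
  by_cases h1 : j < L
  · have h2 : ¬ 2 * (h + L) - 1 - j < L := by omega
    have h3 : ¬ 2 * (h + L) - 1 - j < L + 2 * h := by omega
    have h4 : 2 * (h + L) - 1 - j - (L + 2 * h) = L - 1 - j := by omega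
    rw [if_pos h1, if_neg h2, if_neg h3, h4, padd1_tr, padd1_tr, padd1_tr, Matrix.transpose_one,
      Matrix.transpose_one, Matrix.transpose_transpose, padd1_sz]
  · by_cases h2 : j < L + 2 * h
    · have h3 : ¬ 2 * (h + L) - 1 - j < L := by omega
      have h4 : 2 * (h + L) - 1 - j < L + 2 * h := by omega
      have h5 : 2 * h - 1 - (j - L) = 2 * (h + L) - 1 - j - L := by omega
      rw [if_neg h1, if_pos h2, if_neg h3, if_pos h4, padd1_tr, padd1_tr, padd1_tr,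
        Matrix.transpose_one, Matrix.transpose_one, padd1_sx, hX (j - L) (by omega), h5]
    · have h3 : 2 * (h + L) - 1 - j < L := by omega
      have h4 : L - 1 - (2 * (h + L) - 1 - j) = j - (L + 2 * h) := by omega
      rw [if_neg h1, if_neg h2, if_pos h3, h4, padd1_tr, padd1_tr, padd1_tr,
        Matrix.transpose_one, Matrix.transpose_one, padd1_sz]

/-- The second polynomial is antipalindromic. -/
theorem addY_pal {ι₀ ι₁ : Type} [DecidableEq ι₀] [DecidableEq ι₁] {h L : ℕ}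
    {Y : ℕ → Matrix ι₀ ι₀ ℤ} {Q : ℕ → Matrix ι₁ ι₁ ℤ}
    (hY : ∀ j < 2 * h, (Y j)ᵀ = -Y (2 * h - 1 - j)) :
    ∀ j < 2 * (h + L), (addY h L Y Q j)ᵀ = -addY h L Y Q (2 * (h + L) - 1 - j) := by
  intro j hj
  unfold addY
  by_cases h1 : j < L
  · have h2 : ¬ 2 * (h + L) - 1 - j < L := by omega
    have h3 : ¬ 2 * (h + L) - 1 - j < L + 2 * h := by omega
    have h4 : 2 * (h + L) - 1 - j - (L + 2 * h) = L - 1 - j := by omega
    rw [if_pos h1, if_neg h2, if_neg h3, h4, Matrix.transpose_neg, padd1_tr, padd1_tr, padd1_tr,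
      Matrix.transpose_one, Matrix.transpose_one, Matrix.transpose_transpose, padd1_sz]
  · by_cases h2 : j < L + 2 * h
    · have h3 : ¬ 2 * (h + L) - 1 - j < L := by omega
      have h4 : 2 * (h + L) - 1 - j < L + 2 * h := by omega
      have h5 : 2 * h - 1 - (j - L) = 2 * (h + L) - 1 - j - L := by omega
      rw [if_neg h1, if_pos h2, if_neg h3, if_pos h4, padd1_tr, padd1_tr, padd1_tr,
        Matrix.transpose_one, Matrix.transpose_one, padd1_sx, hY (j - L) (by omega), h5,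
        padd1_neg, padd1_neg]
    · have h3 : 2 * (h + L) - 1 - j < L := by omega
      have h4 : L - 1 - (2 * (h + L) - 1 - j) = j - (L + 2 * h) := by omega
      rw [if_neg h1, if_neg h2, if_pos h3, h4, padd1_tr, padd1_tr, padd1_tr,
        Matrix.transpose_one, Matrix.transpose_one, padd1_sz, neg_neg]

end HadCalc
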