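import Pool.Agent.Lib_MP_008adc_co.PAdd1
import Pool.Agent.Lib_MP_008adc_co.EvA

/-!
# Piece PADD2: the values of the polynomials of the sum rule
-/

set_option autoImplicit false

namespace HadCalc

open Matrix
open scoped Kronecker

/-- splitting a polynomial of length `2 (h + L)` in three parts -/
theorem padd2_split {ι : Type} (h L : ℕ) (R : ℕ → Matrix ι ι ℤ) (z : ℂ) :
    ev (2 * (h + L)) R z = ev L R z + z ^ L • (ev (2 * h) (fun j => R (L + j)) z +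
      z ^ (2 * h) • ev L (fun j => R (L + (2 * h + j))) z) := by
  have e1 : 2 * (h + L) = L + (2 * h + L) := by ring
  rw [e1, ev_add_length, ev_add_length (2 * h) L]

/-- For `|z| = 1` (so `conj z = z⁻¹`): split `2 (h + L) = L + 2 h + L` with `ev_add_length`. The left
part is `∑_{j < L} z ^ j Q_{L-1-j}ᵀ = z ^ (L - 1) Q(z)ᴴ` by `ev_reverse`; the middle part is
`z ^ L X(z)`; the right part is `z ^ (L + 2 h) Q(z)`. Use `ev_congr`, `ev_kron_left`,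
`ev_kron_right`. -/
theorem ev_addX {ι₀ ι₁ : Type} [DecidableEq ι₀] [DecidableEq ι₁] (h L : ℕ)
    (X : ℕ → Matrix ι₀ ι₀ ℤ) (Q : ℕ → Matrix ι₁ ι₁ ℤ) (z : ℂ) (hz : ‖z‖ = 1) :
    ev (2 * (h + L)) (addX h L X Q) z =
      ((z ^ L • ev (2 * h) X z) ⊗ₖ (1 : Matrix ι₁ ι₁ ℂ)) ⊗ₖ
          (toC sx ⊗ₖ (1 : Matrix (Fin 2) (Fin 2) ℂ)) +
        ((1 : Matrix ι₀ ι₀ ℂ) ⊗ₖ (z ^ (L + 2 * h) • ev L Q z + z ^ (L - 1) • (ev L Q z)ᴴ)) ⊗ₖ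
          (toC sz ⊗ₖ (1 : Matrix (Fin 2) (Fin 2) ℂ)) := by
  have e1 : ev L (addX h L X Q) z = ((1 : Matrix ι₀ ι₀ ℂ) ⊗ₖ (z ^ (L - 1) • (ev L Q z)ᴴ)) ⊗ₖ
      (toC sz ⊗ₖ (1 : Matrix (Fin 2) (Fin 2) ℂ)) := by
    rw [ev_congr (R := fun j => ((1 : Matrix ι₀ ι₀ ℤ) ⊗ₖ (Q (L - 1 - j))ᵀ) ⊗ₖ
      (sz ⊗ₖ (1 : Matrix (Fin 2) (Fin 2) ℤ))) (fun j hj => by unfold addX; rw [if_pos hj]),
      ev_kron_right, ev_kron_left, ev_reverse L Q z hz, toC_one, toC_kron, toC_one]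
  have e2 : ev (2 * h) (fun j => addX h L X Q (L + j)) z =
      (ev (2 * h) X z ⊗ₖ (1 : Matrix ι₁ ι₁ ℂ)) ⊗ₖ
        (toC sx ⊗ₖ (1 : Matrix (Fin 2) (Fin 2) ℂ)) := by
    rw [ev_congr (R := fun j => (X j ⊗ₖ (1 : Matrix ι₁ ι₁ ℤ)) ⊗ₖ
      (sx ⊗ₖ (1 : Matrix (Fin 2) (Fin 2) ℤ))) (fun j hj => by
        unfold addX
        rw [if_neg (by omega), if_pos (by omega), Nat.add_sub_cancel_left]),
      ev_kron_right, ev_kron_right, toC_one, toC_kron, toC_one]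
  have e3 : ev L (fun j => addX h L X Q (L + (2 * h + j))) z =
      ((1 : Matrix ι₀ ι₀ ℂ) ⊗ₖ ev L Q z) ⊗ₖ
        (toC sz ⊗ₖ (1 : Matrix (Fin 2) (Fin 2) ℂ)) := by
    rw [ev_congr (R := fun j => ((1 : Matrix ι₀ ι₀ ℤ) ⊗ₖ Q j) ⊗ₖ
      (sz ⊗ₖ (1 : Matrix (Fin 2) (Fin 2) ℤ))) (fun j hj => by
        have e4 : L + (2 * h + j) - (L + 2 * h) = j := by omega
        unfold addX
        rw [if_neg (by omega), if_neg (by omega), e4]),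
      ev_kron_right, ev_kron_left, toC_one, toC_kron, toC_one]
  rw [padd2_split, e1, e2, e3]
  ext i j
  simp only [Matrix.add_apply, Matrix.smul_apply, Matrix.kroneckerMap_apply, smul_eq_mul]
  ring

/-- The same for the second polynomial; the left part carries the sign `-1`. -/
theorem ev_addY {ι₀ ι₁ : Type} [DecidableEq ι₀] [DecidableEq ι₁] (h L : ℕ)
    (Y : ℕ → Matrix ι₀ ι₀ ℤ) (Q : ℕ → Matrix ι₁ ι₁ ℤ) (z : ℂ) (hz : ‖z‖ = 1) :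
    ev (2 * (h + L)) (addY h L Y Q) z =
      ((z ^ L • ev (2 * h) Y z) ⊗ₖ (1 : Matrix ι₁ ι₁ ℂ)) ⊗ₖ
          ((1 : Matrix (Fin 2) (Fin 2) ℂ) ⊗ₖ toC sx) +
        ((1 : Matrix ι₀ ι₀ ℂ) ⊗ₖ (z ^ (L + 2 * h) • ev L Q z - z ^ (L - 1) • (ev L Q z)ᴴ)) ⊗ₖ
          ((1 : Matrix (Fin 2) (Fin 2) ℂ) ⊗ₖ toC sz) := by
  have e1 : ev L (addY h L Y Q) z = ((1 : Matrix ι₀ ι₀ ℂ) ⊗ₖ (z ^ (L - 1) • (ev L Q z)ᴴ)) ⊗ₖ
      (-((1 : Matrix (Fin 2) (Fin 2) ℂ) ⊗ₖ toC sz)) := by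
    rw [ev_congr (R := fun j => ((1 : Matrix ι₀ ι₀ ℤ) ⊗ₖ (Q (L - 1 - j))ᵀ) ⊗ₖ
      (-((1 : Matrix (Fin 2) (Fin 2) ℤ) ⊗ₖ sz))) (fun j hj => by
        unfold addY
        rw [if_pos hj]
        ext a b
        simp only [Matrix.neg_apply, Matrix.kroneckerMap_apply]
        ring),
      ev_kron_right, ev_kron_left, ev_reverse L Q z hz, toC_one, toC_neg, toC_kron, toC_one]
  have e2 : ev (2 * h) (fun j => addY h L Y Q (L + j)) z =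
      (ev (2 * h) Y z ⊗ₖ (1 : Matrix ι₁ ι₁ ℂ)) ⊗ₖ
        ((1 : Matrix (Fin 2) (Fin 2) ℂ) ⊗ₖ toC sx) := by
    rw [ev_congr (R := fun j => (Y j ⊗ₖ (1 : Matrix ι₁ ι₁ ℤ)) ⊗ₖ
      ((1 : Matrix (Fin 2) (Fin 2) ℤ) ⊗ₖ sx)) (fun j hj => by
        unfold addY
        rw [if_neg (by omega), if_pos (by omega), Nat.add_sub_cancel_left]),
      ev_kron_right, ev_kron_right, toC_one, toC_kron, toC_one]
  have e3 : ev L (fun j => addY h L Y Q (L + (2 * h + j))) z =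
      ((1 : Matrix ι₀ ι₀ ℂ) ⊗ₖ ev L Q z) ⊗ₖ
        ((1 : Matrix (Fin 2) (Fin 2) ℂ) ⊗ₖ toC sz) := by
    rw [ev_congr (R := fun j => ((1 : Matrix ι₀ ι₀ ℤ) ⊗ₖ Q j) ⊗ₖ
      ((1 : Matrix (Fin 2) (Fin 2) ℤ) ⊗ₖ sz)) (fun j hj => by
        have e4 : L + (2 * h + j) - (L + 2 * h) = j := by omega
        unfold addY
        rw [if_neg (by omega), if_neg (by omega), e4]),
      ev_kron_right, ev_kron_left, toC_one, toC_kron, toC_one]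
  rw [padd2_split, e1, e2, e3]
  ext i j
  simp only [Matrix.add_apply, Matrix.sub_apply, Matrix.neg_apply, Matrix.smul_apply,
    Matrix.kroneckerMap_apply, smul_eq_mul]
  ring

end HadCalc
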