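import Pool.Agent.Lib_MP_008adc_co.Canon
import Pool.Agent.Lib_MP_008adc_co.FullB

/-!
# Piece PADS: the trivial structure and padding
-/

set_option autoImplicit false

namespace HadCalc

open Matrix
open scoped Kronecker

/-- The structure of length 1 with one class and dimension 1: the `1 × 1` matrix with entry 1. -/
theorem Av.base : Av 0 0 1 := by
  refine Av.of_good (κ := Unit) (ι := Unit) (by simp) (by simp) (cls := fun _ => ())
    (Q := fun _ => 1) ⟨fun j _ => full_one, fun z _ => ?_⟩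
  have h1 : ev 1 (fun _ => (1 : Matrix Unit Unit ℤ)) z = 1 := by
    unfold ev
    rw [Finset.sum_range_one, pow_zero, one_smul, toC_one]
  rw [h1, conjTranspose_one, mul_one]
  simp

theorem pads_hh : toC hh * (toC hh)ᴴ = (2 : ℂ) • (1 : Matrix (Fin 2) (Fin 2) ℂ) := by
  have h1 : hh * hhᵀ = !![2, 0; 0, 2] := by decide
  rw [toC_conjTranspose, ← toC_mul, h1]
  ext i j
  fin_cases i <;> fin_cases j <;> simp [toC]

/-- One more doubling of the number of classes: replace `Q_j` by `Q_j ⊗ₖ hh` with the classes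
`(cls i, b)` (`Full.kron` with `full_hh`). The value is `Q(z) ⊗ₖ hh` and
`(Q ⊗ hh) (Q ⊗ hh)ᴴ = Q Qᴴ ⊗ hh hhᵀ = 2 F L`. Use `Av.of_good` with the classes in
`ZMod (2 ^ f) × Fin 2`. -/
theorem Av.padf {f c L : ℕ} (h : Av f c L) : Av (f + 1) c L := by
  obtain ⟨Q, hQ⟩ := h
  refine Av.of_good (κ := ZMod (2 ^ f) × Fin 2) (ι := Ix f c × Fin 2) ?_ ?_
    (cls := fun p => ((Prod.fst : Ix f c → ZMod (2 ^ f)) p.1, (fun b : Fin 2 => b) p.2))
    (Q := fun j => Q j ⊗ₖ hh) ⟨fun j hj => (hQ.full j hj).kron full_hh, fun z hz => ?_⟩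
  · rw [Fintype.card_prod, ZMod.card, Fintype.card_fin, pow_succ]
  · rw [Fintype.card_prod, Fintype.card_prod, ZMod.card, Fintype.card_fin, Fintype.card_fin]
    ring
  · rw [ev_kron_right, conjTranspose_kronecker, ← mul_kronecker_mul, hQ.norm z hz, pads_hh,
      smul_kronecker, kronecker_smul, one_kronecker_one, smul_smul]
    congr 1
    push_cast
    ring

/-- One more doubling of the dimension: replace `Q_j` by `Q_j ⊗ₖ 1` (`Full.kron_sp` with
`full_one`). -/
theorem Av.padc {f c L : ℕ} (h : Av f c L) : Av f (c + 1) L := by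
  obtain ⟨Q, hQ⟩ := h
  refine Av.of_good (κ := ZMod (2 ^ f)) (ι := Ix f c × Fin 2) ?_ ?_
    (cls := fun p => (Prod.fst : Ix f c → ZMod (2 ^ f)) p.1)
    (Q := fun j => Q j ⊗ₖ (1 : Matrix (Fin 2) (Fin 2) ℤ))
    ⟨fun j hj => (hQ.full j hj).kron_sp full_one, fun z hz => ?_⟩
  · rw [ZMod.card]
  · rw [Fintype.card_prod, Fintype.card_prod, ZMod.card, Fintype.card_fin, Fintype.card_fin]
    ring
  · rw [ev_kron_right, conjTranspose_kronecker, ← mul_kronecker_mul, hQ.norm z hz, toC_one,
      conjTranspose_one, mul_one, smul_kronecker, one_kronecker_one]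

/-- Iterate the two paddings. -/
theorem Av.mono {f c f' c' L : ℕ} (h : Av f c L) (hf : f ≤ f') (hc : c ≤ c') : Av f' c' L := by
  have h1 : Av f' c L := by
    induction f', hf using Nat.le_induction with
    | base => exact h
    | succ n _ ih => exact ih.padf
  induction c', hc using Nat.le_induction with
  | base => exact h1
  | succ n _ ih => exact ih.padc

end HadCalc
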