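import Mathlib

/-!
# Piece RBIL (note 2926, B1 and B2): the bilinear sum with a real frequency
-/

set_option autoImplicit false

namespace HadNT

/-- the additive character of the reals modulo one -/
noncomputable def ee (x : ℝ) : ℂ := Complex.exp (2 * Real.pi * x * Complex.I)

theorem ee_add (x y : ℝ) : ee (x + y) = ee x * ee y := by
  unfold ee
  rw [← Complex.exp_add]
  congr 1
  push_cast
  ring

theorem ee_zero : ee 0 = 1 := by
  unfold ee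
  simp

theorem ee_norm (x : ℝ) : ‖ee x‖ = 1 := by
  unfold ee
  have h : (2 * Real.pi * x * Complex.I : ℂ) = ((2 * Real.pi * x : ℝ) : ℂ) * Complex.I := by
    push_cast
    ring
  rw [h, Complex.norm_exp_ofReal_mul_I]

theorem ee_int (n : ℤ) : ee n = 1 := by
  unfold ee
  have h : (2 * Real.pi * ((n : ℝ) : ℂ) * Complex.I : ℂ) = (n : ℂ) * (2 * Real.pi * Complex.I) := by
    push_cast
    ring
  rw [h]
  exact Complex.exp_int_mul_two_pi_mul_I n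

theorem ee_conj (x : ℝ) : (starRingEnd ℂ) (ee x) = ee (-x) := by
  unfold ee
  rw [← Complex.exp_conj]
  congr 1
  simp only [map_mul, Complex.conj_ofReal, Complex.conj_I, map_ofNat]
  push_cast
  ring

theorem ee_nat_mul (x : ℝ) (n : ℕ) : ee (n * x) = ee x ^ n := by
  unfold ee
  rw [← Complex.exp_nat_mul]
  congr 1
  push_cast
  ring

/-- `‖1 - e(x)‖ ≥ 4 |x|` for `|x| ≤ 1/2` -/
theorem ee_sub_one_ge (x : ℝ) (n : ℤ) (hx : |x - n| ≤ 1 / 2) : 4 * |x - n| ≤ ‖ee x - 1‖ := by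
  have h1 : ee x = ee (x - n) := by
    have := ee_add (x - n) n
    rw [ee_int, mul_one, sub_add_cancel] at this
    exact this
  rw [h1]
  set y : ℝ := x - n with hy
  have h2 : ‖ee y - 1‖ = ‖2 * Real.sin (2 * Real.pi * y / 2)‖ := by
    rw [← Complex.norm_exp_I_mul_ofReal_sub_one]
    unfold ee
    congr 3
    push_cast
    ring
  rw [h2]
  have h3 : 2 * Real.pi * y / 2 = Real.pi * y := by ring
  rw [h3, norm_mul, Real.norm_eq_abs, Real.norm_eq_abs, abs_two]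
  have hpi := Real.pi_pos
  have h4 : |Real.pi * y| ≤ Real.pi / 2 := by
    rw [abs_mul, abs_of_pos hpi]
    nlinarith
  have h5 := Real.mul_abs_le_abs_sin h4
  rw [abs_mul, abs_of_pos hpi] at h5
  have h6 : 2 / Real.pi * (Real.pi * |y|) = 2 * |y| := by
    field_simp
  rw [h6] at h5
  linarith

/-- geometric sums -/
theorem geo_bound (x : ℝ) (X : ℕ) (n : ℤ) (hx : |x - n| ≤ 1 / 2) :
    ‖∑ k ∈ Finset.range X, ee (k * x)‖ * (2 * |x - n|) ≤ 1 := by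
  have h1 : (∑ k ∈ Finset.range X, ee (k * x)) * (ee x - 1) = ee x ^ X - 1 := by
    rw [Finset.sum_congr rfl fun k _ => ee_nat_mul x k]
    exact geom_sum_mul (ee x) X
  have h2 : ‖∑ k ∈ Finset.range X, ee (k * x)‖ * ‖ee x - 1‖ ≤ 2 := by
    rw [← norm_mul, h1]
    refine (norm_sub_le _ _).trans ?_
    rw [norm_pow, ee_norm, one_pow, norm_one]
    norm_num
  have h3 := ee_sub_one_ge x n hx
  have h4 : 0 ≤ ‖∑ k ∈ Finset.range X, ee (k * x)‖ := norm_nonneg _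
  nlinarith [mul_le_mul_of_nonneg_left h3 h4]

theorem geo_le (x : ℝ) (X : ℕ) : ‖∑ k ∈ Finset.range X, ee (k * x)‖ ≤ X := by
  refine (norm_sum_le _ _).trans ?_
  rw [Finset.sum_congr rfl fun k _ => ee_norm _]
  simp

/-- The Cauchy step. -/
theorem real_cauchy (γ : ℝ) (X1 X2 : ℕ) (U V : Finset ℕ) (hU : ∀ u ∈ U, u < X1)
    (hV : ∀ v ∈ V, v < X2) :
    ‖∑ u ∈ U, ∑ v ∈ V, ee (γ * u * v)‖ ^ 2 ≤ U.card * (V.card *
      ∑ r ∈ Finset.Ioo (-(X2 : ℤ)) X2, ‖∑ k ∈ Finset.range X1, ee (k * (γ * r))‖) := by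
  -- Cauchy
  have h1 : ‖∑ u ∈ U, ∑ v ∈ V, ee (γ * u * v)‖ ^ 2 ≤
      U.card * ∑ u ∈ U, ‖∑ v ∈ V, ee (γ * u * v)‖ ^ 2 := by
    have h2 : ‖∑ u ∈ U, ∑ v ∈ V, ee (γ * u * v)‖ ≤ ∑ u ∈ U, ‖∑ v ∈ V, ee (γ * u * v)‖ :=
      norm_sum_le _ _
    have h3 := sq_sum_le_card_mul_sum_sq (s := U) (f := fun u => ‖∑ v ∈ V, ee (γ * u * v)‖)
    refine (pow_le_pow_left₀ (norm_nonneg _) h2 2).trans ?_
    exact_mod_cast h3
  refine h1.trans (mul_le_mul_of_nonneg_left ?_ (Nat.cast_nonneg _))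
  -- enlarge `U`
  have h4 : ∑ u ∈ U, ‖∑ v ∈ V, ee (γ * u * v)‖ ^ 2 ≤
      ∑ k ∈ Finset.range X1, ‖∑ v ∈ V, ee (γ * k * v)‖ ^ 2 := by
    refine Finset.sum_le_sum_of_subset_of_nonneg ?_ fun _ _ _ => by positivity
    intro u hu
    exact Finset.mem_range.2 (hU u hu)
  refine h4.trans ?_
  -- open the square
  have h5 : ∀ k : ℕ, ((‖∑ v ∈ V, ee (γ * k * v)‖ ^ 2 : ℝ) : ℂ) =
      ∑ v ∈ V, ∑ w ∈ V, ee (k * (γ * (((v : ℤ) - (w : ℤ) : ℤ) : ℝ))) := by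
    intro k
    have h6 : ((‖∑ v ∈ V, ee (γ * k * v)‖ ^ 2 : ℝ) : ℂ) =
        (∑ v ∈ V, ee (γ * k * v)) * (starRingEnd ℂ) (∑ v ∈ V, ee (γ * k * v)) := by
      rw [Complex.mul_conj, Complex.normSq_eq_norm_sq]
    rw [h6, map_sum, Finset.sum_mul_sum]
    refine Finset.sum_congr rfl fun v _ => Finset.sum_congr rfl fun w _ => ?_
    rw [ee_conj, ← ee_add]
    congr 1
    push_cast
    ring
  have h7 : ((∑ k ∈ Finset.range X1, ‖∑ v ∈ V, ee (γ * k * v)‖ ^ 2 : ℝ) : ℂ) =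
      ∑ v ∈ V, ∑ w ∈ V, ∑ k ∈ Finset.range X1, ee (k * (γ * (((v : ℤ) - (w : ℤ) : ℤ) : ℝ))) := by
    push_cast
    have h8 : ∀ k : ℕ, ((‖∑ v ∈ V, ee (γ * k * v)‖ : ℝ) : ℂ) ^ 2 =
      ∑ v ∈ V, ∑ w ∈ V, ee (k * (γ * (((v : ℤ) - (w : ℤ) : ℤ) : ℝ))) := by
      intro k
      rw [← h5 k]
      push_cast
      ring
    rw [Finset.sum_congr rfl fun k _ => h8 k]
    rw [Finset.sum_comm]
    refine Finset.sum_congr rfl fun v _ => ?_
    rw [Finset.sum_comm]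
    push_cast
    rfl
  set G : ℤ → ℝ := fun r => ‖∑ k ∈ Finset.range X1, ee (k * (γ * (r : ℝ)))‖ with hG
  have hG0 : ∀ r, 0 ≤ G r := fun r => norm_nonneg _
  have h9 : ∑ k ∈ Finset.range X1, ‖∑ v ∈ V, ee (γ * k * v)‖ ^ 2 ≤
      ∑ v ∈ V, ∑ w ∈ V, G ((v : ℤ) - (w : ℤ)) := by
    have h10 : 0 ≤ ∑ k ∈ Finset.range X1, ‖∑ v ∈ V, ee (γ * k * v)‖ ^ 2 :=
      Finset.sum_nonneg fun _ _ => by positivity
    have h11 : ∑ k ∈ Finset.range X1, ‖∑ v ∈ V, ee (γ * k * v)‖ ^ 2 =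
        ‖((∑ k ∈ Finset.range X1, ‖∑ v ∈ V, ee (γ * k * v)‖ ^ 2 : ℝ) : ℂ)‖ := by
      rw [Complex.norm_real, Real.norm_of_nonneg h10]
    rw [h11, h7]
    refine (norm_sum_le _ _).trans (Finset.sum_le_sum fun v _ => ?_)
    exact (norm_sum_le _ _)
  refine h9.trans ?_
  rw [← nsmul_eq_mul]
  refine Finset.sum_le_card_nsmul _ _ _ fun v hv => ?_
  have h12 : ∑ w ∈ V, G ((v : ℤ) - (w : ℤ)) =
      ∑ r ∈ V.image (fun w : ℕ => (v : ℤ) - (w : ℤ)), G r := by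
    rw [Finset.sum_image]
    intro x _ y _ hxy
    have : (v : ℤ) - x = v - y := hxy
    omega
  rw [h12]
  refine Finset.sum_le_sum_of_subset_of_nonneg ?_ fun _ _ _ => hG0 _
  intro r hr
  obtain ⟨w, hw, rfl⟩ := Finset.mem_image.1 hr
  have h13 := hV v hv
  have h14 := hV w hw
  rw [Finset.mem_Ioo]
  constructor
  · omega
  · omega

end HadNT
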