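import Pool.Agent.Lib_MP_008adc_co.RBil

/-!
# Piece RMIN (note 2926, B2): the sum of the minima
-/

set_option autoImplicit false

namespace HadNT

theorem harm_le (n L : ℕ) (hn : n ≤ 2 ^ L) :
    ∑ i ∈ Finset.range n, (1 : ℝ) / ((i : ℝ) + 1) ≤ 1 + L := by
  have h1 := harmonic_le_one_add_log n
  have h2 : ((harmonic n : ℚ) : ℝ) = ∑ i ∈ Finset.range n, (1 : ℝ) / ((i : ℝ) + 1) := by
    unfold harmonic
    push_cast
    exact Finset.sum_congr rfl fun i _ => by rw [one_div]
  rw [← h2]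
  refine h1.trans ?_
  rcases Nat.eq_zero_or_pos n with h0 | h0
  · subst h0
    simp
  have h3 : Real.log n ≤ Real.log ((2 : ℝ) ^ L) :=
    Real.log_le_log (by exact_mod_cast h0) (by exact_mod_cast hn)
  rw [Real.log_pow] at h3
  have h4 : Real.log 2 ≤ 1 := by
    have := Real.log_le_sub_one_of_pos (show (0 : ℝ) < 2 by norm_num)
    linarith
  have h5 : (L : ℝ) * Real.log 2 ≤ L := by
    have h6 : (0 : ℝ) ≤ L := Nat.cast_nonneg _
    nlinarith
  linarith

/-- the number of solutions of a congruence -/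
theorem card_cong (a : ℤ) (q : ℕ) (hq : 0 < q) (hcop : IsCoprime a (q : ℤ)) (X2 : ℕ) (t : ℤ) :
    (((Finset.Ioo (-(X2 : ℤ)) X2).filter (fun r => (a * r) % q = t)).card : ℝ) ≤
      2 * X2 / q + 1 := by
  have hq' : (0 : ℝ) < q := by exact_mod_cast hq
  rcases Finset.eq_empty_or_nonempty
    ((Finset.Ioo (-(X2 : ℤ)) X2).filter (fun r => (a * r) % q = t)) with h | ⟨r0, hr0⟩
  · rw [h]
    simp only [Finset.card_empty, Nat.cast_zero]
    positivity
  rw [Finset.mem_filter, Finset.mem_Ioo] at hr0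
  have h1 : ((Finset.Ioo (-(X2 : ℤ)) X2).filter (fun r => (a * r) % q = t)) ⊆
      (Finset.Ico (-(X2 : ℤ)) X2).filter (fun r => r ≡ r0 [ZMOD (q : ℤ)]) := by
    intro r hr
    rw [Finset.mem_filter, Finset.mem_Ioo] at hr
    rw [Finset.mem_filter, Finset.mem_Ico]
    refine ⟨⟨hr.1.1.le, hr.1.2⟩, ?_⟩
    have h2 : (q : ℤ) ∣ a * (r0 - r) := by
      rw [mul_sub]
      exact Int.ModEq.dvd (show a * r ≡ a * r0 [ZMOD q] by
        unfold Int.ModEq
        rw [hr.2, hr0.2])
    exact (Int.modEq_iff_dvd.2 (hcop.symm.dvd_of_dvd_mul_left h2))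
  have h3 := Finset.card_le_card h1
  have h4 := Int.Ico_filter_modEq_card (-(X2 : ℤ)) (X2 : ℤ) (r := (q : ℤ))
    (by exact_mod_cast hq) r0
  have h5 : (((Finset.Ico (-(X2 : ℤ)) X2).filter (fun r => r ≡ r0 [ZMOD (q : ℤ)])).card : ℝ) ≤
      2 * X2 / q + 1 := by
    have h6 : ((((Finset.Ico (-(X2 : ℤ)) X2).filter (fun r => r ≡ r0 [ZMOD (q : ℤ)])).card : ℤ) : ℚ) ≤
        2 * X2 / q + 1 := by
      rw [h4]
      push_cast
      refine max_le ?_ (by positivity)
      have h7 := Int.ceil_lt_add_one (((X2 : ℚ) - r0) / q)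
      have h8 := Int.le_ceil ((-(X2 : ℚ) - r0) / q)
      have h9 : ((X2 : ℚ) - r0) / q - (-(X2 : ℚ) - r0) / q = 2 * X2 / q := by ring
      linarith
    have h10 : (((2 * X2 / q + 1 : ℚ)) : ℝ) = 2 * X2 / q + 1 := by push_cast; ring
    rw [← h10]
    exact_mod_cast h6
  refine le_trans ?_ h5
  exact_mod_cast h3

/-- lower bound for the distance to an integer -/
theorem dist_low (γ θ : ℝ) (a : ℤ) (q : ℕ) (hq : 0 < q) (hγ : γ = a / q + θ) (X2 : ℕ)
    (hθ : |θ| * q * X2 ≤ 1 / 4) (r : ℤ) (hr : |(r : ℝ)| ≤ X2) (t : ℤ) (ht : (a * r) % q = t)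
    (ht0 : 0 < t) (n : ℤ) :
    3 / 4 * min (t : ℝ) (q - t) / q ≤ |γ * r - n| := by
  have hq' : (0 : ℝ) < q := by exact_mod_cast hq
  have htq : t < q := by
    rw [← ht]
    exact Int.emod_lt_of_pos _ (by exact_mod_cast hq)
  -- the integer `a r - q n`
  have h1 : (min t (q - t) : ℤ) ≤ |a * r - q * n| := by
    have h2 := Int.emod_add_mul_ediv (a * r) q
    rw [ht] at h2
    set m := (a * r) / q with hm
    have h3 : a * r - q * n = t + q * (m - n) := by
      rw [← h2]
      ring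
    rw [h3]
    rcases lt_trichotomy (m - n) 0 with h4 | h4 | h4
    · have h5 : (q : ℤ) * (m - n) ≤ q * (-1) :=
        mul_le_mul_of_nonneg_left (by omega) (by positivity)
      refine (min_le_right _ _).trans ?_
      refine le_trans ?_ (neg_le_abs _)
      linarith
    · rw [h4]
      refine (min_le_left _ _).trans ?_
      refine le_trans ?_ (le_abs_self _)
      simp
    · have h5 : (q : ℤ) * 1 ≤ q * (m - n) :=
        mul_le_mul_of_nonneg_left (by omega) (by positivity)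
      refine (min_le_left _ _).trans ?_
      refine le_trans ?_ (le_abs_self _)
      linarith
  have h6 : min (t : ℝ) (q - t) ≤ |(a : ℝ) * r - q * n| := by exact_mod_cast h1
  have h7 : (1 : ℝ) ≤ min (t : ℝ) (q - t) := by
    refine le_min ?_ ?_
    · exact_mod_cast ht0
    · have : (t : ℝ) + 1 ≤ q := by exact_mod_cast htq
      linarith
  have h8 : γ * r - n = ((a : ℝ) * r - q * n) / q + θ * r := by
    rw [hγ]
    field_simp
    ring
  have h9 : |((a : ℝ) * r - q * n) / q| - |θ * r| ≤ |γ * r - n| := by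
    rw [h8]
    have := abs_sub_abs_le_abs_sub (((a : ℝ) * r - q * n) / q) (-(θ * r))
    rw [abs_neg, sub_neg_eq_add] at this
    exact this
  refine le_trans ?_ h9
  rw [abs_div, abs_of_pos hq', abs_mul]
  have h10 : |θ| * |(r : ℝ)| ≤ (1 / 4) / q := by
    rw [le_div_iff₀ hq']
    calc |θ| * |(r : ℝ)| * q ≤ |θ| * X2 * q := by gcongr
      _ = |θ| * q * X2 := by ring
      _ ≤ 1 / 4 := hθ
  have h11 : 3 / 4 * min (t : ℝ) (q - t) / q ≤ |(a : ℝ) * r - q * n| / q - (1 / 4) / q := by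
    rw [← sub_div]
    exact (div_le_div_iff_of_pos_right hq').2 (by linarith)
  linarith

end HadNT
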