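import Pool.Agent.Lib_MP_008adc_co.RMin

/-!
# Piece RSUM (note 2926, B2): the sum of the minima, conclusion
-/

set_option autoImplicit false

namespace HadNT

theorem sum_union_le' {s t : Finset ℤ} {G : ℤ → ℝ} (h : ∀ r, 0 ≤ G r) :
    ∑ r ∈ s ∪ t, G r ≤ ∑ r ∈ s, G r + ∑ r ∈ t, G r := by
  rw [← Finset.sum_union_inter]
  have : 0 ≤ ∑ r ∈ s ∩ t, G r := Finset.sum_nonneg fun _ _ => h _
  linarith

/-- the part of the frequencies not divisible by `q` -/
theorem min_sum_nd (γ θ : ℝ) (a : ℤ) (q : ℕ) (hq : 0 < q) (hcop : IsCoprime a (q : ℤ))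
    (hγ : γ = a / q + θ) (X1 X2 L : ℕ) (hL : q ≤ 2 ^ L) (hθ : |θ| * q * X2 ≤ 1 / 4) :
    ∑ r ∈ (Finset.Ioo (-(X2 : ℤ)) X2).filter (fun r => ¬ (q : ℤ) ∣ r),
      ‖∑ k ∈ Finset.range X1, ee (k * (γ * r))‖ ≤ 4 / 3 * (L + 1) * (2 * X2 + q) := by
  classical
  have hq' : (0 : ℝ) < q := by exact_mod_cast hq
  set S := (Finset.Ioo (-(X2 : ℤ)) X2).filter (fun r => ¬ (q : ℤ) ∣ r) with hS
  set F : ℤ → ℝ := fun t => 2 * q / 3 * (1 / (t : ℝ) + 1 / ((q : ℝ) - t)) with hF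
  have h1 : ∀ r ∈ S, (a * r) % q ∈ Finset.Ioo (0 : ℤ) q := by
    intro r hr
    rw [hS, Finset.mem_filter] at hr
    rw [Finset.mem_Ioo]
    have h2 := Int.emod_nonneg (a * r) (show (q : ℤ) ≠ 0 by exact_mod_cast hq.ne')
    have h3 := Int.emod_lt_of_pos (a * r) (show (0 : ℤ) < q by exact_mod_cast hq)
    refine ⟨lt_of_le_of_ne h2 ?_, h3⟩
    intro h4
    exact hr.2 (hcop.symm.dvd_of_dvd_mul_left (Int.dvd_of_emod_eq_zero h4.symm))
  have h2 : ∀ r ∈ S, ‖∑ k ∈ Finset.range X1, ee (k * (γ * r))‖ ≤ F ((a * r) % q) := by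
    intro r hr
    have h3 := Finset.mem_Ioo.1 (h1 r hr)
    rw [hS, Finset.mem_filter, Finset.mem_Ioo] at hr
    set t := (a * r) % q with ht
    have h4 : |(r : ℝ)| ≤ X2 := by
      rw [abs_le]
      constructor
      · have := hr.1.1.le
        exact_mod_cast this
      · have := hr.1.2.le
        exact_mod_cast this
    have h5 := dist_low γ θ a q hq hγ X2 hθ r h4 t ht.symm h3.1 (round (γ * r))
    have h6 := geo_bound (γ * r) X1 (round (γ * r)) (abs_sub_round _)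
    set G := ‖∑ k ∈ Finset.range X1, ee (k * (γ * r))‖ with hG
    have hG0 : 0 ≤ G := norm_nonneg _
    have ht1 : (0 : ℝ) < t := by exact_mod_cast h3.1
    have ht2 : (0 : ℝ) < (q : ℝ) - t := by
      have : (t : ℝ) < q := by exact_mod_cast h3.2
      linarith
    have h7 : G * (2 * (3 / 4 * min (t : ℝ) (q - t) / q)) ≤ 1 :=
      (mul_le_mul_of_nonneg_left (mul_le_mul_of_nonneg_left h5 (by norm_num)) hG0).trans h6
    have hmin : 0 < min (t : ℝ) (q - t) := lt_min ht1 ht2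
    have h8 : G ≤ 2 * q / 3 * (1 / min (t : ℝ) (q - t)) := by
      have h9 : G * (2 * (3 / 4 * min (t : ℝ) (q - t) / q)) =
          G * min (t : ℝ) (q - t) / (2 * q / 3) := by
        field_simp
        ring
      rw [h9, div_le_one (by positivity)] at h7
      rw [mul_one_div, le_div_iff₀ hmin]
      exact h7
    refine h8.trans ?_
    show _ ≤ 2 * q / 3 * (1 / (t : ℝ) + 1 / ((q : ℝ) - t))
    refine mul_le_mul_of_nonneg_left ?_ (by positivity)
    rcases min_choice (t : ℝ) (q - t) with h | h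
    · rw [h]
      have : 0 ≤ 1 / ((q : ℝ) - t) := by positivity
      linarith
    · rw [h]
      have : 0 ≤ 1 / (t : ℝ) := by positivity
      linarith
  refine (Finset.sum_le_sum h2).trans ?_
  rw [← Finset.sum_fiberwise_of_maps_to h1]
  have hF0 : ∀ t ∈ Finset.Ioo (0 : ℤ) q, 0 ≤ F t := by
    intro t ht
    have h3 := Finset.mem_Ioo.1 ht
    have ht1 : (0 : ℝ) < t := by exact_mod_cast h3.1
    have ht2 : (0 : ℝ) < (q : ℝ) - t := by
      have : (t : ℝ) < q := by exact_mod_cast h3.2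
      linarith
    show 0 ≤ 2 * q / 3 * (1 / (t : ℝ) + 1 / ((q : ℝ) - t))
    positivity
  have h3 : ∀ t ∈ Finset.Ioo (0 : ℤ) q,
      ∑ r ∈ S.filter (fun r => (a * r) % q = t), F ((a * r) % q) ≤ (2 * X2 / q + 1) * F t := by
    intro t ht
    rw [Finset.sum_congr rfl (g := fun _ => F t) (fun r hr => by
      rw [(Finset.mem_filter.1 hr).2]), Finset.sum_const, nsmul_eq_mul]
    refine mul_le_mul_of_nonneg_right ?_ (hF0 t ht)
    refine le_trans ?_ (card_cong a q hq hcop X2 t)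
    have h4 : S.filter (fun r => (a * r) % q = t) ⊆
        (Finset.Ioo (-(X2 : ℤ)) X2).filter (fun r => (a * r) % q = t) := by
      intro r hr
      rw [Finset.mem_filter] at hr ⊢
      exact ⟨(Finset.mem_filter.1 hr.1).1, hr.2⟩
    exact_mod_cast Finset.card_le_card h4
  refine (Finset.sum_le_sum h3).trans ?_
  rw [← Finset.mul_sum]
  -- the harmonic sum
  have h4 : ∑ t ∈ Finset.Ioo (0 : ℤ) q, F t ≤ 4 * q / 3 * (L + 1) := by
    have h5 : ∑ t ∈ Finset.Ioo (0 : ℤ) q, 1 / (t : ℝ) ≤ 1 + L := by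
      have h6 : ∑ t ∈ Finset.Ioo (0 : ℤ) q, 1 / (t : ℝ) =
          ∑ i ∈ Finset.range (q - 1), (1 : ℝ) / ((i : ℝ) + 1) := by
        symm
        refine Finset.sum_bij (fun i _ => (i : ℤ) + 1) ?_ ?_ ?_ ?_
        · intro i hi
          rw [Finset.mem_range] at hi
          rw [Finset.mem_Ioo]
          constructor
          · omega
          · omega
        · intro i _ j _ hij
          omega
        · intro t ht
          rw [Finset.mem_Ioo] at ht
          refine ⟨(t - 1).toNat, ?_, ?_⟩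
          · rw [Finset.mem_range]
            omega
          · omega
        · intro i _
          push_cast
          rfl
      rw [h6]
      exact harm_le _ _ ((Nat.sub_le _ _).trans hL)
    have h7 : ∑ t ∈ Finset.Ioo (0 : ℤ) q, 1 / ((q : ℝ) - t) = ∑ t ∈ Finset.Ioo (0 : ℤ) q, 1 / (t : ℝ) := by
      refine Finset.sum_bij (fun t _ => (q : ℤ) - t) ?_ ?_ ?_ ?_
      · intro t ht
        rw [Finset.mem_Ioo] at ht ⊢
        constructor
        · omega
        · omega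
      · intro t _ s _ h
        omega
      · intro t ht
        rw [Finset.mem_Ioo] at ht
        exact ⟨(q : ℤ) - t, Finset.mem_Ioo.2 ⟨by omega, by omega⟩, by omega⟩
      · intro t _
        push_cast
        rfl
    show ∑ t ∈ Finset.Ioo (0 : ℤ) q, 2 * (q : ℝ) / 3 * (1 / (t : ℝ) + 1 / ((q : ℝ) - t)) ≤ _
    rw [← Finset.mul_sum, Finset.sum_add_distrib, h7]
    have h8 : (2 * (q : ℝ) / 3) * (∑ t ∈ Finset.Ioo (0 : ℤ) q, 1 / (t : ℝ) +
        ∑ t ∈ Finset.Ioo (0 : ℤ) q, 1 / (t : ℝ)) ≤ (2 * (q : ℝ) / 3) * ((1 + L) + (1 + L)) := by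
      gcongr
    refine h8.trans (le_of_eq ?_)
    ring
  refine (mul_le_mul_of_nonneg_left h4 (by positivity)).trans (le_of_eq ?_)
  field_simp

/-- the part of the frequencies divisible by `q` -/
theorem min_sum_dv (γ θ : ℝ) (a : ℤ) (q : ℕ) (hq : 0 < q)
    (hγ : γ = a / q + θ) (X1 X2 L : ℕ) (hL2 : X2 ≤ 2 ^ L) (hθ : |θ| * q * X2 ≤ 1 / 4) :
    ∑ r ∈ (Finset.Ioo (-(X2 : ℤ)) X2).filter (fun r => (q : ℤ) ∣ r),
      ‖∑ k ∈ Finset.range X1, ee (k * (γ * r))‖ ≤
      X1 + 3 * (L + 1) * (X1 * X2 / (q * (1 + |θ| * X1 * X2))) := by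
  classical
  have hq' : (0 : ℝ) < q := by exact_mod_cast hq
  set G : ℤ → ℝ := fun r => ‖∑ k ∈ Finset.range X1, ee (k * (γ * (r : ℝ)))‖ with hG
  have hG0 : ∀ r, 0 ≤ G r := fun r => norm_nonneg _
  have hGX : ∀ r, G r ≤ X1 := fun r => geo_le _ _
  set J := X2 / q with hJ
  have hJX : (J : ℝ) ≤ X2 / q := Nat.cast_div_le
  set H : ℝ := 1 + |θ| * X1 * X2 with hH
  have hH1 : 1 ≤ H := by
    have : 0 ≤ |θ| * X1 * X2 := by positivity
    rw [hH]
    linarith
  have hH0 : 0 < H := by linarith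
  -- one term
  have h1 : ∀ j : ℤ, j ≠ 0 → |j| ≤ J → G (q * j) * H ≤ X1 + X1 * X2 / (2 * q * |(j : ℝ)|) := by
    intro j hj0 hjJ
    have hj1 : (0 : ℝ) < |(j : ℝ)| := by
      rw [abs_pos]
      exact_mod_cast hj0
    have hjX : |(j : ℝ)| * q ≤ X2 := by
      have h2 : |(j : ℝ)| ≤ J := by exact_mod_cast hjJ
      have h3 : |(j : ℝ)| ≤ X2 / q := h2.trans hJX
      rwa [le_div_iff₀ hq'] at h3
    have h2 : γ * ((q * j : ℤ) : ℝ) - ((a * j : ℤ) : ℝ) = θ * q * j := by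
      rw [hγ]
      push_cast
      field_simp
      ring
    have h3 : |γ * ((q * j : ℤ) : ℝ) - ((a * j : ℤ) : ℝ)| = |θ| * q * |(j : ℝ)| := by
      rw [h2, abs_mul, abs_mul, Nat.abs_cast]
    have hX2q : |θ| * X2 ≤ 1 / 4 := by
      have h4 : (1 : ℝ) ≤ q := by exact_mod_cast hq
      have h5 : 0 ≤ |θ| * X2 := by positivity
      nlinarith
    have h4 : |γ * ((q * j : ℤ) : ℝ) - ((a * j : ℤ) : ℝ)| ≤ 1 / 2 := by
      rw [h3]
      have h5 : |θ| * q * |(j : ℝ)| ≤ |θ| * X2 := by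
        have := mul_le_mul_of_nonneg_left hjX (abs_nonneg θ)
        calc |θ| * q * |(j : ℝ)| = |θ| * (|(j : ℝ)| * q) := by ring
          _ ≤ _ := this
      linarith
    have h5 := geo_bound _ X1 _ h4
    rw [h3] at h5
    have h6 : G (q * j) * (2 * (|θ| * q * |(j : ℝ)|)) ≤ 1 := h5
    have h7 : G (q * j) * (|θ| * X1 * X2) ≤ X1 * X2 / (2 * q * |(j : ℝ)|) := by
      rw [le_div_iff₀ (by positivity)]
      have h8 : (0 : ℝ) ≤ X1 * X2 := by positivity
      calc G (q * j) * (|θ| * X1 * X2) * (2 * q * |(j : ℝ)|) =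
          (G (q * j) * (2 * (|θ| * q * |(j : ℝ)|))) * (X1 * X2) := by ring
        _ ≤ 1 * (X1 * X2) := mul_le_mul_of_nonneg_right h6 h8
        _ = X1 * X2 := one_mul _
    rw [hH, mul_add, mul_one]
    exact add_le_add (hGX _) h7
  have hsum : ∑ j ∈ Finset.range J, (X1 + (X1 : ℝ) * X2 / (2 * q * ((j : ℝ) + 1))) ≤
      3 / 2 * (L + 1) * (X1 * X2 / q) := by
    rw [Finset.sum_add_distrib, Finset.sum_const, Finset.card_range, nsmul_eq_mul]
    have h2 : ∑ j ∈ Finset.range J, (X1 : ℝ) * X2 / (2 * q * ((j : ℝ) + 1)) =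
        X1 * X2 / (2 * q) * ∑ j ∈ Finset.range J, (1 : ℝ) / ((j : ℝ) + 1) := by
      rw [Finset.mul_sum]
      refine Finset.sum_congr rfl fun j _ => ?_
      rw [div_mul_div_comm, mul_one]
    rw [h2]
    have h3 := harm_le J L ((Nat.div_le_self _ _).trans hL2)
    have h4 : (J : ℝ) * X1 ≤ X1 * X2 / q := by
      calc (J : ℝ) * X1 ≤ X2 / q * X1 := by gcongr
        _ = X1 * X2 / q := by ring
    have h5 : (X1 : ℝ) * X2 / (2 * q) * ∑ j ∈ Finset.range J, (1 : ℝ) / ((j : ℝ) + 1) ≤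
        X1 * X2 / (2 * q) * (1 + L) := by gcongr
    have h6 : (X1 : ℝ) * X2 / (2 * q) * (1 + L) = 1 / 2 * (L + 1) * (X1 * X2 / q) := by
      field_simp
      ring
    have h7 : (0 : ℝ) ≤ X1 * X2 / q := by positivity
    have h8 : (0 : ℝ) ≤ L := Nat.cast_nonneg _
    nlinarith [mul_nonneg h8 h7]
  -- the positive and the negative part
  have hpos : ∀ s : ℤ, (s = 1 ∨ s = -1) →
      (∑ j ∈ Finset.range J, G (q * (s * ((j : ℤ) + 1)))) ≤
      3 / 2 * (L + 1) * (X1 * X2 / (q * H)) := by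
    intro s hs
    have h2 : (∑ j ∈ Finset.range J, G (q * (s * ((j : ℤ) + 1)))) * H ≤
        3 / 2 * (L + 1) * (X1 * X2 / q) := by
      rw [Finset.sum_mul]
      refine le_trans (Finset.sum_le_sum fun j hj => ?_) hsum
      rw [Finset.mem_range] at hj
      have h3 : |s * ((j : ℤ) + 1)| = (j : ℤ) + 1 := by
        rcases hs with h | h
        · rw [h, one_mul, abs_of_nonneg (by positivity)]
        · rw [h, abs_mul, abs_neg, abs_one, one_mul, abs_of_nonneg (by positivity)]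
      have h4 := h1 (s * ((j : ℤ) + 1)) (by
        intro h0
        rw [h0, abs_zero] at h3
        omega) (by
        rw [h3]
        omega)
      have h5 : |((s * ((j : ℤ) + 1) : ℤ) : ℝ)| = (j : ℝ) + 1 := by
        have : ((|s * ((j : ℤ) + 1)| : ℤ) : ℝ) = (j : ℝ) + 1 := by
          rw [h3]
          push_cast
          rfl
        rw [← this, Int.cast_abs]
      rw [h5] at h4
      exact h4
    have h3 : (∑ j ∈ Finset.range J, G (q * (s * ((j : ℤ) + 1)))) ≤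
        3 / 2 * (L + 1) * (X1 * X2 / q) / H := by
      rw [le_div_iff₀ hH0]
      exact h2
    refine h3.trans (le_of_eq ?_)
    field_simp
  -- the cover
  have hcov : (Finset.Ioo (-(X2 : ℤ)) X2).filter (fun r => (q : ℤ) ∣ r) ⊆
      {0} ∪ ((Finset.range J).image (fun j : ℕ => (q : ℤ) * (1 * ((j : ℤ) + 1))) ∪
        (Finset.range J).image (fun j : ℕ => (q : ℤ) * (-1 * ((j : ℤ) + 1)))) := by
    intro r hr
    rw [Finset.mem_filter, Finset.mem_Ioo] at hr
    obtain ⟨⟨h2, h3⟩, m, rfl⟩ := hr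
    have hqz : (0 : ℤ) < q := by exact_mod_cast hq
    rcases lt_trichotomy m 0 with hm | hm | hm
    · refine Finset.mem_union_right _ (Finset.mem_union_right _ ?_)
      rw [Finset.mem_image]
      obtain ⟨j, hj⟩ : ∃ j : ℕ, m = -((j : ℤ) + 1) := ⟨(-m - 1).toNat, by omega⟩
      refine ⟨j, ?_, by rw [hj]; ring⟩
      rw [Finset.mem_range, hJ, Nat.lt_iff_add_one_le, Nat.le_div_iff_mul_le hq]
      have h4 : (q : ℤ) * ((j : ℤ) + 1) < X2 := by
        rw [hj] at h2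
        linarith
      have h5 : ((j + 1) * q : ℕ) ≤ X2 := by
        have : (((j + 1) * q : ℕ) : ℤ) < X2 := by
          push_cast
          linarith
        omega
      exact h5
    · refine Finset.mem_union_left _ ?_
      rw [hm, mul_zero]
      exact Finset.mem_singleton_self _
    · refine Finset.mem_union_right _ (Finset.mem_union_left _ ?_)
      rw [Finset.mem_image]
      obtain ⟨j, hj⟩ : ∃ j : ℕ, m = (j : ℤ) + 1 := ⟨(m - 1).toNat, by omega⟩
      refine ⟨j, ?_, by rw [hj]; ring⟩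
      rw [Finset.mem_range, hJ, Nat.lt_iff_add_one_le, Nat.le_div_iff_mul_le hq]
      have h4 : (q : ℤ) * ((j : ℤ) + 1) < X2 := by
        rw [hj] at h3
        linarith
      have h5 : ((j + 1) * q : ℕ) ≤ X2 := by
        have : (((j + 1) * q : ℕ) : ℤ) < X2 := by
          push_cast
          linarith
        omega
      exact h5
  have h2 : ∑ r ∈ (Finset.Ioo (-(X2 : ℤ)) X2).filter (fun r => (q : ℤ) ∣ r), G r ≤
      G 0 + (∑ j ∈ Finset.range J, G (q * (1 * ((j : ℤ) + 1))) +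
        ∑ j ∈ Finset.range J, G (q * (-1 * ((j : ℤ) + 1)))) := by
    refine (Finset.sum_le_sum_of_subset_of_nonneg hcov fun _ _ _ => hG0 _).trans ?_
    refine (sum_union_le' hG0).trans ?_
    rw [Finset.sum_singleton]
    refine add_le_add le_rfl ((sum_union_le' hG0).trans (add_le_add (le_of_eq ?_) (le_of_eq ?_)))
    · refine Finset.sum_image fun i _ j _ hij => ?_
      have h3 : (q : ℤ) * (1 * ((i : ℤ) + 1)) = q * (1 * ((j : ℤ) + 1)) := hij
      have h4 : (q : ℤ) ≠ 0 := by exact_mod_cast hq.ne'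
      have h5 := mul_left_cancel₀ h4 h3
      omega
    · refine Finset.sum_image fun i _ j _ hij => ?_
      have h3 : (q : ℤ) * (-1 * ((i : ℤ) + 1)) = q * (-1 * ((j : ℤ) + 1)) := hij
      have h4 : (q : ℤ) ≠ 0 := by exact_mod_cast hq.ne'
      have h5 := mul_left_cancel₀ h4 h3
      omega
  refine h2.trans ?_
  have h3 := hpos 1 (Or.inl rfl)
  have h4 := hpos (-1) (Or.inr rfl)
  have h5 := hGX 0
  have h6 : 3 * ((L : ℝ) + 1) * (X1 * X2 / (q * H)) =
      3 / 2 * (L + 1) * (X1 * X2 / (q * H)) + 3 / 2 * (L + 1) * (X1 * X2 / (q * H)) := by ring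
  rw [h6]
  linarith

/-- The sum of the minima. -/
theorem min_sum (γ θ : ℝ) (a : ℤ) (q : ℕ) (hq : 0 < q) (hcop : IsCoprime a (q : ℤ))
    (hγ : γ = a / q + θ) (X1 X2 L : ℕ) (hL : q ≤ 2 ^ L) (hL2 : X2 ≤ 2 ^ L)
    (hθ : |θ| * q * X2 ≤ 1 / 4) :
    ∑ r ∈ Finset.Ioo (-(X2 : ℤ)) X2, ‖∑ k ∈ Finset.range X1, ee (k * (γ * r))‖ ≤
      X1 + 3 * (L + 1) * (X2 + q + X1 * X2 / (q * (1 + |θ| * X1 * X2))) := by
  classical
  rw [← Finset.sum_filter_add_sum_filter_not (Finset.Ioo (-(X2 : ℤ)) X2) (fun r => (q : ℤ) ∣ r)]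
  have h1 := min_sum_nd γ θ a q hq hcop hγ X1 X2 L hL hθ
  have h2 := min_sum_dv γ θ a q hq hγ X1 X2 L hL2 hθ
  have h3 : (0 : ℝ) ≤ (L + 1) * X2 := by positivity
  have h4 : (0 : ℝ) ≤ (L + 1) * q := by positivity
  nlinarith

/-- The bilinear sum with a real frequency. -/
theorem real_bil (γ θ : ℝ) (a : ℤ) (q : ℕ) (hq : 0 < q) (hcop : IsCoprime a (q : ℤ))
    (hγ : γ = a / q + θ) (X1 X2 L : ℕ) (hL : q ≤ 2 ^ L) (hL2 : X2 ≤ 2 ^ L)
    (hθ : |θ| * q * X2 ≤ 1 / 4) (U V : Finset ℕ) (hU : ∀ u ∈ U, u < X1) (hV : ∀ v ∈ V, v < X2) :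
    ‖∑ u ∈ U, ∑ v ∈ V, ee (γ * u * v)‖ ^ 2 ≤ U.card * (V.card *
      (X1 + 3 * (L + 1) * (X2 + q + X1 * X2 / (q * (1 + |θ| * X1 * X2))))) := by
  refine (real_cauchy γ X1 X2 U V hU hV).trans ?_
  gcongr
  exact min_sum γ θ a q hq hcop hγ X1 X2 L hL hL2 hθ

end HadNT
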