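import Pool.Agent.Lib_MP_008adc_co.FullA
import Pool.Agent.Lib_MP_008adc_co.EvA

/-!
# Piece REIDX: reindexing of structures and pairs
-/

set_option autoImplicit false

namespace HadCalc

open Matrix

theorem reidx_mul {ι ι' : Type} [Fintype ι] [Fintype ι'] (e : ι ≃ ι') (A B : Matrix ι ι ℂ) :
    A.submatrix e.symm e.symm * B.submatrix e.symm e.symm =
      (A * B).submatrix e.symm e.symm := Matrix.submatrix_mul_equiv A B e.symm e.symm e.symm

theorem reidx_smul_one {ι ι' : Type} [DecidableEq ι] [DecidableEq ι'] (e : ι ≃ ι') (c : ℂ) :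
    (c • (1 : Matrix ι ι ℂ)).submatrix e.symm e.symm = c • (1 : Matrix ι' ι' ℂ) := by
  rw [Matrix.submatrix_smul]
  change c • (1 : Matrix ι ι ℂ).submatrix e.symm e.symm = _
  rw [Matrix.submatrix_one_equiv]

/-- Reindexing of structures: `full` from `Full.reindex`, `norm` from `ev_submatrix`
(`Matrix.submatrix_mul_equiv`, `conjTranspose_submatrix`, `submatrix_one_equiv`). -/
theorem Good.reindex {ι ι' κ κ' : Type} [Fintype ι] [DecidableEq ι] [Fintype ι'] [DecidableEq ι']
    {cls : ι → κ} {cls' : ι' → κ'} (e : ι ≃ ι') (g : κ ≃ κ') (hc : ∀ i, cls' (e i) = g (cls i))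
    {F L : ℕ} {Q : ℕ → Matrix ι ι ℤ} (h : Good cls F L Q) :
    Good cls' F L (fun j => (Q j).submatrix e.symm e.symm) := by
  refine ⟨fun j hj => (h.full j hj).reindex e g hc, fun z hz => ?_⟩
  rw [ev_submatrix, Matrix.conjTranspose_submatrix, reidx_mul, h.norm z hz, reidx_smul_one]

/-- Reindexing of pairs. -/
theorem GoodPair.reindex {ι ι' κ κ' : Type} [Fintype ι] [DecidableEq ι] [Fintype ι']
    [DecidableEq ι'] {cls : ι → κ} {cls' : ι' → κ'} (e : ι ≃ ι') (g : κ ≃ κ')
    (hc : ∀ i, cls' (e i) = g (cls i)) {F h : ℕ} {X Y : ℕ → Matrix ι ι ℤ}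
    (hXY : GoodPair cls F h X Y) :
    GoodPair cls' F h (fun j => (X j).submatrix e.symm e.symm)
      (fun j => (Y j).submatrix e.symm e.symm) := by
  refine ⟨fun j hj => (hXY.fullX j hj).reindex e g hc, fun j hj => (hXY.fullY j hj).reindex e g hc,
    fun j hj => ?_, fun j hj => ?_, fun z hz => ?_, fun z hz => ?_⟩
  · rw [Matrix.transpose_submatrix, hXY.palX j hj]
  · rw [Matrix.transpose_submatrix, hXY.palY j hj]
    rfl
  · rw [ev_submatrix, ev_submatrix, reidx_mul, reidx_mul, hXY.comm z hz]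
  · rw [ev_submatrix, ev_submatrix, Matrix.conjTranspose_submatrix,
      Matrix.conjTranspose_submatrix, reidx_mul, reidx_mul, ← reidx_smul_one e, ← hXY.norm z hz]
    rfl

end HadCalc
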